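import Mathlib
import Pool.Agent.Helper40.CK.Defs

/-!
# Reductive subgroups of products of linear groups of real rank one: definitions

`AdmitsCocompact H`, `IsCocompactDiscontinuousGroup Γ H` are defined in
`Pool/Agent/Helper40/CK/Defs.lean`.
-/

namespace Pool.Agent.Helper20.CKP

open Matrix Module

/-- The exponential of a real matrix, as an element of `GL(n, ℝ)`. -/
noncomputable def expGL {n : ℕ} (X : Matrix (Fin n) (Fin n) ℝ) : GL (Fin n) ℝ :=
  (Matrix.isUnit_exp X).unit

/-- `G` is a closed subgroup of `GL(n, ℝ)`, stable under transposition, which contains all real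
powers of its positive definite elements (so `G = (G ∩ O(n)) exp (pSpace G)`, the Cartan
decomposition). Every real reductive linear group is conjugate to such a group. -/
structure IsReductive {n : ℕ} (G : Subgroup (GL (Fin n) ℝ)) : Prop where
  closed : IsClosed (G : Set (GL (Fin n) ℝ))
  transpose : ∀ g ∈ G, ∃ g' ∈ G,
    (g' : Matrix (Fin n) (Fin n) ℝ) = (g : Matrix (Fin n) (Fin n) ℝ)ᵀ
  power : ∀ X : Matrix (Fin n) (Fin n) ℝ, Xᵀ = X → expGL X ∈ G → ∀ t : ℝ, expGL (t • X) ∈ G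

/-- The space `p` of the Cartan decomposition of `G`: the symmetric matrices `X` with `exp X` in
`G`. -/
noncomputable def pSpace {n : ℕ} (G : Subgroup (GL (Fin n) ℝ)) :
    Submodule ℝ (Matrix (Fin n) (Fin n) ℝ) :=
  Submodule.span ℝ {X | Xᵀ = X ∧ expGL X ∈ G}

/-- The real rank of `G` is at most one and `pSpace G` is not a line: two commuting elements of
`pSpace G` are linearly dependent, and the dimension of `pSpace G` is not `1`. -/
def IsRankOne {n : ℕ} (G : Subgroup (GL (Fin n) ℝ)) : Prop :=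
  (∀ X ∈ pSpace G, ∀ Y ∈ pSpace G, X * Y = Y * X → ¬ LinearIndependent ℝ ![X, Y]) ∧
    finrank ℝ (pSpace G) ≠ 1

section Product
variable {r : ℕ} {n : Fin r → ℕ} {G : ∀ i, Subgroup (GL (Fin (n i)) ℝ)}

/-- The same conditions for a subgroup `H` of the product of the groups `G i`: `H` is closed,
stable under transposition and contains all real powers of its positive definite elements. -/
structure IsReductiveIn (H : Subgroup (∀ i, G i)) : Prop where
  closed : IsClosed (H : Set (∀ i, G i))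
  transpose : ∀ h ∈ H, ∃ h' ∈ H, ∀ i, (((h' i : GL (Fin (n i)) ℝ)) : Matrix (Fin (n i)) (Fin (n i)) ℝ) =
    (((h i : GL (Fin (n i)) ℝ)) : Matrix (Fin (n i)) (Fin (n i)) ℝ)ᵀ
  power : ∀ X : ∀ i, Matrix (Fin (n i)) (Fin (n i)) ℝ, (∀ i, (X i)ᵀ = X i) →
    (∃ h ∈ H, ∀ i, (h i : GL (Fin (n i)) ℝ) = expGL (X i)) →
    ∀ t : ℝ, ∃ h ∈ H, ∀ i, (h i : GL (Fin (n i)) ℝ) = expGL (t • X i)

/-- The space `p` of the Cartan decomposition of `H`: the families of symmetric matrices `X i`
such that the family of the `exp (X i)` is in `H`. -/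
noncomputable def pSub (H : Subgroup (∀ i, G i)) :
    Submodule ℝ (∀ i, Matrix (Fin (n i)) (Fin (n i)) ℝ) :=
  Submodule.span ℝ {X | (∀ i, (X i)ᵀ = X i) ∧ ∃ h ∈ H, ∀ i, (h i : GL (Fin (n i)) ℝ) = expGL (X i)}

/-- The projection of `pSub H` to the sum of the spaces `pSpace (G i)`, `i` in `B`, is bijective. -/
def ProjBij (H : Subgroup (∀ i, G i)) (B : Finset (Fin r)) : Prop :=
  ∀ Y : ∀ i, Matrix (Fin (n i)) (Fin (n i)) ℝ, (∀ i ∈ B, Y i ∈ pSpace (G i)) →
    ∃! X : ∀ i, Matrix (Fin (n i)) (Fin (n i)) ℝ, X ∈ pSub H ∧ ∀ i ∈ B, X i = Y i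

/-- The product `L` of the `G i` with `i` not in `B`, a subgroup of the product of all `G i`. -/
def cofactor (G : ∀ i, Subgroup (GL (Fin (n i)) ℝ)) (B : Finset (Fin r)) :
    Subgroup (∀ i, G i) where
  carrier := {g | ∀ i ∈ B, g i = 1}
  mul_mem' := fun {a b} ha hb i hi => by
    rw [Pi.mul_apply, ha i hi, hb i hi, mul_one]
  one_mem' := fun i _ => rfl
  inv_mem' := fun {a} ha i hi => by
    rw [Pi.inv_apply, ha i hi, inv_one]

/-- The subgroup `L` acts properly on `S ⧸ H`, and `L \ (S ⧸ H)` is compact. -/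
structure ActsProperlyCocompactly {S : Type} [Group S] [TopologicalSpace S] (L H : Subgroup S) :
    Prop where
  proper : ∀ C : Set S, IsCompact C → ∃ D : Set S, IsCompact D ∧
    ∀ l ∈ L, ∀ c ∈ C, ∀ c' ∈ C, ∀ h ∈ H, l * c = c' * h → l ∈ D
  cocompact : ∃ C : Set S, IsCompact C ∧ ∀ g : S, ∃ l ∈ L, ∃ c ∈ C, ∃ h ∈ H, g = l * c * h

/-- `Γ` is a torsion-free discrete subgroup of `L` with compact quotient. -/
structure IsTorsionFreeLattice {S : Type} [Group S] [TopologicalSpace S] (Γ L : Subgroup S) :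
    Prop where
  le : Γ ≤ L
  discrete : DiscreteTopology Γ
  torsionFree : ∀ γ ∈ Γ, IsOfFinOrder γ → γ = 1
  cocompact : ∃ C : Set S, IsCompact C ∧ ∀ l ∈ L, ∃ γ ∈ Γ, ∃ c ∈ C, l = γ * c

end Product

end Pool.Agent.Helper20.CKP
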