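import Pool.Agent.Helper20.CKP.Defs

/-!
# CKP: the converse direction (standard quotients)
-/

namespace Pool.Agent.Helper20.CKP

open Matrix Module Pool.Agent.Helper40.CK

/-- Compact sets of the quotient are covered by images of compact sets. -/
private lemma conv_lift {S : Type} [Group S] [TopologicalSpace S] [IsTopologicalGroup S]
    [LocallyCompactSpace S] {H : Subgroup S} {K : Set (S ⧸ H)} (hK : IsCompact K) :
    ∃ C : Set S, IsCompact C ∧ K ⊆ (fun g : S => (g : S ⧸ H)) '' C := by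
  choose C hC hCx using fun x : S => exists_compact_mem_nhds x
  have hcov : K ⊆ ⋃ x : S, (fun g : S => (g : S ⧸ H)) '' interior (C x) := by
    intro y _
    obtain ⟨x, rfl⟩ := QuotientGroup.mk_surjective y
    exact Set.mem_iUnion.mpr ⟨x, x, mem_interior_iff_mem_nhds.mpr (hCx x), rfl⟩
  obtain ⟨t, ht⟩ := hK.elim_finite_subcover _
    (fun x => QuotientGroup.isOpenMap_coe _ isOpen_interior) hcov
  refine ⟨⋃ x ∈ t, C x, t.isCompact_biUnion fun x _ => hC x, fun y hy => ?_⟩
  have h1 := ht hy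
  simp only [Set.mem_iUnion] at h1
  obtain ⟨x, hx, z, hz, hzy⟩ := h1
  exact ⟨z, Set.mem_biUnion hx (interior_subset hz), hzy⟩

/-- A torsion-free cocompact discrete subgroup of a subgroup `L` acting properly and cocompactly on
`S ⧸ H` is a cocompact discontinuous group for `S ⧸ H`.
Proof. Proper: for `K` compact in `S ⧸ H` take `C` compact with image containing `K`; if `γ x ∈ K`,
`x ∈ K` then `γ * c = c' * h`, so `γ ∈ D`; `Γ` is discrete, hence closed, and meets the compact set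
`D` in a finite set. Free: `γ x H = x H` gives `γ * x = x * h`, the same for all powers of `γ`, so
all powers of `γ` are in the finite set `Γ ∩ D` with `C = {x}`: `γ` has finite order. Cocompact
(`compact_iff`): `g = l * c * h`, `l = γ * c'`, so `γ⁻¹ g H` is in the image of `C' * C`. -/
theorem isCocompact_of_lattice {S : Type} [Group S] [TopologicalSpace S] [IsTopologicalGroup S]
    [LocallyCompactSpace S] [T2Space S] {L H Γ : Subgroup S} (hL : ActsProperlyCocompactly L H)
    (hΓ : IsTorsionFreeLattice Γ L) : IsCocompactDiscontinuousGroup Γ H := by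
  have hdisc := hΓ.discrete
  have hfin : ∀ D : Set S, IsCompact D → {γ : S | γ ∈ Γ ∧ γ ∈ D}.Finite := by
    intro D hD
    have hcl : IsClosed (Γ : Set S) := Subgroup.isClosed_of_discrete
    have h1 : IsCompact ((Subtype.val : Γ → S) ⁻¹' D) :=
      hcl.isClosedEmbedding_subtypeVal.isCompact_preimage hD
    have h2 : ((Subtype.val : Γ → S) ⁻¹' D).Finite := h1.finite_of_discrete
    refine (h2.image Subtype.val).subset ?_
    rintro γ ⟨hγ, hγD⟩
    exact ⟨⟨γ, hγ⟩, hγD, rfl⟩
  refine ⟨⟨hdisc, ?_, ?_⟩, ?_⟩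
  · intro γ hγ x hx
    obtain ⟨g, rfl⟩ := QuotientGroup.mk_surjective x
    have h1 : g⁻¹ * (γ * g) ∈ H := by
      have h2 : ((γ * g : S) : S ⧸ H) = ((g : S) : S ⧸ H) := hx
      exact QuotientGroup.eq.mp h2.symm
    apply hΓ.torsionFree γ hγ
    by_contra hno
    rw [← injective_pow_iff_not_isOfFinOrder] at hno
    obtain ⟨D, hD, hD1⟩ := hL.proper {g} isCompact_singleton
    have h3 : Set.range (fun k : ℕ => γ ^ k) ⊆ {γ : S | γ ∈ Γ ∧ γ ∈ D} := by
      rintro _ ⟨k, rfl⟩
      refine ⟨Γ.pow_mem hγ k, ?_⟩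
      have h4 : γ ^ k * g = g * (g⁻¹ * (γ * g)) ^ k := by
        have : g⁻¹ * (γ * g) = g⁻¹ * γ * (g⁻¹)⁻¹ := by rw [inv_inv, mul_assoc]
        rw [this, conj_pow]
        group
      exact hD1 _ (hΓ.le (Γ.pow_mem hγ k)) g rfl g rfl _ (H.pow_mem h1 k) h4
    exact (Set.infinite_range_of_injective hno) ((hfin D hD).subset h3)
  · intro K hK
    obtain ⟨C, hC, hKC⟩ := conv_lift hK
    obtain ⟨D, hD, hD1⟩ := hL.proper C hC
    refine (hfin D hD).subset ?_
    rintro γ ⟨hγ, x, hx, hy⟩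
    obtain ⟨c, hc, rfl⟩ := hKC hx
    obtain ⟨c', hc', hcc⟩ := hKC hy
    refine ⟨hγ, ?_⟩
    have h2 : ((c' : S) : S ⧸ H) = ((γ * c : S) : S ⧸ H) := hcc
    have h1 : c'⁻¹ * (γ * c) ∈ H := QuotientGroup.eq.mp h2
    exact hD1 γ (hΓ.le hγ) c hc c' hc' _ h1 (by group)
  · rw [compact_iff]
    obtain ⟨C, hC, hC1⟩ := hL.cocompact
    obtain ⟨C', hC', hC1'⟩ := hΓ.cocompact
    refine ⟨(fun p : S × S => ((p.1 * p.2 : S) : S ⧸ H)) '' (C' ×ˢ C),
      (hC'.prod hC).image (QuotientGroup.continuous_mk.comp (continuous_fst.mul continuous_snd)),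
      fun x => ?_⟩
    obtain ⟨g, rfl⟩ := QuotientGroup.mk_surjective x
    obtain ⟨l, hl, c, hc, h, hh, hg⟩ := hC1 g
    obtain ⟨γ, hγ, c', hc', hl'⟩ := hC1' l hl
    refine ⟨γ⁻¹, Γ.inv_mem hγ, (c', c), ⟨hc', hc⟩, ?_⟩
    show ((c' * c : S) : S ⧸ H) = ((γ⁻¹ * g : S) : S ⧸ H)
    rw [QuotientGroup.eq]
    have : (c' * c)⁻¹ * (γ⁻¹ * g) = h := by
      rw [hg, hl']
      group
    rwa [this]

section Mat
variable {m : ℕ}

private lemma conv_exp_ge (d : ℝ) : d ^ 2 ≤ 2 * (Real.exp d + Real.exp (-d)) := by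
  rcases le_total 0 d with h | h
  · have h1 := Real.quadratic_le_exp_of_nonneg h
    have h2 := Real.add_one_le_exp (-d)
    nlinarith
  · have h1 := Real.quadratic_le_exp_of_nonneg (neg_nonneg.mpr h)
    have h2 := Real.add_one_le_exp d
    nlinarith

/-- The entries of a symmetric `X` are bounded in terms of the traces of `exp X`, `exp (-X)`. -/
private lemma conv_trace {X : Matrix (Fin m) (Fin m) ℝ} (hX : Xᵀ = X) :
    ∑ a, ∑ b, X a b ^ 2 ≤ 2 * ((NormedSpace.exp X).trace + (NormedSpace.exp (-X)).trace) := by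
  have hH : X.IsHermitian := by
    rw [Matrix.IsHermitian, Matrix.conjTranspose_eq_transpose_of_trivial, hX]
  obtain ⟨P, d, hP, hXP⟩ : ∃ (P : Matrix (Fin m) (Fin m) ℝ) (d : Fin m → ℝ), IsUnit P ∧
      X = P * diagonal d * P⁻¹ := by
    refine ⟨(hH.eigenvectorUnitary : Matrix (Fin m) (Fin m) ℝ), hH.eigenvalues, ?_, ?_⟩
    · exact (Unitary.toUnits hH.eigenvectorUnitary).isUnit
    · have h1 := hH.spectral_theorem
      rw [Unitary.conjStarAlgAut_apply] at h1
      have h2 : ((hH.eigenvectorUnitary : Matrix (Fin m) (Fin m) ℝ))⁻¹ =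
          (star hH.eigenvectorUnitary : Matrix (Fin m) (Fin m) ℝ) :=
        Matrix.inv_eq_left_inv (Unitary.star_mul_self_of_mem hH.eigenvectorUnitary.2)
      rw [h2]
      exact h1
  have hPd : IsUnit P.det := (Matrix.isUnit_iff_isUnit_det P).mp hP
  have htr : ∀ e : Fin m → ℝ, (P * diagonal e * P⁻¹).trace = ∑ i, e i := by
    intro e
    rw [Matrix.trace_mul_comm, ← Matrix.mul_assoc, Matrix.nonsing_inv_mul _ hPd, Matrix.one_mul,
      Matrix.trace_diagonal]
  have h1 : (NormedSpace.exp X).trace = ∑ i, Real.exp (d i) := by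
    rw [hXP, Matrix.exp_conj _ _ hP, Matrix.exp_diagonal, htr]
    refine Finset.sum_congr rfl fun i _ => ?_
    rw [Pi.coe_exp, Real.exp_eq_exp_ℝ]
  have h2 : (NormedSpace.exp (-X)).trace = ∑ i, Real.exp (-d i) := by
    have : -X = P * diagonal (-d) * P⁻¹ := by
      have h9 : diagonal (-d) = -diagonal d := by
        rw [Matrix.diagonal_neg]
        rfl
      rw [h9, Matrix.mul_neg, Matrix.neg_mul, ← hXP]
    rw [this, Matrix.exp_conj _ _ hP, Matrix.exp_diagonal, htr]
    refine Finset.sum_congr rfl fun i _ => ?_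
    rw [Pi.coe_exp, Real.exp_eq_exp_ℝ]
    rfl
  have h3 : ∑ a, ∑ b, X a b ^ 2 = ∑ i, d i ^ 2 := by
    have e1 : ∑ a, ∑ b, X a b ^ 2 = (X * X).trace := by
      unfold Matrix.trace
      refine Finset.sum_congr rfl fun a _ => ?_
      rw [Matrix.diag_apply, Matrix.mul_apply]
      refine Finset.sum_congr rfl fun b _ => ?_
      have : X b a = X a b := by
        conv_lhs => rw [← hX]
        rfl
      rw [this, sq]
    have e2 : X * X = P * diagonal (fun i => d i * d i) * P⁻¹ := by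
      rw [← Matrix.diagonal_mul_diagonal]
      calc X * X = (P * diagonal d * P⁻¹) * (P * diagonal d * P⁻¹) := by rw [← hXP]
        _ = P * diagonal d * (P⁻¹ * P) * diagonal d * P⁻¹ := by
            simp only [Matrix.mul_assoc]
        _ = P * (diagonal d * diagonal d) * P⁻¹ := by
            rw [Matrix.nonsing_inv_mul _ hPd, Matrix.mul_one]
            simp only [Matrix.mul_assoc]
    rw [e1, e2, htr]
    exact Finset.sum_congr rfl fun i _ => (sq (d i)).symm
  rw [h1, h2, h3, ← Finset.sum_add_distrib, Finset.mul_sum]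
  exact Finset.sum_le_sum fun i _ => conv_exp_ge (d i)

private lemma conv_exp_cont : Continuous (fun X : Matrix (Fin m) (Fin m) ℝ => NormedSpace.exp X) :=
  open scoped Norms.Operator in NormedSpace.exp_continuous

private lemma conv_expGL (X : Matrix (Fin m) (Fin m) ℝ) :
    ((expGL X : GL (Fin m) ℝ) : Matrix (Fin m) (Fin m) ℝ) = NormedSpace.exp X := rfl

private lemma conv_expGL_inv (X : Matrix (Fin m) (Fin m) ℝ) :
    (((expGL X)⁻¹ : GL (Fin m) ℝ) : Matrix (Fin m) (Fin m) ℝ) = NormedSpace.exp (-X) := by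
  rw [Matrix.coe_units_inv, conv_expGL, Matrix.exp_neg]

private lemma conv_box (m : ℕ) (c : ℝ) :
    IsCompact {A : Matrix (Fin m) (Fin m) ℝ | ∀ a b, |A a b| ≤ c} := by
  have h := isCompact_univ_pi (fun _ : Fin m => isCompact_univ_pi
    (fun _ : Fin m => (isCompact_Icc : IsCompact (Set.Icc (-c) c))))
  have h2 : {A : Matrix (Fin m) (Fin m) ℝ | ∀ a b, |A a b| ≤ c} =
      Set.pi Set.univ (fun _ : Fin m => Set.pi Set.univ (fun _ : Fin m => Set.Icc (-c) c)) := by
    ext A
    constructor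
    · intro hA a _ b _
      exact abs_le.mp (hA a b)
    · intro hA a b
      exact abs_le.mpr (hA a (Set.mem_univ a) b (Set.mem_univ b))
  rw [h2]
  exact h

private lemma conv_compact_gl (m : ℕ) (c : ℝ) :
    IsCompact {g : GL (Fin m) ℝ | ∀ a b, |(g : Matrix (Fin m) (Fin m) ℝ) a b| ≤ c ∧
      |((g⁻¹ : GL (Fin m) ℝ) : Matrix (Fin m) (Fin m) ℝ) a b| ≤ c} := by
  have h1 := (conv_box m c).prod ((conv_box m c).image MulOpposite.continuous_op)
  have h2 := Units.isClosedEmbedding_embedProduct.isCompact_preimage h1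
  convert h2 using 1
  ext g
  constructor
  · intro hg
    exact ⟨fun a b => (hg a b).1, _, fun a b => (hg a b).2, rfl⟩
  · rintro ⟨h3, A, hA, hAg⟩ a b
    refine ⟨h3 a b, ?_⟩
    have : A = ((g⁻¹ : GL (Fin m) ℝ) : Matrix (Fin m) (Fin m) ℝ) := MulOpposite.op_injective hAg
    rw [← this]
    exact hA a b

private lemma conv_orth {k : GL (Fin m) ℝ}
    (hk : (k : Matrix (Fin m) (Fin m) ℝ) * (k : Matrix (Fin m) (Fin m) ℝ)ᵀ = 1) (a b : Fin m) :
    |(k : Matrix (Fin m) (Fin m) ℝ) a b| ≤ 1 ∧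
      |((k⁻¹ : GL (Fin m) ℝ) : Matrix (Fin m) (Fin m) ℝ) a b| ≤ 1 := by
  have h1 : ∀ a b, |(k : Matrix (Fin m) (Fin m) ℝ) a b| ≤ 1 := by
    intro a b
    have h2 := congrFun (congrFun hk a) a
    rw [Matrix.mul_apply, Matrix.one_apply_eq] at h2
    rw [← sq_le_one_iff_abs_le_one]
    rw [← h2]
    have h3 : (k : Matrix (Fin m) (Fin m) ℝ) a b ^ 2 =
        (k : Matrix (Fin m) (Fin m) ℝ) a b * (k : Matrix (Fin m) (Fin m) ℝ)ᵀ b a := by
      rw [Matrix.transpose_apply, sq]
    rw [h3]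
    refine Finset.single_le_sum (f := fun j => (k : Matrix (Fin m) (Fin m) ℝ) a j *
      (k : Matrix (Fin m) (Fin m) ℝ)ᵀ j a) (fun j _ => ?_) (Finset.mem_univ b)
    rw [Matrix.transpose_apply]
    exact mul_self_nonneg _
  have h4 : ((k⁻¹ : GL (Fin m) ℝ) : Matrix (Fin m) (Fin m) ℝ) =
      (k : Matrix (Fin m) (Fin m) ℝ)ᵀ := by
    rw [Matrix.coe_units_inv]
    exact Matrix.inv_eq_right_inv hk
  refine ⟨h1 a b, ?_⟩
  rw [h4, Matrix.transpose_apply]
  exact h1 b a

end Mat

section Product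
variable {r : ℕ} {n : Fin r → ℕ} {G : ∀ i, Subgroup (GL (Fin (n i)) ℝ)}

/-- Proof. Take `Γ` = the families `γ` with `γ i` in the given lattice of `G i` for `i ∉ B` and
`γ i = 1` for `i ∈ B`; `C` = the product of the compact sets (and `{1}` for `i ∈ B`). -/
theorem exists_lattice_cofactor
    (hlat : ∀ i, ∃ Γ : Subgroup (G i), IsTorsionFreeLattice Γ ⊤) (B : Finset (Fin r)) :
    ∃ Γ : Subgroup (∀ i, G i), IsTorsionFreeLattice Γ (cofactor G B) := by
  classical
  choose Γ hΓ using hlat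
  choose C hC hC1 using fun i => (hΓ i).cocompact
  let Δ : ∀ i, Subgroup (G i) := fun i => if i ∈ B then ⊥ else Γ i
  have hΔB : ∀ i ∈ B, Δ i = ⊥ := fun i hi => if_pos hi
  have hΔn : ∀ i, i ∉ B → Δ i = Γ i := fun i hi => if_neg hi
  have hdisc : ∀ i, DiscreteTopology (Δ i) := by
    intro i
    by_cases hi : i ∈ B
    · rw [hΔB i hi]
      infer_instance
    · rw [hΔn i hi]
      exact (hΓ i).discrete
  refine ⟨Subgroup.pi Set.univ Δ, ⟨?_, ?_, ?_, ?_⟩⟩
  · intro g hg i hi
    have := (Subgroup.mem_pi _).mp hg i (Set.mem_univ i)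
    rw [hΔB i hi] at this
    exact Subgroup.mem_bot.mp this
  · let f : Subgroup.pi Set.univ Δ → ∀ i, Δ i := fun g i =>
      ⟨(g : ∀ i, G i) i, (Subgroup.mem_pi _).mp g.2 i (Set.mem_univ i)⟩
    have hf : Continuous f := by
      refine continuous_pi fun i => Continuous.subtype_mk ?_ _
      exact (continuous_apply i).comp continuous_subtype_val
    refine DiscreteTopology.of_continuous_injective hf ?_
    intro a b hab
    apply Subtype.ext
    funext i
    have := congrFun hab i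
    exact congrArg Subtype.val this
  · intro g hg hfo
    funext i
    have h1 : IsOfFinOrder (g i) := by
      have := (Pi.evalMonoidHom (fun i => G i) i).isOfFinOrder hfo
      exact this
    have h2 := (Subgroup.mem_pi _).mp hg i (Set.mem_univ i)
    by_cases hi : i ∈ B
    · rw [hΔB i hi] at h2
      exact Subgroup.mem_bot.mp h2
    · rw [hΔn i hi] at h2
      exact (hΓ i).torsionFree _ h2 h1
  · refine ⟨Set.pi Set.univ fun i => if i ∈ B then {1} else C i, ?_, ?_⟩
    · refine isCompact_univ_pi fun i => ?_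
      split_ifs
      · exact isCompact_singleton
      · exact hC i
    · intro l hl
      choose γ hγ c hc hlc using fun i => hC1 i (l i) (Subgroup.mem_top _)
      refine ⟨fun i => if i ∈ B then 1 else γ i, ?_, fun i => if i ∈ B then 1 else c i, ?_, ?_⟩
      · rw [Subgroup.mem_pi]
        intro i _
        by_cases hi : i ∈ B
        · simp only [if_pos hi]
          exact Subgroup.one_mem _
        · simp only [if_neg hi]
          rw [hΔn i hi]
          exact hγ i
      · intro i _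
        by_cases hi : i ∈ B
        · simp only [if_pos hi]
          exact rfl
        · simp only [if_neg hi]
          exact hc i
      · funext i
        by_cases hi : i ∈ B
        · have := hl i hi
          simp only [Pi.mul_apply, if_pos hi, mul_one, this]
        · simp only [Pi.mul_apply, if_neg hi]
          exact hlc i

private lemma conv_compact_prod (hclosed : ∀ i, IsClosed (G i : Set (GL (Fin (n i)) ℝ))) (c : ℝ) :
    IsCompact {g : ∀ i, G i | ∀ i, ∀ a b,
      |((g i : GL (Fin (n i)) ℝ) : Matrix (Fin (n i)) (Fin (n i)) ℝ) a b| ≤ c ∧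
      |(((g i : GL (Fin (n i)) ℝ)⁻¹ : GL (Fin (n i)) ℝ) : Matrix (Fin (n i)) (Fin (n i)) ℝ) a b|
        ≤ c} := by
  have h := isCompact_univ_pi (fun i => (hclosed i).isClosedEmbedding_subtypeVal.isCompact_preimage
    (conv_compact_gl (n i) c))
  refine h.of_isClosed_subset ?_ ?_
  · have h2 : {g : ∀ i, G i | ∀ i, ∀ a b,
      |((g i : GL (Fin (n i)) ℝ) : Matrix (Fin (n i)) (Fin (n i)) ℝ) a b| ≤ c ∧
      |(((g i : GL (Fin (n i)) ℝ)⁻¹ : GL (Fin (n i)) ℝ) : Matrix (Fin (n i)) (Fin (n i)) ℝ) a b|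
        ≤ c} = Set.pi Set.univ (fun i => (Subtype.val : G i → GL (Fin (n i)) ℝ) ⁻¹'
        {g : GL (Fin (n i)) ℝ | ∀ a b, |(g : Matrix (Fin (n i)) (Fin (n i)) ℝ) a b| ≤ c ∧
          |((g⁻¹ : GL (Fin (n i)) ℝ) : Matrix (Fin (n i)) (Fin (n i)) ℝ) a b| ≤ c}) := by
      apply Set.Subset.antisymm
      · intro g hg i _
        exact hg i
      · intro g hg i
        exact hg i (Set.mem_univ i)
    rw [h2]
    exact h.isClosed
  · intro g hg i _
    exact hg i

/-- If the projection of `pSub H` to the sum of the `pSpace (G i)`, `i ∈ B`, is bijective, then the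
product of the other factors acts properly and cocompactly.
The hypotheses `hp`, `hpG`, `hmem` are supplied by the Cartan decompositions.
Proof. Proper: `l * c = c' * h`, so `h i = (c' i)⁻¹ * c i` for `i ∈ B` is bounded; `h = exp(X) k`,
`X ∈ pSub H`, `k` orthogonal; `X i`, `i ∈ B`, is bounded (`2 X i` is the logarithm of
`h i * (h i)ᵀ`: the set of the symmetric `X` with `|exp X|, |exp (-X)| ≤ c` is bounded, because the
eigenvalues are), so `X` is bounded (the projection is a linear bijection of finite dimensional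
spaces, its inverse is continuous), so `h` and `l = c' * h * c⁻¹` are in a compact set. Cocompact:
given `g`, write `(g i)⁻¹ = exp(-Y i) * k i`, `Y i ∈ pSpace (G i)`, for `i ∈ B`, so
`g i = (k i)⁻¹ * exp (Y i)`; take `X ∈ pSub H` with `X i = Y i` for `i ∈ B` and `h = exp X ∈ H`:
then `g * h⁻¹` has components `(k i)⁻¹`, `i ∈ B`, so `g = l * c * h` with `c i = (k i)⁻¹` for
`i ∈ B`, `c i = 1` for `i ∉ B`. -/
theorem acts_of_projBij {H : Subgroup (∀ i, G i)} {B : Finset (Fin r)} (hB : ProjBij H B)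
    (hclosed : ∀ i, IsClosed (G i : Set (GL (Fin (n i)) ℝ)))
    (hpG : ∀ i, ∀ g ∈ G i, ∃ X ∈ pSpace (G i), Xᵀ = X ∧ ∃ k ∈ G i,
      (k : Matrix (Fin (n i)) (Fin (n i)) ℝ) * (k : Matrix (Fin (n i)) (Fin (n i)) ℝ)ᵀ = 1 ∧
        g = expGL X * k)
    (hpH : ∀ h ∈ H, ∃ X ∈ pSub H, (∀ i, (X i)ᵀ = X i) ∧ ∃ k ∈ H,
      (∀ i, ((k i : GL (Fin (n i)) ℝ) : Matrix (Fin (n i)) (Fin (n i)) ℝ) *
        ((k i : GL (Fin (n i)) ℝ) : Matrix (Fin (n i)) (Fin (n i)) ℝ)ᵀ = 1) ∧
        ∀ i, (h i : GL (Fin (n i)) ℝ) = expGL (X i) * k i)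
    (hmem : ∀ X ∈ pSub H, (∀ i, (X i)ᵀ = X i) ∧ ∃ h ∈ H, ∀ i, (h i : GL (Fin (n i)) ℝ) = expGL (X i)) :
    ActsProperlyCocompactly (cofactor G B) H := by
  classical
  constructor
  · intro C hC
    -- the components in `B` of the symmetric part are bounded
    have hbd : ∀ i : Fin r, ∃ c : ℝ, ∀ l ∈ cofactor G B, ∀ x ∈ C, ∀ x' ∈ C, ∀ h ∈ H,
        l * x = x' * h → i ∈ B → ∀ X : Matrix (Fin (n i)) (Fin (n i)) ℝ, Xᵀ = X →
        ∀ k : GL (Fin (n i)) ℝ, (k : Matrix (Fin (n i)) (Fin (n i)) ℝ) *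
          (k : Matrix (Fin (n i)) (Fin (n i)) ℝ)ᵀ = 1 →
        (h i : GL (Fin (n i)) ℝ) = expGL X * k → ∀ a b, |X a b| ≤ c := by
      intro i
      have hcomp : IsCompact ((fun p : ((∀ i, G i) × (∀ i, G i)) × GL (Fin (n i)) ℝ =>
          (((p.1.1 i)⁻¹ * p.1.2 i : G i) : GL (Fin (n i)) ℝ) * p.2⁻¹) ''
          ((C ×ˢ C) ×ˢ {g : GL (Fin (n i)) ℝ | ∀ a b, |(g : Matrix (Fin (n i)) (Fin (n i)) ℝ) a b| ≤ 1 ∧
      |((g⁻¹ : GL (Fin (n i)) ℝ) : Matrix (Fin (n i)) (Fin (n i)) ℝ) a b| ≤ 1})) := by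
        refine ((hC.prod hC).prod (conv_compact_gl (n i) 1)).image ?_
        refine Continuous.mul (continuous_subtype_val.comp ?_) continuous_snd.inv
        exact ((continuous_apply i).comp (continuous_fst.comp continuous_fst)).inv.mul
          ((continuous_apply i).comp (continuous_snd.comp continuous_fst))
      have hfc : Continuous (fun u : GL (Fin (n i)) ℝ =>
          (u : Matrix (Fin (n i)) (Fin (n i)) ℝ).trace +
            ((u⁻¹ : GL (Fin (n i)) ℝ) : Matrix (Fin (n i)) (Fin (n i)) ℝ).trace) :=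
        (Continuous.matrix_trace Units.continuous_val).add
          (Continuous.matrix_trace (Units.continuous_val.comp continuous_inv))
      obtain ⟨M, hM⟩ := hcomp.bddAbove_image hfc.continuousOn
      refine ⟨1 + 2 * M, ?_⟩
      intro l hl x hx x' hx' h hh hlx hi X hX k hk hhk a b
      have e1 : h i = (x' i)⁻¹ * x i := by
        have e2 := congrFun hlx i
        rw [Pi.mul_apply, Pi.mul_apply, hl i hi, one_mul] at e2
        rw [e2]
        group
      have e3 : expGL X = (((x' i)⁻¹ * x i : G i) : GL (Fin (n i)) ℝ) * k⁻¹ := by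
        rw [← e1, hhk]
        group
      have e4 : (expGL X : Matrix (Fin (n i)) (Fin (n i)) ℝ).trace +
            (((expGL X)⁻¹ : GL (Fin (n i)) ℝ) : Matrix (Fin (n i)) (Fin (n i)) ℝ).trace ≤ M := by
        refine hM ⟨expGL X, ⟨((x', x), k), ⟨⟨hx', hx⟩, fun a b => conv_orth hk a b⟩, e3.symm⟩, rfl⟩
      rw [conv_expGL, conv_expGL_inv] at e4
      have e5 := conv_trace hX
      have e6 : X a b ^ 2 ≤ ∑ a, ∑ b, X a b ^ 2 :=
        (Finset.single_le_sum (f := fun b => X a b ^ 2) (fun b _ => sq_nonneg _)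
          (Finset.mem_univ b)).trans
          (Finset.single_le_sum (f := fun a => ∑ b, X a b ^ 2)
            (fun a _ => Finset.sum_nonneg fun b _ => sq_nonneg _) (Finset.mem_univ a))
      rw [abs_le]
      constructor <;> nlinarith
    choose c hc using hbd
    -- the projection is a closed embedding
    let φ : pSub H →ₗ[ℝ] (∀ i : B, Matrix (Fin (n i)) (Fin (n i)) ℝ) :=
      { toFun := fun X i => X.1 i
        map_add' := fun X Y => rfl
        map_smul' := fun t X => rfl }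
    have hφ : LinearMap.ker φ = ⊥ := by
      rw [LinearMap.ker_eq_bot']
      intro X hX
      obtain ⟨Z, hZ, hZu⟩ := hB 0 (fun i _ => Submodule.zero_mem _)
      have h1 : X.1 = Z := hZu _ ⟨X.2, fun i hi => congrFun hX ⟨i, hi⟩⟩
      have h2 : (0 : ∀ i, Matrix (Fin (n i)) (Fin (n i)) ℝ) = Z :=
        hZu _ ⟨Submodule.zero_mem _, fun i hi => rfl⟩
      exact Subtype.ext (h1.trans h2.symm)
    have hemb := LinearMap.isClosedEmbedding_of_injective hφ
    have hW : IsCompact (φ ⁻¹' (Set.pi Set.univ fun i : B =>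
        {A : Matrix (Fin (n i)) (Fin (n i)) ℝ | ∀ a b, |A a b| ≤ c i})) :=
      hemb.isCompact_preimage (isCompact_univ_pi fun i => conv_box (n i) (c i))
    have hFc : Continuous (fun X : pSub H => ∑ i, ∑ a, ∑ b,
        (|NormedSpace.exp (X.1 i) a b| + |NormedSpace.exp (-(X.1 i)) a b|)) := by
      refine continuous_finsetSum _ fun i _ => continuous_finsetSum _ fun a _ =>
        continuous_finsetSum _ fun b _ => ?_
      have h1 : Continuous (fun X : pSub H => X.1 i) := (continuous_apply i).comp continuous_subtype_val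
      refine Continuous.add ?_ ?_
      · exact ((conv_exp_cont.comp h1).matrix_elem a b).abs
      · exact ((conv_exp_cont.comp h1.neg).matrix_elem a b).abs
    obtain ⟨M, hM⟩ := hW.bddAbove_image hFc.continuousOn
    have hD : IsCompact ((fun p : ((∀ i, G i) × (∀ i, G i)) × ((∀ i, G i) × (∀ i, G i)) =>
        p.1.1 * (p.2.1 * p.2.2) * p.1.2⁻¹) '' ((C ×ˢ C) ×ˢ
        ({g : ∀ i, G i | ∀ i, ∀ a b,
          |((g i : GL (Fin (n i)) ℝ) : Matrix (Fin (n i)) (Fin (n i)) ℝ) a b| ≤ M ∧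
          |(((g i : GL (Fin (n i)) ℝ)⁻¹ : GL (Fin (n i)) ℝ) :
            Matrix (Fin (n i)) (Fin (n i)) ℝ) a b| ≤ M} ×ˢ
        {g : ∀ i, G i | ∀ i, ∀ a b,
          |((g i : GL (Fin (n i)) ℝ) : Matrix (Fin (n i)) (Fin (n i)) ℝ) a b| ≤ 1 ∧
          |(((g i : GL (Fin (n i)) ℝ)⁻¹ : GL (Fin (n i)) ℝ) :
            Matrix (Fin (n i)) (Fin (n i)) ℝ) a b| ≤ 1}))) := by
      refine ((hC.prod hC).prod ((conv_compact_prod hclosed M).prod
        (conv_compact_prod hclosed 1))).image ?_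
      fun_prop
    refine ⟨_, hD, ?_⟩
    intro l hl x hx x' hx' h hh hlx
    obtain ⟨X, hX, hXs, k, hk, hko, hhk⟩ := hpH h hh
    obtain ⟨-, e, he, hex⟩ := hmem X hX
    have hXW : (⟨X, hX⟩ : pSub H) ∈ φ ⁻¹' (Set.pi Set.univ fun i : B =>
        {A : Matrix (Fin (n i)) (Fin (n i)) ℝ | ∀ a b, |A a b| ≤ c i}) := by
      intro i _ a b
      exact hc i l hl x hx x' hx' h hh hlx i.2 (X i) (hXs i) (k i) (hko i) (hhk i) a b
    have hXM := hM ⟨⟨X, hX⟩, hXW, rfl⟩
    have hterm : ∀ i a b, |NormedSpace.exp (X i) a b| + |NormedSpace.exp (-(X i)) a b| ≤ M := by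
      intro i a b
      refine le_trans ?_ hXM
      have hnn : ∀ i a b, 0 ≤ |NormedSpace.exp (X i) a b| + |NormedSpace.exp (-(X i)) a b| :=
        fun i a b => by positivity
      refine (Finset.single_le_sum (f := fun b => |NormedSpace.exp (X i) a b| +
        |NormedSpace.exp (-(X i)) a b|) (fun b _ => hnn i a b) (Finset.mem_univ b)).trans ?_
      refine (Finset.single_le_sum (f := fun a => ∑ b, (|NormedSpace.exp (X i) a b| +
        |NormedSpace.exp (-(X i)) a b|)) (fun a _ => Finset.sum_nonneg fun b _ => hnn i a b)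
        (Finset.mem_univ a)).trans ?_
      exact Finset.single_le_sum (f := fun i => ∑ a, ∑ b, (|NormedSpace.exp (X i) a b| +
        |NormedSpace.exp (-(X i)) a b|)) (fun i _ => Finset.sum_nonneg fun a _ =>
          Finset.sum_nonneg fun b _ => hnn i a b) (Finset.mem_univ i)
    have hhe : h = e * k := by
      funext i
      apply Subtype.ext
      rw [hhk i, Pi.mul_apply, Subgroup.coe_mul, hex i]
    refine ⟨((x', x), (e, k)), ⟨⟨hx', hx⟩, ?_, ?_⟩, ?_⟩
    · intro i a b
      have h1 := hterm i a b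
      have h2 := abs_nonneg (NormedSpace.exp (X i) a b)
      have h3 := abs_nonneg (NormedSpace.exp (-(X i)) a b)
      show |((e i : GL (Fin (n i)) ℝ) : Matrix (Fin (n i)) (Fin (n i)) ℝ) a b| ≤ M ∧
          |(((e i : GL (Fin (n i)) ℝ)⁻¹ : GL (Fin (n i)) ℝ) :
            Matrix (Fin (n i)) (Fin (n i)) ℝ) a b| ≤ M
      rw [hex i, conv_expGL_inv, conv_expGL]
      constructor <;> linarith
    · intro i a b
      exact conv_orth (hko i) a b
    · show x' * (e * k) * x⁻¹ = l
      rw [← hhe, ← hlx]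
      group
  · refine ⟨{g : ∀ i, G i | ∀ i, ∀ a b,
          |((g i : GL (Fin (n i)) ℝ) : Matrix (Fin (n i)) (Fin (n i)) ℝ) a b| ≤ 1 ∧
          |(((g i : GL (Fin (n i)) ℝ)⁻¹ : GL (Fin (n i)) ℝ) :
            Matrix (Fin (n i)) (Fin (n i)) ℝ) a b| ≤ 1}, conv_compact_prod hclosed 1, ?_⟩
    intro g
    choose Y hY hYs k hkG hko hgk using fun i => hpG i _ ((g i)⁻¹).2
    obtain ⟨X, ⟨hX, hXY⟩, -⟩ := hB Y (fun i _ => hY i)
    obtain ⟨-, h, hh, hhX⟩ := hmem X hX
    let κ : ∀ i, G i := fun i => ⟨k i, hkG i⟩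
    have hgi : ∀ i ∈ B, g i * h i = (κ i)⁻¹ := by
      intro i hi
      have h1 : (g i)⁻¹ = h i * κ i := by
        apply Subtype.ext
        rw [hgk i, Subgroup.coe_mul, hhX i, hXY i hi]
      have h2 : κ i = (h i)⁻¹ * (g i)⁻¹ := by
        rw [h1]
        group
      rw [h2]
      group
    refine ⟨fun i => if i ∈ B then 1 else g i * h i, ?_,
      fun i => if i ∈ B then (κ i)⁻¹ else 1, ?_, h⁻¹, H.inv_mem hh, ?_⟩
    · intro i hi
      exact if_pos hi
    · intro i a b
      by_cases hi : i ∈ B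
      · have h3 := conv_orth (hko i) a b
        simp only [if_pos hi]
        refine ⟨?_, ?_⟩
        · exact h3.2
        · have : (((((κ i)⁻¹ : G i) : GL (Fin (n i)) ℝ)⁻¹ : GL (Fin (n i)) ℝ)) = k i := by
            rw [Subgroup.coe_inv, inv_inv]
          rw [this]
          exact h3.1
      · simp only [if_neg hi]
        have h4 : ((1 : GL (Fin (n i)) ℝ) : Matrix (Fin (n i)) (Fin (n i)) ℝ) *
            ((1 : GL (Fin (n i)) ℝ) : Matrix (Fin (n i)) (Fin (n i)) ℝ)ᵀ = 1 := by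
          rw [Units.val_one, Matrix.transpose_one, Matrix.one_mul]
        exact conv_orth h4 a b
    · funext i
      by_cases hi : i ∈ B
      · simp only [Pi.mul_apply, if_pos hi, one_mul, Pi.inv_apply]
        rw [← hgi i hi]
        group
      · simp only [Pi.mul_apply, if_neg hi, mul_one, Pi.inv_apply]
        group

end Product

end Pool.Agent.Helper20.CKP
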