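import Mathlib

/-!
# CKP: real spaces of pairs of orthogonal vectors of the same length, stable under triple products
-/

set_option autoImplicit false

namespace Pool.Agent.Helper20.CKP

open Matrix Module

variable {K : Type} [RCLike K] {n : ℕ}

/-- The Hermitian form. -/
def hip (x y : Fin n → K) : K := star x ⬝ᵥ y

theorem hip_add_right (x y z : Fin n → K) : hip x (y + z) = hip x y + hip x z := by
  simp [hip, dotProduct_add]

theorem hip_add_left (x y z : Fin n → K) : hip (x + y) z = hip x z + hip y z := by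
  simp [hip, add_dotProduct]

theorem hip_smul_right (c : K) (x y : Fin n → K) : hip x (c • y) = c * hip x y := by
  simp [hip, dotProduct_smul]

theorem hip_smul_left (c : K) (x y : Fin n → K) : hip (c • x) y = star c * hip x y := by
  simp [hip, smul_dotProduct]

theorem hip_rsmul_right (c : ℝ) (x y : Fin n → K) : hip x (c • y) = (c : K) * hip x y := by
  rw [← hip_smul_right]
  congr 1
  ext i
  simp [RCLike.real_smul_eq_coe_mul]

theorem hip_rsmul_left (c : ℝ) (x y : Fin n → K) : hip (c • x) y = (c : K) * hip x y := by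
  have h1 : c • x = (c : K) • x := by
    ext i
    simp [RCLike.real_smul_eq_coe_mul]
  rw [h1, hip_smul_left]
  simp

theorem hip_star (x y : Fin n → K) : star (hip x y) = hip y x := by
  simp only [hip, dotProduct, star_sum, star_mul', Pi.star_apply, star_star]
  exact Finset.sum_congr rfl fun i _ => mul_comm _ _

theorem re_hip_comm (x y : Fin n → K) : RCLike.re (hip x y) = RCLike.re (hip y x) := by
  rw [← hip_star y x, RCLike.star_def, RCLike.conj_re]

theorem re_hip_self (x : Fin n → K) : RCLike.re (hip x x) = ∑ i, ‖x i‖ ^ 2 := by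
  simp only [hip, dotProduct, map_sum]
  refine Finset.sum_congr rfl fun i _ => ?_
  rw [Pi.star_apply, RCLike.star_def, RCLike.conj_mul, ← RCLike.ofReal_pow, RCLike.ofReal_re]

theorem hip_self (x : Fin n → K) : hip x x = ((RCLike.re (hip x x) : ℝ) : K) := by
  rw [re_hip_self]
  simp only [hip, dotProduct]
  push_cast
  refine Finset.sum_congr rfl fun i _ => ?_
  rw [Pi.star_apply, RCLike.star_def, RCLike.conj_mul]

theorem re_hip_self_nonneg (x : Fin n → K) : 0 ≤ RCLike.re (hip x x) := by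
  rw [re_hip_self]
  exact Finset.sum_nonneg fun i _ => sq_nonneg _

theorem re_hip_self_eq_zero {x : Fin n → K} (h : RCLike.re (hip x x) = 0) : x = 0 := by
  rw [re_hip_self, Finset.sum_eq_zero_iff_of_nonneg (fun i _ => sq_nonneg _)] at h
  ext i
  have := h i (Finset.mem_univ i)
  simpa using this

theorem re_hip_self_pos {x : Fin n → K} (h : x ≠ 0) : 0 < RCLike.re (hip x x) :=
  lt_of_le_of_ne (re_hip_self_nonneg x) fun e => h (re_hip_self_eq_zero e.symm)

/-- The real inner product. -/
noncomputable def rip (K : Type) [RCLike K] (n : ℕ) : LinearMap.BilinForm ℝ (Fin n → K) :=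
  LinearMap.mk₂ ℝ (fun x y => RCLike.re (hip x y))
    (fun x y z => by rw [hip_add_left, map_add])
    (fun c x y => by rw [hip_rsmul_left, RCLike.re_ofReal_mul, smul_eq_mul])
    (fun x y z => by rw [hip_add_right, map_add])
    (fun c x y => by rw [hip_rsmul_right, RCLike.re_ofReal_mul, smul_eq_mul])

theorem rip_apply (x y : Fin n → K) : rip K n x y = RCLike.re (hip x y) := rfl

theorem rip_refl : (rip K n).IsRefl := fun x y h => by
  rw [rip_apply] at h ⊢
  rwa [re_hip_comm]

theorem rip_nondeg : (rip K n).Nondegenerate := by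
  rw [LinearMap.BilinForm.nondegenerate_iff_ker_eq_bot, LinearMap.ker_eq_bot']
  intro x hx
  have := LinearMap.congr_fun hx x
  exact re_hip_self_eq_zero this

theorem mem_of_orth {V : Submodule ℝ (Fin n → K)} {x : Fin n → K}
    (h : ∀ w, (∀ v ∈ V, RCLike.re (hip v w) = 0) → RCLike.re (hip w x) = 0) : x ∈ V := by
  rw [← LinearMap.BilinForm.orthogonal_orthogonal rip_nondeg rip_refl V,
    LinearMap.BilinForm.mem_orthogonal_iff]
  intro w hw
  rw [LinearMap.BilinForm.mem_orthogonal_iff] at hw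
  exact h w fun v hv => hw v hv

theorem mem_orth {V : Submodule ℝ (Fin n → K)} {w : Fin n → K} :
    w ∈ (rip K n).orthogonal V ↔ ∀ v ∈ V, RCLike.re (hip v w) = 0 :=
  LinearMap.BilinForm.mem_orthogonal_iff

theorem finrank_orth (V : Submodule ℝ (Fin n → K)) :
    finrank ℝ ((rip K n).orthogonal V) = n * finrank ℝ K - finrank ℝ V := by
  rw [LinearMap.BilinForm.finrank_orthogonal rip_nondeg]
  congr 1
  rw [Module.finrank_pi_fintype]
  simp

section Rows
variable {P : Type} [AddCommGroup P] [Module ℝ P] [FiniteDimensional ℝ P]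

/-- Two real linear maps `a`, `b` to `K ^ n`, orthogonal and isometric to each other, stable under
the triple product of the matrices with the rows `a X`, `b X`. -/
structure Rows (a b : P →ₗ[ℝ] (Fin n → K)) : Prop where
  inj : Function.Injective a
  orth : ∀ X, hip (a X) (b X) = 0
  isom : ∀ X, hip (b X) (b X) = hip (a X) (a X)
  triple : ∀ X Y, ∃ Z,
    a Z = (2 * hip (a Y) (a X) - hip (a X) (a Y)) • a X + (3 * hip (b Y) (a X)) • b X -
      hip (a X) (a X) • a Y ∧
    b Z = (2 * hip (b Y) (b X) - hip (b X) (b Y)) • b X + (3 * hip (a Y) (b X)) • a X -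
      hip (a X) (a X) • b Y

variable {a b : P →ₗ[ℝ] (Fin n → K)}

theorem Rows.pol (R : Rows a b) (X Y : P) : hip (a X) (b Y) = -hip (a Y) (b X) := by
  have h := R.orth (X + Y)
  rw [map_add, map_add, hip_add_left, hip_add_right, hip_add_right, R.orth X, R.orth Y, zero_add,
    add_zero] at h
  exact eq_neg_of_add_eq_zero_left h

theorem Rows.pol' (R : Rows a b) (X Y : P) : hip (b X) (a Y) = -hip (b Y) (a X) := by
  rw [← hip_star, ← hip_star (a X) (b Y), ← star_neg, R.pol Y X]

theorem Rows.re_isom (R : Rows a b) (X Y : P) :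
    RCLike.re (hip (b X) (b Y)) = RCLike.re (hip (a X) (a Y)) := by
  have h := R.isom (X + Y)
  simp only [map_add, hip_add_left, hip_add_right] at h
  rw [R.isom X, R.isom Y] at h
  have h1 := congrArg RCLike.re h
  simp only [map_add] at h1
  rw [re_hip_comm (b Y) (b X), re_hip_comm (a Y) (a X)] at h1
  linarith

theorem hI_mul (hI : RCLike.im (RCLike.I : K) = 1) : (RCLike.I : K) * RCLike.I = -1 := by
  rcases RCLike.I_mul_I (K := K) with h | h
  · rw [h, map_zero] at hI
    exact absurd hI (by norm_num)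
  · exact h

theorem re_I_mul (hI : RCLike.im (RCLike.I : K) = 1) (c : K) :
    RCLike.re (RCLike.I * c) = -RCLike.im c := by
  rw [RCLike.mul_re, RCLike.I_re, hI]
  ring

/-- The space `a P` is stable under `v ↦ ∑ ⟨e, v⟩ e`, `e = I • a X, b X, I • b X`. -/
theorem Rows.stable (hI : RCLike.im (RCLike.I : K) = 1) (R : Rows a b) (X Y : P) : ∃ Z,
    a Z = RCLike.re (hip ((RCLike.I : K) • a X) (a Y)) • ((RCLike.I : K) • a X) +
      RCLike.re (hip (b X) (a Y)) • b X +
      RCLike.re (hip ((RCLike.I : K) • b X) (a Y)) • ((RCLike.I : K) • b X) := by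
  obtain ⟨Z0, h, -⟩ := R.triple X Y
  have h1 : hip (a X) (a Y) = star (hip (a Y) (a X)) := (hip_star _ _).symm
  have h2 : hip (b Y) (a X) = -hip (b X) (a Y) := by rw [R.pol' X Y, neg_neg]
  have h3 : RCLike.re (hip ((RCLike.I : K) • a X) (a Y)) = -RCLike.im (hip (a Y) (a X)) := by
    rw [hip_smul_left, h1, RCLike.star_def, RCLike.conj_I, neg_mul, map_neg,
      re_I_mul hI, RCLike.conj_im, neg_neg]
  have h4 : RCLike.re (hip ((RCLike.I : K) • b X) (a Y)) = RCLike.im (hip (b X) (a Y)) := by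
    rw [hip_smul_left, RCLike.star_def, RCLike.conj_I, neg_mul, map_neg, re_I_mul hI, neg_neg]
  obtain ⟨u, hu⟩ : ∃ u : ℝ, hip (a X) (a X) = (u : K) := ⟨_, hip_self _⟩
  refine ⟨(-1 / 3 : ℝ) • (Z0 - RCLike.re (hip (a Y) (a X)) • X + u • Y), ?_⟩
  rw [h3, h4, map_smul, map_add, map_sub, map_smul, map_smul, h, h1, h2, hu]
  have hp := RCLike.re_add_im (hip (a Y) (a X))
  have hp' : star (hip (a Y) (a X)) = (RCLike.re (hip (a Y) (a X)) : K) -
      RCLike.im (hip (a Y) (a X)) * RCLike.I := by
    conv_lhs => rw [← hp]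
    rw [RCLike.star_def, map_add, map_mul, RCLike.conj_ofReal, RCLike.conj_ofReal, RCLike.conj_I]
    ring
  have hq := RCLike.re_add_im (hip (b X) (a Y))
  rw [hp']
  generalize hip (a Y) (a X) = p at *
  generalize hip (b X) (a Y) = q at *
  ext j
  simp only [Pi.add_apply, Pi.sub_apply, Pi.smul_apply, RCLike.real_smul_eq_coe_mul, smul_eq_mul,
    RCLike.ofReal_neg]
  have h5 : ((-1 / 3 : ℝ) : K) = -1 / 3 := by push_cast; ring
  rw [h5]
  linear_combination (-2 / 3 * (-(a X j)) ) * hp + (-b X j) * hq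

/-- The combination `∑ c_e e` with `e = I • a X, b X, I • b X` has the length of `c` times `a X`. -/
theorem Rows.norm_comb (hI : RCLike.im (RCLike.I : K) = 1) (R : Rows a b) (X : P) (c : Fin 3 → ℝ) :
    RCLike.re (hip (c 0 • ((RCLike.I : K) • a X) + c 1 • b X + c 2 • ((RCLike.I : K) • b X))
      (c 0 • ((RCLike.I : K) • a X) + c 1 • b X + c 2 • ((RCLike.I : K) • b X))) =
    (c 0 ^ 2 + c 1 ^ 2 + c 2 ^ 2) * RCLike.re (hip (a X) (a X)) := by
  obtain ⟨u, hu⟩ : ∃ u : ℝ, hip (a X) (a X) = (u : K) := ⟨_, hip_self _⟩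
  have h1 : hip (b X) (a X) = 0 := by
    rw [← hip_star, R.orth X, star_zero]
  have h2 := hI_mul hI
  simp only [hip_add_left, hip_add_right, hip_rsmul_left, hip_rsmul_right, hip_smul_left,
    hip_smul_right, R.orth X, R.isom X, h1, hu, RCLike.star_def, RCLike.conj_I, mul_zero,
    add_zero, zero_add]
  have h3 : ∀ x : ℝ, RCLike.re (x : K) = x := fun x => RCLike.ofReal_re x
  have h4 : (c 0 : K) * ((c 0 : K) * (-RCLike.I * (RCLike.I * (u : K)))) +
      ((c 1 : K) * ((c 1 : K) * (u : K)) + (c 2 : K) * ((c 1 : K) * (-RCLike.I * (u : K)))) +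
      ((c 1 : K) * ((c 2 : K) * (RCLike.I * (u : K))) +
        (c 2 : K) * ((c 2 : K) * (-RCLike.I * (RCLike.I * (u : K))))) =
      (((c 0 ^ 2 + c 1 ^ 2 + c 2 ^ 2) * u : ℝ) : K) := by
    push_cast
    linear_combination (-(c 0 : K) ^ 2 * u - (c 2 : K) ^ 2 * u) * h2
  rw [h3, ← h3 ((c 0 ^ 2 + c 1 ^ 2 + c 2 ^ 2) * u), ← h4]
  congr 1
  ring

/-- The space `a P` is stable under `I` and contains `b P`. -/
theorem Rows.mem (hI : RCLike.im (RCLike.I : K) = 1) (R : Rows a b)
    (hdim : n * finrank ℝ K ≤ finrank ℝ P + 2) (h6 : 6 ≤ finrank ℝ P) (X : P) :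
    (∃ Y, a Y = (RCLike.I : K) • a X) ∧ (∃ Y, a Y = b X) ∧ ∃ Y, a Y = (RCLike.I : K) • b X := by
  set V := LinearMap.range a with hV
  have hVf : finrank ℝ V = finrank ℝ P := LinearMap.finrank_range_of_inj R.inj
  have hW : finrank ℝ ((rip K n).orthogonal V) ≤ 2 := by
    rw [finrank_orth, hVf]
    omega
  have key : ∀ w ∈ (rip K n).orthogonal V, ∀ X : P,
      RCLike.re (hip w ((RCLike.I : K) • a X)) = 0 ∧ RCLike.re (hip w (b X)) = 0 ∧
        RCLike.re (hip w ((RCLike.I : K) • b X)) = 0 := by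
    intro w hw X
    -- the three functionals
    let f : P →ₗ[ℝ] (Fin 3 → ℝ) :=
      { toFun := fun X => ![RCLike.re (hip w ((RCLike.I : K) • a X)), RCLike.re (hip w (b X)),
          RCLike.re (hip w ((RCLike.I : K) • b X))]
        map_add' := fun X Y => by
          ext i
          fin_cases i <;> simp [smul_add, hip_add_right]
        map_smul' := fun c X => by
          have h1 : ∀ v : Fin n → K, (RCLike.I : K) • (c • v) = c • ((RCLike.I : K) • v) :=
            fun v => smul_comm _ _ _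
          ext i
          fin_cases i <;> simp [h1, hip_rsmul_right, RCLike.re_ofReal_mul] }
    have hf : ∀ X, f X = ![RCLike.re (hip w ((RCLike.I : K) • a X)), RCLike.re (hip w (b X)),
          RCLike.re (hip w ((RCLike.I : K) • b X))] := fun X => rfl
    by_cases hfX : f X = 0
    · rw [hf] at hfX
      exact ⟨congrFun hfX 0, congrFun hfX 1, congrFun hfX 2⟩
    exfalso
    have hA : ∀ X Y : P, f X 0 * RCLike.re (hip ((RCLike.I : K) • a X) (a Y)) +
        f X 1 * RCLike.re (hip (b X) (a Y)) +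
        f X 2 * RCLike.re (hip ((RCLike.I : K) • b X) (a Y)) = 0 := by
      intro X Y
      obtain ⟨Z, hZ⟩ := R.stable hI X Y
      have h1 := mem_orth.1 hw (a Z) (LinearMap.mem_range_self _ _)
      rw [re_hip_comm, hZ] at h1
      simp only [hip_add_right, hip_rsmul_right, map_add, RCLike.re_ofReal_mul] at h1
      rw [hf]
      show RCLike.re (hip w ((RCLike.I : K) • a X)) * _ + RCLike.re (hip w (b X)) * _ +
        RCLike.re (hip w ((RCLike.I : K) • b X)) * _ = 0
      linarith
    set c := f X with hc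
    let M : P →ₗ[ℝ] (Fin n → K) :=
      { toFun := fun Z => c 0 • ((RCLike.I : K) • a Z) + c 1 • b Z + c 2 • ((RCLike.I : K) • b Z)
        map_add' := fun Y Z => by
          simp only [map_add, smul_add]
          abel
        map_smul' := fun t Z => by
          have h1 : ∀ v : Fin n → K, (RCLike.I : K) • (t • v) = t • ((RCLike.I : K) • v) :=
            fun v => smul_comm _ _ _
          simp only [map_smul, h1, smul_add, RingHom.id_apply]
          simp only [smul_comm t] }
    have hM : ∀ Z, M Z = c 0 • ((RCLike.I : K) • a Z) + c 1 • b Z +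
      c 2 • ((RCLike.I : K) • b Z) := fun Z => rfl
    have hc0 : 0 < c 0 ^ 2 + c 1 ^ 2 + c 2 ^ 2 := by
      by_contra hle
      apply hfX
      have h0 := sq_nonneg (c 0)
      have h1 := sq_nonneg (c 1)
      have h2 := sq_nonneg (c 2)
      funext i
      fin_cases i
      · exact pow_eq_zero_iff (two_ne_zero) |>.1 (by linarith : c 0 ^ 2 = 0)
      · exact pow_eq_zero_iff (two_ne_zero) |>.1 (by linarith : c 1 ^ 2 = 0)
      · exact pow_eq_zero_iff (two_ne_zero) |>.1 (by linarith : c 2 ^ 2 = 0)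
    have hMinj : Function.Injective M := by
      rw [injective_iff_map_eq_zero]
      intro Z hZ
      have h1 := R.norm_comb hI Z c
      rw [← hM, hZ] at h1
      have h2 : RCLike.re (hip (0 : Fin n → K) 0) = 0 := by
        rw [re_hip_self]
        simp
      rw [h2] at h1
      rcases mul_eq_zero.1 h1.symm with h3 | h3
      · exact absurd h3 hc0.ne'
      · have h4 := re_hip_self_eq_zero h3
        exact R.inj (by rw [h4, map_zero])
    have hle : (LinearMap.ker f).map M ≤ (rip K n).orthogonal V := by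
      rintro _ ⟨Z, hZ, rfl⟩
      rw [mem_orth]
      rintro _ ⟨Y, rfl⟩
      have hZ0 : f Z = 0 := hZ
      have h1 := hA (X + Z) Y
      have h2 := hA X Y
      rw [map_add f, hZ0, add_zero] at h1
      simp only [map_add a, map_add b, smul_add, hip_add_left, map_add] at h1
      rw [re_hip_comm, hM]
      simp only [hip_add_left, hip_rsmul_left, map_add, RCLike.re_ofReal_mul]
      rw [← hc] at h1 h2
      linarith
    have h1 := (Submodule.equivMapOfInjective M hMinj (LinearMap.ker f)).finrank_eq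
    have h2 := Submodule.finrank_mono hle
    have h3 := LinearMap.finrank_range_add_finrank_ker f
    have h4 : finrank ℝ (LinearMap.range f) ≤ 3 := by
      have := (LinearMap.range f).finrank_le
      simpa using this
    omega
  refine ⟨?_, ?_, ?_⟩
  · exact mem_of_orth (V := V) fun w hw => (key w (mem_orth.2 hw) X).1
  · exact mem_of_orth (V := V) fun w hw => (key w (mem_orth.2 hw) X).2.1
  · exact mem_of_orth (V := V) fun w hw => (key w (mem_orth.2 hw) X).2.2

theorem Rows.b_eq (R : Rows a b) {X Y : P} {ε : K} (hε : star ε * ε = 1)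
    (h : a Y = ε • b X) : b Y = -(star ε • a X) := by
  obtain ⟨u, hu⟩ : ∃ u : ℝ, hip (a X) (a X) = (u : K) := ⟨_, hip_self _⟩
  obtain ⟨Z, h1, h2⟩ := R.triple X Y
  have hbb : hip (b X) (b X) = (u : K) := by rw [R.isom X, hu]
  have hba : hip (b X) (a X) = 0 := by rw [← hip_star, R.orth X, star_zero]
  have e1 : hip (a Y) (a X) = 0 := by rw [h, hip_smul_left, hba, mul_zero]
  have e2 : hip (a X) (a Y) = 0 := by rw [h, hip_smul_right, R.orth X, mul_zero]
  have e3 : hip (b Y) (a X) = -(ε * u) := by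
    rw [← neg_eq_iff_eq_neg, ← R.pol' X Y, h, hip_smul_right, hbb]
  have e4 : hip (a Y) (b X) = star ε * u := by rw [h, hip_smul_left, hbb]
  rw [e1, e2, e3, hu] at h1
  rw [e4, hu] at h2
  have h3 : a Z = a ((-4 * u : ℝ) • Y) := by
    rw [h1, map_smul, h]
    ext j
    simp only [Pi.add_apply, Pi.sub_apply, Pi.smul_apply, RCLike.real_smul_eq_coe_mul, smul_eq_mul]
    push_cast
    ring
  rw [R.inj h3, map_smul] at h2
  set μ : K := 2 * hip (b Y) (b X) - hip (b X) (b Y) with hμ
  have h4 : (3 * u : K) • b Y = -(μ • b X + (3 * (star ε * u)) • a X) := by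
    have h5 : ((-4 * u : ℝ) : K) • b Y = μ • b X + (3 * (star ε * u)) • a X - (u : K) • b Y := by
      rw [← h2]
      ext j
      simp only [Pi.smul_apply, RCLike.real_smul_eq_coe_mul, smul_eq_mul]
    have h6 : μ • b X + (3 * (star ε * u)) • a X = ((-4 * u : ℝ) : K) • b Y + (u : K) • b Y := by
      rw [h5]
      abel
    rw [h6, ← add_smul, ← neg_smul]
    congr 1
    push_cast
    ring
  have hYY : hip (b Y) (b Y) = (u : K) := by
    rw [R.isom Y, h, hip_smul_left, hip_smul_right, hbb, ← mul_assoc, hε, one_mul]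
  have h7 : star (3 * u : K) = 3 * u := by simp
  have h8 : (3 * u : K) * (3 * u) * u = (star μ * μ) * u + 9 * u * u * u := by
    have h9 := congrArg (fun v => hip v v) h4
    simp only [hip_smul_left, hip_smul_right, hYY] at h9
    have h10 : ∀ v : Fin n → K, hip (-v) (-v) = hip v v := by
      intro v
      rw [← neg_one_smul K v, hip_smul_left, hip_smul_right]
      simp
    rw [h10, h7] at h9
    simp only [hip_add_left, hip_add_right, hip_smul_left, hip_smul_right, hbb, hba, hu,
      R.orth X] at h9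
    have h11 : star (3 * (star ε * u) : K) = 3 * (ε * u) := by simp
    rw [h11] at h9
    linear_combination h9 + 9 * u * u * u * hε
  have h12 : (star μ * μ) * (u : K) = 0 := by linear_combination -h8
  by_cases hu0 : u = 0
  · have hX : a X = 0 := re_hip_self_eq_zero (by rw [hu, hu0]; simp)
    have hbX : b X = 0 := re_hip_self_eq_zero (by rw [hbb, hu0]; simp)
    have hY : Y = 0 := R.inj (by rw [h, hbX, smul_zero, map_zero])
    rw [hY, hX, map_zero, smul_zero, neg_zero]
  · have huK : (u : K) ≠ 0 := by exact_mod_cast hu0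
    have hμ0 : μ = 0 := by
      rcases mul_eq_zero.1 h12 with h13 | h13
      · rcases mul_eq_zero.1 h13 with h14 | h14
        · exact star_eq_zero.1 h14
        · exact h14
      · exact absurd h13 huK
    rw [hμ0, zero_smul, zero_add] at h4
    have h3u : (3 * u : K) ≠ 0 := mul_ne_zero (by norm_num) huK
    have h15 : (3 * u : K) • b Y = (3 * u : K) • (-(star ε • a X)) := by
      rw [h4, smul_neg, smul_smul]
      congr 2
      ring
    exact smul_right_injective _ h3u h15

theorem star_I_mul (hI : RCLike.im (RCLike.I : K) = 1) : star (RCLike.I : K) * RCLike.I = 1 := by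
  rw [RCLike.star_def, RCLike.conj_I, neg_mul, hI_mul hI, neg_neg]

/-- `a P` is a complex space and `a X ↦ b X` is antilinear. -/
theorem Rows.exists_smul (hI : RCLike.im (RCLike.I : K) = 1) (R : Rows a b)
    (hdim : n * finrank ℝ K ≤ finrank ℝ P + 2) (h6 : 6 ≤ finrank ℝ P) (X : P) (c : K) :
    ∃ Y, a Y = c • a X ∧ b Y = star c • b X := by
  obtain ⟨⟨Y, hY⟩, ⟨Z, hZ⟩, -⟩ := R.mem hI hdim h6 X
  have h1 : b Z = -a X := by
    have := R.b_eq (X := X) (Y := Z) (ε := 1) (by simp) (by rw [hZ, one_smul])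
    rw [this, star_one, one_smul]
  have h2 : b Y = -((RCLike.I : K) • b X) := by
    have h3 := R.b_eq (X := -Z) (Y := Y) (ε := RCLike.I) (star_I_mul hI) (by
      rw [hY, map_neg, h1, neg_neg])
    rw [h3, map_neg, hZ, RCLike.star_def, RCLike.conj_I, neg_smul, smul_neg, neg_neg]
  have hc := RCLike.re_add_im c
  have hc' : star c = (RCLike.re c : K) - RCLike.im c * RCLike.I := by
    conv_lhs => rw [← hc]
    rw [RCLike.star_def, map_add, map_mul, RCLike.conj_ofReal, RCLike.conj_ofReal, RCLike.conj_I]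
    ring
  refine ⟨RCLike.re c • X + RCLike.im c • Y, ?_, ?_⟩
  · rw [map_add, map_smul, map_smul, hY]
    ext j
    simp only [Pi.add_apply, Pi.smul_apply, RCLike.real_smul_eq_coe_mul, smul_eq_mul]
    linear_combination (a X j) * hc
  · rw [map_add, map_smul, map_smul, h2, hc']
    ext j
    simp only [Pi.add_apply, Pi.smul_apply, Pi.neg_apply, RCLike.real_smul_eq_coe_mul, smul_eq_mul]
    ring

/-- `b` is antiunitary. -/
theorem Rows.hip_b (hI : RCLike.im (RCLike.I : K) = 1) (R : Rows a b)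
    (hdim : n * finrank ℝ K ≤ finrank ℝ P + 2) (h6 : 6 ≤ finrank ℝ P) (X Y : P) :
    hip (b X) (b Y) = star (hip (a X) (a Y)) := by
  obtain ⟨Z, hZ, hZ'⟩ := R.exists_smul hI hdim h6 Y RCLike.I
  have h1 := R.re_isom X Y
  have h2 := R.re_isom X Z
  rw [hZ, hZ', hip_smul_right, hip_smul_right, RCLike.star_def, RCLike.conj_I, neg_mul, map_neg,
    re_I_mul hI, re_I_mul hI, neg_neg] at h2
  apply RCLike.ext
  · rw [h1, RCLike.star_def, RCLike.conj_re]
  · rw [h2, RCLike.star_def, RCLike.conj_im]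

end Rows

/-- An orthonormal basis of a subspace, as a matrix. -/
theorem exists_basis_matrix (V : Submodule K (Fin n → K)) :
    ∃ (N : ℕ) (A : Matrix (Fin n) (Fin N) K), finrank K V = N ∧ Aᴴ * A = 1 ∧
      (∀ k, (fun j => A j k) ∈ V) ∧ ∀ x ∈ V, A *ᵥ (Aᴴ *ᵥ x) = x := by
  let e : (Fin n → K) ≃ₗ[K] EuclideanSpace K (Fin n) := (WithLp.linearEquiv 2 K (Fin n → K)).symm
  let V' : Submodule K (EuclideanSpace K (Fin n)) := V.map e.toLinearMap
  have hV' : finrank K V' = finrank K V := e.finrank_map_eq V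
  let v := (stdOrthonormalBasis K V').reindex (finCongr hV')
  have hv : ∀ k, (e.symm (v k : EuclideanSpace K (Fin n))) ∈ V := by
    intro k
    obtain ⟨x, hx, hxv⟩ := (v k).2
    rw [← hxv]
    show e.symm (e x) ∈ V
    rwa [e.symm_apply_apply]
  let A : Matrix (Fin n) (Fin (finrank K V)) K := fun j k => e.symm (v k : EuclideanSpace K (Fin n)) j
  have hip_inner : ∀ x y : Fin n → K, hip x y = inner K (e x) (e y) := by
    intro x y
    rw [EuclideanSpace.inner_eq_star_dotProduct, dotProduct_comm]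
    rfl
  have hA : ∀ (x : Fin n → K) (k), (Aᴴ *ᵥ x) k = hip (fun j => A j k) x := fun x k => rfl
  refine ⟨_, A, rfl, ?_, hv, ?_⟩
  · ext k l
    have h1 : (Aᴴ * A) k l = hip (fun j => A j k) (fun j => A j l) := rfl
    have h2 : hip (fun j => A j k) (fun j => A j l) =
        inner K (v k : EuclideanSpace K (Fin n)) (v l : EuclideanSpace K (Fin n)) := by
      rw [hip_inner]
      congr 1
    rw [h1, h2, ← Submodule.coe_inner, v.inner_eq_ite, Matrix.one_apply]
  · intro x hx
    have hx' : e x ∈ V' := ⟨x, hx, rfl⟩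
    have h1 := v.sum_repr' ⟨e x, hx'⟩
    have h2 := congrArg (fun z : V' => e.symm (z : EuclideanSpace K (Fin n))) h1
    simp only [AddSubmonoidClass.coe_finsetSum, Submodule.coe_smul, map_sum, map_smul,
      e.symm_apply_apply] at h2
    conv_rhs => rw [← h2]
    ext j
    rw [Finset.sum_apply, mulVec, dotProduct]
    refine Finset.sum_congr rfl fun k _ => ?_
    rw [hA, hip_inner, Pi.smul_apply, smul_eq_mul, mul_comm]
    congr 1

section Final
variable {P : Type} [AddCommGroup P] [Module ℝ P] [FiniteDimensional ℝ P]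
  {a b : P →ₗ[ℝ] (Fin n → K)}

theorem finrank_K (hI : RCLike.im (RCLike.I : K) = 1) : finrank ℝ K = 2 := by
  rw [(RCLike.complexLinearIsometryEquiv hI).toLinearEquiv.finrank_eq]
  exact Complex.finrank_real_complex

/-- The list for two rows over the complex numbers. -/
theorem Rows.matrix (hI : RCLike.im (RCLike.I : K) = 1) (R : Rows a b)
    (hdim : n * 2 ≤ finrank ℝ P + 2) (h6 : 6 ≤ finrank ℝ P) :
    ∃ (N : ℕ) (A : Matrix (Fin n) (Fin N) K) (S : Matrix (Fin N) (Fin N) K), n ≤ N + 1 ∧
      Aᴴ * A = 1 ∧ Sᵀ = -S ∧ S * Sᴴ = 1 ∧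
      (∀ X, ∃ y, a X = A *ᵥ y ∧ b X = A *ᵥ (S *ᵥ star y)) ∧
      ∀ y, ∃ X, a X = A *ᵥ y ∧ b X = A *ᵥ (S *ᵥ star y) := by
  have hdim' : n * finrank ℝ K ≤ finrank ℝ P + 2 := by rwa [finrank_K hI]
  let V : Submodule K (Fin n → K) :=
    { carrier := {v | ∃ X, a X = v}
      add_mem' := by
        rintro _ _ ⟨X, rfl⟩ ⟨Y, rfl⟩
        exact ⟨X + Y, map_add _ _ _⟩
      zero_mem' := ⟨0, map_zero _⟩
      smul_mem' := by
        rintro c _ ⟨X, rfl⟩
        obtain ⟨Y, hY, -⟩ := R.exists_smul hI hdim' h6 X c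
        exact ⟨Y, hY⟩ }
  have hV : ∀ v, v ∈ V ↔ ∃ X, a X = v := fun v => Iff.rfl
  obtain ⟨N, A, hN, hA, hAV, hAx⟩ := exists_basis_matrix V
  have hfr : finrank ℝ P = 2 * finrank K V := by
    have h1 : finrank ℝ P = finrank ℝ V := by
      let φ : P ≃ₗ[ℝ] V := LinearEquiv.ofBijective
        { toFun := fun X => (⟨a X, X, rfl⟩ : V)
          map_add' := fun X Y => Subtype.ext (map_add a X Y)
          map_smul' := fun c X => Subtype.ext (map_smul a c X) }
        ⟨fun X Y h => R.inj (congrArg Subtype.val h), fun ⟨v, X, hX⟩ => ⟨X, Subtype.ext hX⟩⟩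
      exact φ.finrank_eq
    rw [h1, ← Module.finrank_mul_finrank ℝ K V, finrank_K hI]
  have hbV : ∀ X, b X ∈ V := by
    intro X
    obtain ⟨-, ⟨Y, hY⟩, -⟩ := R.mem hI hdim' h6 X
    exact ⟨Y, hY⟩
  have hcol : ∀ l, ∃ X, a X = fun j => A j l := fun l => hAV l
  choose x hx using hcol
  let S : Matrix (Fin N) (Fin N) K := fun k l => (Aᴴ *ᵥ b (x l)) k
  have hS : ∀ k l, S k l = hip (a (x k)) (b (x l)) := by
    intro k l
    rw [hx]
    rfl
  -- all elements
  have hall : ∀ y : Fin N → K, ∃ X, a X = A *ᵥ y ∧ b X = A *ᵥ (S *ᵥ star y) := by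
    intro y
    have h1 : ∀ l, ∃ Y, a Y = y l • a (x l) ∧ b Y = star (y l) • b (x l) := fun l =>
      R.exists_smul hI hdim' h6 (x l) (y l)
    choose Y hY hY' using h1
    refine ⟨∑ l, Y l, ?_, ?_⟩
    · rw [map_sum]
      ext j
      rw [Finset.sum_apply, mulVec, dotProduct]
      refine Finset.sum_congr rfl fun l _ => ?_
      rw [hY, hx, Pi.smul_apply, smul_eq_mul, mul_comm]
    · rw [map_sum]
      have h2 : ∀ l, b (x l) = A *ᵥ fun k => S k l := fun l => (hAx _ (hbV _)).symm
      have h3 : ∑ l, b (Y l) = A *ᵥ ∑ l, star (y l) • fun k => S k l := by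
        rw [Matrix.mulVec_sum]
        refine Finset.sum_congr rfl fun l _ => ?_
        rw [hY', h2, Matrix.mulVec_smul]
      rw [h3]
      congr 1
      ext k
      rw [Finset.sum_apply, mulVec, dotProduct]
      refine Finset.sum_congr rfl fun l _ => ?_
      rw [Pi.smul_apply, smul_eq_mul, mul_comm, Pi.star_apply]
  have hST : Sᵀ = -S := by
    ext k l
    rw [transpose_apply, Matrix.neg_apply, hS, hS, R.pol]
  have hSS : Sᴴ * S = 1 := by
    ext k l
    have h1 : (Sᴴ * S) k l = hip (Aᴴ *ᵥ b (x k)) (Aᴴ *ᵥ b (x l)) := rfl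
    have h2 : ∀ u w : Fin n → K, w ∈ V → hip (Aᴴ *ᵥ u) (Aᴴ *ᵥ w) = hip u w := by
      intro u w hw
      unfold hip
      rw [star_mulVec, conjTranspose_conjTranspose, ← dotProduct_mulVec, hAx w hw]
    rw [h1, h2 _ _ (hbV _), R.hip_b hI hdim' h6, hx, hx]
    have h3 : hip (fun j => A j k) (fun j => A j l) = (Aᴴ * A) k l := rfl
    rw [h3, hA, Matrix.one_apply]
    split_ifs <;> simp
  refine ⟨N, A, S, by omega, hA, hST, mul_eq_one_comm.1 hSS, fun X => ?_, hall⟩
  obtain ⟨X', h1, h2⟩ := hall (Aᴴ *ᵥ a X)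
  have h3 : a X = A *ᵥ (Aᴴ *ᵥ a X) := (hAx _ ⟨X, rfl⟩).symm
  have h4 : X' = X := R.inj (by rw [h1, ← h3])
  rw [h4] at h2
  exact ⟨Aᴴ *ᵥ a X, h3, h2⟩

end Final

end Pool.Agent.Helper20.CKP
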