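import Mathlib

/-!
# CKP: two matrices over `𝕜` with the same Gram matrix of the rows
-/

set_option autoImplicit false

namespace Pool.Agent.Helper20.CKP

open Matrix

variable {𝕜 : Type} [RCLike 𝕜]

/-- Two families of vectors with the same Gram matrix differ by a unitary matrix. -/
theorem exists_unitary {r n : ℕ} {B B' : Matrix (Fin r) (Fin n) 𝕜} (h : B' * B'ᴴ = B * Bᴴ) :
    ∃ W : Matrix (Fin n) (Fin n) 𝕜, W * Wᴴ = 1 ∧ B' = B * W := by
  classical
  let V := EuclideanSpace 𝕜 (Fin n)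
  let T : Matrix (Fin r) (Fin n) 𝕜 → ((Fin r → 𝕜) →ₗ[𝕜] V) := fun A =>
    (WithLp.linearEquiv 2 𝕜 (Fin n → 𝕜)).symm.toLinearMap ∘ₗ Matrix.mulVecLin Aᴴ
  have hTapp : ∀ A c i, T A c i = (Aᴴ *ᵥ c) i := fun A c i => rfl
  have hnorm : ∀ A c, ‖T A c‖ ^ 2 = RCLike.re (star c ⬝ᵥ ((A * Aᴴ) *ᵥ c)) := by
    intro A c
    rw [EuclideanSpace.norm_sq_eq]
    simp only [hTapp]
    rw [← Matrix.mulVec_mulVec, Matrix.dotProduct_mulVec]
    have h1 : star c ᵥ* A = star (Aᴴ *ᵥ c) := by
      rw [Matrix.star_mulVec, Matrix.conjTranspose_conjTranspose]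
    rw [h1]
    simp only [dotProduct, Pi.star_apply, map_sum]
    refine Finset.sum_congr rfl fun i _ => ?_
    rw [RCLike.star_def, RCLike.conj_mul]
    norm_cast
  have hnn : ∀ c, ‖T B' c‖ = ‖T B c‖ := by
    intro c
    have h1 : ‖T B' c‖ ^ 2 = ‖T B c‖ ^ 2 := by rw [hnorm, hnorm, h]
    exact (sq_eq_sq₀ (norm_nonneg _) (norm_nonneg _)).1 h1
  have hker : ∀ c, T B c = 0 → T B' c = 0 := by
    intro c hc
    rw [← norm_eq_zero, hnn, hc, norm_zero]
  obtain ⟨σ, hσ⟩ := (T B).rangeRestrict.exists_rightInverse_of_surjective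
    (LinearMap.range_rangeRestrict _)
  have hσ' : ∀ x : LinearMap.range (T B), T B (σ x) = x := fun x =>
    congrArg Subtype.val (LinearMap.congr_fun hσ x)
  let L : LinearMap.range (T B) →ₗᵢ[𝕜] V :=
    { toLinearMap := (T B').comp σ
      norm_map' := fun x => by
        show ‖T B' (σ x)‖ = ‖x‖
        rw [hnn, hσ']
        rfl }
  have hL : ∀ c, L ⟨T B c, LinearMap.mem_range_self _ c⟩ = T B' c := by
    intro c
    show T B' (σ ⟨T B c, LinearMap.mem_range_self _ c⟩) = T B' c
    rw [← sub_eq_zero, ← map_sub]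
    apply hker
    rw [map_sub, hσ', sub_self]
  let E := L.extend
  have hE : ∀ c, E (T B c) = T B' c := by
    intro c
    rw [← hL c]
    exact L.extend_apply ⟨T B c, LinearMap.mem_range_self _ c⟩
  -- the matrix of the isometry
  let M : Matrix (Fin n) (Fin n) 𝕜 := fun i j => E (EuclideanSpace.single j 1) i
  have hM : ∀ x : V, ∀ i, E x i = ∑ j, M i j * x j := by
    intro x i
    have hx : x = ∑ j, x j • (EuclideanSpace.single j (1 : 𝕜) : V) := by
      ext k
      rw [WithLp.ofLp_sum, Finset.sum_apply]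
      simp
    conv_lhs => rw [hx]
    rw [map_sum]
    simp only [map_smul]
    rw [WithLp.ofLp_sum, Finset.sum_apply]
    refine Finset.sum_congr rfl fun j _ => ?_
    show x j * E (EuclideanSpace.single j 1) i = _
    ring
  have horth : Mᴴ * M = 1 := by
    ext j k
    have h1 : inner 𝕜 (E (EuclideanSpace.single j (1 : 𝕜))) (E (EuclideanSpace.single k (1 : 𝕜))) =
        inner 𝕜 (EuclideanSpace.single j (1 : 𝕜) : V) (EuclideanSpace.single k (1 : 𝕜)) :=
      E.inner_map_map _ _
    rw [PiLp.inner_apply] at h1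
    rw [Matrix.mul_apply, Matrix.one_apply]
    have h2 : ∑ i, Mᴴ j i * M i k =
        inner 𝕜 (EuclideanSpace.single j (1 : 𝕜) : V) (EuclideanSpace.single k (1 : 𝕜)) := by
      rw [← h1]
      refine Finset.sum_congr rfl fun i _ => ?_
      rw [RCLike.inner_apply, mul_comm]
      rfl
    rw [h2, EuclideanSpace.inner_single_left]
    simp
  refine ⟨Mᴴ, by rw [Matrix.conjTranspose_conjTranspose]; exact horth, ?_⟩
  have h3 : M * Bᴴ = B'ᴴ := by
    ext i j
    have h1 := congrArg (fun v : V => v i) (hE (Pi.single j 1))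
    simp only [hM] at h1
    have h2 : ∀ A : Matrix (Fin r) (Fin n) 𝕜, ∀ k, T A (Pi.single j 1) k = Aᴴ k j := by
      intro A k
      rw [hTapp]
      simp
    rw [h2] at h1
    rw [Matrix.mul_apply, ← h1]
    exact Finset.sum_congr rfl fun k _ => by rw [h2]
  have h4 := congrArg conjTranspose h3
  rw [Matrix.conjTranspose_mul, Matrix.conjTranspose_conjTranspose,
    Matrix.conjTranspose_conjTranspose] at h4
  exact h4.symm

end Pool.Agent.Helper20.CKP
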