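import Pool.Agent.Helper20.CKP.ROne

/-!
# CKP: reductive subgroups of real rank one of `U(r, n; 𝕜)`
-/

set_option autoImplicit false

namespace Pool.Agent.Helper20.CKP

open Matrix Module Topology Filter NormedSpace Pool.Agent.Helper40.CK Pool.Agent.Helper17.CKF
  Pool.Agent.Helper29.CKP

variable {𝕜 : Type} [RCLike 𝕜] {r n N : ℕ} {G : Subgroup (GL (Fin N) ℝ)}
  {P : Matrix (Fin r) (Fin n) 𝕜 →ₗ[ℝ] Matrix (Fin N) (Fin N) ℝ} {H : Subgroup G}

theorem PData.mem_iff (D : PData 𝕜 r n G P) (hH : IsReductive (H.map G.subtype))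
    {X : Matrix (Fin N) (Fin N) ℝ} : X ∈ pSpace (H.map G.subtype) ↔
      ∃ B ∈ (pSpace (H.map G.subtype)).comap P, X = P B := by
  constructor
  · intro hX
    obtain ⟨B, rfl⟩ := (D.mem _).1 (map_le D.red hH hX)
    exact ⟨B, hX, rfl⟩
  · rintro ⟨B, hB, rfl⟩
    exact hB

theorem PData.finrank_comap (D : PData 𝕜 r n G P) (hH : IsReductive (H.map G.subtype)) :
    finrank ℝ ((pSpace (H.map G.subtype)).comap P) =
      finrank ℝ (pSpace (H.map G.subtype)) := by
  have h2 : ((pSpace (H.map G.subtype)).comap P).map P = pSpace (H.map G.subtype) := by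
    ext X
    rw [Submodule.mem_map, D.mem_iff hH]
    exact ⟨fun ⟨B, hB, e⟩ => ⟨B, hB, e.symm⟩, fun ⟨B, hB, e⟩ => ⟨B, hB, e.symm⟩⟩
  have h3 := (Submodule.equivMapOfInjective P D.inj
    ((pSpace (H.map G.subtype)).comap P)).finrank_eq
  rwa [h2] at h3

theorem PData.triple_mem (D : PData 𝕜 r n G P) (hH : IsReductive (H.map G.subtype))
    {B C : Matrix (Fin r) (Fin n) 𝕜} (hB : B ∈ (pSpace (H.map G.subtype)).comap P)
    (hC : C ∈ (pSpace (H.map G.subtype)).comap P) :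
    (2 : ℝ) • (B * Cᴴ * B) - C * Bᴴ * B - B * Bᴴ * C ∈ (pSpace (H.map G.subtype)).comap P := by
  have hCH : Cartan (oneM D.red.closed) H (pSpace (H.map G.subtype)) := cartan_one _ hH
  have h4 := Pool.Agent.Helper29.CKP.triple_mem hCH hB hC
  rw [D.triple] at h4
  exact (Submodule.neg_mem_iff (pSpace (H.map G.subtype))).1 h4

/-- If the real rank of `H` is at most one, the elements of `p_H` are conjugate to multiples of one
of them. -/
theorem PData.exists_conj_one (D : PData 𝕜 r n G P) (hH : IsReductive (H.map G.subtype))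
    (h1 : RealRankLeOne (H.map G.subtype)) : ∃ B0 ∈ (pSpace (H.map G.subtype)).comap P,
      ∀ B ∈ (pSpace (H.map G.subtype)).comap P,
      ∃ (U : Matrix (Fin r) (Fin r) 𝕜) (W : Matrix (Fin n) (Fin n) 𝕜) (t : ℝ), U * Uᴴ = 1 ∧
        W * Wᴴ = 1 ∧ B = t • (U * B0 * W) := by
  classical
  set M := oneM D.red.closed with hM
  set q := pSpace (H.map G.subtype) with hq
  have hCH : Cartan M H q := cartan_one _ hH
  obtain ⟨a, haq, hac, hak⟩ := exists_abelian hCH
  have ha : finrank ℝ a ≤ 1 := by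
    by_contra ha
    push Not at ha
    obtain ⟨φ, hφ⟩ := exists_inj (E := a) (m := 2) ha
    refine h1 (φ ![1, 0]) (haq (φ ![1, 0]).2) (φ ![0, 1]) (haq (φ ![0, 1]).2)
      (hac _ (φ _).2 _ (φ _).2) ?_
    rw [LinearIndependent.pair_iff]
    intro s t hst
    have h2 : φ ![s, t] = 0 := by
      apply Subtype.ext
      have h3 : (![s, t] : Fin 2 → ℝ) = s • ![1, 0] + t • ![0, 1] := by
        ext i
        fin_cases i <;> simp
      rw [h3, map_add, map_smul, map_smul]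
      exact hst
    have h3 : (![s, t] : Fin 2 → ℝ) = 0 := by
      apply hφ
      rw [h2, map_zero]
    exact ⟨congrFun h3 0, congrFun h3 1⟩
  obtain ⟨⟨v, hv⟩, hvw⟩ := finrank_le_one_iff.1 ha
  obtain ⟨B0, hB0, rfl⟩ := (D.mem_iff hH).1 (haq hv)
  refine ⟨B0, hB0, fun B hB => ?_⟩
  obtain ⟨k, -, hk, hka⟩ := hak _ hB
  obtain ⟨U, W, hU, hW, hUW⟩ := D.conj' k k.2 hk
  have h2 : M.ι k * P B * (M.ι k)ᵀ = P (U * B * Wᴴ) := hUW B
  rw [h2] at hka
  obtain ⟨c, hc⟩ := hvw ⟨_, hka⟩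
  have h3 : c • P B0 = P (U * B * Wᴴ) := congrArg Subtype.val hc
  rw [← map_smul] at h3
  have h4 := D.inj h3
  have hU' : Uᴴ * U = 1 := mul_eq_one_comm.1 hU
  have hW' : Wᴴ * W = 1 := mul_eq_one_comm.1 hW
  refine ⟨Uᴴ, W, c, by rw [conjTranspose_conjTranspose, hU'], hW, ?_⟩
  calc B = (Uᴴ * U) * B * (Wᴴ * W) := by rw [hU', hW', Matrix.one_mul, Matrix.mul_one]
    _ = Uᴴ * (U * B * Wᴴ) * W := by simp only [Matrix.mul_assoc]
    _ = _ := by rw [← h4, Matrix.mul_smul, Matrix.smul_mul]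

end Pool.Agent.Helper20.CKP
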