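import Pool.Agent.Helper20.CKP.IsoK

/-!
# CKP: matrices over `𝕜` with two rows and the same ratio of singular values
-/

set_option autoImplicit false

namespace Pool.Agent.Helper20.CKP

open Matrix
open scoped ComplexOrder

variable {𝕜 : Type} [RCLike 𝕜]

/-- Diagonalisation of a Hermitian `2 × 2` matrix. -/
theorem exists_diagK {A : Matrix (Fin 2) (Fin 2) 𝕜} (hA : A.IsHermitian) :
    ∃ U : Matrix (Fin 2) (Fin 2) 𝕜, U * Uᴴ = 1 ∧ ∃ d : Fin 2 → ℝ,
      A = U * diagonal (fun i => (d i : 𝕜)) * Uᴴ ∧ A.trace = ((d 0 + d 1 : ℝ) : 𝕜) ∧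
      A.det = ((d 0 * d 1 : ℝ) : 𝕜) := by
  refine ⟨hA.eigenvectorUnitary, ?_, hA.eigenvalues, ?_, ?_, ?_⟩
  · exact Unitary.mul_star_self_of_mem hA.eigenvectorUnitary.2
  · have h1 := hA.spectral_theorem
    rw [Unitary.conjStarAlgAut_apply] at h1
    exact h1
  · rw [hA.trace_eq_sum_eigenvalues, Fin.sum_univ_two]
    push_cast
    rfl
  · rw [hA.det_eq_prod_eigenvalues, Fin.prod_univ_two]
    push_cast
    rfl

/-- Hermitian `2 × 2` matrices with the same trace and determinant are unitarily conjugate. -/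
theorem conj_twoK {P Q : Matrix (Fin 2) (Fin 2) 𝕜} (hP : P.IsHermitian) (hQ : Q.IsHermitian)
    (ht : P.trace = Q.trace) (hd : P.det = Q.det) :
    ∃ U : Matrix (Fin 2) (Fin 2) 𝕜, U * Uᴴ = 1 ∧ Q = U * P * Uᴴ := by
  obtain ⟨V, hV, l, eP, tP, dP⟩ := exists_diagK hP
  obtain ⟨V', hV', m, eQ, tQ, dQ⟩ := exists_diagK hQ
  have hVV : Vᴴ * V = 1 := mul_eq_one_comm.1 hV
  have h1 : l 0 + l 1 = m 0 + m 1 := by
    have := tP.symm.trans (ht.trans tQ)
    exact_mod_cast this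
  have h2 : l 0 * l 1 = m 0 * m 1 := by
    have := dP.symm.trans (hd.trans dQ)
    exact_mod_cast this
  have key : ∃ S : Matrix (Fin 2) (Fin 2) 𝕜, S * Sᴴ = 1 ∧
      diagonal (fun i => (m i : 𝕜)) = S * diagonal (fun i => (l i : 𝕜)) * Sᴴ := by
    have h3 : (l 0 - m 0) * (l 0 - m 1) = 0 := by
      linear_combination l 0 * h1 - h2
    rcases mul_eq_zero.1 h3 with h4 | h4
    · refine ⟨1, by simp, ?_⟩
      have h5 : l = m := by
        funext i
        fin_cases i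
        · show l 0 = m 0
          linarith
        · show l 1 = m 1
          linarith
      rw [h5]
      simp
    · refine ⟨!![0, 1; 1, 0], ?_, ?_⟩
      · ext i j
        fin_cases i <;> fin_cases j <;> simp [Matrix.mul_apply, Fin.sum_univ_two]
      · have h5 : l 0 = m 1 := by linarith
        have h6 : l 1 = m 0 := by linarith
        have h7 : ∀ e : Fin 2 → ℝ, diagonal (fun i => (e i : 𝕜)) =
            !![(e 0 : 𝕜), 0; 0, (e 1 : 𝕜)] := by
          intro e
          ext i j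
          fin_cases i <;> fin_cases j <;> simp
        have h8 : (!![0, 1; 1, 0] : Matrix (Fin 2) (Fin 2) 𝕜)ᴴ = !![0, 1; 1, 0] := by
          ext i j
          fin_cases i <;> fin_cases j <;> simp
        rw [h7, h7, h5, h6, h8]
        simp [RCLike.real_smul_eq_coe_mul]
  obtain ⟨S, hS, eS⟩ := key
  refine ⟨V' * S * Vᴴ, ?_, ?_⟩
  · calc V' * S * Vᴴ * (V' * S * Vᴴ)ᴴ = V' * (S * (Vᴴ * V) * Sᴴ) * V'ᴴ := by
          rw [conjTranspose_mul, conjTranspose_mul, conjTranspose_conjTranspose]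
          simp only [Matrix.mul_assoc]
      _ = 1 := by rw [hVV, Matrix.mul_one, hS, Matrix.mul_one, hV']
  · calc Q = V' * (S * diagonal (fun i => (l i : 𝕜)) * Sᴴ) * V'ᴴ := by rw [← eS, ← eQ]
      _ = V' * S * (Vᴴ * V) * diagonal (fun i => (l i : 𝕜)) * (Vᴴ * V) * Sᴴ * V'ᴴ := by
          rw [hVV, Matrix.mul_one, Matrix.mul_one]
          simp only [Matrix.mul_assoc]
      _ = V' * S * Vᴴ * (V * diagonal (fun i => (l i : 𝕜)) * Vᴴ) * (V' * S * Vᴴ)ᴴ := by
          rw [conjTranspose_mul, conjTranspose_mul, conjTranspose_conjTranspose]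
          simp only [Matrix.mul_assoc]
      _ = _ := by rw [← eP]

/-- The determinant of the Gram matrix of the rows. -/
noncomputable def gd {n : ℕ} (B : Matrix (Fin 2) (Fin n) 𝕜) : ℝ := RCLike.re (B * Bᴴ).det

/-- The trace of the Gram matrix of the rows. -/
noncomputable def gt {n : ℕ} (B : Matrix (Fin 2) (Fin n) 𝕜) : ℝ := RCLike.re (B * Bᴴ).trace

section Gram
variable {n : ℕ} (B : Matrix (Fin 2) (Fin n) 𝕜)

theorem gramK_herm : (B * Bᴴ).IsHermitian := Matrix.isHermitian_mul_conjTranspose_self B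

theorem gd_eq : (B * Bᴴ).det = (gd B : 𝕜) := by
  obtain ⟨U, -, d, -, -, h⟩ := exists_diagK (gramK_herm B)
  rw [gd, h, RCLike.ofReal_re]

theorem gt_eq : (B * Bᴴ).trace = (gt B : 𝕜) := by
  obtain ⟨U, -, d, -, h, -⟩ := exists_diagK (gramK_herm B)
  rw [gt, h, RCLike.ofReal_re]

theorem gd_nonneg : 0 ≤ gd B := by
  have h1 := (Matrix.posSemidef_self_mul_conjTranspose B).det_nonneg
  rw [gd_eq] at h1
  exact_mod_cast h1

theorem gt_nonneg : 0 ≤ gt B := by
  have h1 := (Matrix.posSemidef_self_mul_conjTranspose B).trace_nonneg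
  rw [gt_eq] at h1
  exact_mod_cast h1

theorem gt_pos {B : Matrix (Fin 2) (Fin n) 𝕜} (hB : B ≠ 0) : 0 < gt B := by
  refine lt_of_le_of_ne (gt_nonneg B) fun h0 => hB ?_
  rw [← Matrix.trace_mul_conjTranspose_self_eq_zero_iff, gt_eq, ← h0, RCLike.ofReal_zero]

theorem gd_le : 4 * gd B ≤ gt B ^ 2 := by
  obtain ⟨U, -, d, -, h1, h2⟩ := exists_diagK (gramK_herm B)
  rw [gd, gt, h1, h2, RCLike.ofReal_re, RCLike.ofReal_re]
  nlinarith [sq_nonneg (d 0 - d 1)]

end Gram

/-- A matrix with two rows is determined up to the unitary groups by the ratio of its singular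
values, up to a scalar. -/
theorem ratio_conjK {n : ℕ} {B C : Matrix (Fin 2) (Fin n) 𝕜} (hC : C ≠ 0)
    (h : gd B * gt C ^ 2 = gd C * gt B ^ 2) :
    ∃ U : Matrix (Fin 2) (Fin 2) 𝕜, U * Uᴴ = 1 ∧ ∃ W : Matrix (Fin n) (Fin n) 𝕜, W * Wᴴ = 1 ∧
      ∃ t : ℝ, B = t • (U * C * W) := by
  have hC0 : 0 < gt C := gt_pos hC
  set s := gt B / gt C with hs
  have hs0 : 0 ≤ s := div_nonneg (gt_nonneg B) hC0.le
  have hsC : s * gt C = gt B := div_mul_cancel₀ _ hC0.ne'
  have hsm : ∀ (c : ℝ) (A : Matrix (Fin 2) (Fin 2) 𝕜), c • A = (c : 𝕜) • A := by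
    intro c A
    ext i j
    simp [RCLike.real_smul_eq_coe_mul]
  obtain ⟨U, hU, e⟩ := conj_twoK (P := s • (C * Cᴴ)) (Q := B * Bᴴ)
    (by
      rw [Matrix.IsHermitian, conjTranspose_smul, star_trivial, (gramK_herm C).eq])
    (gramK_herm B)
    (by
      rw [hsm, Matrix.trace_smul, gt_eq, gt_eq, smul_eq_mul, ← hsC]
      push_cast
      rfl)
    (by
      rw [hsm, Matrix.det_smul, Fintype.card_fin, gd_eq, gd_eq]
      have h2 : gd B * gt C ^ 2 = s ^ 2 * gd C * gt C ^ 2 := by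
        rw [h, ← hsC]
        ring
      have h3 := mul_right_cancel₀ (pow_ne_zero 2 hC0.ne') h2
      rw [h3]
      push_cast
      rfl)
  have hU' : Uᴴ * U = 1 := mul_eq_one_comm.1 hU
  have h3 : (Uᴴ * B) * (Uᴴ * B)ᴴ = (Real.sqrt s • C) * (Real.sqrt s • C)ᴴ := by
    rw [conjTranspose_mul, conjTranspose_conjTranspose, Matrix.mul_assoc, ← Matrix.mul_assoc B,
      e, Matrix.mul_assoc, Matrix.mul_assoc, hU', Matrix.mul_one, ← Matrix.mul_assoc, hU',
      Matrix.one_mul, conjTranspose_smul, star_trivial, Matrix.smul_mul, Matrix.mul_smul,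
      smul_smul, Real.mul_self_sqrt hs0]
  obtain ⟨W, hW, e'⟩ := exists_unitary h3
  refine ⟨U, hU, W, hW, Real.sqrt s, ?_⟩
  calc B = U * (Uᴴ * B) := by rw [← Matrix.mul_assoc, hU, Matrix.one_mul]
    _ = Real.sqrt s • (U * C * W) := by
      rw [e', Matrix.smul_mul, Matrix.mul_smul, Matrix.mul_assoc]

end Pool.Agent.Helper20.CKP
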