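import Pool.Agent.Helper20.CKP.UN
import Pool.Agent.Helper29.CKP.UpqK
import Pool.Agent.Helper17.CKF.RK

/-!
# CKP: the groups `U(2, n; 𝕜)`
-/

set_option autoImplicit false

namespace Pool.Agent.Helper20.CKP

open Matrix Module Topology Filter NormedSpace Pool.Agent.Helper40.CK Pool.Agent.Helper17.CKF
  Pool.Agent.Helper29.CKP

theorem pdataK (K : Type) [RCLike K] (r n : ℕ) : PData K r n (UpqK K r n) (pcK K r n) where
  red := isReductive_upqK K r n
  inj := fun _ _ h => pcK_inj h
  mem := fun _ => mem_pSpace_upqK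
  conj := fun _ _ hU hW => conj_upqK hU hW
  conj' := fun _ hg ho => conj_upqK' hg ho
  comm := fun _ _ h => pcK_commute.1 h
  triple := fun B C => pcK_triple B C

end Pool.Agent.Helper20.CKP
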