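import Pool.Agent.Helper29.CKP.UpqK

/-!
# CKP: the list of the spaces `p` for `U(2, n; K)`
-/

set_option autoImplicit false

namespace Pool.Agent.Helper20.CKP

open Matrix Pool.Agent.Helper29.CKP

/-- The spaces `p` of the list: zero, the whole space, or `n` is even and it is the space of the
`P(u xᵀ)` for a fixed nonzero `u`, or of the `P(B)` with the rows `x`, `S (conj x)` of `B` for a fixed
skew matrix `S` with orthonormal columns. -/
def TwoList (K : Type) [RCLike K] (n : ℕ)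
    (q : Submodule ℝ (Matrix (Fin ((2 + n) + (2 + n))) (Fin ((2 + n) + (2 + n))) ℝ)) : Prop :=
  q = ⊥ ∨ q = pSpace (UpqK K 2 n) ∨ (Even n ∧
    ((∃ u : Fin 2 → K, u ≠ 0 ∧ ∀ X, X ∈ q ↔ ∃ x : Fin n → K, X = pcK K 2 n (vecMulVec u x)) ∨
      ∃ S : Matrix (Fin n) (Fin n) K, Sᵀ = -S ∧ S * Sᴴ = 1 ∧
        ∀ X, X ∈ q ↔ ∃ x : Fin n → K, X = pcK K 2 n (Matrix.of ![x, S *ᵥ star x])))

end Pool.Agent.Helper20.CKP
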