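import Pool.Agent.Helper20.CKP.StdD
import Pool.Agent.Helper20.CKP.TwoList

/-!
# CKP: standard quotients of `U(2, n; K)` by its reductive subgroups
-/

set_option autoImplicit false

namespace Pool.Agent.Helper20.CKP

open Matrix Module Topology Filter NormedSpace Pool.Agent.Helper40.CK Pool.Agent.Helper17.CKF
  Pool.Agent.Helper29.CKP

variable {K : Type} [RCLike K] {n : ℕ}

/-- There is a skew matrix with orthonormal columns if `n` is even. -/
theorem exists_S (hn : Even n) : ∃ S : Matrix (Fin n) (Fin n) K, Sᵀ = -S ∧ S * Sᴴ = 1 := by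
  obtain ⟨m, rfl⟩ := hn
  have h1 : (ckb 0 1 (-1) 0 : Matrix (Fin (m + m)) (Fin (m + m)) K)ᴴ = ckb 0 (-1) 1 0 := by
    rw [ckb_star]
    simp
  refine ⟨ckb 0 1 (-1) 0, ?_, ?_⟩
  · rw [ckb_neg, ckb, transpose_submatrix, fromBlocks_transpose, ckb]
    simp
  · rw [h1, ckb_mul, ← ckb_one]
    congr 1 <;> simp

/-- A unit vector orthogonal to a given vector. -/
theorem exists_perp {u : Fin 2 → K} (hu : u ≠ 0) : ∃ e : Fin 2 → K, hip e e = 1 ∧
    ∀ w : Fin 2 → K, hip e w = 0 ↔ ∃ c : K, w = c • u := by
  have hpos := re_hip_self_pos hu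
  have hself := hip_self u
  set s : ℝ := RCLike.re (hip u u) with hs
  have hsq : Real.sqrt s ^ 2 = s := Real.sq_sqrt hpos.le
  have hr : 0 < Real.sqrt s := Real.sqrt_pos.2 hpos
  have hval : hip u u = star (u 0) * u 0 + star (u 1) * u 1 := by
    rw [hip, dotProduct, Fin.sum_univ_two]
    rfl
  set v : Fin 2 → K := ![-star (u 1), star (u 0)] with hv
  have hvv : hip v v = (s : K) := by
    rw [← hself, hval, hip, dotProduct, Fin.sum_univ_two]
    show star (-star (u 1)) * (-star (u 1)) + star (star (u 0)) * star (u 0) = _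
    rw [star_neg, star_star, star_star, neg_mul_neg]
    ring
  have hvw : ∀ w : Fin 2 → K, hip v w = u 0 * w 1 - u 1 * w 0 := by
    intro w
    rw [hip, dotProduct, Fin.sum_univ_two]
    show star (-star (u 1)) * w 0 + star (star (u 0)) * w 1 = _
    rw [star_neg, star_star, star_star]
    ring
  refine ⟨(Real.sqrt s)⁻¹ • v, ?_, fun w => ?_⟩
  · rw [hip_rsmul_right, hip_rsmul_left, hvv, ← RCLike.ofReal_mul, ← RCLike.ofReal_mul]
    have h1 : (Real.sqrt s)⁻¹ * ((Real.sqrt s)⁻¹ * s) = 1 := by
      nth_rewrite 3 [← hsq]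
      field_simp
    rw [h1, RCLike.ofReal_one]
  · rw [hip_rsmul_left, hvw, mul_eq_zero]
    constructor
    · rintro (h | h)
      · exfalso
        rw [RCLike.ofReal_eq_zero] at h
        exact (inv_ne_zero hr.ne') h
      · by_cases h0 : u 0 = 0
        · have h1 : u 1 ≠ 0 := by
            intro h1
            apply hu
            funext i
            fin_cases i
            · exact h0
            · exact h1
          rw [h0, zero_mul, zero_sub, neg_eq_zero, mul_eq_zero] at h
          refine ⟨w 1 / u 1, ?_⟩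
          funext i
          fin_cases i
          · show w 0 = w 1 / u 1 * u 0
            rw [h0, mul_zero, h.resolve_left h1]
          · show w 1 = w 1 / u 1 * u 1
            field_simp
        · refine ⟨w 0 / u 0, ?_⟩
          funext i
          fin_cases i
          · show w 0 = w 0 / u 0 * u 0
            field_simp
          · show w 1 = w 0 / u 0 * u 1
            field_simp
            linear_combination h
    · rintro ⟨c, rfl⟩
      right
      simp only [Pi.smul_apply, smul_eq_mul]
      ring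

/-- The space `p` of the first group. -/
theorem mem_pSpace_three {e u : Fin 2 → K} (he : hip e e = 1)
    (h : ∀ w : Fin 2 → K, hip e w = 0 ↔ ∃ c : K, w = c • u)
    {X : Matrix (Fin ((2 + n) + (2 + n))) (Fin ((2 + n) + (2 + n))) ℝ} :
    X ∈ pSpace ((LC K 2 n (R3 n e)).map (UpqK K 2 n).subtype) ↔
      ∃ x : Fin n → K, X = pcK K 2 n (vecMulVec u x) := by
  rw [mem_pSpace_LC (R3_orth he)]
  have hcol : ∀ (B : Matrix (Fin 2) (Fin n) K) (j : Fin n),
      refl e *ᵥ (fun i => B i j) = (fun i => B i j) - (2 * hip e (fun i => B i j)) • e := by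
    intro B j
    rw [refl, Matrix.sub_mulVec, Matrix.one_mulVec, Matrix.smul_mulVec, vecMulVec_mulVec]
    congr 1
    funext i
    simp only [Pi.smul_apply, smul_eq_mul, MulOpposite.smul_eq_mul_unop, MulOpposite.unop_op, hip]
    ring
  have hiff : ∀ B : Matrix (Fin 2) (Fin n) K, refl e * B = B ↔
      ∀ j, hip e (fun i => B i j) = 0 := by
    intro B
    have h1 : refl e * B = B ↔ ∀ j, refl e *ᵥ (fun i => B i j) = fun i => B i j := by
      constructor
      · intro h2 j
        funext i
        exact congrFun (congrFun h2 i) j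
      · intro h2
        ext i j
        exact congrFun (h2 j) i
    rw [h1]
    refine forall_congr' fun j => ?_
    rw [hcol, sub_eq_self, smul_eq_zero, mul_eq_zero]
    constructor
    · rintro ((h2 | h2) | h2)
      · exact absurd h2 two_ne_zero
      · exact h2
      · rw [h2] at he
        simp [hip] at he
    · intro h2
      exact Or.inl (Or.inr h2)
  constructor
  · rintro ⟨h1, h2⟩
    obtain ⟨B, rfl⟩ := mem_pSpace_upqK.1 h1
    rw [pcK_R3, hiff] at h2
    choose c hc using fun j => (h _).1 (h2 j)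
    refine ⟨c, ?_⟩
    congr 1
    ext i j
    rw [vecMulVec_apply, mul_comm]
    exact congrFun (hc j) i
  · rintro ⟨x, rfl⟩
    refine ⟨mem_pSpace_upqK.2 ⟨_, rfl⟩, ?_⟩
    rw [pcK_R3, hiff]
    intro j
    rw [h]
    refine ⟨x j, ?_⟩
    funext i
    rw [vecMulVec_apply, Pi.smul_apply, smul_eq_mul, mul_comm]

/-- The space `p` of the second group. -/
theorem mem_pSpace_four {S : Matrix (Fin n) (Fin n) K} (hT : Sᵀ = -S) (hS : S * Sᴴ = 1)
    {X : Matrix (Fin ((2 + n) + (2 + n))) (Fin ((2 + n) + (2 + n))) ℝ} :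
    X ∈ pSpace ((LC K 2 n (R4 S)).map (UpqK K 2 n).subtype) ↔
      ∃ x : Fin n → K, X = pcK K 2 n (Matrix.of ![x, S *ᵥ star x]) := by
  rw [mem_pSpace_LC (R4_orth hS)]
  constructor
  · rintro ⟨h1, h2⟩
    obtain ⟨B, rfl⟩ := mem_pSpace_upqK.1 h1
    rw [pcK_R4 hT, rows_iff hT hS] at h2
    obtain ⟨y, rfl⟩ := h2
    exact ⟨y, rfl⟩
  · rintro ⟨x, rfl⟩
    refine ⟨mem_pSpace_upqK.2 ⟨_, rfl⟩, ?_⟩
    rw [pcK_R4 hT, rows_iff hT hS]
    exact ⟨x, rfl⟩

/-- The standard quotients. -/
theorem exists_standard {H : Subgroup (UpqK K 2 n)}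
    (hH : IsReductive (H.map (UpqK K 2 n).subtype))
    (h : TwoList K n (pSpace (H.map (UpqK K 2 n).subtype))) :
    ∃ L : Subgroup (UpqK K 2 n), IsReductive (L.map (UpqK K 2 n).subtype) ∧
      ActsProperlyCocompactly L H := by
  have hred := isReductive_upqK K 2 n
  have hCH : Cartan (oneM hred.closed) H (pSpace (H.map (UpqK K 2 n).subtype)) := cartan_one _ hH
  rcases h with h | h | ⟨hev, ⟨u, hu, h⟩ | ⟨S, hT, hS, h⟩⟩
  · refine ⟨⊤, ?_, ?_⟩
    · rw [map_top_subtype]
      exact hred
    · rw [h] at hCH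
      exact acts_top (oneM hred.closed) hCH
  · refine ⟨⊥, ?_, ?_⟩
    · rw [Subgroup.map_bot]
      refine ⟨?_, ?_, ?_⟩
      · rw [Subgroup.coe_bot]
        exact isClosed_singleton
      · intro g hg
        refine ⟨1, Subgroup.one_mem _, ?_⟩
        rw [Subgroup.mem_bot.1 hg, Units.val_one, transpose_one]
      · intro X hX hX1 t
        rw [Subgroup.mem_bot] at hX1 ⊢
        have h1 : NormedSpace.exp X = NormedSpace.exp 0 := by
          rw [exp_zero, ← expGL_val, hX1, Units.val_one]
        have h2 : X = 0 := Pool.Agent.Helper17.CKF.exp_inj hX transpose_zero h1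
        rw [h2, smul_zero]
        apply Units.ext
        rw [expGL_val, exp_zero, Units.val_one]
    · rw [h] at hCH
      exact acts_bot (oneM hred.closed) (cartan_top hred) hCH
  · obtain ⟨S, hT, hS⟩ := exists_S (K := K) hev
    obtain ⟨e, he, hperp⟩ := exists_perp hu
    refine ⟨LC K 2 n (R4 S), isReductive_LC (R4_orth hS), ?_⟩
    have h3 := cartan_one hred.closed (isReductive_LC (r := 2) (n := n) (K := K) (R3_orth (n := n) he))
    have h4 : pSpace ((LC K 2 n (R3 n e)).map (UpqK K 2 n).subtype) =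
        pSpace (H.map (UpqK K 2 n).subtype) := by
      ext X
      rw [mem_pSpace_three he hperp, h]
    rw [h4] at h3
    exact acts_congr _ h3 hCH (acts_four_three he hT hS)
  · have he : hip (![1, 0] : Fin 2 → K) ![1, 0] = 1 := by
      simp [hip, dotProduct, Fin.sum_univ_two]
    refine ⟨LC K 2 n (R3 n ![1, 0]), isReductive_LC (R3_orth he), ?_⟩
    have h3 := cartan_one hred.closed (isReductive_LC (r := 2) (n := n) (K := K) (R4_orth hS))
    have h4 : pSpace ((LC K 2 n (R4 S)).map (UpqK K 2 n).subtype) =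
        pSpace (H.map (UpqK K 2 n).subtype) := by
      ext X
      rw [mem_pSpace_four hT hS, h]
    rw [h4] at h3
    exact acts_congr _ h3 hCH (acts_symm (acts_four_three he hT hS))

end Pool.Agent.Helper20.CKP
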