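import Pool.Agent.Helper20.CKP.ROneK
import Pool.Agent.Helper20.CKP.UNK
import Pool.Agent.Helper20.CKP.TwoRows
import Pool.Agent.Helper29.ZBU.Spheres

/-!
# CKP: the parity of `n` for the subgroups of type `U(1, n; K)`
-/

set_option autoImplicit false

namespace Pool.Agent.Helper20.CKP

open Matrix Module Finset Topology Filter NormedSpace Pool.Agent.Helper40.CK
  Pool.Agent.Helper17.CKF Pool.Agent.Helper29.CKP Pool.Agent.Helper29.ZBU

/-- The characters: the first `a` functions are odd in both variables, the others in the second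
variable only. -/
def chr (a b : ℕ) (j : Fin (a + b)) (i : Bool) : ZMod 2 :=
  if i = true then (if (j : ℕ) < a then 1 else 0) else 1

theorem card_chr (a b k : ℕ) :
    (univ.filter fun σ : Fin (a + b) → Bool => (∀ j, chr a b j (σ j) = 1) ∧
      ∀ i, (univ.filter fun j => σ j = i).card = (if i = true then k else a + b - k)).card =
    a.choose k := by
  classical
  have h0 : (univ.filter fun j : Fin (a + b) => (j : ℕ) < a).card = a := by
    have h1 : (univ.filter fun j : Fin (a + b) => (j : ℕ) < a) =
        (univ : Finset (Fin a)).map (Fin.castAddEmb b) := by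
      ext j
      simp only [mem_filter, mem_univ, true_and, Finset.mem_map]
      constructor
      · intro h
        exact ⟨⟨j, h⟩, rfl⟩
      · rintro ⟨i, rfl⟩
        exact i.2
    rw [h1, card_map, card_univ, Fintype.card_fin]
  conv_rhs => rw [← h0, ← card_powersetCard]
  refine card_nbij' (fun σ => univ.filter fun j => σ j = true) (fun s j => decide (j ∈ s)) ?_ ?_ ?_ ?_
  · intro σ hσ
    rw [mem_coe, mem_filter] at hσ
    obtain ⟨-, h1, h2⟩ := hσ
    rw [mem_coe, mem_powersetCard]
    refine ⟨fun j hj => ?_, by simpa using h2 true⟩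
    rw [mem_filter] at hj ⊢
    refine ⟨mem_univ _, ?_⟩
    by_contra h
    have h3 := h1 j
    rw [hj.2, chr, if_pos rfl, if_neg h] at h3
    exact absurd h3 (by decide)
  · intro s hs
    rw [mem_coe, mem_powersetCard] at hs
    rw [mem_coe, mem_filter]
    have h3 : (univ.filter fun j => decide (j ∈ s) = true) = s := by
      ext j
      simp
    refine ⟨mem_univ _, fun j => ?_, fun i => ?_⟩
    · by_cases hj : j ∈ s
      · have := hs.1 hj
        rw [mem_filter] at this
        simp [chr, hj, this.2]
      · simp [chr, hj]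
    · cases i with
      | true => simpa [h3] using hs.2
      | false =>
        have h4 : (univ.filter fun j => decide (j ∈ s) = false) = univ \ s := by
          ext j
          simp
        rw [h4, card_sdiff_of_subset (subset_univ _), hs.2]
        simp
  · intro σ _
    funext j
    simp
  · intro s _
    ext j
    simp

/-- A continuous odd map from a space of dimension `(m + 1) n d` without the origin to the
`(m + 2) × n` matrices over `K`, `n` odd, takes a value of rank at most one. -/
theorem exists_rank_one {K : Type} [RCLike K] {m n : ℕ} (hn : Odd n) {E : Type} [AddCommGroup E]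
    [Module ℝ E] [TopologicalSpace E] [IsTopologicalAddGroup E] [ContinuousSMul ℝ E] [T2Space E]
    [FiniteDimensional ℝ E] (hE : finrank ℝ E = (m + 1) * (n * finrank ℝ K))
    (B : E → Matrix (Fin (m + 2)) (Fin n) K) (hB : ContinuousOn B {0}ᶜ)
    (hodd : ∀ x, x ≠ 0 → B (-x) = -B x) :
    ∃ x, x ≠ 0 ∧ ∃ (w : Fin (m + 2) → K) (y : Fin n → K), B x = vecMulVec w y := by
  classical
  set d := finrank ℝ K with hd
  have hd12 : d = 1 ∨ d = 2 := by
    rcases RCLike.I_eq_zero_or_im_I_eq_one (K := K) with hI | hI
    · left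
      rw [hd, (RCLike.realLinearIsometryEquiv hI).toLinearEquiv.finrank_eq]
      exact Module.finrank_self ℝ
    · right
      exact finrank_K hI
  have hd0 : 1 ≤ d := by omega
  have hn0 : 1 ≤ n := hn.pos
  have hnd : d ≤ n * d := Nat.le_mul_of_pos_left d hn0
  have hND : (m + 1) * (n * d) = n * d + m * (n * d) := by ring
  -- the spheres
  set aa : Bool → ℕ := fun i => if i = true then d else n * d + m * (n * d) - d with haa
  let Φ : (Fin (aa true + 1) → ℝ) ≃ₗ[ℝ] (ℝ × K) := LinearEquiv.ofFinrankEq _ _ (by
    rw [finrank_fin_fun, finrank_prod, finrank_self]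
    show d + 1 = 1 + d
    omega)
  obtain ⟨Ψ, hΨ⟩ := exists_inj (E := E) (m := aa false + 1) (by
    rw [hE, hND]
    show n * d + m * (n * d) - d + 1 ≤ _
    omega)
  have hΨ0 : ∀ x, x ≠ 0 → Ψ x ≠ 0 := fun x hx h => hx (hΨ (by rw [h, map_zero]))
  let Θ : (Fin n → K) ≃ₗ[ℝ] (Fin (n * d) → ℝ) := LinearEquiv.ofFinrankEq _ _ (by
    rw [finrank_fin_fun, finrank_pi_fintype]
    simp [hd])
  let Θ' : (Fin m → Fin n → K) ≃ₗ[ℝ] (Fin (m * (n * d)) → ℝ) := LinearEquiv.ofFinrankEq _ _ (by
    rw [finrank_fin_fun, finrank_pi_fintype]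
    simp [finrank_pi_fintype, hd])
  let T : (∀ i : Bool, Fin (aa i + 1) → ℝ) → Matrix (Fin (m + 2)) (Fin n) K := fun x => B (Ψ (x false))
  let g1 : (∀ i : Bool, Fin (aa i + 1) → ℝ) → Fin n → K := fun x =>
    (Φ (x true)).1 • T x 1 - (Φ (x true)).2 • T x 0
  let g2 : (∀ i : Bool, Fin (aa i + 1) → ℝ) → Fin m → Fin n → K := fun x i => T x i.succ.succ
  let f : (∀ i : Bool, Fin (aa i + 1) → ℝ) → Fin (n * d + m * (n * d)) → ℝ := fun x =>
    Fin.append (Θ (g1 x)) (Θ' (g2 x))
  have hne : ∀ x : (∀ i : Bool, Fin (aa i + 1) → ℝ), (∀ i, ‖x i‖ = 1) → ∀ i, x i ≠ 0 := by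
    intro x hx i h
    have := hx i
    rw [h, norm_zero] at this
    exact zero_ne_one this
  have hT : ContinuousOn T {x | ∀ i, ‖x i‖ = 1} := by
    refine hB.comp (Ψ.continuous_of_finiteDimensional.comp (continuous_apply false)).continuousOn ?_
    intro x hx
    exact hΨ0 _ (hne x hx false)
  have hf : ContinuousOn f {x | ∀ i, ‖x i‖ = 1} := by
    have hTr : ∀ i, ContinuousOn (fun x => T x i) {x | ∀ i, ‖x i‖ = 1} := fun i =>
      (continuous_apply i).comp_continuousOn hT
    have hΦ : Continuous fun x : (∀ i : Bool, Fin (aa i + 1) → ℝ) => Φ (x true) :=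
      (LinearMap.continuous_of_finiteDimensional Φ.toLinearMap).comp (continuous_apply true)
    have hg1 : ContinuousOn g1 {x | ∀ i, ‖x i‖ = 1} :=
      ((continuous_fst.comp hΦ).continuousOn.smul (hTr 1)).sub
        ((continuous_snd.comp hΦ).continuousOn.smul (hTr 0))
    have hg2 : ContinuousOn g2 {x | ∀ i, ‖x i‖ = 1} := continuousOn_pi.2 fun i => hTr i.succ.succ
    have h1 : ContinuousOn (fun x => Θ (g1 x)) {x | ∀ i, ‖x i‖ = 1} :=
      (LinearMap.continuous_of_finiteDimensional Θ.toLinearMap).comp_continuousOn hg1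
    have h2 : ContinuousOn (fun x => Θ' (g2 x)) {x | ∀ i, ‖x i‖ = 1} :=
      (LinearMap.continuous_of_finiteDimensional Θ'.toLinearMap).comp_continuousOn hg2
    refine continuousOn_pi.2 fun j => ?_
    refine Fin.addCases (fun j => ?_) (fun j => ?_) j
    · have h3 := (continuous_apply j).comp_continuousOn h1
      refine h3.congr fun x _ => ?_
      show Fin.append (Θ (g1 x)) (Θ' (g2 x)) (Fin.castAdd _ j) = _
      rw [Fin.append_left]
      rfl
    · have h3 := (continuous_apply j).comp_continuousOn h2
      refine h3.congr fun x _ => ?_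
      show Fin.append (Θ (g1 x)) (Θ' (g2 x)) (Fin.natAdd _ j) = _
      rw [Fin.append_right]
      rfl
  have hch : Odd ((n * d).choose d) := by
    rcases hd12 with h | h
    · rw [h, mul_one, Nat.choose_one_right]
      exact hn
    · rw [h, Nat.choose_two_right]
      obtain ⟨k, rfl⟩ := hn
      have h1 : (2 * k + 1) * 2 * ((2 * k + 1) * 2 - 1) / 2 = (2 * k + 1) * (4 * k + 1) := by
        have h2 : (2 * k + 1) * 2 - 1 = 4 * k + 1 := by omega
        rw [h2, mul_assoc, mul_comm 2 (4 * k + 1), ← mul_assoc, Nat.mul_div_cancel _ (by norm_num)]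
      rw [h1]
      exact (odd_two_mul_add_one k).mul ⟨2 * k, by ring⟩
  rw [← card_chr (n * d) (m * (n * d)) d] at hch
  obtain ⟨x, hx, hx0⟩ := zero_spheres aa (fun i => Fin (aa i + 1) → ℝ)
    (fun i => by rw [finrank_fin_fun]) (d := n * d + m * (n * d)) (by
      simp [haa]
      omega) (chr (n * d) (m * (n * d))) (by convert hch) f hf (by
      intro x hx i j
      have hTn : i = false → T (Function.update x i (-x i)) = -T x := by
        rintro rfl
        show B (Ψ (Function.update x false (-x false) false)) = -B (Ψ (x false))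
        rw [Function.update_self, map_neg, hodd _ (hΨ0 _ (hne x hx false))]
      have hTp : i = true → T (Function.update x i (-x i)) = T x := by
        rintro rfl
        show B (Ψ (Function.update x true (-x true) false)) = B (Ψ (x false))
        rw [Function.update_of_ne (by decide)]
      have hg1 : g1 (Function.update x i (-x i)) = -g1 x := by
        cases i with
        | true =>
          show (Φ (Function.update x true (-x true) true)).1 • T (Function.update x true (-x true)) 1 -
            (Φ (Function.update x true (-x true) true)).2 • T (Function.update x true (-x true)) 0 = -_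
          rw [hTp rfl, Function.update_self, map_neg, Prod.fst_neg, Prod.snd_neg, neg_smul, neg_smul]
          show _ = -((Φ (x true)).1 • T x 1 - (Φ (x true)).2 • T x 0)
          rw [neg_sub, neg_sub_neg]
        | false =>
          show (Φ (Function.update x false (-x false) true)).1 •
              T (Function.update x false (-x false)) 1 -
            (Φ (Function.update x false (-x false) true)).2 •
              T (Function.update x false (-x false)) 0 = -_
          rw [hTn rfl, Function.update_of_ne (by decide)]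
          show (Φ (x true)).1 • -(T x 1) - (Φ (x true)).2 • -(T x 0) =
            -((Φ (x true)).1 • T x 1 - (Φ (x true)).2 • T x 0)
          rw [smul_neg, smul_neg, neg_sub, neg_sub_neg]
      refine Fin.addCases (fun j => ?_) (fun j => ?_) j
      · show Fin.append (Θ (g1 _)) (Θ' (g2 _)) (Fin.castAdd _ j) =
          _ * Fin.append (Θ (g1 x)) (Θ' (g2 x)) (Fin.castAdd _ j)
        rw [Fin.append_left, Fin.append_left, hg1, map_neg, Pi.neg_apply]
        have h1 : chr (n * d) (m * (n * d)) (Fin.castAdd (m * (n * d)) j) i = 1 := by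
          cases i <;> simp [chr]
        rw [h1, sgn, if_neg (by decide), neg_one_mul]
      · show Fin.append (Θ (g1 _)) (Θ' (g2 _)) (Fin.natAdd _ j) =
          _ * Fin.append (Θ (g1 x)) (Θ' (g2 x)) (Fin.natAdd _ j)
        rw [Fin.append_right, Fin.append_right]
        cases i with
        | true =>
          have h1 : chr (n * d) (m * (n * d)) (Fin.natAdd (n * d) j) true = 0 := by
            simp [chr]
          have h2 : g2 (Function.update x true (-x true)) = g2 x := by
            funext i
            show T (Function.update x true (-x true)) i.succ.succ = T x i.succ.succ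
            rw [hTp rfl]
          rw [h1, sgn, if_pos rfl, one_mul, h2]
        | false =>
          have h1 : chr (n * d) (m * (n * d)) (Fin.natAdd (n * d) j) false = 1 := by
            simp [chr]
          have h2 : g2 (Function.update x false (-x false)) = -g2 x := by
            funext i
            show T (Function.update x false (-x false)) i.succ.succ = -T x i.succ.succ
            rw [hTn rfl]
            rfl
          rw [h1, sgn, if_neg (by decide), neg_one_mul, h2, map_neg, Pi.neg_apply])
  have h1 : g1 x = 0 := by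
    apply Θ.map_eq_zero_iff.1
    funext j
    have h3 := congrFun hx0 (Fin.castAdd _ j)
    have h4 : Fin.append (Θ (g1 x)) (Θ' (g2 x)) (Fin.castAdd _ j) = 0 := h3
    rwa [Fin.append_left] at h4
  have h2 : g2 x = 0 := by
    apply Θ'.map_eq_zero_iff.1
    funext j
    have h3 := congrFun hx0 (Fin.natAdd _ j)
    have h4 : Fin.append (Θ (g1 x)) (Θ' (g2 x)) (Fin.natAdd _ j) = 0 := h3
    rwa [Fin.append_right] at h4
  refine ⟨Ψ (x false), hΨ0 _ (hne x hx false), ?_⟩
  have hc : Φ (x true) ≠ 0 := fun h => hne x hx true (Φ.map_eq_zero_iff.1 h)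
  have h3 : (Φ (x true)).1 • T x 1 = (Φ (x true)).2 • T x 0 := sub_eq_zero.1 h1
  have h4 : ∀ i : Fin m, T x i.succ.succ = 0 := fun i => congrFun h2 i
  by_cases ha : (Φ (x true)).1 = 0
  · have hb : (Φ (x true)).2 ≠ 0 := fun hb => hc (Prod.ext ha hb)
    rw [ha, zero_smul] at h3
    have h5 : T x 0 = 0 := (smul_eq_zero.1 h3.symm).resolve_left hb
    refine ⟨Pi.single 1 1, T x 1, ?_⟩
    show T x = _
    ext i j
    rw [vecMulVec_apply]
    refine Fin.cases ?_ (fun i => ?_) i
    · rw [h5]
      simp
    · refine Fin.cases ?_ (fun i => ?_) i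
      · simp
      · rw [h4]
        have h6 : (i.succ.succ : Fin (m + 2)) ≠ 1 := by
          intro h
          have := congrArg Fin.val h
          simp at this
        rw [Pi.single_eq_of_ne h6, zero_mul]
        rfl
  · refine ⟨fun i => if i = 0 then 1 else if i = 1 then ((((Φ (x true)).1)⁻¹ : ℝ) : K) *
      (Φ (x true)).2 else 0, T x 0, ?_⟩
    show T x = _
    ext i j
    rw [vecMulVec_apply]
    refine Fin.cases ?_ (fun i => ?_) i
    · simp
    · refine Fin.cases ?_ (fun i => ?_) i
      · have h5 : T x 1 = (((Φ (x true)).1)⁻¹ : ℝ) • ((Φ (x true)).2 • T x 0) := by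
          rw [← h3, smul_smul, inv_mul_cancel₀ ha, one_smul]
        have h6 := congrFun h5 j
        have h7 : (1 : Fin (m + 2)) ≠ 0 := by simp
        show T x 1 j = (if (1 : Fin (m + 2)) = 0 then 1 else if (1 : Fin (m + 2)) = 1 then
          ((((Φ (x true)).1)⁻¹ : ℝ) : K) * (Φ (x true)).2 else 0) * T x 0 j
        rw [if_neg h7, if_pos rfl]
        rw [h6, Pi.smul_apply, Pi.smul_apply, smul_eq_mul, RCLike.real_smul_eq_coe_mul, mul_assoc]
      · rw [h4]
        have h6 : (i.succ.succ : Fin (m + 2)) ≠ 1 := by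
          intro h
          have := congrArg Fin.val h
          simp at this
        rw [if_neg (Fin.succ_ne_zero _), if_neg h6, zero_mul]
        rfl

/-- All matrices of rank one are conjugate, up to the right factor. -/
theorem rank_one_conj {K : Type} [RCLike K] {r n : ℕ} {u : Fin r → K} (hu : u ≠ 0) (w : Fin r → K)
    (y : Fin n → K) : ∃ U : Matrix (Fin r) (Fin r) K, U * Uᴴ = 1 ∧ ∃ y' : Fin n → K,
      vecMulVec w y = U * vecMulVec u y' := by
  have hu0 : 0 < RCLike.re (hip u u) := re_hip_self_pos hu
  set c : ℝ := Real.sqrt (RCLike.re (hip w w) / RCLike.re (hip u u)) with hc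
  have hc2 : c ^ 2 = RCLike.re (hip w w) / RCLike.re (hip u u) :=
    Real.sq_sqrt (div_nonneg (re_hip_self_nonneg w) hu0.le)
  have hrow : ∀ v : Fin r → K, (replicateRow (Fin 1) (star v)) * (replicateRow (Fin 1) (star v))ᴴ =
      Matrix.of fun _ _ => hip v v := by
    intro v
    ext i j
    rw [Matrix.mul_apply, Matrix.of_apply, hip, dotProduct]
    refine Finset.sum_congr rfl fun k _ => ?_
    rw [conjTranspose_apply, replicateRow_apply, replicateRow_apply, Pi.star_apply, star_star]
  have h1 : (replicateRow (Fin 1) (star w)) * (replicateRow (Fin 1) (star w))ᴴ =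
      (replicateRow (Fin 1) (star (c • u))) * (replicateRow (Fin 1) (star (c • u)))ᴴ := by
    rw [hrow, hrow, hip_rsmul_right, hip_rsmul_left, hip_self u, hip_self w, ← RCLike.ofReal_mul,
      ← RCLike.ofReal_mul]
    congr
    funext _ _
    congr 1
    have h2 : c * (c * RCLike.re (hip u u)) = c ^ 2 * RCLike.re (hip u u) := by ring
    rw [h2, hc2, div_mul_cancel₀ _ hu0.ne']
  obtain ⟨W, hW, hW'⟩ := exists_unitary h1
  have hw : w = Wᴴ *ᵥ (c • u) := by
    funext j
    have h2 := congrFun (congrFun hW' 0) j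
    rw [replicateRow_apply, Pi.star_apply, Matrix.mul_apply] at h2
    have h3 := congrArg star h2
    rw [star_star, star_sum] at h3
    rw [h3, Matrix.mulVec, dotProduct]
    refine Finset.sum_congr rfl fun k _ => ?_
    rw [replicateRow_apply, conjTranspose_apply, Pi.star_apply, star_mul', star_star, mul_comm]
  refine ⟨Wᴴ, by rw [conjTranspose_conjTranspose]; exact mul_eq_one_comm.1 hW, c • y, ?_⟩
  rw [Matrix.mul_vecMulVec, hw, mulVec_smul]
  ext i j
  simp only [vecMulVec_apply, Pi.smul_apply]
  rw [smul_mul_assoc, mul_smul_comm]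

/-- If the space `p` of `H` is that of a group `U(1, n; K)`, then `n` is even. -/
theorem PData.even_n {K : Type} [RCLike K] {m n N : ℕ} {G : Subgroup (GL (Fin N) ℝ)}
    {P : Matrix (Fin (m + 2)) (Fin n) K →ₗ[ℝ] Matrix (Fin N) (Fin N) ℝ} {H : Subgroup G}
    (D : PData K (m + 2) n G P) (hH : IsReductive (H.map G.subtype)) (had : AdmitsCocompact H)
    {u : Fin (m + 2) → K} (hu : u ≠ 0)
    (h : ∀ B, B ∈ (pSpace (H.map G.subtype)).comap P ↔ ∃ x : Fin n → K, B = vecMulVec u x) :
    Even n := by
  classical
  by_contra hodd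
  rw [Nat.not_even_iff_odd] at hodd
  have hfr := D.finrank_comap hH
  have hle := map_le D.red hH
  set M := oneM D.red.closed with hM
  set q := pSpace (H.map G.subtype) with hq
  have hCG : Cartan M ⊤ (pSpace G) := cartan_top D.red
  have hCH : Cartan M H q := cartan_one _ hH
  obtain ⟨Γ, hΓ⟩ := had
  obtain ⟨F, hFc, hF⟩ := odd_map M hCG hCH hΓ
  obtain ⟨E, hE, hE1, hE2⟩ := finrank_perp q (pSpace G)
  -- dimensions
  have hq1 : finrank ℝ q = n * finrank ℝ K := by
    rw [← hfr]
    let e : (Fin n → K) →ₗ[ℝ] Matrix (Fin (m + 2)) (Fin n) K :=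
      { toFun := fun x => vecMulVec u x
        map_add' := fun x y => vecMulVec_add _ _ _
        map_smul' := fun c x => by
          ext i j
          simp only [vecMulVec_apply, Pi.smul_apply, Matrix.smul_apply, RingHom.id_apply]
          rw [mul_smul_comm] }
    have he : Function.Injective e := by
      intro x y hxy
      obtain ⟨i, hi⟩ := Function.ne_iff.1 hu
      funext j
      have h2 : u i * x j = u i * y j := congrFun (congrFun hxy i) j
      exact mul_left_cancel₀ hi h2
    have h2 : q.comap P = LinearMap.range e := by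
      ext B
      rw [h, LinearMap.mem_range]
      exact ⟨fun ⟨x, hx⟩ => ⟨x, hx.symm⟩, fun ⟨x, hx⟩ => ⟨x, hx.symm⟩⟩
    rw [h2, LinearMap.finrank_range_of_inj he, finrank_pi_fintype]
    simp
  have hp1 : finrank ℝ (pSpace G) = (m + 2) * (n * finrank ℝ K) := by
    have h1 : pSpace G = LinearMap.range P := by
      ext X
      rw [D.mem, LinearMap.mem_range]
      exact ⟨fun ⟨B, h⟩ => ⟨B, h.symm⟩, fun ⟨B, h⟩ => ⟨B, h.symm⟩⟩
    rw [h1, LinearMap.finrank_range_of_inj D.inj, Module.finrank_matrix, Fintype.card_fin,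
      Fintype.card_fin, mul_assoc]
  have hEd : finrank ℝ E = (m + 1) * (n * finrank ℝ K) := by
    have h1 := hE2 hle (fun X hX => hCG.symm X hX)
    have h2 : (m + 2) * (n * finrank ℝ K) = (m + 1) * (n * finrank ℝ K) + n * finrank ℝ K := by ring
    omega
  obtain ⟨c, hc⟩ := P.exists_leftInverse_of_injective (LinearMap.ker_eq_bot.2 D.inj)
  replace hc : ∀ B, c (P B) = B := fun B => LinearMap.congr_fun hc B
  have hx0 : ∀ x : E, x ≠ 0 → (x : Matrix (Fin N) (Fin N) ℝ) ≠ 0 := fun x hx h =>
    hx (Subtype.ext h)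
  have hxE := fun x : E => (hE x).1 x.2
  have hFp := fun (x : E) (hx : x ≠ 0) => hF x (hxE x).1 (hxE x).2 (hx0 x hx)
  have hPB : ∀ x : E, x ≠ 0 → F x = P (c (F x)) := by
    intro x hx
    obtain ⟨B, hB⟩ := (D.mem _).1 (hFp x hx).1
    rw [hB, hc]
  obtain ⟨x, hx, w, y, hxw⟩ := exists_rank_one hodd (E := E) hEd (fun x => c (F x)) (by
      have h1 : Continuous c := c.continuous_of_finiteDimensional
      refine h1.comp_continuousOn (hFc.comp continuous_subtype_val.continuousOn ?_)
      intro x hx
      exact ⟨(hxE x).1, (hxE x).2, hx0 x hx⟩)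
    (by
      intro x hx
      have h1 : ((-x : E) : Matrix (Fin N) (Fin N) ℝ) = -x := rfl
      show c (F ((-x : E) : Matrix (Fin N) (Fin N) ℝ)) = -c (F x)
      rw [h1, (hFp x hx).2.1, map_neg])
  obtain ⟨U, hU, y', hy'⟩ := rank_one_conj hu w y
  obtain ⟨g, hg, hg1, hg2⟩ := D.conj U 1 hU (by rw [conjTranspose_one, Matrix.one_mul])
  refine (hFp x hx).2.2 ⟨g, hg⟩ hg1 (P (vecMulVec u y')) ((h _).2 ⟨y', rfl⟩) ?_
  show F x = (g : Matrix (Fin N) (Fin N) ℝ) * P (vecMulVec u y') *
    (g : Matrix (Fin N) (Fin N) ℝ)ᵀ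
  rw [hg2, conjTranspose_one, Matrix.mul_one, ← hy', ← hxw, ← hPB x hx]

end Pool.Agent.Helper20.CKP
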