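import Pool.Agent.Helper29.CKP.Conj2

/-!
# CKP: a maximising conjugate
-/

set_option autoImplicit false

namespace Pool.Agent.Helper20.CKP

open Matrix Topology Filter NormedSpace Pool.Agent.Helper40.CK Pool.Agent.Helper17.CKF
  Pool.Agent.Helper29.CKP

variable {G : Type} [Group G] [TopologicalSpace G] [IsTopologicalGroup G] {n : ℕ}

/-- Every element of `q` is conjugate, by an orthogonal element of `H`, to an element commuting
with `t`. -/
theorem exists_conj_max {M : MatGroup G n} {H : Subgroup G}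
    {q : Submodule ℝ (Matrix (Fin n) (Fin n) ℝ)} (hH : Cartan M H q)
    {t z : Matrix (Fin n) (Fin n) ℝ} (ht : t ∈ q) (hz : z ∈ q) :
    ∃ k ∈ H, M.ι k * (M.ι k)ᵀ = 1 ∧ adm t (M.ι k * z * (M.ι k)ᵀ) = 0 ∧
      ∀ k' ∈ H, M.ι k' * (M.ι k')ᵀ = 1 →
        (M.ι k' * z * (M.ι k')ᵀ * t).trace ≤ (M.ι k * z * (M.ι k)ᵀ * t).trace := by
  have hcont : Continuous fun k : G => (M.ι k * z * (M.ι k)ᵀ * t).trace :=
    (((M.cont.mul continuous_const).mul M.cont.matrix_transpose).mul continuous_const).matrix_trace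
  obtain ⟨k, ⟨hk, hk'⟩, hmax⟩ := (isCompact_orth M hH.closed).exists_isMaxOn
    ⟨1, H.one_mem, by rw [map_one, transpose_one, one_mul]⟩ hcont.continuousOn
  refine ⟨k, hk, hk', ?_, fun k' h1 h2 => hmax (a := k') ⟨h1, h2⟩⟩
  set z' := M.ι k * z * (M.ι k)ᵀ with hz'
  have hz'q : z' ∈ q := cartan_conj hH hz hk hk'
  have htL := (cartan_eq hH).1 ht
  have hzL := (cartan_eq hH).1 hz'q
  set Y := adm t z' with hY
  have hYL : Y ∈ lie M H hH.closed := lie_mem_lie htL.1 hzL.1
  have hYt : Yᵀ = -Y := adm_skew htL.2 hzL.2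
  have hle : ∀ s : ℝ, (exp (s • Y) * z' * exp (s • (-Y)) * t).trace ≤ (z' * t).trace := by
    intro s
    obtain ⟨h, hh, e⟩ := hYL s
    have hsk : (s • Y)ᵀ = -(s • Y) := by rw [transpose_smul, hYt, smul_neg]
    have ho : M.ι h * (M.ι h)ᵀ = 1 := by rw [e]; exact exp_skew hsk
    have h1 := hmax (a := h * k) ⟨H.mul_mem hh hk, by
      rw [map_mul, transpose_mul, mul_assoc, ← mul_assoc (M.ι k), hk', one_mul, ho]⟩
    simp only [Set.mem_ofPred_eq] at h1
    have e2 : M.ι (h * k) * z * (M.ι (h * k))ᵀ = exp (s • Y) * z' * exp (s • (-Y)) := by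
      rw [map_mul, transpose_mul, e, ← Matrix.exp_transpose, hsk, hz', smul_neg]
      simp only [mul_assoc]
    rw [e2] at h1
    exact h1
  have hd : HasDerivAt (fun s : ℝ => (exp (s • Y) * z' * exp (s • (-Y)) * t).trace)
      ((Y * z' - z' * Y) * t).trace 0 := by
    have h := hasDerivAt_trace (hasDerivAt_mul (hasDerivAt_mul (hasDerivAt_mul (hasDerivAt_exp Y)
      (hasDerivAt_const' z')) (hasDerivAt_exp (-Y))) (hasDerivAt_const' t))
    have e : ((Y * z' + exp ((0 : ℝ) • Y) * 0) * exp ((0 : ℝ) • -Y) +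
        exp ((0 : ℝ) • Y) * z' * -Y) * t + exp ((0 : ℝ) • Y) * z' * exp ((0 : ℝ) • -Y) * 0 =
          (Y * z' - z' * Y) * t := by
      simp [sub_eq_add_neg]
    rw [e] at h
    exact h
  have hloc : IsLocalMax (fun s : ℝ => (exp (s • Y) * z' * exp (s • (-Y)) * t).trace) 0 := by
    refine Eventually.of_forall fun s => ?_
    show _ ≤ (exp ((0 : ℝ) • Y) * z' * exp ((0 : ℝ) • (-Y)) * t).trace
    rw [zero_smul, zero_smul, exp_zero, one_mul, mul_one]
    exact hle s
  have h0 := hloc.hasDerivAt_eq_zero hd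
  apply eq_zero_of_trace
  rw [hYt]
  have e3 : ((Y * z' - z' * Y) * t).trace = (-Y * Y).trace := by
    have h1 : (-Y * Y).trace = (Y * (z' * t)).trace - (Y * (t * z')).trace := by
      nth_rewrite 2 [hY]
      rw [adm_apply, neg_mul, mul_sub, trace_neg, trace_sub]
      ring
    rw [h1, sub_mul, trace_sub]
    congr 1
    · rw [mul_assoc]
    · rw [mul_assoc, trace_mul_comm, mul_assoc]
  rw [← e3, h0]


end Pool.Agent.Helper20.CKP
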