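import Pool.Agent.Helper20.CKP.Trans
import Pool.Agent.Helper20.CKP.MaxConj
import Pool.Agent.Helper17.CKF.O6

/-!
# CKP: assembly
-/

set_option autoImplicit false

namespace Pool.Agent.Helper20.CKP

open Matrix Module Topology Filter NormedSpace Pool.Agent.Helper40.CK Pool.Agent.Helper17.CKF

/-- Transitivity for a group of real rank one. -/
theorem trans_group {m : ℕ} {S : Type} [Group S] [TopologicalSpace S] [IsTopologicalGroup S]
    {M : MatGroup S m} {p : Submodule ℝ (Matrix (Fin m) (Fin m) ℝ)} (hC : Cartan M ⊤ p)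
    (hrank : ∀ X ∈ p, ∀ Y ∈ p, X * Y = Y * X → ¬ LinearIndependent ℝ ![X, Y])
    (hdim : finrank ℝ p ≠ 1) {X Y : Matrix (Fin m) (Fin m) ℝ} (hX : X ∈ p) (hY : Y ∈ p)
    (hXY : nrm X = nrm Y) : ∃ g : S, M.ι g * (M.ι g)ᵀ = 1 ∧ Y = M.ι g * X * (M.ι g)ᵀ := by
  obtain ⟨k, ⟨g, rfl, hg⟩, hk⟩ := trans_of (K := {k | ∃ g : S, M.ι g = k ∧ k * kᵀ = 1}) hC.symm
    ⟨1, map_one _, by simp⟩
    (fun k hk => by
      obtain ⟨g, rfl, hg⟩ := hk
      exact Pool.Agent.Helper29.CKP.transpose_mul_eq_one M hg)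
    (fun k hk X hX => by
      obtain ⟨g, rfl, hg⟩ := hk
      exact Pool.Agent.Helper29.CKP.cartan_conj hC hX (Subgroup.mem_top g) hg)
    (fun X hX Y hY => by
      obtain ⟨k, -, hk, h0, hmax⟩ := exists_conj_max hC hY hX
      refine ⟨M.ι k, ⟨k, rfl, hk⟩, ?_, ?_⟩
      · exact (sub_eq_zero.1 h0).symm
      · rintro _ ⟨k', rfl, hk'⟩
        exact hmax k' (Subgroup.mem_top k') hk')
    (fun X hX Y hY s => by
      have h1 := ((Pool.Agent.Helper29.CKP.cartan_eq hC).1 hX).1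
      have h2 := ((Pool.Agent.Helper29.CKP.cartan_eq hC).1 hY).1
      obtain ⟨g, -, hg⟩ := (Pool.Agent.Helper29.CKP.lie_mem_lie h1 h2) s
      refine ⟨g, hg, ?_⟩
      apply Pool.Agent.Helper29.CKP.exp_skew
      rw [transpose_smul, transpose_sub, transpose_mul, transpose_mul, hC.symm X hX,
        hC.symm Y hY, ← smul_neg]
      congr 1
      abel)
    hrank hdim hX hY hXY
  exact ⟨g, hg, hk⟩

section Product
variable {r : ℕ} {n : Fin r → ℕ} {G : ∀ i, Subgroup (GL (Fin (n i)) ℝ)}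

theorem main_of {N : ℕ} (blk : (∀ i, Matrix (Fin (n i)) (Fin (n i)) ℝ) →ₗ[ℝ] Matrix (Fin N) (Fin N) ℝ)
    (inv : Matrix (Fin N) (Fin N) ℝ →ₗ[ℝ] (∀ i, Matrix (Fin (n i)) (Fin (n i)) ℝ))
    (hinv : ∀ X, inv (blk X) = X)
    (hmul : ∀ X Y, blk X * blk Y = blk (fun i => X i * Y i))
    (htr : ∀ X, (blk X)ᵀ = blk (fun i => (X i)ᵀ))
    (htrace : ∀ X, (blk X).trace = ∑ i, (X i).trace)
    (hone : blk (fun i => 1) = 1)
    (M : MatGroup (∀ i, G i) N)
    (hM : ∀ g : ∀ i, G i, M.ι g =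
      blk (fun i => ((g i : GL (Fin (n i)) ℝ) : Matrix (Fin (n i)) (Fin (n i)) ℝ)))
    (Mi : ∀ i, MatGroup (G i) (n i))
    (hMi : ∀ i (g : G i), (Mi i).ι g = ((g : GL (Fin (n i)) ℝ) : Matrix (Fin (n i)) (Fin (n i)) ℝ))
    (hCi : ∀ i, Cartan (Mi i) ⊤ (pSpace (G i)))
    (hCG : Cartan M ⊤ ((Submodule.pi Set.univ fun i => pSpace (G i)).map blk))
    {H : Subgroup (∀ i, G i)} (hCH : Cartan M H ((pSub H).map blk))
    (hpH : ∀ X ∈ pSub H, ∀ i, X i ∈ pSpace (G i))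
    (h1 : ∀ i, IsRankOne (G i)) (had : AdmitsCocompact H) : ∃ B, ProjBij H B := by
  classical
  obtain ⟨Γ, hΓ⟩ := had
  obtain ⟨F, hFc, hF⟩ := odd_map M hCG hCH hΓ
  obtain ⟨a, ha, hacomm, haconj⟩ := Pool.Agent.Helper29.CKP.exists_abelian hCH
  have hblk0 : ∀ X, blk X = 0 → X = 0 := fun X h => by rw [← hinv X, h, map_zero]
  have hinj : ∀ X Y, blk X = blk Y → X = Y := fun X Y h => by rw [← hinv X, h, hinv]
  have hps : ∀ i, ∀ X ∈ pSpace (G i), Xᵀ = X := fun i => (hCi i).symm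
  have hmemP : ∀ X : ∀ i, Matrix (Fin (n i)) (Fin (n i)) ℝ, (∀ i, X i ∈ pSpace (G i)) →
      blk X ∈ (Submodule.pi Set.univ fun i => pSpace (G i)).map blk := fun X hX =>
    Submodule.mem_map_of_mem (by rw [Submodule.mem_pi]; exact fun i _ => hX i)
  have hPmem : ∀ Z ∈ (Submodule.pi Set.univ fun i => pSpace (G i)).map blk,
      (∀ i, inv Z i ∈ pSpace (G i)) ∧ blk (inv Z) = Z := by
    intro Z hZ
    obtain ⟨X, hX, rfl⟩ := Submodule.mem_map.1 hZ
    rw [Submodule.mem_pi] at hX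
    rw [hinv]
    exact ⟨fun i => hX i (Set.mem_univ i), rfl⟩
  have horth : ∀ X : ∀ i, Matrix (Fin (n i)) (Fin (n i)) ℝ,
      blk X * (blk X)ᵀ = 1 ↔ ∀ i, X i * (X i)ᵀ = 1 := by
    intro X
    rw [htr, hmul, ← hone]
    constructor
    · intro h i
      exact congrFun (hinj _ _ h) i
    · intro h
      exact congrArg blk (funext h)
  -- conjugation in blocks
  have hconjblk : ∀ k X : ∀ i, Matrix (Fin (n i)) (Fin (n i)) ℝ,
      blk k * blk X * (blk k)ᵀ = blk (fun i => k i * X i * (k i)ᵀ) := by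
    intro k X
    rw [htr, hmul, hmul]
  obtain ⟨B, hB, hle⟩ := core (fun i => pSpace (G i)) hps (pSub H) hpH
    {k | ∃ h ∈ H, (∀ i, ((h i : GL (Fin (n i)) ℝ) : Matrix (Fin (n i)) (Fin (n i)) ℝ) = k i) ∧
      ∀ i, k i * (k i)ᵀ = 1}
    (by
      rintro k ⟨h, -, -, hk⟩ i
      exact mul_eq_one_comm.1 (hk i))
    (fun i => {k | ∃ g : G i, ((g : GL (Fin (n i)) ℝ) : Matrix (Fin (n i)) (Fin (n i)) ℝ) = k ∧
      k * kᵀ = 1})
    (by
      intro i X hX Y hY hXY
      obtain ⟨g, hg, hgY⟩ := trans_group (hCi i) (h1 i).1 (h1 i).2 hX hY hXY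
      rw [hMi] at hg hgY
      exact ⟨_, ⟨g, rfl, hg⟩, hgY⟩)
    (fun i => (h1 i).1)
    (a.comap blk)
    (by
      intro X hX
      obtain ⟨Y, hY, hYX⟩ := Submodule.mem_map.1 (ha hX)
      rwa [← hinj _ _ hYX])
    (by
      intro X hX Y hY i
      have h2 := hacomm _ hX _ hY
      rw [hmul, hmul] at h2
      exact congrFun (hinj _ _ h2) i)
    (by
      intro X hX
      obtain ⟨k, hk, hk1, hk2⟩ := haconj _ (Submodule.mem_map_of_mem hX)
      rw [hM] at hk1 hk2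
      refine ⟨fun i => ((k i : GL (Fin (n i)) ℝ) : Matrix (Fin (n i)) (Fin (n i)) ℝ),
        ⟨k, hk, fun i => rfl, (horth _).1 hk1⟩, ?_⟩
      rw [hconjblk] at hk2
      exact hk2)
    (fun X => inv (F (blk X)))
    (by
      have hi : Continuous inv := inv.continuous_of_finiteDimensional
      have hb : Continuous blk := blk.continuous_of_finiteDimensional
      refine hi.comp_continuousOn (hFc.comp hb.continuousOn ?_)
      rintro X ⟨hX1, hX2, hX3⟩
      refine ⟨hmemP X hX1, ?_, fun h => hX3 (hblk0 _ h)⟩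
      intro Z hZ
      obtain ⟨Y, hY, rfl⟩ := Submodule.mem_map.1 hZ
      rw [hmul, htrace]
      exact hX2 Y hY)
    (by
      intro X hX1 hX2 hX3
      obtain ⟨hF1, hF2, hF3⟩ := hF (blk X) (hmemP X hX1)
        (by
          intro Z hZ
          obtain ⟨Y, hY, rfl⟩ := Submodule.mem_map.1 hZ
          rw [hmul, htrace]
          exact hX2 Y hY)
        (fun h => hX3 (hblk0 _ h))
      refine ⟨(hPmem _ hF1).1, ?_, ?_⟩
      · show inv (F (blk (-X))) = -inv (F (blk X))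
        rw [map_neg, hF2, map_neg]
      · intro k hk Y hY h
        choose g hg hgo using hk
        have h2 : F (blk X) = M.ι g * blk Y * (M.ι g)ᵀ := by
          rw [hM, hconjblk, ← (hPmem _ hF1).2]
          congr 1
          rw [h]
          funext i
          rw [hg i]
        refine hF3 g ?_ (blk Y) (Submodule.mem_map_of_mem hY) h2
        rw [hM]
        refine (horth _).2 fun i => ?_
        rw [hg i]
        exact hgo i)
  exact ⟨B, projBij_of hpH hB hle⟩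

end Product

end Pool.Agent.Helper20.CKP
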