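import Pool.Agent.Helper20.CKP.Lin

/-!
# CKP: the largest value of a linear form on a slice of a box
-/

namespace Pool.Agent.Helper20.CKP

open Filter Topology Module

section Box
variable {ι : Type} [Fintype ι]

/-- The slice of the box with half sides `ρ i` by the subspace `a`. -/
def slice (a : Submodule ℝ (ι → ℝ)) (ρ : ι → ℝ) : Set (ι → ℝ) :=
  {σ | σ ∈ a ∧ ∀ i, |σ i| ≤ ρ i}

theorem isCompact_slice (a : Submodule ℝ (ι → ℝ)) (ρ : ι → ℝ) : IsCompact (slice a ρ) := by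
  have h1 : IsCompact (Set.pi Set.univ fun i => Set.Icc (-ρ i) (ρ i)) :=
    isCompact_univ_pi fun i => isCompact_Icc
  have h2 : IsClosed (a : Set (ι → ℝ)) := a.closed_of_finiteDimensional
  refine (h1.inter_left h2).of_isClosed_subset ?_ ?_
  · refine h2.inter ?_
    have : {σ : ι → ℝ | ∀ i, |σ i| ≤ ρ i} = ⋂ i, {σ : ι → ℝ | |σ i| ≤ ρ i} := by
      ext; simp
    show IsClosed {σ : ι → ℝ | ∀ i, |σ i| ≤ ρ i}
    rw [this]
    exact isClosed_iInter fun i => isClosed_le (by fun_prop) (by fun_prop)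
  · rintro σ ⟨h3, h4⟩
    exact ⟨h3, fun i _ => abs_le.1 (h4 i)⟩

theorem zero_mem_slice (a : Submodule ℝ (ι → ℝ)) {ρ : ι → ℝ} (hρ : ∀ i, 0 ≤ ρ i) :
    (0 : ι → ℝ) ∈ slice a ρ := ⟨a.zero_mem, fun i => by simpa using hρ i⟩

/-- `τ` is generic for `a`: every nonzero coordinate section of `a` contains a vector which is not
orthogonal to `τ`. -/
def Generic (a : Submodule ℝ (ι → ℝ)) (τ : ι → ℝ) : Prop :=
  ∀ J : Finset ι, (∃ w ∈ a, (∀ i ∉ J, w i = 0) ∧ w ≠ 0) →
    ∃ w ∈ a, (∀ i ∉ J, w i = 0) ∧ ∑ i, τ i * w i ≠ 0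

theorem exists_generic' (a : Submodule ℝ (ι → ℝ)) : ∃ τ, Generic a τ := by
  classical
  obtain ⟨τ, hτ⟩ := exists_generic (κ := Finset ι)
    (fun J => a ⊓ (⨅ i ∈ (Jᶜ : Finset ι), LinearMap.ker (LinearMap.proj (R := ℝ)
      (φ := fun _ : ι => ℝ) i)))
  refine ⟨τ, fun J => ?_⟩
  have := hτ J
  simp only [Submodule.mem_inf, Submodule.mem_iInf, LinearMap.mem_ker, LinearMap.proj_apply,
    Finset.mem_compl] at this
  rintro ⟨w, hw, hJ, h0⟩
  obtain ⟨w', ⟨h1, h2⟩, h3⟩ := this ⟨w, ⟨hw, hJ⟩, h0⟩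
  exact ⟨w', h1, h2, h3⟩

/-- `σ` maximises the linear form `τ` on the slice. -/
def IsBest (a : Submodule ℝ (ι → ℝ)) (τ ρ σ : ι → ℝ) : Prop :=
  σ ∈ slice a ρ ∧ ∀ σ' ∈ slice a ρ, ∑ i, τ i * σ' i ≤ ∑ i, τ i * σ i

theorem exists_isBest (a : Submodule ℝ (ι → ℝ)) (τ : ι → ℝ) {ρ : ι → ℝ} (hρ : ∀ i, 0 ≤ ρ i) :
    ∃ σ, IsBest a τ ρ σ := by
  have hc : ContinuousOn (fun σ : ι → ℝ => ∑ i, τ i * σ i) (slice a ρ) := by fun_prop
  obtain ⟨σ, h1, h2⟩ := (isCompact_slice a ρ).exists_isMaxOn ⟨0, zero_mem_slice a hρ⟩ hc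
  exact ⟨σ, h1, fun σ' h' => h2 h'⟩

/-- At a maximiser no nonzero vector of `a` is supported in the set of free coordinates. -/
theorem IsBest.supp {a : Submodule ℝ (ι → ℝ)} {τ ρ σ : ι → ℝ} (hτ : Generic a τ)
    (h : IsBest a τ ρ σ) {w : ι → ℝ} (hw : w ∈ a) (hJ : ∀ i, ¬ |σ i| < ρ i → w i = 0) :
    w = 0 := by
  classical
  by_contra h0
  obtain ⟨v, hv, hvJ, hne⟩ := hτ (Finset.univ.filter fun i => |σ i| < ρ i)
    ⟨w, hw, fun i hi => hJ i (by simpa using hi), h0⟩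
  have hvJ' : ∀ i, ¬ |σ i| < ρ i → v i = 0 := fun i hi => hvJ i (by simpa using hi)
  -- a small multiple of `v` may be added
  obtain ⟨ε, hε, hle⟩ : ∃ ε > 0, ∀ i, ε * |v i| ≤ ρ i - |σ i| := by
    have h1 : ∀ i, ∃ ε > 0, ∀ δ, 0 < δ → δ ≤ ε → δ * |v i| ≤ ρ i - |σ i| := by
      intro i
      by_cases hi : |σ i| < ρ i
      · refine ⟨(ρ i - |σ i|) / (|v i| + 1), by have := abs_nonneg (v i); apply div_pos <;> linarith,
          fun δ hδ hδ' => ?_⟩
        have h2 : 0 < |v i| + 1 := by have := abs_nonneg (v i); linarith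
        rw [le_div_iff₀ h2] at hδ'
        nlinarith
      · refine ⟨1, one_pos, fun δ _ _ => ?_⟩
        rw [hvJ' i hi]
        have := h.1.2 i
        simp only [abs_zero, mul_zero]
        linarith
    choose e he hee using h1
    obtain ⟨ε, hε, hεle⟩ : ∃ ε > 0, ∀ i, ε ≤ e i := by
      rcases isEmpty_or_nonempty ι with hι | hι
      · exact ⟨1, one_pos, fun i => isEmptyElim i⟩
      · obtain ⟨i, hi⟩ := Finite.exists_min e
        exact ⟨e i, he i, hi⟩
    exact ⟨ε, hε, fun i => hee i ε hε (hεle i)⟩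
  have hmem : ∀ s : ℝ, |s| ≤ ε → σ + s • v ∈ slice a ρ := by
    intro s hs
    refine ⟨a.add_mem h.1.1 (a.smul_mem _ hv), fun i => ?_⟩
    have h1 : |σ i + s * v i| ≤ |σ i| + |s| * |v i| := by
      rw [← abs_mul]; exact abs_add_le _ _
    have h2 : |s| * |v i| ≤ ε * |v i| := mul_le_mul_of_nonneg_right hs (abs_nonneg _)
    have h3 := hle i
    show |σ i + s * v i| ≤ ρ i
    linarith
  have hval : ∀ s : ℝ, ∑ i, τ i * (σ + s • v) i = ∑ i, τ i * σ i + s * ∑ i, τ i * v i := by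
    intro s
    rw [Finset.mul_sum, ← Finset.sum_add_distrib]
    refine Finset.sum_congr rfl fun i _ => ?_
    show τ i * (σ i + s * v i) = _
    ring
  have h4 := h.2 _ (hmem ε (by rw [abs_of_pos hε]))
  have h5 := h.2 _ (hmem (-ε) (by rw [abs_neg, abs_of_pos hε]))
  rw [hval] at h4 h5
  rcases lt_or_gt_of_ne hne with h6 | h6
  · nlinarith
  · nlinarith

theorem IsBest.unique {a : Submodule ℝ (ι → ℝ)} {τ ρ σ σ' : ι → ℝ} (hτ : Generic a τ)
    (h : IsBest a τ ρ σ) (h' : IsBest a τ ρ σ') : σ = σ' := by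
  have hmid : IsBest a τ ρ ((1 / 2 : ℝ) • σ + (1 / 2 : ℝ) • σ') := by
    refine ⟨⟨a.add_mem (a.smul_mem _ h.1.1) (a.smul_mem _ h'.1.1), fun i => ?_⟩, fun σ'' hs => ?_⟩
    · have h1 := abs_le.1 (h.1.2 i)
      have h2 := abs_le.1 (h'.1.2 i)
      show |1 / 2 * σ i + 1 / 2 * σ' i| ≤ ρ i
      rw [abs_le]
      constructor <;> linarith [h1.1, h1.2, h2.1, h2.2]
    · have h1 := h.2 σ'' hs
      have h2 := h'.2 σ'' hs
      have h3 : ∑ i, τ i * ((1 / 2 : ℝ) • σ + (1 / 2 : ℝ) • σ') i =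
          1 / 2 * ∑ i, τ i * σ i + 1 / 2 * ∑ i, τ i * σ' i := by
        rw [Finset.mul_sum, Finset.mul_sum, ← Finset.sum_add_distrib]
        refine Finset.sum_congr rfl fun i _ => ?_
        show τ i * (1 / 2 * σ i + 1 / 2 * σ' i) = _
        ring
      rw [h3]
      linarith
  have h0 : σ - σ' = 0 := by
    refine hmid.supp hτ (a.sub_mem h.1.1 h'.1.1) fun i hi => ?_
    by_contra hne
    apply hi
    have h1 := abs_le.1 (h.1.2 i)
    have h2 := abs_le.1 (h'.1.2 i)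
    have hne' : σ i ≠ σ' i := fun h => hne (sub_eq_zero.2 h)
    show |1 / 2 * σ i + 1 / 2 * σ' i| < ρ i
    rw [abs_lt]
    rcases lt_or_gt_of_ne hne' with h3 | h3
    · constructor <;> linarith [h1.1, h1.2, h2.1, h2.2]
    · constructor <;> linarith [h1.1, h1.2, h2.1, h2.2]
  exact sub_eq_zero.1 h0

/-- The maximiser. -/
noncomputable def best (a : Submodule ℝ (ι → ℝ)) (τ ρ : ι → ℝ) : ι → ℝ :=
  open Classical in
  if h : ∃ σ, IsBest a τ ρ σ then h.choose else 0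

theorem best_spec (a : Submodule ℝ (ι → ℝ)) (τ : ι → ℝ) {ρ : ι → ℝ} (hρ : ∀ i, 0 ≤ ρ i) :
    IsBest a τ ρ (best a τ ρ) := by
  have h := exists_isBest a τ hρ
  rw [best, dif_pos h]
  exact h.choose_spec

theorem best_tendsto {a : Submodule ℝ (ι → ℝ)} {τ : ι → ℝ} (hτ : Generic a τ) {ρ : ι → ℝ}
    (hρ : ∀ i, 0 ≤ ρ i) {u : ℕ → (ι → ℝ)} (hu : ∀ n i, 0 ≤ u n i)
    (hlim : Tendsto u atTop (𝓝 ρ)) : Tendsto (fun n => best a τ (u n)) atTop (𝓝 (best a τ ρ)) := by
  refine tendsto_of_subseq_tendsto fun ns hns => ?_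
  have hlim' : Tendsto (fun n => u (ns n)) atTop (𝓝 ρ) := hlim.comp hns
  -- all maximisers lie in a compact set
  obtain ⟨R, hR⟩ : ∃ R : ℝ, ∀ n i, u n i ≤ R := by
    have h1 : ∀ i, ∃ R, ∀ n, u n i ≤ R := by
      intro i
      have h2 : Tendsto (fun n => u n i) atTop (𝓝 (ρ i)) := (tendsto_pi_nhds.1 hlim) i
      obtain ⟨R, hR⟩ := h2.bddAbove_range
      exact ⟨R, fun n => hR ⟨n, rfl⟩⟩
    choose R hR using h1
    refine ⟨∑ i, |R i|, fun n i => (hR i n).trans ((le_abs_self _).trans ?_)⟩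
    exact Finset.single_le_sum (f := fun i => |R i|) (fun j _ => abs_nonneg _) (Finset.mem_univ i)
  have hK : IsCompact (slice a fun _ => R) := isCompact_slice a _
  have hmem : ∀ n, best a τ (u (ns n)) ∈ slice a fun _ => R := fun n =>
    ⟨(best_spec a τ (hu (ns n))).1.1, fun i =>
      ((best_spec a τ (hu (ns n))).1.2 i).trans (hR (ns n) i)⟩
  obtain ⟨s, hs, φ, hφ, hφlim⟩ := hK.tendsto_subseq hmem
  refine ⟨φ, ?_⟩
  have hlim2 : Tendsto (fun n => u (ns (φ n))) atTop (𝓝 ρ) := hlim'.comp hφ.tendsto_atTop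
  have hbest : IsBest a τ ρ s := by
    refine ⟨⟨hs.1, fun i => ?_⟩, fun σ hσ => ?_⟩
    · have h1 : Tendsto (fun n => |best a τ (u (ns (φ n))) i|) atTop (𝓝 |s i|) :=
        ((tendsto_pi_nhds.1 hφlim) i).abs
      have h2 : Tendsto (fun n => u (ns (φ n)) i) atTop (𝓝 (ρ i)) := (tendsto_pi_nhds.1 hlim2) i
      exact le_of_tendsto_of_tendsto' h1 h2 fun n => (best_spec a τ (hu (ns (φ n)))).1.2 i
    · have h1 : ∀ θ : ℝ, 0 ≤ θ → θ < 1 → θ * ∑ i, τ i * σ i ≤ ∑ i, τ i * s i := by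
        intro θ h0 h1
        have h2 : ∀ᶠ n in atTop, θ • σ ∈ slice a (u (ns (φ n))) := by
          have h3 : ∀ i, ∀ᶠ n in atTop, |θ * σ i| ≤ u (ns (φ n)) i := by
            intro i
            by_cases hi : σ i = 0
            · filter_upwards with n
              rw [hi, mul_zero, abs_zero]
              exact hu _ _
            · have h4 : |θ * σ i| < ρ i := by
                rw [abs_mul, abs_of_nonneg h0]
                have h5 : 0 < |σ i| := abs_pos.2 hi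
                have h6 := hσ.2 i
                nlinarith
              have h7 : Tendsto (fun n => u (ns (φ n)) i) atTop (𝓝 (ρ i)) :=
                (tendsto_pi_nhds.1 hlim2) i
              filter_upwards [h7.eventually (lt_mem_nhds h4)] with n hn using hn.le
          filter_upwards [eventually_all.2 h3] with n hn
          exact ⟨a.smul_mem _ hσ.1, hn⟩
        have h3 : Tendsto (fun n => ∑ i, τ i * best a τ (u (ns (φ n))) i) atTop
            (𝓝 (∑ i, τ i * s i)) :=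
          tendsto_finsetSum _ fun i _ => ((tendsto_pi_nhds.1 hφlim) i).const_mul _
        refine ge_of_tendsto h3 ?_
        filter_upwards [h2] with n hn
        have h4 := (best_spec a τ (hu (ns (φ n)))).2 _ hn
        refine le_trans (le_of_eq ?_) h4
        rw [Finset.mul_sum]
        refine Finset.sum_congr rfl fun i _ => ?_
        show θ * (τ i * σ i) = τ i * (θ * σ i)
        ring
      have h2 : Tendsto (fun θ : ℝ => θ * ∑ i, τ i * σ i) (𝓝[<] 1) (𝓝 (1 * ∑ i, τ i * σ i)) :=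
        (tendsto_id.mul_const _).mono_left nhdsWithin_le_nhds
      rw [one_mul] at h2
      refine le_of_tendsto h2 ?_
      filter_upwards [Ioo_mem_nhdsLT (show (0 : ℝ) < 1 by norm_num)] with θ hθ
      exact h1 θ hθ.1.le hθ.2
  rw [(best_spec a τ hρ).unique hτ hbest]
  exact hφlim

end Box

end Pool.Agent.Helper20.CKP
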