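import Pool.Agent.Helper20.CKP.TwoRows

/-!
# CKP: complex spaces of matrices of rank two
-/

set_option autoImplicit false

namespace Pool.Agent.Helper20.CKP

open Matrix Module

variable {K : Type} [RCLike K] {r n : ℕ}

theorem mul_star_apply (C D : Matrix (Fin r) (Fin n) K) (i j : Fin r) :
    (C * Dᴴ) i j = hip (D j) (C i) := by
  rw [Matrix.mul_apply, hip, dotProduct]
  exact Finset.sum_congr rfl fun k _ => mul_comm _ _

theorem row_two (M : Matrix (Fin 2) (Fin 2) K) (B : Matrix (Fin 2) (Fin n) K) (i : Fin 2) :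
    (M * B) i = M i 0 • B 0 + M i 1 • B 1 := by
  ext k
  simp [Matrix.mul_apply, Fin.sum_univ_two]

theorem complex_two (hI : RCLike.im (RCLike.I : K) = 1) (P : Submodule ℝ (Matrix (Fin r) (Fin n) K))
    (U : Matrix (Fin r) (Fin 2) K) (hU : Uᴴ * U = 1) (hdim : 2 * n ≤ finrank ℝ P + 2)
    (h6 : 6 ≤ finrank ℝ P)
    (hB : ∀ B ∈ P, B = U * (Uᴴ * B) ∧ ∃ c : ℝ, (Uᴴ * B) * (Uᴴ * B)ᴴ = (c : K) • 1)
    (htri : ∀ B ∈ P, ∀ C ∈ P, (2 : ℝ) • (B * Cᴴ * B) - C * Bᴴ * B - B * Bᴴ * C ∈ P) :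
    ∃ (N : ℕ) (A : Matrix (Fin n) (Fin N) K) (S : Matrix (Fin N) (Fin N) K), n ≤ N + 1 ∧
      Aᴴ * A = 1 ∧ Sᵀ = -S ∧ S * Sᴴ = 1 ∧
      ∀ B, B ∈ P ↔ ∃ y, B = U * Matrix.of ![A *ᵥ y, A *ᵥ (S *ᵥ star y)] := by
  let row : Fin 2 → P →ₗ[ℝ] (Fin n → K) := fun i =>
    { toFun := fun X => (Uᴴ * (X : Matrix (Fin r) (Fin n) K)) i
      map_add' := fun X Y => by
        rw [Submodule.coe_add, Matrix.mul_add]
        rfl
      map_smul' := fun c X => by
        rw [Submodule.coe_smul, Matrix.mul_smul]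
        rfl }
  have hrow : ∀ (i : Fin 2) (X : P), row i X = (Uᴴ * (X : Matrix (Fin r) (Fin n) K)) i :=
    fun i X => rfl
  have horth : ∀ X : P, hip (row 0 X) (row 1 X) = 0 := by
    intro X
    obtain ⟨-, c, hc⟩ := hB X X.2
    have h1 := congrFun (congrFun hc 1) 0
    rw [mul_star_apply] at h1
    rw [hrow, hrow, h1]
    simp
  have hisom : ∀ X : P, ∃ c : ℝ, (Uᴴ * (X : Matrix (Fin r) (Fin n) K)) *
      (Uᴴ * (X : Matrix (Fin r) (Fin n) K))ᴴ = (c : K) • 1 ∧ hip (row 0 X) (row 0 X) = (c : K) ∧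
      hip (row 1 X) (row 1 X) = (c : K) := by
    intro X
    obtain ⟨-, c, hc⟩ := hB X X.2
    have h1 := congrFun (congrFun hc 0) 0
    have h2 := congrFun (congrFun hc 1) 1
    rw [mul_star_apply] at h1 h2
    refine ⟨c, hc, ?_, ?_⟩
    · rw [hrow, h1]
      simp
    · rw [hrow, h2]
      simp
  have hpol : ∀ X Y : P, hip (row 1 X) (row 0 Y) = -hip (row 1 Y) (row 0 X) := by
    intro X Y
    have h := horth (X + Y)
    rw [map_add, map_add, hip_add_left, hip_add_right, hip_add_right, horth X, horth Y, zero_add,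
      add_zero] at h
    rw [← hip_star, ← hip_star (row 0 X) (row 1 Y), ← star_neg,
      eq_neg_of_add_eq_zero_right h]
  have R : Rows (row 0) (row 1) := by
    refine ⟨?_, horth, ?_, ?_⟩
    · rw [injective_iff_map_eq_zero]
      intro X hX
      obtain ⟨c, -, h1, h2⟩ := hisom X
      have h3 : hip (row 0 X) (row 0 X) = 0 := by rw [hX]; simp [hip]
      have h4 : row 1 X = 0 := re_hip_self_eq_zero (by rw [h2, ← h1, h3, map_zero])
      have h5 : Uᴴ * (X : Matrix (Fin r) (Fin n) K) = 0 := by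
        ext i j
        fin_cases i
        · exact congrFun hX j
        · exact congrFun h4 j
      apply Subtype.ext
      rw [(hB X X.2).1, h5, Matrix.mul_zero]
      rfl
    · intro X
      obtain ⟨c, -, h1, h2⟩ := hisom X
      rw [h1, h2]
    · intro X Y
      obtain ⟨c, hc, h1, h2⟩ := hisom X
      set B := Uᴴ * (X : Matrix (Fin r) (Fin n) K) with hBd
      set C := Uᴴ * (Y : Matrix (Fin r) (Fin n) K) with hCd
      have hXB : (X : Matrix (Fin r) (Fin n) K) = U * B := (hB X X.2).1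
      have hYC : (Y : Matrix (Fin r) (Fin n) K) = U * C := (hB Y Y.2).1
      have hZ : Uᴴ * ((2 : ℝ) • ((X : Matrix (Fin r) (Fin n) K) *
          (Y : Matrix (Fin r) (Fin n) K)ᴴ * (X : Matrix (Fin r) (Fin n) K)) -
          (Y : Matrix (Fin r) (Fin n) K) * (X : Matrix (Fin r) (Fin n) K)ᴴ *
            (X : Matrix (Fin r) (Fin n) K) -
          (X : Matrix (Fin r) (Fin n) K) * (X : Matrix (Fin r) (Fin n) K)ᴴ *
            (Y : Matrix (Fin r) (Fin n) K)) =
          (2 : ℝ) • (B * Cᴴ * B) - C * Bᴴ * B - B * Bᴴ * C := by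
        have h3 : ∀ (F G H : Matrix (Fin 2) (Fin n) K),
            Uᴴ * (U * F * (U * G)ᴴ * (U * H)) = F * Gᴴ * H := by
          intro F G H
          calc Uᴴ * (U * F * (U * G)ᴴ * (U * H)) = (Uᴴ * U) * F * Gᴴ * (Uᴴ * U) * H := by
                rw [conjTranspose_mul]
                simp only [Matrix.mul_assoc]
            _ = _ := by rw [hU, Matrix.one_mul, Matrix.mul_one]
        rw [hXB, hYC, Matrix.mul_sub, Matrix.mul_sub, Matrix.mul_smul, h3, h3, h3]
      refine ⟨⟨_, htri X X.2 Y Y.2⟩, ?_, ?_⟩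
      · refine (congrFun hZ 0).trans ?_
        rw [hc]
        have e1 : ∀ i, ((2 : ℝ) • (B * Cᴴ * B) - C * Bᴴ * B - (c : K) • (1 : Matrix (Fin 2) (Fin 2) K) * C) i =
            (2 : ℝ) • ((B * Cᴴ * B) i) - (C * Bᴴ * B) i - (c : K) • C i := by
          intro i
          rw [Matrix.smul_mul, Matrix.one_mul]
          rfl
        rw [e1, row_two, row_two, mul_star_apply, mul_star_apply, mul_star_apply, mul_star_apply]
        have e2 := hpol X Y
        rw [hrow, hrow, hrow, hrow, ← hBd, ← hCd] at e2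
        rw [h1]
        show (2 : ℝ) • (hip (C 0) (B 0) • B 0 + hip (C 1) (B 0) • B 1) -
          (hip (B 0) (C 0) • B 0 + hip (B 1) (C 0) • B 1) - (c : K) • C 0 =
          (2 * hip (C 0) (B 0) - hip (B 0) (C 0)) • B 0 + (3 * hip (C 1) (B 0)) • B 1 -
            (c : K) • C 0
        rw [e2]
        ext j
        simp only [Pi.add_apply, Pi.sub_apply, Pi.smul_apply, RCLike.real_smul_eq_coe_mul,
          smul_eq_mul]
        push_cast
        ring
      · refine (congrFun hZ 1).trans ?_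
        rw [hc]
        have e1 : ∀ i, ((2 : ℝ) • (B * Cᴴ * B) - C * Bᴴ * B - (c : K) • (1 : Matrix (Fin 2) (Fin 2) K) * C) i =
            (2 : ℝ) • ((B * Cᴴ * B) i) - (C * Bᴴ * B) i - (c : K) • C i := by
          intro i
          rw [Matrix.smul_mul, Matrix.one_mul]
          rfl
        rw [e1, row_two, row_two, mul_star_apply, mul_star_apply, mul_star_apply, mul_star_apply]
        have e2 := congrArg star (hpol X Y)
        rw [star_neg, hip_star, hip_star, hrow, hrow, hrow, hrow, ← hBd, ← hCd] at e2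
        rw [h1]
        show (2 : ℝ) • (hip (C 0) (B 1) • B 0 + hip (C 1) (B 1) • B 1) -
          (hip (B 0) (C 1) • B 0 + hip (B 1) (C 1) • B 1) - (c : K) • C 1 =
          (2 * hip (C 1) (B 1) - hip (B 1) (C 1)) • B 1 + (3 * hip (C 0) (B 1)) • B 0 -
            (c : K) • C 1
        rw [e2]
        ext j
        simp only [Pi.add_apply, Pi.sub_apply, Pi.smul_apply, RCLike.real_smul_eq_coe_mul,
          smul_eq_mul]
        push_cast
        ring
  obtain ⟨N, A, S, hn, hA, hT, hS, h1, h2⟩ := R.matrix hI (by omega) h6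
  refine ⟨N, A, S, hn, hA, hT, hS, fun B => ⟨fun hBP => ?_, ?_⟩⟩
  · obtain ⟨y, hy, hy'⟩ := h1 ⟨B, hBP⟩
    refine ⟨y, ?_⟩
    rw [(hB B hBP).1]
    congr 1
    ext i j
    fin_cases i
    · exact congrFun hy j
    · exact congrFun hy' j
  · rintro ⟨y, hy⟩
    obtain ⟨X, hX, hX'⟩ := h2 y
    have h3 : B = X := by
      rw [hy, (hB X X.2).1]
      congr 1
      ext i j
      fin_cases i
      · exact (congrFun hX j).symm
      · exact (congrFun hX' j).symm
    rw [h3]
    exact X.2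

end Pool.Agent.Helper20.CKP
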