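import Pool.Agent.Helper20.CKP.Iso

/-!
# CKP: linear spaces of matrices with prescribed ratios of singular values
-/

set_option autoImplicit false

namespace Pool.Agent.Helper20.CKP

open Matrix

theorem exists_factor {r n s : ℕ} (B : Matrix (Fin r) (Fin n) ℝ) (h : B.rank ≤ s) :
    ∃ C : Matrix (Fin r) (Fin s) ℝ, C * Cᵀ = B * Bᵀ := by
  classical
  have hpsd : (B * Bᵀ).PosSemidef := by
    have h1 := Matrix.posSemidef_self_mul_conjTranspose B
    rwa [conjTranspose_eq_transpose_of_trivial] at h1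
  have hH : (B * Bᵀ).IsHermitian := hpsd.isHermitian
  have hcard : Fintype.card {i // hH.eigenvalues i ≠ 0} ≤ Fintype.card (Fin s) := by
    rw [← hH.rank_eq_card_non_zero_eigs, Matrix.rank_self_mul_transpose, Fintype.card_fin]
    exact h
  obtain ⟨e⟩ := Function.Embedding.nonempty_of_card_le hcard
  let ι := {i // hH.eigenvalues i ≠ 0}
  let Q : Matrix ι (Fin s) ℝ := fun i k => if e i = k then 1 else 0
  have hQ : Q * Qᵀ = 1 := by
    ext i j
    rw [Matrix.mul_apply, Matrix.one_apply]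
    simp only [Q, Matrix.transpose_apply, mul_ite, mul_one, mul_zero]
    rw [Finset.sum_ite_eq, if_pos (Finset.mem_univ _)]
    simp only [e.injective.eq_iff]
  let V : Matrix (Fin r) (Fin r) ℝ := hH.eigenvectorUnitary
  have hspec : B * Bᵀ = V * diagonal hH.eigenvalues * Vᵀ := by
    have h1 := hH.spectral_theorem
    rw [Unitary.conjStarAlgAut_apply] at h1
    exact h1
  let U : Matrix (Fin r) ι ℝ := fun j i => V j i * Real.sqrt (hH.eigenvalues i)
  have hU : U * Uᵀ = B * Bᵀ := by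
    refine Eq.trans ?_ hspec.symm
    ext j k
    rw [Matrix.mul_apply, Matrix.mul_apply]
    have h2 : ∀ i, (V * diagonal hH.eigenvalues) j i * Vᵀ i k =
        V j i * hH.eigenvalues i * V k i := fun i => by
      rw [Matrix.mul_diagonal, Matrix.transpose_apply]
    simp only [h2]
    have h3 : ∀ i : ι, U j i * Uᵀ i k = V j i * hH.eigenvalues i * V k i := fun i => by
      show V j i * Real.sqrt (hH.eigenvalues i) * (V k i * Real.sqrt (hH.eigenvalues i)) = _
      have h4 := Real.mul_self_sqrt (hpsd.eigenvalues_nonneg i)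
      calc V j i * Real.sqrt (hH.eigenvalues i) * (V k i * Real.sqrt (hH.eigenvalues i))
          = V j i * (Real.sqrt (hH.eigenvalues i) * Real.sqrt (hH.eigenvalues i)) * V k i := by
            ring
        _ = _ := by rw [h4]
    simp only [h3]
    rw [← Fintype.sum_subtype_add_sum_subtype (fun i => hH.eigenvalues i ≠ 0)
      (fun i => V j i * hH.eigenvalues i * V k i)]
    have h5 : ∑ i : {i // ¬ hH.eigenvalues i ≠ 0}, V j i * hH.eigenvalues i * V k i = 0 :=
      Finset.sum_eq_zero fun i _ => by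
        rw [not_not.1 i.2, mul_zero, zero_mul]
    rw [h5, add_zero]
  refine ⟨U * Q, ?_⟩
  rw [Matrix.transpose_mul, Matrix.mul_assoc, ← Matrix.mul_assoc Q, hQ, Matrix.one_mul, hU]

/-- A composition of forms gives a linear space of matrices with the singular values of `B` up to a
scalar. -/
theorem comp_space {r n s m : ℕ} (β : (Fin m → ℝ) →ₗ[ℝ] Matrix (Fin s) (Fin n) ℝ)
    (hβ : ∀ y, β y * (β y)ᵀ = (y ⬝ᵥ y) • (1 : Matrix (Fin s) (Fin s) ℝ))
    {B : Matrix (Fin r) (Fin n) ℝ} (hB : B ≠ 0) (hs : B.rank ≤ s) :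
    ∃ L : (Fin m → ℝ) →ₗ[ℝ] Matrix (Fin r) (Fin n) ℝ, Function.Injective L ∧
      ∀ y, ∃ W : Matrix (Fin n) (Fin n) ℝ, W * Wᵀ = 1 ∧ ∃ t : ℝ, L y = t • (B * W) := by
  obtain ⟨C, hC⟩ := exists_factor B hs
  let L : (Fin m → ℝ) →ₗ[ℝ] Matrix (Fin r) (Fin n) ℝ :=
    { toFun := fun y => C * β y
      map_add' := fun x y => by rw [map_add, Matrix.mul_add]
      map_smul' := fun c y => by rw [map_smul, Matrix.mul_smul, RingHom.id_apply] }
  have hL : ∀ y, L y = C * β y := fun y => rfl
  have hLL : ∀ y, L y * (L y)ᵀ = (y ⬝ᵥ y) • (B * Bᵀ) := by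
    intro y
    rw [hL, Matrix.transpose_mul, Matrix.mul_assoc, ← Matrix.mul_assoc (β y), hβ,
      Matrix.smul_mul, Matrix.one_mul, Matrix.mul_smul, hC]
  have hBB : B * Bᵀ ≠ 0 := by
    intro h
    apply hB
    have h1 := Matrix.self_mul_conjTranspose_eq_zero (A := B)
    rw [conjTranspose_eq_transpose_of_trivial] at h1
    exact h1.1 h
  refine ⟨L, ?_, ?_⟩
  · rw [injective_iff_map_eq_zero]
    intro y hy
    have h1 := hLL y
    rw [hy, Matrix.zero_mul] at h1
    rcases smul_eq_zero.1 h1.symm with h2 | h2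
    · exact dotProduct_self_eq_zero.1 h2
    · exact absurd h2 hBB
  · intro y
    have hyy : 0 ≤ y ⬝ᵥ y := by
      simp only [dotProduct]
      exact Finset.sum_nonneg fun i _ => mul_self_nonneg _
    have h1 : L y * (L y)ᵀ = (Real.sqrt (y ⬝ᵥ y) • B) * (Real.sqrt (y ⬝ᵥ y) • B)ᵀ := by
      rw [hLL, Matrix.transpose_smul, Matrix.smul_mul, Matrix.mul_smul, smul_smul,
        Real.mul_self_sqrt hyy]
    obtain ⟨W, hW, e⟩ := exists_orthogonal h1
    exact ⟨W, hW, _, by rw [e, Matrix.smul_mul]⟩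

end Pool.Agent.Helper20.CKP
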