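import Pool.Agent.Helper20.CKP.Odd

/-!
# CKP: the core of the theorem on products of groups of real rank one
-/

namespace Pool.Agent.Helper20.CKP

open Matrix Module Filter Topology

section Core
variable {r : ℕ} {n : Fin r → ℕ}

/-- the Frobenius norm -/
noncomputable def nrm {m : ℕ} (X : Matrix (Fin m) (Fin m) ℝ) : ℝ := Real.sqrt (X * Xᵀ).trace

theorem trace_mul_transpose_self {m : ℕ} (X : Matrix (Fin m) (Fin m) ℝ) :
    (X * Xᵀ).trace = ∑ i, ∑ j, X i j * X i j := by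
  simp [Matrix.trace, Matrix.mul_apply]

theorem trace_self_nonneg {m : ℕ} (X : Matrix (Fin m) (Fin m) ℝ) : 0 ≤ (X * Xᵀ).trace := by
  rw [trace_mul_transpose_self]
  exact Finset.sum_nonneg fun i _ => Finset.sum_nonneg fun j _ => mul_self_nonneg _

theorem nrm_sq {m : ℕ} (X : Matrix (Fin m) (Fin m) ℝ) : nrm X ^ 2 = (X * Xᵀ).trace :=
  Real.sq_sqrt (trace_self_nonneg X)

theorem eq_zero_of_trace {m : ℕ} {X : Matrix (Fin m) (Fin m) ℝ} (h : (X * Xᵀ).trace = 0) :
    X = 0 := by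
  rw [trace_mul_transpose_self] at h
  ext i j
  have h1 := (Finset.sum_eq_zero_iff_of_nonneg
    (fun i _ => Finset.sum_nonneg fun j _ => mul_self_nonneg (X i j))).1 h i (Finset.mem_univ i)
  have h2 := (Finset.sum_eq_zero_iff_of_nonneg (fun j _ => mul_self_nonneg (X i j))).1 h1 j
    (Finset.mem_univ j)
  simpa using h2

theorem continuous_nrm {m : ℕ} :
    Continuous (nrm : Matrix (Fin m) (Fin m) ℝ → ℝ) := by
  have h : Continuous fun X : Matrix (Fin m) (Fin m) ℝ => (X * Xᵀ).trace :=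
    (continuous_id.mul continuous_id.matrix_transpose).matrix_trace
  exact h.sqrt

theorem nrm_neg {m : ℕ} (X : Matrix (Fin m) (Fin m) ℝ) : nrm (-X) = nrm X := by
  simp [nrm]

theorem nrm_zero {m : ℕ} : nrm (0 : Matrix (Fin m) (Fin m) ℝ) = 0 := by
  simp [nrm]

theorem nrm_nonneg {m : ℕ} (X : Matrix (Fin m) (Fin m) ℝ) : 0 ≤ nrm X := Real.sqrt_nonneg _

/-- A space of pairwise dependent symmetric matrices is contained in a line. -/
theorem exists_unit {m : ℕ} {p : Submodule ℝ (Matrix (Fin m) (Fin m) ℝ)}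
    (hps : ∀ X ∈ p, Xᵀ = X)
    (hrank : ∀ X ∈ p, ∀ Y ∈ p, X * Y = Y * X → ¬ LinearIndependent ℝ ![X, Y])
    {S : Set (Matrix (Fin m) (Fin m) ℝ)} (hS : ∀ X ∈ S, X ∈ p)
    (hcomm : ∀ X ∈ S, ∀ Y ∈ S, X * Y = Y * X) :
    ∃ e : Matrix (Fin m) (Fin m) ℝ, ∀ X ∈ S, X = (X * e).trace • e ∧
      nrm X = |(X * e).trace| := by
  by_cases h : ∃ X ∈ S, X ≠ 0
  · obtain ⟨X₀, hX₀, hne⟩ := h
    have hn : 0 < nrm X₀ := by
      rcases (nrm_nonneg X₀).lt_or_eq with h | h
      · exact h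
      · exfalso
        apply hne
        apply eq_zero_of_trace
        rw [← nrm_sq, ← h]
        norm_num
    refine ⟨(nrm X₀)⁻¹ • X₀, fun X hX => ?_⟩
    have h1 := hrank X₀ (hS _ hX₀) X (hS _ hX) (hcomm _ hX₀ _ hX)
    have h2 : ∃ c : ℝ, c • X₀ = X := by
      by_contra hcon
      push Not at hcon
      exact h1 ((LinearIndependent.pair_iff' hne).2 hcon)
    obtain ⟨c, rfl⟩ := h2
    have h3 : (X₀ * X₀).trace = nrm X₀ ^ 2 := by
      rw [nrm_sq, hps _ (hS _ hX₀)]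
    have h4 : ((c • X₀) * ((nrm X₀)⁻¹ • X₀)).trace = c * nrm X₀ := by
      rw [Matrix.smul_mul, Matrix.mul_smul, smul_smul, Matrix.trace_smul, h3, smul_eq_mul]
      field_simp
    refine ⟨?_, ?_⟩
    · rw [h4, smul_smul, mul_assoc, mul_inv_cancel₀ hn.ne', mul_one]
    · rw [h4]
      have h5 : nrm (c • X₀) ^ 2 = (c * nrm X₀) ^ 2 := by
        rw [nrm_sq, hps _ (hS _ hX), Matrix.smul_mul, Matrix.mul_smul, smul_smul,
          Matrix.trace_smul, h3, smul_eq_mul]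
        ring
      rw [← abs_of_nonneg (nrm_nonneg (c • X₀))]
      exact (sq_eq_sq_iff_abs_eq_abs _ _).1 h5
  · push Not at h
    refine ⟨0, fun X hX => ?_⟩
    rw [h X hX]
    simp [nrm]

/-- The core. -/
theorem core (p : ∀ i, Submodule ℝ (Matrix (Fin (n i)) (Fin (n i)) ℝ))
    (hps : ∀ i, ∀ X ∈ p i, Xᵀ = X)
    (q : Submodule ℝ (∀ i, Matrix (Fin (n i)) (Fin (n i)) ℝ)) (hqp : ∀ X ∈ q, ∀ i, X i ∈ p i)
    (K : Set (∀ i, Matrix (Fin (n i)) (Fin (n i)) ℝ)) (hK : ∀ k ∈ K, ∀ i, (k i)ᵀ * k i = 1)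
    (KG : ∀ i, Set (Matrix (Fin (n i)) (Fin (n i)) ℝ))
    (htrans : ∀ i, ∀ X ∈ p i, ∀ Y ∈ p i, nrm X = nrm Y → ∃ k ∈ KG i, Y = k * X * kᵀ)
    (hrank : ∀ i, ∀ X ∈ p i, ∀ Y ∈ p i, X * Y = Y * X → ¬ LinearIndependent ℝ ![X, Y])
    (a0 : Submodule ℝ (∀ i, Matrix (Fin (n i)) (Fin (n i)) ℝ)) (ha0 : a0 ≤ q)
    (hcomm : ∀ X ∈ a0, ∀ Y ∈ a0, ∀ i, X i * Y i = Y i * X i)
    (hconj : ∀ X ∈ q, ∃ k ∈ K, (fun i => k i * X i * (k i)ᵀ) ∈ a0)
    (F : (∀ i, Matrix (Fin (n i)) (Fin (n i)) ℝ) → (∀ i, Matrix (Fin (n i)) (Fin (n i)) ℝ))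
    (hFc : ContinuousOn F {X | (∀ i, X i ∈ p i) ∧ (∀ Y ∈ q, ∑ i, (X i * Y i).trace = 0) ∧ X ≠ 0})
    (hF : ∀ X, (∀ i, X i ∈ p i) → (∀ Y ∈ q, ∑ i, (X i * Y i).trace = 0) → X ≠ 0 →
      (∀ i, F X i ∈ p i) ∧ F (-X) = -F X ∧
        ∀ k : ∀ i, Matrix (Fin (n i)) (Fin (n i)) ℝ, (∀ i, k i ∈ KG i) → ∀ Y ∈ q,
          F X ≠ fun i => k i * Y i * (k i)ᵀ) :
    ∃ B : Finset (Fin r), (∀ X ∈ q, (∀ i ∈ B, X i = 0) → X = 0) ∧
      ∑ i ∈ B, finrank ℝ (p i) ≤ finrank ℝ q := by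
  classical
  -- the unit vectors
  have hex : ∀ i, ∃ e : Matrix (Fin (n i)) (Fin (n i)) ℝ, ∀ X ∈ a0, X i = (X i * e).trace • e ∧
      nrm (X i) = |(X i * e).trace| := by
    intro i
    obtain ⟨e, he⟩ := exists_unit (hps i) (hrank i) (S := {Y | ∃ X ∈ a0, Y = X i})
      (by rintro _ ⟨X, hX, rfl⟩; exact hqp X (ha0 hX) i)
      (by rintro _ ⟨X, hX, rfl⟩ _ ⟨Y, hY, rfl⟩; exact hcomm X hX Y hY i)
    exact ⟨e, fun X hX => he _ ⟨X, hX, rfl⟩⟩
  choose e he using hex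
  let cm : (∀ i, Matrix (Fin (n i)) (Fin (n i)) ℝ) →ₗ[ℝ] (Fin r → ℝ) :=
    { toFun := fun X i => (X i * e i).trace
      map_add' := fun X Y => by
        funext i
        simp [Matrix.add_mul]
      map_smul' := fun c X => by
        funext i
        simp }
  have hcm : ∀ X i, cm X i = (X i * e i).trace := fun _ _ => rfl
  let a : Submodule ℝ (Fin r → ℝ) := a0.map cm
  -- the source
  let P : Submodule ℝ (∀ i, Matrix (Fin (n i)) (Fin (n i)) ℝ) := Submodule.pi Set.univ p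
  have hP : ∀ X, X ∈ P ↔ ∀ i, X i ∈ p i := fun X => by simp [P, Submodule.mem_pi]
  let pair : P →ₗ[ℝ] Module.Dual ℝ q := LinearMap.mk₂ ℝ
    (fun (X : P) (Y : q) => ∑ i, ((X : ∀ i, Matrix (Fin (n i)) (Fin (n i)) ℝ) i *
      (Y : ∀ i, Matrix (Fin (n i)) (Fin (n i)) ℝ) i).trace)
    (fun X X' Y => by
      rw [← Finset.sum_add_distrib]
      refine Finset.sum_congr rfl fun i _ => ?_
      rw [Submodule.coe_add, Pi.add_apply, Matrix.add_mul, Matrix.trace_add])
    (fun c X Y => by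
      rw [smul_eq_mul, Finset.mul_sum]
      refine Finset.sum_congr rfl fun i _ => ?_
      rw [Submodule.coe_smul, Pi.smul_apply, Matrix.smul_mul, Matrix.trace_smul, smul_eq_mul])
    (fun X Y Z => by
      rw [← Finset.sum_add_distrib]
      refine Finset.sum_congr rfl fun i _ => ?_
      rw [Submodule.coe_add, Pi.add_apply, Matrix.mul_add, Matrix.trace_add])
    (fun c X Y => by
      rw [smul_eq_mul, Finset.mul_sum]
      refine Finset.sum_congr rfl fun i _ => ?_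
      rw [Submodule.coe_smul, Pi.smul_apply, Matrix.mul_smul, Matrix.trace_smul, smul_eq_mul])
  let E : Submodule ℝ P := LinearMap.ker pair
  have hE : ∀ X : P, X ∈ E ↔ ∀ Y ∈ q, ∑ i, ((X : ∀ i, Matrix (Fin (n i)) (Fin (n i)) ℝ) i * Y i).trace = 0 := by
    intro X
    rw [LinearMap.mem_ker]
    constructor
    · intro h Y hY
      exact congrArg (fun φ : Module.Dual ℝ q => φ ⟨Y, hY⟩) h
    · intro h
      ext Y
      exact h Y Y.2
  have hEdim : ∑ i, finrank ℝ (p i) ≤ finrank ℝ E + finrank ℝ q := by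
    have h1 : finrank ℝ (LinearMap.range pair) + finrank ℝ E = finrank ℝ P :=
      LinearMap.finrank_range_add_finrank_ker pair
    have h2 : finrank ℝ (LinearMap.range pair) ≤ finrank ℝ q :=
      (Submodule.finrank_le _).trans (le_of_eq (Subspace.dual_finrank_eq))
    have h3 : ∑ i, finrank ℝ (p i) ≤ finrank ℝ P := by
      let g : (∀ i, p i) →ₗ[ℝ] P :=
        { toFun := fun X => ⟨fun i => X i, (hP _).2 fun i => (X i).2⟩
          map_add' := fun X Y => rfl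
          map_smul' := fun c X => rfl }
      have hg : Function.Injective g := by
        intro X Y hXY
        funext i
        apply Subtype.ext
        exact congrFun (congrArg Subtype.val hXY) i
      have := LinearMap.finrank_le_finrank_of_injective hg
      rwa [Module.finrank_pi_fintype] at this
    omega
  -- the odd map
  let F' : E → ∀ i, p i := fun x =>
    if h : ∀ i, F ((x : P) : ∀ i, Matrix (Fin (n i)) (Fin (n i)) ℝ) i ∈ p i then
      fun i => ⟨_, h i⟩ else 0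
  have hx0 : ∀ x : E, x ≠ 0 → ((x : P) : ∀ i, Matrix (Fin (n i)) (Fin (n i)) ℝ) ≠ 0 := by
    intro x hx h
    apply hx
    apply Subtype.ext
    apply Subtype.ext
    exact h
  have hxF := fun (x : E) (hx : x ≠ 0) => hF ((x : P) : ∀ i, Matrix (Fin (n i)) (Fin (n i)) ℝ)
    ((hP _).1 x.1.2) ((hE x.1).1 x.2) (hx0 x hx)
  have hF' : ∀ x : E, x ≠ 0 → ∀ i, (F' x i : Matrix (Fin (n i)) (Fin (n i)) ℝ) = F ((x : P) : ∀ i, Matrix (Fin (n i)) (Fin (n i)) ℝ) i := by
    intro x hx i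
    have h := (hxF x hx).1
    simp only [F', dif_pos h]
  obtain ⟨B, hB, hle⟩ := exists_subset (V := fun i => p i)
    (fun i X => nrm (X : Matrix (Fin (n i)) (Fin (n i)) ℝ))
    (fun i => continuous_nrm.comp continuous_subtype_val) (fun i X => nrm_nonneg _)
    (fun i X => nrm_neg _) (fun i => nrm_zero) a E F'
    (by
      rw [continuousOn_pi]
      intro i
      have h1 : ContinuousOn (fun x : E => F ((x : P) : ∀ i, Matrix (Fin (n i)) (Fin (n i)) ℝ) i)
          ({0}ᶜ : Set E) := by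
        have h2 : ContinuousOn (fun x : E => F ((x : P) : ∀ i, Matrix (Fin (n i)) (Fin (n i)) ℝ))
            ({0}ᶜ : Set E) := by
          refine hFc.comp (continuous_subtype_val.comp continuous_subtype_val).continuousOn ?_
          intro x hx
          exact ⟨(hP _).1 x.1.2, (hE x.1).1 x.2, hx0 x hx⟩
        exact (continuous_apply i).comp_continuousOn h2
      have h3 : ContinuousOn (fun x : E => (F' x i : Matrix (Fin (n i)) (Fin (n i)) ℝ))
          ({0}ᶜ : Set E) := h1.congr fun x hx => hF' x hx i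
      rw [continuousOn_iff_continuous_domRestrict] at h3 ⊢
      exact Continuous.subtype_mk h3 fun x => (F' x i).2)
    (by
      intro x hx
      have hx' : -x ≠ 0 := neg_ne_zero.2 hx
      funext i
      apply Subtype.ext
      rw [hF' _ hx' i]
      show F (-((x : P) : ∀ i, Matrix (Fin (n i)) (Fin (n i)) ℝ)) i = -(F' x i : Matrix (Fin (n i)) (Fin (n i)) ℝ)
      rw [(hxF x hx).2.1, hF' x hx i]
      rfl)
    (by
      intro x hx t ht h
      obtain ⟨z, hz, rfl⟩ := Submodule.mem_map.1 ht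
      have h1 : ∀ i, ∃ k ∈ KG i, F ((x : P) : ∀ i, Matrix (Fin (n i)) (Fin (n i)) ℝ) i = k * z i * kᵀ := by
        intro i
        refine htrans i (z i) (hqp z (ha0 hz) i) _ ((hxF x hx).1 i) ?_
        rw [(he i z hz).2, ← hF' x hx i]
        exact h i
      choose k hk hkz using h1
      exact (hxF x hx).2.2 k hk z (ha0 hz) (funext hkz))
  refine ⟨B, fun X hX h0 => ?_, by omega⟩
  obtain ⟨k, hk, hkX⟩ := hconj X hX
  have h1 : cm (fun i => k i * X i * (k i)ᵀ) = 0 := by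
    refine hB _ (Submodule.mem_map_of_mem hkX) fun i hi => ?_
    rw [hcm, h0 i hi]
    simp
  funext i
  have h2 := (he i _ hkX).1
  have h3 : ((k i * X i * (k i)ᵀ) * e i).trace = 0 := congrFun h1 i
  simp only [h3, zero_smul] at h2
  have h4 : (k i)ᵀ * (k i * X i * (k i)ᵀ) * k i = X i := by
    calc (k i)ᵀ * (k i * X i * (k i)ᵀ) * k i = ((k i)ᵀ * k i) * X i * ((k i)ᵀ * k i) := by
          simp only [Matrix.mul_assoc]
      _ = X i := by rw [hK k hk i, Matrix.one_mul, Matrix.mul_one]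
  rw [← h4, h2]
  simp

end Core

end Pool.Agent.Helper20.CKP
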