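import Pool.Agent.Helper20.CKP.Two

/-!
# CKP: commuting elements of `p` for `O(2, n)`
-/

set_option autoImplicit false

namespace Pool.Agent.Helper20.CKP

open Matrix Module

theorem exists_diag {A : Matrix (Fin 2) (Fin 2) ℝ} (hA : Aᵀ = A) :
    ∃ U : Matrix (Fin 2) (Fin 2) ℝ, U * Uᵀ = 1 ∧ ∃ l m : ℝ, Uᵀ * A * U = !![l, 0; 0, m] := by
  have h10 : A 1 0 = A 0 1 := congrFun (congrFun hA 0) 1
  have hD : 0 ≤ (A 0 0 - A 1 1) ^ 2 + 4 * A 0 1 ^ 2 := by positivity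
  set s := Real.sqrt ((A 0 0 - A 1 1) ^ 2 + 4 * A 0 1 ^ 2) with hs
  have hss : s * s = (A 0 0 - A 1 1) ^ 2 + 4 * A 0 1 ^ 2 := Real.mul_self_sqrt hD
  obtain ⟨U, hU, e⟩ := conj_two (P := A)
    (Q := !![(A 0 0 + A 1 1 + s) / 2, 0; 0, (A 0 0 + A 1 1 - s) / 2]) hA
    (by
      ext i j
      fin_cases i <;> fin_cases j <;> simp)
    (by
      rw [Matrix.trace_fin_two, Matrix.trace_fin_two_of]
      ring)
    (by
      rw [Matrix.det_fin_two, Matrix.det_fin_two_of, h10]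
      linear_combination hss / 4)
  refine ⟨Uᵀ, ?_, (A 0 0 + A 1 1 + s) / 2, (A 0 0 + A 1 1 - s) / 2, ?_⟩
  · rw [Matrix.transpose_transpose]
    exact mul_eq_one_comm.1 hU
  · rw [Matrix.transpose_transpose]
    exact e.symm

theorem off_diag {l m : ℝ} (h : l ≠ m) {B : Matrix (Fin 2) (Fin 2) ℝ}
    (hc : !![l, 0; 0, m] * B = B * !![l, 0; 0, m]) : B 0 1 = 0 := by
  have h1 := congrFun (congrFun hc 0) 1
  simp [Matrix.mul_apply, Fin.sum_univ_two] at h1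
  rcases mul_eq_mul_right_iff.1 (h1.trans (mul_comm _ _)) with h2 | h2
  · exact absurd h2 h
  · exact h2

theorem conj_commute {U A B : Matrix (Fin 2) (Fin 2) ℝ} (hU : U * Uᵀ = 1) (h : A * B = B * A) :
    (Uᵀ * A * U) * (Uᵀ * B * U) = (Uᵀ * B * U) * (Uᵀ * A * U) := by
  have h1 : ∀ A B : Matrix (Fin 2) (Fin 2) ℝ,
      (Uᵀ * A * U) * (Uᵀ * B * U) = Uᵀ * (A * B) * U := by
    intro A B
    calc (Uᵀ * A * U) * (Uᵀ * B * U) = Uᵀ * A * (U * Uᵀ) * B * U := by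
          simp only [Matrix.mul_assoc]
      _ = Uᵀ * (A * B) * U := by rw [hU, Matrix.mul_one]; simp only [Matrix.mul_assoc]
  rw [h1, h1, h]

theorem scalar_of {U A : Matrix (Fin 2) (Fin 2) ℝ} {l : ℝ} (hU : U * Uᵀ = 1)
    (h : Uᵀ * A * U = !![l, 0; 0, l]) : A = l • (1 : Matrix (Fin 2) (Fin 2) ℝ) := by
  have h1 : !![l, 0; 0, l] = l • (1 : Matrix (Fin 2) (Fin 2) ℝ) := by
    ext i j
    fin_cases i <;> fin_cases j <;> simp
  rw [h1] at h
  calc A = (U * Uᵀ) * A * (U * Uᵀ) := by rw [hU, Matrix.one_mul, Matrix.mul_one]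
    _ = U * (Uᵀ * A * U) * Uᵀ := by simp only [Matrix.mul_assoc]
    _ = _ := by rw [h, Matrix.mul_smul, Matrix.mul_one, Matrix.smul_mul, hU]

theorem scalar_off {U A : Matrix (Fin 2) (Fin 2) ℝ} {l : ℝ} (hU : U * Uᵀ = 1)
    (h : A = l • (1 : Matrix (Fin 2) (Fin 2) ℝ)) : (Uᵀ * A * U) 0 1 = 0 := by
  have hU' : Uᵀ * U = 1 := mul_eq_one_comm.1 hU
  rw [h, Matrix.mul_smul, Matrix.mul_one, Matrix.smul_mul, hU']
  simp

theorem exists_simdiag {S R T : Matrix (Fin 2) (Fin 2) ℝ} (hS : Sᵀ = S) (hR : Rᵀ = R)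
    (hT : Tᵀ = T) (hSR : S * R = R * S) (hST : S * T = T * S) (hRT : R * T = T * R) :
    ∃ U : Matrix (Fin 2) (Fin 2) ℝ, U * Uᵀ = 1 ∧ (Uᵀ * S * U) 0 1 = 0 ∧ (Uᵀ * R * U) 0 1 = 0 ∧
      (Uᵀ * T * U) 0 1 = 0 := by
  obtain ⟨U, hU, l, m, e⟩ := exists_diag hS
  by_cases hlm : l = m
  · subst hlm
    have hS' := scalar_of hU e
    obtain ⟨U, hU, l', m, e⟩ := exists_diag hR
    by_cases hlm : l' = m
    · subst hlm
      have hR' := scalar_of hU e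
      obtain ⟨U, hU, l', m, e⟩ := exists_diag hT
      refine ⟨U, hU, scalar_off hU hS', scalar_off hU hR', ?_⟩
      rw [e]
      rfl
    · refine ⟨U, hU, scalar_off hU hS', by rw [e]; rfl, off_diag hlm ?_⟩
      rw [← e]
      exact conj_commute hU hRT
  · refine ⟨U, hU, by rw [e]; rfl, off_diag hlm ?_, off_diag hlm ?_⟩
    · rw [← e]
      exact conj_commute hU hSR
    · rw [← e]
      exact conj_commute hU hST

theorem exists_zero_angle {s r t : ℝ} (h : r ^ 2 = s * t) :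
    ∃ θ : ℝ, Real.cos θ ^ 2 * s + 2 * (Real.cos θ * Real.sin θ) * r + Real.sin θ ^ 2 * t = 0 := by
  by_cases hs : s = 0
  · refine ⟨0, ?_⟩
    rw [hs]
    simp
  · have h0 : (⟨-r, s⟩ : ℂ) ≠ 0 := by
      intro h
      exact hs (congrArg Complex.im h)
    refine ⟨Complex.arg ⟨-r, s⟩, ?_⟩
    have h1 : ‖(⟨-r, s⟩ : ℂ)‖ * Real.cos (Complex.arg ⟨-r, s⟩) = -r := Complex.norm_mul_cos_arg _
    have h2 : ‖(⟨-r, s⟩ : ℂ)‖ * Real.sin (Complex.arg ⟨-r, s⟩) = s := Complex.norm_mul_sin_arg _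
    have h3 : ‖(⟨-r, s⟩ : ℂ)‖ ≠ 0 := norm_ne_zero_iff.2 h0
    set ρ := ‖(⟨-r, s⟩ : ℂ)‖
    set c := Real.cos (Complex.arg ⟨-r, s⟩)
    set d := Real.sin (Complex.arg ⟨-r, s⟩)
    have h4 : ρ ^ 2 * (c ^ 2 * s + 2 * (c * d) * r + d ^ 2 * t) = 0 := by
      calc ρ ^ 2 * (c ^ 2 * s + 2 * (c * d) * r + d ^ 2 * t)
          = (ρ * c) ^ 2 * s + 2 * ((ρ * c) * (ρ * d)) * r + (ρ * d) ^ 2 * t := by ring
        _ = s * (s * t - r ^ 2) := by
          rw [h1, h2]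
          ring
        _ = 0 := by rw [h]; ring
    exact (mul_eq_zero.1 h4).resolve_left (pow_ne_zero 2 h3)

/-- In a commuting plane all ratios of singular values occur. -/
theorem exists_ratio_plane {n : ℕ} {B C : Matrix (Fin 2) (Fin n) ℝ} (h1 : B * Cᵀ = C * Bᵀ)
    (h2 : Bᵀ * C = Cᵀ * B) {δ : ℝ} (hδ : 0 ≤ δ) (hδ' : δ ≤ 1 / 4) :
    ∃ θ : ℝ, ((Real.cos θ • B + Real.sin θ • C) * (Real.cos θ • B + Real.sin θ • C)ᵀ).det =
      δ * ((Real.cos θ • B + Real.sin θ • C) * (Real.cos θ • B + Real.sin θ • C)ᵀ).trace ^ 2 := by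
  have hS : (B * Bᵀ)ᵀ = B * Bᵀ := by rw [transpose_mul, transpose_transpose]
  have hT : (C * Cᵀ)ᵀ = C * Cᵀ := by rw [transpose_mul, transpose_transpose]
  have hR : (B * Cᵀ)ᵀ = B * Cᵀ := by rw [transpose_mul, transpose_transpose, h1]
  have e1 : (B * Bᵀ) * (C * Cᵀ) = (B * Cᵀ) * (B * Cᵀ) := by
    calc (B * Bᵀ) * (C * Cᵀ) = B * (Bᵀ * C) * Cᵀ := by simp only [Matrix.mul_assoc]
      _ = (B * Cᵀ) * (B * Cᵀ) := by rw [h2]; simp only [Matrix.mul_assoc]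
  have e2 : (C * Cᵀ) * (B * Bᵀ) = (B * Cᵀ) * (B * Cᵀ) := by
    calc (C * Cᵀ) * (B * Bᵀ) = C * (Cᵀ * B) * Bᵀ := by simp only [Matrix.mul_assoc]
      _ = (C * Bᵀ) * (C * Bᵀ) := by rw [← h2]; simp only [Matrix.mul_assoc]
      _ = _ := by rw [h1]
  have e3 : (B * Bᵀ) * (B * Cᵀ) = (B * Cᵀ) * (B * Bᵀ) := by
    calc (B * Bᵀ) * (B * Cᵀ) = (B * Bᵀ) * (C * Bᵀ) := by rw [h1]
      _ = B * (Bᵀ * C) * Bᵀ := by simp only [Matrix.mul_assoc]
      _ = (B * Cᵀ) * (B * Bᵀ) := by rw [h2]; simp only [Matrix.mul_assoc]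
  have e4 : (B * Cᵀ) * (C * Cᵀ) = (C * Cᵀ) * (B * Cᵀ) := by
    calc (B * Cᵀ) * (C * Cᵀ) = (C * Bᵀ) * (C * Cᵀ) := by rw [h1]
      _ = C * (Bᵀ * C) * Cᵀ := by simp only [Matrix.mul_assoc]
      _ = (C * Cᵀ) * (B * Cᵀ) := by rw [h2]; simp only [Matrix.mul_assoc]
  obtain ⟨U, hU, hS0, hR0, hT0⟩ := exists_simdiag hS hR hT e3 (e1.trans e2.symm) e4
  have hU' : Uᵀ * U = 1 := mul_eq_one_comm.1 hU
  set S := Uᵀ * (B * Bᵀ) * U with hSd
  set R := Uᵀ * (B * Cᵀ) * U with hRd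
  set T := Uᵀ * (C * Cᵀ) * U with hTd
  have hsymm : ∀ A : Matrix (Fin 2) (Fin 2) ℝ, Aᵀ = A → (Uᵀ * A * U)ᵀ = Uᵀ * A * U := by
    intro A hA
    rw [transpose_mul, transpose_mul, hA, transpose_transpose, Matrix.mul_assoc]
  have hSs : Sᵀ = S := hsymm _ hS
  have hRs : Rᵀ = R := hsymm _ hR
  have hTs : Tᵀ = T := hsymm _ hT
  have hS1 : S 1 0 = 0 := (congrFun (congrFun hSs 0) 1).trans hS0
  have hR1 : R 1 0 = 0 := (congrFun (congrFun hRs 0) 1).trans hR0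
  have hT1 : T 1 0 = 0 := (congrFun (congrFun hTs 0) 1).trans hT0
  have hRST : S * T = R * R := by
    have h3 : ∀ A A' : Matrix (Fin 2) (Fin 2) ℝ,
        (Uᵀ * A * U) * (Uᵀ * A' * U) = Uᵀ * (A * A') * U := by
      intro A A'
      calc (Uᵀ * A * U) * (Uᵀ * A' * U) = Uᵀ * A * (U * Uᵀ) * A' * U := by
            simp only [Matrix.mul_assoc]
        _ = Uᵀ * (A * A') * U := by rw [hU, Matrix.mul_one]; simp only [Matrix.mul_assoc]
    rw [hSd, hTd, hRd, h3, h3, e1]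
  have hr0 : R 0 0 ^ 2 = S 0 0 * T 0 0 := by
    have := congrFun (congrFun hRST 0) 0
    rw [Matrix.mul_apply, Matrix.mul_apply, Fin.sum_univ_two, Fin.sum_univ_two, hS0, hR0] at this
    linarith
  have hr1 : R 1 1 ^ 2 = S 1 1 * T 1 1 := by
    have := congrFun (congrFun hRST 1) 1
    rw [Matrix.mul_apply, Matrix.mul_apply, Fin.sum_univ_two, Fin.sum_univ_two, hS1, hR1] at this
    linarith
  -- the Gram matrix of a combination
  have hgram : ∀ c d : ℝ, Uᵀ * ((c • B + d • C) * (c • B + d • C)ᵀ) * U =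
      c ^ 2 • S + (2 * (c * d)) • R + d ^ 2 • T := by
    intro c d
    have h3 : (c • B + d • C) * (c • B + d • C)ᵀ =
        c ^ 2 • (B * Bᵀ) + (2 * (c * d)) • (B * Cᵀ) + d ^ 2 • (C * Cᵀ) := by
      rw [transpose_add, transpose_smul, transpose_smul, Matrix.add_mul, Matrix.mul_add,
        Matrix.mul_add, Matrix.smul_mul, Matrix.mul_smul, Matrix.smul_mul, Matrix.mul_smul,
        Matrix.smul_mul, Matrix.mul_smul, Matrix.smul_mul, Matrix.mul_smul, ← h1]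
      module
    rw [h3, Matrix.mul_add, Matrix.mul_add, Matrix.add_mul, Matrix.add_mul, Matrix.mul_smul,
      Matrix.mul_smul, Matrix.mul_smul, Matrix.smul_mul, Matrix.smul_mul, Matrix.smul_mul]
  let f : ℝ → ℝ := fun θ => Real.cos θ ^ 2 * S 0 0 + 2 * (Real.cos θ * Real.sin θ) * R 0 0 +
    Real.sin θ ^ 2 * T 0 0
  let g : ℝ → ℝ := fun θ => Real.cos θ ^ 2 * S 1 1 + 2 * (Real.cos θ * Real.sin θ) * R 1 1 +
    Real.sin θ ^ 2 * T 1 1
  have hfc : Continuous f := by fun_prop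
  have hgc : Continuous g := by fun_prop
  have hdet : ∀ θ, ((Real.cos θ • B + Real.sin θ • C) *
      (Real.cos θ • B + Real.sin θ • C)ᵀ).det = f θ * g θ := by
    intro θ
    have h3 : ((Real.cos θ • B + Real.sin θ • C) * (Real.cos θ • B + Real.sin θ • C)ᵀ).det =
        (Uᵀ * ((Real.cos θ • B + Real.sin θ • C) * (Real.cos θ • B + Real.sin θ • C)ᵀ) * U).det := by
      rw [Matrix.det_mul, Matrix.det_mul, mul_comm, ← mul_assoc, ← Matrix.det_mul, hU,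
        Matrix.det_one, one_mul]
    rw [h3, hgram, Matrix.det_fin_two]
    simp only [Matrix.add_apply, Matrix.smul_apply, smul_eq_mul, hS0, hR0, hT0, f, g]
    ring
  have htr : ∀ θ, ((Real.cos θ • B + Real.sin θ • C) *
      (Real.cos θ • B + Real.sin θ • C)ᵀ).trace = f θ + g θ := by
    intro θ
    have h3 : ((Real.cos θ • B + Real.sin θ • C) * (Real.cos θ • B + Real.sin θ • C)ᵀ).trace =
        (Uᵀ * ((Real.cos θ • B + Real.sin θ • C) *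
          (Real.cos θ • B + Real.sin θ • C)ᵀ) * U).trace := by
      rw [Matrix.trace_mul_comm (Uᵀ * _) U, ← Matrix.mul_assoc, hU, Matrix.one_mul]
    rw [h3, hgram, Matrix.trace_fin_two]
    simp only [Matrix.add_apply, Matrix.smul_apply, smul_eq_mul, f, g]
  have hnn : ∀ θ, 0 ≤ f θ ∧ 0 ≤ g θ := by
    intro θ
    have h3 : (Uᵀ * ((Real.cos θ • B + Real.sin θ • C) *
        (Real.cos θ • B + Real.sin θ • C)ᵀ) * U).PosSemidef := by
      have h4 := Matrix.posSemidef_self_mul_conjTranspose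
        (Uᵀ * (Real.cos θ • B + Real.sin θ • C))
      rw [conjTranspose_eq_transpose_of_trivial, transpose_mul, transpose_transpose] at h4
      convert h4 using 1
      simp only [Matrix.mul_assoc]
    have h5 := fun i => h3.diag_nonneg (i := i)
    rw [hgram] at h5
    have h6 := h5 0
    have h7 := h5 1
    simp only [Matrix.add_apply, Matrix.smul_apply, smul_eq_mul] at h6 h7
    exact ⟨h6, h7⟩
  obtain ⟨θ0, hθ0⟩ := exists_zero_angle hr0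
  obtain ⟨θ1, hθ1⟩ := exists_zero_angle hr1
  have hf0 : f θ0 = 0 := hθ0
  have hg1 : g θ1 = 0 := hθ1
  obtain ⟨θ2, hθ2⟩ := mem_range_of_exists_le_of_exists_ge (c := 0) (hfc.sub hgc)
    ⟨θ0, by
      show f θ0 - g θ0 ≤ 0
      rw [hf0]
      linarith [(hnn θ0).2]⟩
    ⟨θ1, by
      show 0 ≤ f θ1 - g θ1
      rw [hg1]
      linarith [(hnn θ1).1]⟩
  have hfg : f θ2 - g θ2 = 0 := hθ2
  obtain ⟨θ, hθ⟩ := mem_range_of_exists_le_of_exists_ge (c := 0)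
    ((hfc.mul hgc).sub (continuous_const.mul ((hfc.add hgc).pow 2)) :
      Continuous fun θ => f θ * g θ - δ * (f θ + g θ) ^ 2)
    ⟨θ0, by
      show f θ0 * g θ0 - δ * (f θ0 + g θ0) ^ 2 ≤ 0
      rw [hf0]
      nlinarith [sq_nonneg (g θ0)]⟩
    ⟨θ2, by
      show 0 ≤ f θ2 * g θ2 - δ * (f θ2 + g θ2) ^ 2
      have h8 : g θ2 = f θ2 := by linarith
      rw [h8]
      nlinarith [sq_nonneg (f θ2)]⟩
  refine ⟨θ, ?_⟩
  rw [hdet, htr]
  have h9 : f θ * g θ - δ * (f θ + g θ) ^ 2 = 0 := hθ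
  linarith

end Pool.Agent.Helper20.CKP
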