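import Pool.Agent.Helper20.CKP.TwoK
import Pool.Agent.Helper20.CKP.Diag

/-!
# CKP: commuting elements of `p` for `U(2, n; 𝕜)`
-/

set_option autoImplicit false

namespace Pool.Agent.Helper20.CKP

open Matrix Module
open scoped ComplexOrder

variable {𝕜 : Type} [RCLike 𝕜]

theorem off_diagK {l m : ℝ} (h : l ≠ m) {B : Matrix (Fin 2) (Fin 2) 𝕜}
    (hc : diagonal ![(l : 𝕜), (m : 𝕜)] * B = B * diagonal ![(l : 𝕜), (m : 𝕜)]) : B 0 1 = 0 := by
  have h1 := congrFun (congrFun hc 0) 1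
  rw [Matrix.diagonal_mul, Matrix.mul_diagonal] at h1
  have h2 : (l : 𝕜) * B 0 1 = B 0 1 * (m : 𝕜) := h1
  rcases mul_eq_mul_right_iff.1 (h2.trans (mul_comm _ _)) with h3 | h3
  · exact absurd (by exact_mod_cast h3) h
  · exact h3

theorem conj_mulK {U : Matrix (Fin 2) (Fin 2) 𝕜} (hU : U * Uᴴ = 1)
    (A B : Matrix (Fin 2) (Fin 2) 𝕜) : (Uᴴ * A * U) * (Uᴴ * B * U) = Uᴴ * (A * B) * U := by
  calc (Uᴴ * A * U) * (Uᴴ * B * U) = Uᴴ * A * (U * Uᴴ) * B * U := by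
        simp only [Matrix.mul_assoc]
    _ = Uᴴ * (A * B) * U := by rw [hU, Matrix.mul_one]; simp only [Matrix.mul_assoc]

theorem scalar_ofK {U A : Matrix (Fin 2) (Fin 2) 𝕜} {c : 𝕜} (hU : U * Uᴴ = 1)
    (h : Uᴴ * A * U = c • (1 : Matrix (Fin 2) (Fin 2) 𝕜)) :
    A = c • (1 : Matrix (Fin 2) (Fin 2) 𝕜) := by
  calc A = (U * Uᴴ) * A * (U * Uᴴ) := by rw [hU, Matrix.one_mul, Matrix.mul_one]
    _ = U * (Uᴴ * A * U) * Uᴴ := by simp only [Matrix.mul_assoc]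
    _ = _ := by rw [h, Matrix.mul_smul, Matrix.mul_one, Matrix.smul_mul, hU]

theorem scalar_offK {U A : Matrix (Fin 2) (Fin 2) 𝕜} {c : 𝕜} (hU : U * Uᴴ = 1)
    (h : A = c • (1 : Matrix (Fin 2) (Fin 2) 𝕜)) : (Uᴴ * A * U) 0 1 = 0 := by
  have hU' : Uᴴ * U = 1 := mul_eq_one_comm.1 hU
  rw [h, Matrix.mul_smul, Matrix.mul_one, Matrix.smul_mul, hU']
  simp

/-- Diagonalisation. -/
theorem exists_diagK' {A : Matrix (Fin 2) (Fin 2) 𝕜} (hA : A.IsHermitian) :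
    ∃ U : Matrix (Fin 2) (Fin 2) 𝕜, U * Uᴴ = 1 ∧ ∃ l m : ℝ,
      Uᴴ * A * U = diagonal ![(l : 𝕜), (m : 𝕜)] := by
  obtain ⟨U, hU, d, e, -, -⟩ := exists_diagK hA
  have hU' : Uᴴ * U = 1 := mul_eq_one_comm.1 hU
  refine ⟨U, hU, d 0, d 1, ?_⟩
  have h1 : (fun i => (d i : 𝕜)) = ![(d 0 : 𝕜), (d 1 : 𝕜)] := by
    funext i
    fin_cases i <;> rfl
  rw [← h1]
  calc Uᴴ * A * U = Uᴴ * (U * diagonal (fun i => (d i : 𝕜)) * Uᴴ) * U := by rw [← e]
    _ = (Uᴴ * U) * diagonal (fun i => (d i : 𝕜)) * (Uᴴ * U) := by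
      simp only [Matrix.mul_assoc]
    _ = _ := by rw [hU', Matrix.one_mul, Matrix.mul_one]

theorem diagonal_off {l m : ℝ} : (diagonal ![(l : 𝕜), (m : 𝕜)]) 0 1 = 0 :=
  Matrix.diagonal_apply_ne _ (by decide)

theorem diagonal_eq {l : ℝ} :
    diagonal ![(l : 𝕜), (l : 𝕜)] = (l : 𝕜) • (1 : Matrix (Fin 2) (Fin 2) 𝕜) := by
  ext i j
  fin_cases i <;> fin_cases j <;> simp

theorem exists_simdiagK {S R T : Matrix (Fin 2) (Fin 2) 𝕜} (hS : S.IsHermitian)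
    (hR : R.IsHermitian) (hT : T.IsHermitian) (hSR : S * R = R * S) (hST : S * T = T * S)
    (hRT : R * T = T * R) :
    ∃ U : Matrix (Fin 2) (Fin 2) 𝕜, U * Uᴴ = 1 ∧ (Uᴴ * S * U) 0 1 = 0 ∧ (Uᴴ * R * U) 0 1 = 0 ∧
      (Uᴴ * T * U) 0 1 = 0 := by
  obtain ⟨U, hU, l, m, e⟩ := exists_diagK' hS
  by_cases hlm : l = m
  · subst hlm
    have hS' := scalar_ofK hU (e.trans diagonal_eq)
    obtain ⟨U, hU, l', m, e⟩ := exists_diagK' hR
    by_cases hlm : l' = m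
    · subst hlm
      have hR' := scalar_ofK hU (e.trans diagonal_eq)
      obtain ⟨U, hU, l', m, e⟩ := exists_diagK' hT
      refine ⟨U, hU, scalar_offK hU hS', scalar_offK hU hR', ?_⟩
      rw [e]
      exact diagonal_off
    · refine ⟨U, hU, scalar_offK hU hS', by rw [e]; exact diagonal_off, off_diagK hlm ?_⟩
      rw [← e, conj_mulK hU, conj_mulK hU, hRT]
  · refine ⟨U, hU, by rw [e]; exact diagonal_off, off_diagK hlm ?_, off_diagK hlm ?_⟩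
    · rw [← e, conj_mulK hU, conj_mulK hU, hSR]
    · rw [← e, conj_mulK hU, conj_mulK hU, hST]

/-- In a commuting plane all ratios of singular values occur. -/
theorem exists_ratio_planeK {n : ℕ} {B C : Matrix (Fin 2) (Fin n) 𝕜} (h1 : B * Cᴴ = C * Bᴴ)
    (h2 : Bᴴ * C = Cᴴ * B) {δ : ℝ} (hδ : 0 ≤ δ) (hδ' : δ ≤ 1 / 4) :
    ∃ θ : ℝ, gd (Real.cos θ • B + Real.sin θ • C) =
      δ * gt (Real.cos θ • B + Real.sin θ • C) ^ 2 := by
  have hS : (B * Bᴴ).IsHermitian := gramK_herm B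
  have hT : (C * Cᴴ).IsHermitian := gramK_herm C
  have hR : (B * Cᴴ).IsHermitian := by
    rw [Matrix.IsHermitian, conjTranspose_mul, conjTranspose_conjTranspose, h1]
  have e1 : (B * Bᴴ) * (C * Cᴴ) = (B * Cᴴ) * (B * Cᴴ) := by
    calc (B * Bᴴ) * (C * Cᴴ) = B * (Bᴴ * C) * Cᴴ := by simp only [Matrix.mul_assoc]
      _ = (B * Cᴴ) * (B * Cᴴ) := by rw [h2]; simp only [Matrix.mul_assoc]
  have e2 : (C * Cᴴ) * (B * Bᴴ) = (B * Cᴴ) * (B * Cᴴ) := by
    calc (C * Cᴴ) * (B * Bᴴ) = C * (Cᴴ * B) * Bᴴ := by simp only [Matrix.mul_assoc]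
      _ = (C * Bᴴ) * (C * Bᴴ) := by rw [← h2]; simp only [Matrix.mul_assoc]
      _ = _ := by rw [h1]
  have e3 : (B * Bᴴ) * (B * Cᴴ) = (B * Cᴴ) * (B * Bᴴ) := by
    calc (B * Bᴴ) * (B * Cᴴ) = (B * Bᴴ) * (C * Bᴴ) := by rw [h1]
      _ = B * (Bᴴ * C) * Bᴴ := by simp only [Matrix.mul_assoc]
      _ = (B * Cᴴ) * (B * Bᴴ) := by rw [h2]; simp only [Matrix.mul_assoc]
  have e4 : (B * Cᴴ) * (C * Cᴴ) = (C * Cᴴ) * (B * Cᴴ) := by
    calc (B * Cᴴ) * (C * Cᴴ) = (C * Bᴴ) * (C * Cᴴ) := by rw [h1]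
      _ = C * (Bᴴ * C) * Cᴴ := by simp only [Matrix.mul_assoc]
      _ = (C * Cᴴ) * (B * Cᴴ) := by rw [h2]; simp only [Matrix.mul_assoc]
  obtain ⟨U, hU, hS0, hR0, hT0⟩ := exists_simdiagK hS hR hT e3 (e1.trans e2.symm) e4
  have hU' : Uᴴ * U = 1 := mul_eq_one_comm.1 hU
  set S := Uᴴ * (B * Bᴴ) * U with hSd
  set R := Uᴴ * (B * Cᴴ) * U with hRd
  set T := Uᴴ * (C * Cᴴ) * U with hTd
  have hsymm : ∀ A : Matrix (Fin 2) (Fin 2) 𝕜, A.IsHermitian → (Uᴴ * A * U).IsHermitian := by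
    intro A hA
    rw [Matrix.IsHermitian, conjTranspose_mul, conjTranspose_mul, hA.eq,
      conjTranspose_conjTranspose, Matrix.mul_assoc]
  have hoff : ∀ A : Matrix (Fin 2) (Fin 2) 𝕜, A.IsHermitian → A 0 1 = 0 → A 1 0 = 0 := by
    intro A hA h
    rw [← hA.apply 1 0, h, star_zero]
  have hreal : ∀ A : Matrix (Fin 2) (Fin 2) 𝕜, A.IsHermitian → ∀ i, A i i = (RCLike.re (A i i) : 𝕜) :=
    fun A hA i => (hA.coe_re_apply_self i).symm
  have hSs : S.IsHermitian := hsymm _ hS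
  have hRs : R.IsHermitian := hsymm _ hR
  have hTs : T.IsHermitian := hsymm _ hT
  have hS1 : S 1 0 = 0 := hoff S hSs hS0
  have hR1 : R 1 0 = 0 := hoff R hRs hR0
  have hT1 : T 1 0 = 0 := hoff T hTs hT0
  have hRST : S * T = R * R := by
    rw [hSd, hTd, hRd, conj_mulK hU, conj_mulK hU, e1]
  set s0 := RCLike.re (S 0 0) with hs0
  set s1 := RCLike.re (S 1 1) with hs1
  set r0 := RCLike.re (R 0 0) with hr0
  set r1 := RCLike.re (R 1 1) with hr1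
  set t0 := RCLike.re (T 0 0) with ht0
  set t1 := RCLike.re (T 1 1) with ht1
  have eS0 : S 0 0 = (s0 : 𝕜) := hreal S hSs 0
  have eS1 : S 1 1 = (s1 : 𝕜) := hreal S hSs 1
  have eR0 : R 0 0 = (r0 : 𝕜) := hreal R hRs 0
  have eR1 : R 1 1 = (r1 : 𝕜) := hreal R hRs 1
  have eT0 : T 0 0 = (t0 : 𝕜) := hreal T hTs 0
  have eT1 : T 1 1 = (t1 : 𝕜) := hreal T hTs 1
  have hq0 : r0 ^ 2 = s0 * t0 := by
    have := congrFun (congrFun hRST 0) 0
    rw [Matrix.mul_apply, Matrix.mul_apply, Fin.sum_univ_two, Fin.sum_univ_two, hS0, hR0, eS0,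
      eT0, eR0, zero_mul, zero_mul, add_zero, add_zero] at this
    have h : s0 * t0 = r0 * r0 := by exact_mod_cast this
    linarith
  have hq1 : r1 ^ 2 = s1 * t1 := by
    have := congrFun (congrFun hRST 1) 1
    rw [Matrix.mul_apply, Matrix.mul_apply, Fin.sum_univ_two, Fin.sum_univ_two, hS1, hR1, eS1,
      eT1, eR1, zero_mul, zero_mul, zero_add, zero_add] at this
    have h : s1 * t1 = r1 * r1 := by exact_mod_cast this
    linarith
  -- the Gram matrix of a combination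
  have hgram : ∀ c d : ℝ, Uᴴ * ((c • B + d • C) * (c • B + d • C)ᴴ) * U =
      c ^ 2 • S + (2 * (c * d)) • R + d ^ 2 • T := by
    intro c d
    have h3 : (c • B + d • C) * (c • B + d • C)ᴴ =
        c ^ 2 • (B * Bᴴ) + (2 * (c * d)) • (B * Cᴴ) + d ^ 2 • (C * Cᴴ) := by
      rw [conjTranspose_add, conjTranspose_smul, conjTranspose_smul, star_trivial, star_trivial,
        Matrix.add_mul, Matrix.mul_add,
        Matrix.mul_add, Matrix.smul_mul, Matrix.mul_smul, Matrix.smul_mul, Matrix.mul_smul,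
        Matrix.smul_mul, Matrix.mul_smul, Matrix.smul_mul, Matrix.mul_smul, ← h1]
      module
    rw [h3, Matrix.mul_add, Matrix.mul_add, Matrix.add_mul, Matrix.add_mul, Matrix.mul_smul,
      Matrix.mul_smul, Matrix.mul_smul, Matrix.smul_mul, Matrix.smul_mul, Matrix.smul_mul]
  let f : ℝ → ℝ := fun θ => Real.cos θ ^ 2 * s0 + 2 * (Real.cos θ * Real.sin θ) * r0 +
    Real.sin θ ^ 2 * t0
  let g : ℝ → ℝ := fun θ => Real.cos θ ^ 2 * s1 + 2 * (Real.cos θ * Real.sin θ) * r1 +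
    Real.sin θ ^ 2 * t1
  have hfc : Continuous f := by fun_prop
  have hgc : Continuous g := by fun_prop
  have h00 : ∀ θ, (Real.cos θ ^ 2 • S + (2 * (Real.cos θ * Real.sin θ)) • R +
      Real.sin θ ^ 2 • T) 0 0 = (f θ : 𝕜) := by
    intro θ
    simp only [Matrix.add_apply, Matrix.smul_apply, eS0, eR0, eT0, f,
      RCLike.real_smul_eq_coe_mul]
    push_cast
    ring
  have h11 : ∀ θ, (Real.cos θ ^ 2 • S + (2 * (Real.cos θ * Real.sin θ)) • R +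
      Real.sin θ ^ 2 • T) 1 1 = (g θ : 𝕜) := by
    intro θ
    simp only [Matrix.add_apply, Matrix.smul_apply, eS1, eR1, eT1, g,
      RCLike.real_smul_eq_coe_mul]
    push_cast
    ring
  have h01 : ∀ θ, (Real.cos θ ^ 2 • S + (2 * (Real.cos θ * Real.sin θ)) • R +
      Real.sin θ ^ 2 • T) 0 1 = 0 := by
    intro θ
    simp only [Matrix.add_apply, Matrix.smul_apply, hS0, hR0, hT0, smul_zero, add_zero]
  have hdet : ∀ θ, gd (Real.cos θ • B + Real.sin θ • C) = f θ * g θ := by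
    intro θ
    have h3 : ((Real.cos θ • B + Real.sin θ • C) * (Real.cos θ • B + Real.sin θ • C)ᴴ).det =
        (Uᴴ * ((Real.cos θ • B + Real.sin θ • C) *
          (Real.cos θ • B + Real.sin θ • C)ᴴ) * U).det := by
      rw [Matrix.det_mul, Matrix.det_mul, mul_comm, ← mul_assoc, ← Matrix.det_mul, hU,
        Matrix.det_one, one_mul]
    rw [gd, h3, hgram, Matrix.det_fin_two, h00, h11, h01, zero_mul, sub_zero,
      ← RCLike.ofReal_mul, RCLike.ofReal_re]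
  have htr : ∀ θ, gt (Real.cos θ • B + Real.sin θ • C) = f θ + g θ := by
    intro θ
    have h3 : ((Real.cos θ • B + Real.sin θ • C) * (Real.cos θ • B + Real.sin θ • C)ᴴ).trace =
        (Uᴴ * ((Real.cos θ • B + Real.sin θ • C) *
          (Real.cos θ • B + Real.sin θ • C)ᴴ) * U).trace := by
      rw [Matrix.trace_mul_comm (Uᴴ * _) U, ← Matrix.mul_assoc, hU, Matrix.one_mul]
    rw [gt, h3, hgram, Matrix.trace_fin_two, h00, h11, ← RCLike.ofReal_add, RCLike.ofReal_re]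
  have hnn : ∀ θ, 0 ≤ f θ ∧ 0 ≤ g θ := by
    intro θ
    have h3 : (Uᴴ * ((Real.cos θ • B + Real.sin θ • C) *
        (Real.cos θ • B + Real.sin θ • C)ᴴ) * U).PosSemidef := by
      have h4 := Matrix.posSemidef_self_mul_conjTranspose
        (Uᴴ * (Real.cos θ • B + Real.sin θ • C))
      rw [conjTranspose_mul, conjTranspose_conjTranspose] at h4
      convert h4 using 1
      simp only [Matrix.mul_assoc]
    have h5 := fun i => h3.diag_nonneg (i := i)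
    rw [hgram] at h5
    have h6 := h5 0
    have h7 := h5 1
    rw [h00] at h6
    rw [h11] at h7
    exact ⟨by exact_mod_cast h6, by exact_mod_cast h7⟩
  obtain ⟨θ0, hθ0⟩ := exists_zero_angle hq0
  obtain ⟨θ1, hθ1⟩ := exists_zero_angle hq1
  have hf0 : f θ0 = 0 := hθ0
  have hg1 : g θ1 = 0 := hθ1
  obtain ⟨θ2, hθ2⟩ := mem_range_of_exists_le_of_exists_ge (c := 0) (hfc.sub hgc)
    ⟨θ0, by
      show f θ0 - g θ0 ≤ 0
      rw [hf0]
      linarith [(hnn θ0).2]⟩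
    ⟨θ1, by
      show 0 ≤ f θ1 - g θ1
      rw [hg1]
      linarith [(hnn θ1).1]⟩
  have hfg : f θ2 - g θ2 = 0 := hθ2
  obtain ⟨θ, hθ⟩ := mem_range_of_exists_le_of_exists_ge (c := 0)
    ((hfc.mul hgc).sub (continuous_const.mul ((hfc.add hgc).pow 2)) :
      Continuous fun θ => f θ * g θ - δ * (f θ + g θ) ^ 2)
    ⟨θ0, by
      show f θ0 * g θ0 - δ * (f θ0 + g θ0) ^ 2 ≤ 0
      rw [hf0]
      nlinarith [sq_nonneg (g θ0)]⟩
    ⟨θ2, by
      show 0 ≤ f θ2 * g θ2 - δ * (f θ2 + g θ2) ^ 2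
      have h8 : g θ2 = f θ2 := by linarith
      rw [h8]
      nlinarith [sq_nonneg (f θ2)]⟩
  refine ⟨θ, ?_⟩
  rw [hdet, htr]
  have h9 : f θ * g θ - δ * (f θ + g θ) ^ 2 = 0 := hθ
  linarith

end Pool.Agent.Helper20.CKP
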