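import Mathlib

/-!
# CKP: two matrices with the same Gram matrix of the rows
-/

set_option autoImplicit false

namespace Pool.Agent.Helper20.CKP

open Matrix

/-- Two families of vectors with the same Gram matrix differ by an orthogonal matrix. -/
theorem exists_orthogonal {r n : ℕ} {B B' : Matrix (Fin r) (Fin n) ℝ} (h : B' * B'ᵀ = B * Bᵀ) :
    ∃ W : Matrix (Fin n) (Fin n) ℝ, W * Wᵀ = 1 ∧ B' = B * W := by
  classical
  let V := EuclideanSpace ℝ (Fin n)
  let T : Matrix (Fin r) (Fin n) ℝ → ((Fin r → ℝ) →ₗ[ℝ] V) := fun A =>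
    (WithLp.linearEquiv 2 ℝ (Fin n → ℝ)).symm.toLinearMap ∘ₗ Matrix.mulVecLin Aᵀ
  have hTapp : ∀ A c i, T A c i = (Aᵀ *ᵥ c) i := fun A c i => rfl
  have hnorm : ∀ A c, ‖T A c‖ ^ 2 = c ⬝ᵥ ((A * Aᵀ) *ᵥ c) := by
    intro A c
    rw [EuclideanSpace.norm_sq_eq]
    simp only [hTapp, Real.norm_eq_abs, sq_abs]
    rw [← Matrix.mulVec_mulVec, Matrix.dotProduct_mulVec, ← Matrix.mulVec_transpose]
    simp only [dotProduct, sq]
  have hnn : ∀ c, ‖T B' c‖ = ‖T B c‖ := by
    intro c
    have h1 : ‖T B' c‖ ^ 2 = ‖T B c‖ ^ 2 := by rw [hnorm, hnorm, h]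
    exact (sq_eq_sq₀ (norm_nonneg _) (norm_nonneg _)).1 h1
  have hker : ∀ c, T B c = 0 → T B' c = 0 := by
    intro c hc
    rw [← norm_eq_zero, hnn, hc, norm_zero]
  obtain ⟨σ, hσ⟩ := (T B).rangeRestrict.exists_rightInverse_of_surjective
    (LinearMap.range_rangeRestrict _)
  have hσ' : ∀ x : LinearMap.range (T B), T B (σ x) = x := fun x =>
    congrArg Subtype.val (LinearMap.congr_fun hσ x)
  let L : LinearMap.range (T B) →ₗᵢ[ℝ] V :=
    { toLinearMap := (T B').comp σ
      norm_map' := fun x => by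
        show ‖T B' (σ x)‖ = ‖x‖
        rw [hnn, hσ']
        rfl }
  have hL : ∀ c, L ⟨T B c, LinearMap.mem_range_self _ c⟩ = T B' c := by
    intro c
    show T B' (σ ⟨T B c, LinearMap.mem_range_self _ c⟩) = T B' c
    rw [← sub_eq_zero, ← map_sub]
    apply hker
    rw [map_sub, hσ', sub_self]
  let E := L.extend
  have hE : ∀ c, E (T B c) = T B' c := by
    intro c
    rw [← hL c]
    exact L.extend_apply ⟨T B c, LinearMap.mem_range_self _ c⟩
  -- the matrix of the isometry
  let M : Matrix (Fin n) (Fin n) ℝ := fun i j => E (EuclideanSpace.single j 1) i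
  have hM : ∀ x : V, ∀ i, E x i = ∑ j, M i j * x j := by
    intro x i
    have hx : x = ∑ j, x j • (EuclideanSpace.single j (1 : ℝ) : V) := by
      ext k
      rw [WithLp.ofLp_sum, Finset.sum_apply]
      simp
    conv_lhs => rw [hx]
    rw [map_sum]
    simp only [map_smul]
    rw [WithLp.ofLp_sum, Finset.sum_apply]
    refine Finset.sum_congr rfl fun j _ => ?_
    show x j * E (EuclideanSpace.single j 1) i = _
    ring
  have horth : Mᵀ * M = 1 := by
    ext j k
    have h1 : inner ℝ (E (EuclideanSpace.single j (1 : ℝ))) (E (EuclideanSpace.single k (1 : ℝ))) =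
        inner ℝ (EuclideanSpace.single j (1 : ℝ) : V) (EuclideanSpace.single k (1 : ℝ)) :=
      E.inner_map_map _ _
    rw [PiLp.inner_apply] at h1
    rw [Matrix.mul_apply, Matrix.one_apply]
    have h2 : ∑ i, Mᵀ j i * M i k = inner ℝ (EuclideanSpace.single j (1 : ℝ) : V) (EuclideanSpace.single k (1 : ℝ)) := by
      rw [← h1]
      refine Finset.sum_congr rfl fun i _ => ?_
      show M i j * M i k = _
      rw [real_inner_comm]
      rfl
    rw [h2, EuclideanSpace.inner_single_left]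
    simp
  refine ⟨Mᵀ, by rw [Matrix.transpose_transpose]; exact horth, ?_⟩
  ext i j
  have h1 := congrArg (fun v : V => v j) (hE (Pi.single i 1))
  simp only [hM] at h1
  rw [Matrix.mul_apply]
  have h2 : ∀ A : Matrix (Fin r) (Fin n) ℝ, ∀ k, T A (Pi.single i 1) k = A i k := by
    intro A k
    rw [hTapp]
    simp
  rw [h2] at h1
  rw [← h1]
  refine Finset.sum_congr rfl fun k _ => ?_
  rw [h2, Matrix.transpose_apply]
  ring

end Pool.Agent.Helper20.CKP
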