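import Mathlib

namespace Pool.Agent.Helper20.CKP

open Filter Topology Module

/-- A finite family of nonzero subspaces of a coordinate space: there is a vector which is
orthogonal to none of them. -/
theorem exists_generic {ι κ : Type*} [Fintype ι] [Finite κ] (A : κ → Submodule ℝ (ι → ℝ)) :
    ∃ τ : ι → ℝ, ∀ k, (∃ w ∈ A k, w ≠ 0) → ∃ w ∈ A k, ∑ i, τ i * w i ≠ 0 := by
  classical
  let S : κ → Submodule ℝ (ι → ℝ) := fun k =>
    { carrier := {τ | ∀ w ∈ A k, ∑ i, τ i * w i = 0}
      add_mem' := by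
        intro x y hx hy w hw
        simp only [Pi.add_apply, add_mul, Finset.sum_add_distrib, hx w hw, hy w hw, add_zero]
      zero_mem' := by
        intro w _
        simp
      smul_mem' := by
        intro c x hx w hw
        simp only [Pi.smul_apply, smul_eq_mul, mul_assoc, ← Finset.mul_sum, hx w hw, mul_zero] }
  by_contra hcon
  push Not at hcon
  have hcov : ⋃ k : {k : κ // ∃ w ∈ A k, w ≠ 0}, (S k : Set (ι → ℝ)) = Set.univ := by
    refine Set.eq_univ_of_forall fun τ => ?_
    obtain ⟨k, hk, h⟩ := hcon τ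
    exact Set.mem_iUnion.2 ⟨⟨k, hk⟩, fun w hw => h w hw⟩
  obtain ⟨⟨k, w, hw, hw0⟩, hk⟩ := Subspace.exists_eq_top_of_iUnion_eq_univ hcov
  have h1 : w ∈ S k := by
    have : S k = ⊤ := hk
    rw [this]
    trivial
  have h2 : ∑ i, w i * w i = 0 := h1 w hw
  apply hw0
  funext i
  have h3 := (Finset.sum_eq_zero_iff_of_nonneg (fun i _ => mul_self_nonneg (w i))).1 h2 i
    (Finset.mem_univ i)
  simpa using h3

/-- A linear embedding into a larger coordinate space. -/
theorem exists_embed {n m : ℕ} (h : n ≤ m) (W : Type) [AddCommGroup W] [Module ℝ W]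
    [FiniteDimensional ℝ W] (hn : finrank ℝ W = n) :
    ∃ T : W →ₗ[ℝ] (Fin m → ℝ), ∀ x, T x = 0 → x = 0 := by
  let b := Module.finBasisOfFinrankEq ℝ W hn
  refine ⟨LinearMap.pi fun j => if h : (j : ℕ) < n then b.coord ⟨j, h⟩ else 0, fun x hx => ?_⟩
  apply b.ext_elem
  intro i
  have h1 := congrFun hx ⟨i, lt_of_lt_of_le i.2 h⟩
  simpa using h1

/-- A linear map which is injective on finitely many subspaces of small dimension. -/
theorem exists_linear {κ : Type*} [Finite κ] (m : ℕ) :
    ∀ (n : ℕ) (W : Type) [AddCommGroup W] [Module ℝ W] [FiniteDimensional ℝ W],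
      finrank ℝ W = n → ∀ A : κ → Submodule ℝ W, (∀ k, finrank ℝ (A k) ≤ m) →
      ∃ T : W →ₗ[ℝ] (Fin m → ℝ), ∀ k, ∀ x ∈ A k, T x = 0 → x = 0 := by
  intro n
  induction n with
  | zero =>
    intro W _ _ _ hn A _
    have : Subsingleton W := Module.finrank_zero_iff.1 hn
    exact ⟨0, fun k x _ _ => Subsingleton.elim _ _⟩
  | succ n ih =>
    intro W _ _ _ hn A hA
    rcases le_or_gt (n + 1) m with hm | hm
    · obtain ⟨T, hT⟩ := exists_embed hm W hn
      exact ⟨T, fun k x _ hx => hT x hx⟩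
    · obtain ⟨v, hv⟩ : ∃ v : W, v ∉ ⋃ k, (A k : Set W) := by
        by_contra hcon
        push Not at hcon
        obtain ⟨k, hk⟩ := Subspace.exists_eq_top_of_iUnion_eq_univ (Set.eq_univ_of_forall hcon)
        have h1 := hA k
        rw [hk, finrank_top, hn] at h1
        omega
      rcases isEmpty_or_nonempty κ with hκ | hκ
      · exact ⟨0, fun k => isEmptyElim k⟩
      have hv' : ∀ k, v ∉ A k := fun k hk => hv (Set.mem_iUnion.2 ⟨k, hk⟩)
      have hv0 : v ≠ 0 := by
        rintro rfl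
        exact hv' hκ.some (Submodule.zero_mem _)
      have hq : finrank ℝ (W ⧸ (ℝ ∙ v)) = n := by
        have h1 := Submodule.finrank_quotient_add_finrank (ℝ ∙ v)
        rw [finrank_span_singleton hv0, hn] at h1
        omega
      obtain ⟨T, hT⟩ := ih (W ⧸ (ℝ ∙ v)) hq (fun k => (A k).map (ℝ ∙ v).mkQ)
        (fun k => (Submodule.finrank_map_le _ _).trans (hA k))
      refine ⟨T.comp (ℝ ∙ v).mkQ, fun k x hx h0 => ?_⟩
      have h1 := hT k ((ℝ ∙ v).mkQ x) (Submodule.mem_map_of_mem hx) h0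
      rw [Submodule.mkQ_apply, Submodule.Quotient.mk_eq_zero, Submodule.mem_span_singleton] at h1
      obtain ⟨c, rfl⟩ := h1
      by_cases hc : c = 0
      · simp [hc]
      · exfalso
        apply hv' k
        have := (A k).smul_mem c⁻¹ hx
        rwa [smul_smul, inv_mul_cancel₀ hc, one_smul] at this

end Pool.Agent.Helper20.CKP
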