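import Pool.Agent.Helper20.CKP.Core
import Pool.Agent.Helper17.CKF.O6

/-!
# CKP: linear subspaces of symmetric matrices conjugate into `q`
-/

set_option autoImplicit false

namespace Pool.Agent.Helper20.CKP

open Matrix Module Topology Filter NormedSpace Pool.Agent.Helper40.CK Pool.Agent.Helper17.CKF

/-- The Borsuk-Ulam theorem for maps between finite dimensional spaces of matrices. -/
theorem finrank_le_of_odd {m : ℕ} {E W : Submodule ℝ (Matrix (Fin m) (Fin m) ℝ)}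
    (f : E → W) (hf : ContinuousOn f {0}ᶜ) (hodd : ∀ x, x ≠ 0 → f (-x) = -f x)
    (h0 : ∀ x, x ≠ 0 → f x ≠ 0) : finrank ℝ E ≤ finrank ℝ W := by
  obtain ⟨B, -, hB⟩ := exists_subset (ι := Unit) (V := fun _ => W)
    (fun _ X => nrm (X : Matrix (Fin m) (Fin m) ℝ))
    (fun _ => continuous_nrm.comp continuous_subtype_val) (fun _ X => nrm_nonneg _)
    (fun _ X => nrm_neg _) (fun _ => nrm_zero) ⊥ E (fun x _ => f x)
    (continuousOn_pi.2 fun _ => hf) (fun x hx => funext fun _ => hodd x hx)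
    (by
      intro x hx t ht h
      rw [Submodule.mem_bot] at ht
      subst ht
      have h1 : nrm (f x : Matrix (Fin m) (Fin m) ℝ) = 0 := by
        have := h ()
        rw [← this]
        simp
      apply h0 x hx
      apply Subtype.ext
      apply eq_zero_of_trace
      rw [← nrm_sq, h1]
      norm_num)
  simp only [Finset.univ_unique, Finset.sum_singleton] at hB
  omega

/-- The orthogonal projection onto the complement of `V`: a linear map with kernel `V` whose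
values on `p ⊇ V` are in `p` and orthogonal to `V`. -/
theorem exists_proj {m : ℕ} (V p : Submodule ℝ (Matrix (Fin m) (Fin m) ℝ)) (hVp : V ≤ p)
    (hps : ∀ X ∈ p, Xᵀ = X) :
    ∃ π : Matrix (Fin m) (Fin m) ℝ →ₗ[ℝ] Matrix (Fin m) (Fin m) ℝ,
      (∀ X ∈ p, π X ∈ p ∧ ∀ Y ∈ V, (π X * Y).trace = 0) ∧ ∀ X, π X = 0 → X ∈ V := by
  -- the trace form on `V`
  let β : V →ₗ[ℝ] Module.Dual ℝ V := LinearMap.mk₂ ℝ
    (fun (X Y : V) => ((X : Matrix (Fin m) (Fin m) ℝ) * (Y : Matrix (Fin m) (Fin m) ℝ)).trace)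
    (fun X X' Y => by simp [Matrix.add_mul]) (fun c X Y => by simp)
    (fun X Y Y' => by simp [Matrix.mul_add]) (fun c X Y => by simp)
  have hβ : Function.Injective β := by
    rw [injective_iff_map_eq_zero]
    intro X hX
    have h1 : ((X : Matrix (Fin m) (Fin m) ℝ) * (X : Matrix (Fin m) (Fin m) ℝ)).trace = 0 :=
      congrArg (fun φ : Module.Dual ℝ V => φ X) hX
    apply Subtype.ext
    apply eq_zero_of_trace
    rwa [hps _ (hVp X.2)]
  have hβ' : Function.Surjective β :=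
    (LinearMap.injective_iff_surjective_of_finrank_eq_finrank
      (Subspace.dual_finrank_eq (K := ℝ) (V := V)).symm).1 hβ
  let e := LinearEquiv.ofBijective β ⟨hβ, hβ'⟩
  let γ : Matrix (Fin m) (Fin m) ℝ →ₗ[ℝ] Module.Dual ℝ V := LinearMap.mk₂ ℝ
    (fun (X : Matrix (Fin m) (Fin m) ℝ) (Y : V) => (X * (Y : Matrix (Fin m) (Fin m) ℝ)).trace)
    (fun X X' Y => by simp [Matrix.add_mul]) (fun c X Y => by simp)
    (fun X Y Y' => by simp [Matrix.mul_add]) (fun c X Y => by simp)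
  refine ⟨LinearMap.id - V.subtype.comp (e.symm.toLinearMap.comp γ), fun X hX => ⟨?_, ?_⟩, ?_⟩
  · exact p.sub_mem hX (hVp (e.symm (γ X)).2)
  · intro Y hY
    have h1 : β (e.symm (γ X)) = γ X := e.apply_symm_apply (γ X)
    have h2 : ((e.symm (γ X) : Matrix (Fin m) (Fin m) ℝ) * Y).trace = (X * Y).trace :=
      congrArg (fun φ : Module.Dual ℝ V => φ ⟨Y, hY⟩) h1
    show ((X - (e.symm (γ X) : Matrix (Fin m) (Fin m) ℝ)) * Y).trace = 0
    rw [Matrix.sub_mul, Matrix.trace_sub, h2, sub_self]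
  · intro X hX
    have h1 : X - (e.symm (γ X) : Matrix (Fin m) (Fin m) ℝ) = 0 := hX
    rw [sub_eq_zero.1 h1]
    exact (e.symm (γ X)).2

theorem finrank_perp {m : ℕ} (V p : Submodule ℝ (Matrix (Fin m) (Fin m) ℝ)) :
    ∃ E : Submodule ℝ (Matrix (Fin m) (Fin m) ℝ),
      (∀ X, X ∈ E ↔ X ∈ p ∧ ∀ Y ∈ V, (X * Y).trace = 0) ∧
      finrank ℝ p ≤ finrank ℝ E + finrank ℝ V ∧
      (V ≤ p → (∀ X ∈ p, Xᵀ = X) → finrank ℝ E + finrank ℝ V ≤ finrank ℝ p) := by
  let γ : p →ₗ[ℝ] Module.Dual ℝ V := LinearMap.mk₂ ℝ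
    (fun (X : p) (Y : V) =>
      ((X : Matrix (Fin m) (Fin m) ℝ) * (Y : Matrix (Fin m) (Fin m) ℝ)).trace)
    (fun X X' Y => by simp [Matrix.add_mul]) (fun c X Y => by simp)
    (fun X Y Y' => by simp [Matrix.mul_add]) (fun c X Y => by simp)
  have hE : ∀ X, X ∈ (LinearMap.ker γ).map p.subtype ↔ X ∈ p ∧ ∀ Y ∈ V, (X * Y).trace = 0 := by
    intro X
    rw [Submodule.mem_map]
    constructor
    · rintro ⟨X, hX, rfl⟩
      refine ⟨X.2, fun Y hY => ?_⟩
      exact congrArg (fun φ : Module.Dual ℝ V => φ ⟨Y, hY⟩) (LinearMap.mem_ker.1 hX)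
    · rintro ⟨hX, h⟩
      refine ⟨⟨X, hX⟩, ?_, rfl⟩
      rw [LinearMap.mem_ker]
      ext Y
      exact h Y Y.2
  have hfin : finrank ℝ ((LinearMap.ker γ).map p.subtype) = finrank ℝ (LinearMap.ker γ) :=
    Submodule.finrank_map_subtype_eq _ _
  refine ⟨(LinearMap.ker γ).map p.subtype, hE, ?_, fun hVp hps => ?_⟩
  · rw [hfin]
    have h1 : finrank ℝ (LinearMap.range γ) + finrank ℝ (LinearMap.ker γ) = finrank ℝ p :=
      LinearMap.finrank_range_add_finrank_ker γ
    have h2 : finrank ℝ (LinearMap.range γ) ≤ finrank ℝ V :=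
      (Submodule.finrank_le _).trans (le_of_eq (Subspace.dual_finrank_eq))
    omega
  · have h1 : ((LinearMap.ker γ).map p.subtype) ⊓ V = ⊥ := by
      rw [eq_bot_iff]
      rintro X ⟨hX, hXV⟩
      rw [Submodule.mem_bot]
      apply eq_zero_of_trace
      rw [hps X (hVp hXV)]
      exact ((hE X).1 hX).2 X hXV
    have h2 := Submodule.finrank_sup_add_finrank_inf_eq ((LinearMap.ker γ).map p.subtype) V
    rw [h1, finrank_bot, add_zero] at h2
    rw [← h2]
    refine Submodule.finrank_mono (sup_le ?_ hVp)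
    intro X hX
    exact ((hE X).1 hX).1

/-- A linear space of vectors of `p` conjugate into `q` has dimension at most `dim q`. -/
theorem linear_subspace {m : ℕ} {G : Type} [Group G] [TopologicalSpace G] [IsTopologicalGroup G]
    (M : MatGroup G m) {p q : Submodule ℝ (Matrix (Fin m) (Fin m) ℝ)} {H Γ : Subgroup G}
    (hG : Cartan M ⊤ p) (hH : Cartan M H q) (hΓ : IsCocompactDiscontinuousGroup Γ H)
    (V : Submodule ℝ (Matrix (Fin m) (Fin m) ℝ)) (hVp : V ≤ p)
    (hV : ∀ X ∈ V, ∃ k : G, M.ι k * (M.ι k)ᵀ = 1 ∧ ∃ Y ∈ q, X = M.ι k * Y * (M.ι k)ᵀ) :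
    finrank ℝ V ≤ finrank ℝ q := by
  obtain ⟨F, hFc, hF⟩ := odd_map M hG hH hΓ
  obtain ⟨E, hE, hE1, -⟩ := finrank_perp q p
  obtain ⟨W, hW, -, hW1⟩ := finrank_perp V p
  obtain ⟨π, hπ, hπ0⟩ := exists_proj V p hVp hG.symm
  have hπc : Continuous π := π.continuous_of_finiteDimensional
  classical
  have hx0 : ∀ x : E, x ≠ 0 → (x : Matrix (Fin m) (Fin m) ℝ) ≠ 0 := fun x hx h =>
    hx (Subtype.ext h)
  have hFx := fun (x : E) (hx : x ≠ 0) => hF x ((hE x).1 x.2).1 ((hE x).1 x.2).2 (hx0 x hx)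
  have hmem : ∀ x : E, x ≠ 0 → π (F x) ∈ W := fun x hx =>
    (hW _).2 ⟨(hπ _ (hFx x hx).1).1, (hπ _ (hFx x hx).1).2⟩
  let f : E → W := fun x => if h : π (F x) ∈ W then ⟨_, h⟩ else 0
  have hf : ∀ x : E, x ≠ 0 → (f x : Matrix (Fin m) (Fin m) ℝ) = π (F x) := by
    intro x hx
    simp only [f, dif_pos (hmem x hx)]
  have h1 : finrank ℝ E ≤ finrank ℝ W := by
    refine finrank_le_of_odd f ?_ ?_ ?_
    · have h1 : ContinuousOn (fun x : E => π (F x)) ({0}ᶜ : Set E) := by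
        refine hπc.comp_continuousOn (hFc.comp continuous_subtype_val.continuousOn ?_)
        intro x hx
        exact ⟨((hE x).1 x.2).1, ((hE x).1 x.2).2, hx0 x hx⟩
      have h2 : ContinuousOn (fun x : E => (f x : Matrix (Fin m) (Fin m) ℝ)) ({0}ᶜ : Set E) :=
        h1.congr fun x hx => hf x hx
      rw [continuousOn_iff_continuous_domRestrict] at h2 ⊢
      exact Continuous.subtype_mk h2 fun x => (f x).2
    · intro x hx
      apply Subtype.ext
      rw [hf _ (neg_ne_zero.2 hx)]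
      show π (F (-(x : Matrix (Fin m) (Fin m) ℝ))) = -(f x : Matrix (Fin m) (Fin m) ℝ)
      rw [(hFx x hx).2.1, map_neg, hf x hx]
    · intro x hx h
      have h2 : π (F x) = 0 := by rw [← hf x hx, h]; rfl
      obtain ⟨k, hk, Y, hY, hkY⟩ := hV _ (hπ0 _ h2)
      exact (hFx x hx).2.2 k hk Y hY hkY
  have h2 := hW1 hVp hG.symm
  omega

end Pool.Agent.Helper20.CKP
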