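import Pool.Agent.Helper20.CKP.Diag
import Pool.Agent.Helper20.CKP.Lsub
import Pool.Agent.Helper29.CKP.Opq
import Pool.Agent.Helper29.CKP.Classify
import Pool.Agent.Helper40.CK.Ratio

/-!
# CKP: reductive subgroups of `O(2, n)`
-/

set_option autoImplicit false

namespace Pool.Agent.Helper20.CKP

open Matrix Module Topology Filter NormedSpace Pool.Agent.Helper40.CK Pool.Agent.Helper17.CKF
  Pool.Agent.Helper29.CKP

/-- The upper right block. -/
noncomputable def ur (r n : ℕ) :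
    Matrix (Fin (r + n)) (Fin (r + n)) ℝ →ₗ[ℝ] Matrix (Fin r) (Fin n) ℝ where
  toFun Z := Z.submatrix (Fin.castAdd n) (Fin.natAdd r)
  map_add' _ _ := rfl
  map_smul' _ _ := rfl

theorem ur_bm {r n : ℕ} (A : Matrix (Fin r) (Fin r) ℝ) (B : Matrix (Fin r) (Fin n) ℝ)
    (C : Matrix (Fin n) (Fin r) ℝ) (D : Matrix (Fin n) (Fin n) ℝ) : ur r n (bm A B C D) = B := by
  ext i j
  show (fromBlocks A B C D) (finSumFinEquiv.symm (Fin.castAdd n i))
    (finSumFinEquiv.symm (Fin.natAdd r j)) = B i j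
  rw [finSumFinEquiv_symm_apply_castAdd, finSumFinEquiv_symm_apply_natAdd, fromBlocks_apply₁₂]

theorem ur_pm {r n : ℕ} (B : Matrix (Fin r) (Fin n) ℝ) : ur r n (pm r n B) = B := ur_bm _ _ _ _

section Ratio
variable {n : ℕ} (B : Matrix (Fin 2) (Fin n) ℝ)

theorem gram_symm {r : ℕ} (B : Matrix (Fin r) (Fin n) ℝ) : (B * Bᵀ)ᵀ = B * Bᵀ := by
  rw [Matrix.transpose_mul, Matrix.transpose_transpose]

theorem gram_psd {r : ℕ} (B : Matrix (Fin r) (Fin n) ℝ) : (B * Bᵀ).PosSemidef := by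
  have h1 := Matrix.posSemidef_self_mul_conjTranspose B
  rwa [conjTranspose_eq_transpose_of_trivial] at h1

theorem gram_det_nonneg : 0 ≤ (B * Bᵀ).det := (gram_psd B).det_nonneg

theorem gram_trace_nonneg : 0 ≤ (B * Bᵀ).trace := (gram_psd B).trace_nonneg

theorem gram_trace_pos {B : Matrix (Fin 2) (Fin n) ℝ} (hB : B ≠ 0) : 0 < (B * Bᵀ).trace := by
  refine lt_of_le_of_ne (gram_trace_nonneg B) fun h0 => hB ?_
  have h1 := Matrix.trace_mul_conjTranspose_self_eq_zero_iff (A := B)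
  rw [conjTranspose_eq_transpose_of_trivial] at h1
  exact h1.1 h0.symm

theorem gram_det_le : 4 * (B * Bᵀ).det ≤ (B * Bᵀ).trace ^ 2 := by
  have h1 : (B * Bᵀ) 1 0 = (B * Bᵀ) 0 1 := congrFun (congrFun (gram_symm B) 0) 1
  rw [Matrix.trace_fin_two, Matrix.det_fin_two, h1]
  nlinarith [sq_nonneg ((B * Bᵀ) 0 0 - (B * Bᵀ) 1 1), sq_nonneg ((B * Bᵀ) 0 1)]

end Ratio

theorem exists_inj {E : Type} [AddCommGroup E] [Module ℝ E] [FiniteDimensional ℝ E] {m : ℕ}
    (h : m ≤ finrank ℝ E) : ∃ φ : (Fin m → ℝ) →ₗ[ℝ] E, Function.Injective φ := by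
  have h1 : finrank ℝ (Fin m → ℝ) ≤ finrank ℝ E := by
    rw [Module.finrank_fin_fun]
    exact h
  let b := finBasis ℝ E
  refine ⟨Fintype.linearCombination ℝ (fun i : Fin m => b (Fin.castLE h i)), ?_⟩
  have h2 : LinearIndependent ℝ (fun i : Fin m => b (Fin.castLE h i)) :=
    b.linearIndependent.comp _ (Fin.castLE_injective h)
  exact h2.fintypeLinearCombination_injective

theorem finrank_pSpace_opq (r n : ℕ) : finrank ℝ (pSpace (Opq r n)) = r * n := by
  have h1 : pSpace (Opq r n) = LinearMap.range (pm r n) := by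
    ext X
    rw [mem_pSpace_opq, LinearMap.mem_range]
    exact ⟨fun ⟨B, h⟩ => ⟨B, h.symm⟩, fun ⟨B, h⟩ => ⟨B, h.symm⟩⟩
  rw [h1, LinearMap.finrank_range_of_inj fun _ _ h => pm_inj h, Module.finrank_matrix,
    Fintype.card_fin, Fintype.card_fin, Module.finrank_self, mul_one]

/-- Two elements of `p` with the same ratio of singular values are conjugate up to a scalar. -/
theorem conj_of_ratio {n : ℕ} {B C : Matrix (Fin 2) (Fin n) ℝ} (hC : C ≠ 0)
    (h : (B * Bᵀ).det * (C * Cᵀ).trace ^ 2 = (C * Cᵀ).det * (B * Bᵀ).trace ^ 2) :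
    ∃ g : Opq 2 n, (oneM (isReductive_opq 2 n).closed).ι g *
      ((oneM (isReductive_opq 2 n).closed).ι g)ᵀ = 1 ∧ ∃ t : ℝ,
      pm 2 n B = (oneM (isReductive_opq 2 n).closed).ι g * pm 2 n (t • C) *
        ((oneM (isReductive_opq 2 n).closed).ι g)ᵀ := by
  obtain ⟨U, hU, W, hW, t, e⟩ := ratio_conj hC h
  have hW' : Wᵀ * Wᵀᵀ = 1 := by
    rw [transpose_transpose]
    exact mul_eq_one_comm.1 hW
  obtain ⟨g, hg, hg1, hg2⟩ := conj_opq hU hW'
  refine ⟨⟨g, hg⟩, hg1, t, ?_⟩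
  show pm 2 n B = (g : Matrix (Fin (2 + n)) (Fin (2 + n)) ℝ) * pm 2 n (t • C) *
    (g : Matrix (Fin (2 + n)) (Fin (2 + n)) ℝ)ᵀ
  rw [hg2, e, transpose_transpose, Matrix.mul_smul, Matrix.smul_mul]

theorem bm_sub {r n : ℕ} (A : Matrix (Fin r) (Fin r) ℝ) (B : Matrix (Fin r) (Fin n) ℝ)
    (C : Matrix (Fin n) (Fin r) ℝ) (D : Matrix (Fin n) (Fin n) ℝ)
    (A' : Matrix (Fin r) (Fin r) ℝ) (B' : Matrix (Fin r) (Fin n) ℝ)
    (C' : Matrix (Fin n) (Fin r) ℝ) (D' : Matrix (Fin n) (Fin n) ℝ) :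
    bm A B C D - bm A' B' C' D' = bm (A - A') (B - B') (C - C') (D - D') := by
  rw [bm, bm, bm, sub_eq_add_neg A, sub_eq_add_neg B, sub_eq_add_neg C, sub_eq_add_neg D,
    ← fromBlocks_add, ← fromBlocks_neg, sub_eq_add_neg]
  rfl

section Main
variable {n : ℕ} {H : Subgroup (Opq 2 n)}

/-- The dimension of `p_H` is at least `n` if `H` is not compact. -/
theorem le_finrank (hn : 2 ≤ n) (hH : IsReductive (H.map (Opq 2 n).subtype))
    (had : AdmitsCocompact H) (h0 : pSpace (H.map (Opq 2 n).subtype) ≠ ⊥) :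
    n ≤ finrank ℝ (pSpace (H.map (Opq 2 n).subtype)) := by
  classical
  set M := oneM (isReductive_opq 2 n).closed with hM
  set q := pSpace (H.map (Opq 2 n).subtype) with hq
  have hCG : Cartan M ⊤ (pSpace (Opq 2 n)) := cartan_top (isReductive_opq 2 n)
  have hCH : Cartan M H q := cartan_one _ hH
  obtain ⟨Γ, hΓ⟩ := had
  obtain ⟨F, hFc, hF⟩ := odd_map M hCG hCH hΓ
  obtain ⟨X0, hX0, hX00⟩ := q.exists_mem_ne_zero_of_ne_bot h0
  have hqp : ∀ X ∈ q, X ∈ pSpace (Opq 2 n) := by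
    intro X hX
    rw [mem_pSpace hH] at hX
    rw [mem_pSpace (isReductive_opq 2 n)]
    refine ⟨hX.1, ?_⟩
    obtain ⟨h, hh, e⟩ := hX.2
    rw [← e]
    exact h.2
  obtain ⟨B0, rfl⟩ := mem_pSpace_opq.1 (hqp X0 hX0)
  have hB0 : B0 ≠ 0 := by
    rintro rfl
    exact hX00 (map_zero _)
  by_contra hlt
  push Not at hlt
  obtain ⟨E, hE, hE1, -⟩ := finrank_perp q (pSpace (Opq 2 n))
  rw [finrank_pSpace_opq] at hE1
  obtain ⟨φ, hφ⟩ := exists_inj (E := E) (m := n + 1) (by omega)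
  have hφ0 : ∀ x, x ≠ 0 → (φ x : Matrix (Fin (2 + n)) (Fin (2 + n)) ℝ) ≠ 0 := by
    intro x hx h
    apply hx
    apply hφ
    rw [map_zero]
    exact Subtype.ext h
  have hφE := fun x => (hE (φ x)).1 (φ x).2
  have hFp := fun (x : Fin (n + 1) → ℝ) (hx : x ≠ 0) =>
    hF (φ x) (hφE x).1 (hφE x).2 (hφ0 x hx)
  have hpmB : ∀ x, x ≠ 0 → F (φ x) = pm 2 n (ur 2 n (F (φ x))) := by
    intro x hx
    obtain ⟨B, hB⟩ := mem_pSpace_opq.1 (hFp x hx).1
    rw [hB, ur_pm]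
  have hδ := gram_trace_pos hB0
  obtain ⟨x, hx, hxr⟩ := Pool.Agent.Helper40.CK.exists_ratio hn (fun x => ur 2 n (F (φ x))) (by
      have h1 : Continuous (ur 2 n) := (ur 2 n).continuous_of_finiteDimensional
      have h2 : Continuous fun x => (φ x : Matrix (Fin (2 + n)) (Fin (2 + n)) ℝ) :=
        continuous_subtype_val.comp φ.continuous_of_finiteDimensional
      refine h1.comp_continuousOn (hFc.comp h2.continuousOn ?_)
      intro x hx
      exact ⟨(hφE x).1, (hφE x).2, hφ0 x hx⟩)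
    (by
      intro x hx
      have h1 : ((φ (-x) : E) : Matrix (Fin (2 + n)) (Fin (2 + n)) ℝ) = -(φ x) := by
        rw [map_neg]
        rfl
      show ur 2 n (F (φ (-x))) = -ur 2 n (F (φ x))
      rw [h1, (hFp x hx).2.1, map_neg])
    ((B0 * B0ᵀ).det / (B0 * B0ᵀ).trace ^ 2)
    (div_nonneg (gram_det_nonneg B0) (by positivity))
    (by
      rw [div_le_iff₀ (by positivity)]
      have := gram_det_le B0
      linarith)
  obtain ⟨g, hg, t, e⟩ := conj_of_ratio (B := ur 2 n (F (φ x))) hB0 (by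
    rw [hxr]
    field_simp)
  rw [← hpmB x hx] at e
  refine (hFp x hx).2.2 g hg (pm 2 n (t • B0)) ?_ e
  rw [map_smul]
  exact q.smul_mem t hX0

theorem pSpace_map_le (hH : IsReductive (H.map (Opq 2 n).subtype)) :
    pSpace (H.map (Opq 2 n).subtype) ≤ pSpace (Opq 2 n) := by
  intro X hX
  rw [mem_pSpace hH] at hX
  rw [mem_pSpace (isReductive_opq 2 n)]
  refine ⟨hX.1, ?_⟩
  obtain ⟨h, hh, e⟩ := hX.2
  rw [← e]
  exact h.2

theorem pm_commute {B C : Matrix (Fin 2) (Fin n) ℝ} (h : pm 2 n B * pm 2 n C = pm 2 n C * pm 2 n B) :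
    B * Cᵀ = C * Bᵀ ∧ Bᵀ * C = Cᵀ * B := by
  rw [pm_apply, pm_apply, bm_mul, bm_mul] at h
  obtain ⟨h1, -, -, h4⟩ := bm_inj h
  simp only [Matrix.mul_zero, zero_add, add_zero] at h1 h4
  exact ⟨h1, h4⟩

/-- Either all elements of `p_H` have the same ratio of singular values, or `p_H = p`. -/
theorem ratio_or (hH : IsReductive (H.map (Opq 2 n).subtype)) (had : AdmitsCocompact H) :
    pSpace (H.map (Opq 2 n).subtype) = pSpace (Opq 2 n) ∨
      ∃ δ : ℝ, ∀ B, pm 2 n B ∈ pSpace (H.map (Opq 2 n).subtype) →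
        (B * Bᵀ).det = δ * (B * Bᵀ).trace ^ 2 := by
  classical
  set M := oneM (isReductive_opq 2 n).closed with hM
  have hqp := pSpace_map_le hH
  set q := pSpace (H.map (Opq 2 n).subtype) with hq
  have hCG : Cartan M ⊤ (pSpace (Opq 2 n)) := cartan_top (isReductive_opq 2 n)
  have hCH : Cartan M H q := cartan_one _ hH
  obtain ⟨a, haq, hac, hak⟩ := exists_abelian hCH
  by_cases ha : finrank ℝ a ≤ 1
  · right
    obtain ⟨⟨v, hv⟩, hvw⟩ := finrank_le_one_iff.1 ha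
    obtain ⟨B0, rfl⟩ := mem_pSpace_opq.1 (hqp (haq hv))
    refine ⟨(B0 * B0ᵀ).det / (B0 * B0ᵀ).trace ^ 2, fun B hB => ?_⟩
    obtain ⟨k, -, hk, hka⟩ := hak _ hB
    obtain ⟨U, W, hU, hW, hUW⟩ := conj_opq' k.2 hk
    have h1 : M.ι k * pm 2 n B * (M.ι k)ᵀ = pm 2 n (U * B * Wᵀ) := hUW B
    rw [h1] at hka
    obtain ⟨c, hc⟩ := hvw ⟨_, hka⟩
    have h2 : c • pm 2 n B0 = pm 2 n (U * B * Wᵀ) := congrArg Subtype.val hc
    rw [← map_smul] at h2
    have h3 := pm_inj h2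
    have hU' : Uᵀ * U = 1 := mul_eq_one_comm.1 hU
    have hW' : Wᵀ * W = 1 := mul_eq_one_comm.1 hW
    have h4 : (c • B0) * (c • B0)ᵀ = U * (B * Bᵀ) * Uᵀ := by
      rw [h3]
      calc U * B * Wᵀ * (U * B * Wᵀ)ᵀ = U * B * (Wᵀ * W) * Bᵀ * Uᵀ := by
            rw [transpose_mul, transpose_mul, transpose_transpose]
            simp only [Matrix.mul_assoc]
        _ = _ := by
            rw [hW', Matrix.mul_one]
            simp only [Matrix.mul_assoc]
    have h5 : (c • B0) * (c • B0)ᵀ = (c ^ 2) • (B0 * B0ᵀ) := by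
      rw [transpose_smul, Matrix.smul_mul, Matrix.mul_smul, smul_smul, sq]
    have hdet : (B * Bᵀ).det = (c ^ 2) ^ 2 * (B0 * B0ᵀ).det := by
      have h6 : (U * (B * Bᵀ) * Uᵀ).det = (B * Bᵀ).det := by
        rw [Matrix.det_mul, Matrix.det_mul, mul_comm, ← mul_assoc, ← Matrix.det_mul, hU',
          Matrix.det_one, one_mul]
      rw [← h6, ← h4, h5, Matrix.det_smul, Fintype.card_fin]
    have htr : (B * Bᵀ).trace = c ^ 2 * (B0 * B0ᵀ).trace := by
      have h6 : (U * (B * Bᵀ) * Uᵀ).trace = (B * Bᵀ).trace := by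
        rw [Matrix.trace_mul_comm, ← Matrix.mul_assoc, hU', Matrix.one_mul]
      rw [← h6, ← h4, h5, Matrix.trace_smul, smul_eq_mul]
    by_cases hB0 : B0 = 0
    · rw [hdet, htr, hB0]
      simp
    · have h7 := gram_trace_pos hB0
      rw [hdet, htr]
      field_simp
  · left
    push Not at ha
    by_contra hne
    have hlt : q < pSpace (Opq 2 n) := lt_of_le_of_ne hqp hne
    have hfl := Submodule.finrank_lt_finrank_of_lt hlt
    obtain ⟨Γ, hΓ⟩ := had
    obtain ⟨F, hFc, hF⟩ := odd_map M hCG hCH hΓ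
    obtain ⟨E, hE, hE1, -⟩ := finrank_perp q (pSpace (Opq 2 n))
    have hEpos : 0 < finrank ℝ E := by omega
    have hEne : E ≠ ⊥ := by
      intro h
      rw [h, finrank_bot] at hEpos
      exact lt_irrefl _ hEpos
    obtain ⟨x, hxE, hx0⟩ := E.exists_mem_ne_zero_of_ne_bot hEne
    have hx := (hE x).1 hxE
    obtain ⟨h1, -, h3⟩ := hF x hx.1 hx.2 hx0
    obtain ⟨D, hD⟩ := mem_pSpace_opq.1 h1
    obtain ⟨φ, hφ⟩ := exists_inj (E := a) (m := 2) ha
    obtain ⟨B, hB⟩ := mem_pSpace_opq.1 (hqp (haq (φ ![1, 0]).2))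
    obtain ⟨C, hC⟩ := mem_pSpace_opq.1 (hqp (haq (φ ![0, 1]).2))
    obtain ⟨hBC, hBC'⟩ := pm_commute (B := B) (C := C) (by
      rw [← hB, ← hC]
      exact hac _ (φ _).2 _ (φ _).2)
    by_cases hD0 : D = 0
    · refine h3 1 ?_ 0 q.zero_mem ?_
      · rw [map_one, transpose_one, Matrix.mul_one]
      · rw [hD, hD0, map_zero, Matrix.mul_zero, Matrix.zero_mul]
    have hDtr := gram_trace_pos hD0
    obtain ⟨θ, hθ⟩ := exists_ratio_plane hBC hBC' (δ := (D * Dᵀ).det / (D * Dᵀ).trace ^ 2)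
      (div_nonneg (gram_det_nonneg D) (by positivity))
      (by
        rw [div_le_iff₀ (by positivity)]
        have := gram_det_le D
        linarith)
    set A := Real.cos θ • B + Real.sin θ • C with hA
    have hAa : pm 2 n A = φ ![Real.cos θ, Real.sin θ] := by
      have h4 : (![Real.cos θ, Real.sin θ] : Fin 2 → ℝ) =
          Real.cos θ • ![1, 0] + Real.sin θ • ![0, 1] := by
        ext i
        fin_cases i <;> simp
      rw [h4, hA]
      simp only [map_add, map_smul]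
      rw [← hB, ← hC]
      rfl
    have hA0 : A ≠ 0 := by
      intro h
      rw [h, map_zero] at hAa
      have h5 : φ ![Real.cos θ, Real.sin θ] = 0 := Subtype.ext hAa.symm
      have h6 : (![Real.cos θ, Real.sin θ] : Fin 2 → ℝ) = 0 := by
        apply hφ
        rw [h5, map_zero]
      have h7 := Real.cos_sq_add_sin_sq θ
      have h8 : Real.cos θ = 0 := congrFun h6 0
      have h9 : Real.sin θ = 0 := congrFun h6 1
      rw [h8, h9] at h7
      norm_num at h7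
    obtain ⟨g, hg, t, e⟩ := conj_of_ratio (B := D) hA0 (by
      rw [hθ]
      field_simp)
    rw [← hD] at e
    refine h3 g hg (pm 2 n (t • A)) ?_ e
    rw [map_smul, hAa]
    exact q.smul_mem t (haq (φ _).2)

/-- `p_H` is stable under triple products. -/
theorem triple_mem (hH : IsReductive (H.map (Opq 2 n).subtype)) {B C : Matrix (Fin 2) (Fin n) ℝ}
    (hB : pm 2 n B ∈ pSpace (H.map (Opq 2 n).subtype))
    (hC : pm 2 n C ∈ pSpace (H.map (Opq 2 n).subtype)) :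
    pm 2 n ((2 : ℝ) • (B * Cᵀ * B) - C * Bᵀ * B - B * Bᵀ * C) ∈
      pSpace (H.map (Opq 2 n).subtype) := by
  have hCH : Cartan (oneM (isReductive_opq 2 n).closed) H (pSpace (H.map (Opq 2 n).subtype)) :=
    cartan_one _ hH
  rw [cartan_eq hCH] at hB hC ⊢
  refine ⟨?_, pm_transpose _⟩
  have h1 := lie_mem_lie (lie_mem_lie hB.1 hC.1) hB.1
  convert h1 using 1
  rw [pm_apply, pm_apply, pm_apply]
  simp only [bm_mul, bm_sub, Matrix.zero_mul, Matrix.mul_zero, zero_add, add_zero, sub_self,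
    transpose_sub, transpose_smul, transpose_mul, transpose_transpose]
  congr 1
  · simp only [Matrix.sub_mul, Matrix.mul_sub, Matrix.mul_assoc]
    module
  · simp only [Matrix.sub_mul, Matrix.mul_sub, Matrix.mul_assoc]
    module

/-- The possible spaces `p_H` for `O(2, n)`. -/
theorem opq_two (hn : 3 ≤ n) (hH : IsReductive (H.map (Opq 2 n).subtype))
    (had : AdmitsCocompact H) :
    pSpace (H.map (Opq 2 n).subtype) = ⊥ ∨
    pSpace (H.map (Opq 2 n).subtype) = pSpace (Opq 2 n) ∨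
    (∃ u : Fin 2 → ℝ, u ≠ 0 ∧ ∀ X, X ∈ pSpace (H.map (Opq 2 n).subtype) ↔
      ∃ x : Fin n → ℝ, X = pm 2 n (vecMulVec u x)) ∨
    (∃ J : Matrix (Fin n) (Fin n) ℝ, Jᵀ = -J ∧ J * J = -1 ∧
      ∀ X, X ∈ pSpace (H.map (Opq 2 n).subtype) ↔
        ∃ x : Fin n → ℝ, X = pm 2 n (Matrix.of ![x, J *ᵥ x])) := by
  by_cases h0 : pSpace (H.map (Opq 2 n).subtype) = ⊥
  · exact Or.inl h0
  right
  rcases ratio_or hH had with h1 | ⟨δ, hδ⟩
  · exact Or.inl h1
  right
  have hle := pSpace_map_le hH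
  have hdim := le_finrank (by omega) hH had h0
  set q := pSpace (H.map (Opq 2 n).subtype) with hq
  have hfin : finrank ℝ (q.comap (pm 2 n)) = finrank ℝ q := by
    have h2 : (q.comap (pm 2 n)).map (pm 2 n) = q := by
      rw [Submodule.map_comap_eq, inf_eq_right]
      intro X hX
      obtain ⟨B, rfl⟩ := mem_pSpace_opq.1 (hle hX)
      exact LinearMap.mem_range_self _ _
    have h3 := (Submodule.equivMapOfInjective (pm 2 n) (fun _ _ h => pm_inj h)
      (q.comap (pm 2 n))).finrank_eq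
    rwa [h2] at h3
  have hmem : ∀ X, X ∈ q ↔ ∃ B ∈ q.comap (pm 2 n), X = pm 2 n B := by
    intro X
    constructor
    · intro hX
      obtain ⟨B, rfl⟩ := mem_pSpace_opq.1 (hle hX)
      exact ⟨B, hX, rfl⟩
    · rintro ⟨B, hB, rfl⟩
      exact hB
  rcases classify hn (q.comap (pm 2 n)) (by rw [hfin]; exact hdim) δ (fun B hB => hδ B hB)
    (fun B hB C hC => triple_mem hH hB hC) with ⟨u, hu, h⟩ | ⟨J, hJ, hJJ, h⟩
  · left
    refine ⟨u, hu, fun X => ?_⟩
    rw [hmem]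
    constructor
    · rintro ⟨B, hB, rfl⟩
      obtain ⟨x, rfl⟩ := (h B).1 hB
      exact ⟨x, rfl⟩
    · rintro ⟨x, rfl⟩
      exact ⟨_, (h _).2 ⟨x, rfl⟩, rfl⟩
  · right
    refine ⟨J, hJ, hJJ, fun X => ?_⟩
    rw [hmem]
    constructor
    · rintro ⟨B, hB, rfl⟩
      obtain ⟨x, rfl⟩ := (h B).1 hB
      exact ⟨x, rfl⟩
    · rintro ⟨x, rfl⟩
      exact ⟨_, (h _).2 ⟨x, rfl⟩, rfl⟩

end Main

end Pool.Agent.Helper20.CKP
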