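import Pool.Agent.Helper20.CKP.Box
import Pool.Agent.Helper19.HO.BU

/-!
# CKP: odd maps into the complement of a set of prescribed norms
-/

namespace Pool.Agent.Helper20.CKP

open Filter Topology Module

section Norms
variable {ι : Type} [Fintype ι] {V : ι → Type} [∀ i, AddCommGroup (V i)]
  [∀ i, Module ℝ (V i)] [∀ i, TopologicalSpace (V i)]

/-- The compression map; `ν i` is a norm on `V i`. -/
noncomputable def comp (ν : ∀ i, V i → ℝ) (a : Submodule ℝ (ι → ℝ)) (τ : ι → ℝ) (y : ∀ i, V i) :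
    ∀ i, V i :=
  fun i => (ν i (y i) - |best a τ (fun j => ν j (y j)) i|) • y i

theorem comp_neg {ν : ∀ i, V i → ℝ} (hν : ∀ i x, ν i (-x) = ν i x) (a : Submodule ℝ (ι → ℝ))
    (τ : ι → ℝ) (y : ∀ i, V i) : comp ν a τ (-y) = -comp ν a τ y := by
  funext i
  simp only [comp, Pi.neg_apply, hν, smul_neg]

theorem tendsto_comp [∀ i, ContinuousSMul ℝ (V i)] {ν : ∀ i, V i → ℝ}
    (hνc : ∀ i, Continuous (ν i)) (hν0 : ∀ i x, 0 ≤ ν i x) {a : Submodule ℝ (ι → ℝ)} {τ : ι → ℝ}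
    (hτ : Generic a τ) {u : ℕ → ∀ i, V i} {y : ∀ i, V i} (hu : Tendsto u atTop (𝓝 y)) :
    Tendsto (fun n => comp ν a τ (u n)) atTop (𝓝 (comp ν a τ y)) := by
  have h1 : Tendsto (fun n => fun j => ν j (u n j)) atTop (𝓝 fun j => ν j (y j)) :=
    tendsto_pi_nhds.2 fun j => ((hνc j).tendsto _).comp ((tendsto_pi_nhds.1 hu) j)
  have h2 := best_tendsto hτ (fun j => hν0 j (y j)) (fun n j => hν0 j (u n j)) h1
  refine tendsto_pi_nhds.2 fun i => ?_
  exact (((tendsto_pi_nhds.1 h1) i).sub ((tendsto_pi_nhds.1 h2) i).abs).smul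
    ((tendsto_pi_nhds.1 hu) i)

/-- Odd maps which avoid the vectors whose norms are the absolute values of a vector of `a`. -/
theorem exists_subset [∀ i, IsTopologicalAddGroup (V i)] [∀ i, ContinuousSMul ℝ (V i)]
    [∀ i, T2Space (V i)] [∀ i, FiniteDimensional ℝ (V i)] (ν : ∀ i, V i → ℝ)
    (hνc : ∀ i, Continuous (ν i)) (hν0 : ∀ i x, 0 ≤ ν i x) (hνn : ∀ i x, ν i (-x) = ν i x)
    (hνz : ∀ i, ν i 0 = 0) (a : Submodule ℝ (ι → ℝ)) (E : Type)
    [AddCommGroup E] [Module ℝ E] [TopologicalSpace E] [IsTopologicalAddGroup E]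
    [ContinuousSMul ℝ E] [FiniteDimensional ℝ E] (F : E → ∀ i, V i)
    (hF : ContinuousOn F {0}ᶜ) (hodd : ∀ x, x ≠ 0 → F (-x) = -F x)
    (hU : ∀ x, x ≠ 0 → ∀ t ∈ a, ¬ ∀ i, |t i| = ν i (F x i)) :
    ∃ B : Finset ι, (∀ t ∈ a, (∀ i ∈ B, t i = 0) → t = 0) ∧
      finrank ℝ E + ∑ i ∈ B, finrank ℝ (V i) ≤ ∑ i, finrank ℝ (V i) := by
  classical
  obtain ⟨τ, hτ⟩ := exists_generic' a
  -- the admissible sets
  let 𝒥 : Finset (Finset ι) := Finset.univ.filter fun J => ∀ w ∈ a, (∀ i ∉ J, w i = 0) → w = 0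
  have h𝒥 : ∀ J, J ∈ 𝒥 ↔ ∀ w ∈ a, (∀ i ∉ J, w i = 0) → w = 0 := by simp [𝒥]
  have hne : 𝒥.Nonempty := ⟨∅, (h𝒥 _).2 fun w _ hw => funext fun i => hw i (by simp)⟩
  obtain ⟨J₀, hJ₀, hmax⟩ := 𝒥.exists_max_image (fun J => ∑ i ∈ J, finrank ℝ (V i)) hne
  refine ⟨J₀ᶜ, fun t ht h => (h𝒥 J₀).1 hJ₀ t ht fun i hi => h i (by simpa using hi), ?_⟩
  set m := ∑ i ∈ J₀, finrank ℝ (V i) with hm
  have hsum : m + ∑ i ∈ J₀ᶜ, finrank ℝ (V i) = ∑ i, finrank ℝ (V i) :=
    Finset.sum_add_sum_compl J₀ _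
  suffices hE : finrank ℝ E ≤ m by omega
  -- the coordinate subspaces
  let A : {J // J ∈ 𝒥} → Submodule ℝ (∀ i, V i) := fun J =>
    ⨅ i ∈ ((J : Finset ι)ᶜ : Finset ι), LinearMap.ker (LinearMap.proj (R := ℝ) (φ := V) i)
  have hA : ∀ J y, y ∈ A J ↔ ∀ i ∉ (J : Finset ι), y i = 0 := by
    intro J y
    simp [A, Submodule.mem_iInf]
  have hdim : ∀ J, finrank ℝ (A J) ≤ m := by
    rintro ⟨J, hJ⟩
    let f : A ⟨J, hJ⟩ →ₗ[ℝ] (∀ i : {i // i ∈ J}, V i) :=
      (LinearMap.pi fun i : {i // i ∈ J} => LinearMap.proj (R := ℝ) (φ := V) (i : ι)).comp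
        (A ⟨J, hJ⟩).subtype
    have hf : Function.Injective f := by
      intro x y hxy
      apply Subtype.ext
      funext i
      by_cases hi : i ∈ J
      · exact congrFun hxy ⟨i, hi⟩
      · rw [(hA _ _).1 x.2 i hi, (hA _ _).1 y.2 i hi]
    have h1 := LinearMap.finrank_le_finrank_of_injective hf
    rw [Module.finrank_pi_fintype] at h1
    refine h1.trans (le_trans (le_of_eq ?_) (hmax J hJ))
    exact Finset.sum_coe_sort J fun i => finrank ℝ (V i)
  obtain ⟨T, hT⟩ := exists_linear m _ (∀ i, V i) rfl A hdim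
  have hTc : Continuous T := T.continuous_of_finiteDimensional
  by_contra hlt
  push Not at hlt
  -- an embedding of `ℝ ^ (m + 1)` into `E`
  let b := Module.finBasis ℝ E
  let e : (Fin (m + 1) → ℝ) →ₗ[ℝ] E :=
    { toFun := fun v => ∑ j : Fin (m + 1), v j • b ⟨j, by omega⟩
      map_add' := fun v w => by simp [add_smul, Finset.sum_add_distrib]
      map_smul' := fun c v => by simp [smul_smul, Finset.smul_sum] }
  have he : ∀ v, v ≠ 0 → e v ≠ 0 := by
    intro v hv h0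
    apply hv
    have hli : LinearIndependent ℝ fun j : Fin (m + 1) => b ⟨(j : ℕ), by omega⟩ :=
      b.linearIndependent.comp (fun j : Fin (m + 1) => (⟨(j : ℕ), by omega⟩ : Fin (finrank ℝ E)))
        (fun i j hij => Fin.ext (by simpa using hij))
    exact funext fun j => (Fintype.linearIndependent_iff.1 hli) v h0 j
  have hec : Continuous e := e.continuous_of_finiteDimensional
  obtain ⟨y, hy, h0⟩ := Pool.Agent.Helper19.HO.borsuk_ulam (n := m)
    (fun v => T (comp ν a τ (F (e v))))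
    (by
      have h1 : ContinuousOn (fun v => F (e v)) ({0}ᶜ : Set (Fin (m + 1) → ℝ)) :=
        hF.comp hec.continuousOn fun v hv => he v hv
      intro v hv
      refine tendsto_of_seq_tendsto fun u hu => ?_
      have h2 : Tendsto (fun n => F (e (u n))) atTop (𝓝 (F (e v))) := (h1 v hv).tendsto.comp hu
      exact (hTc.tendsto _).comp (tendsto_comp hνc hν0 hτ h2))
    (by
      intro v hv
      rw [map_neg, hodd _ (he v hv), comp_neg hνn, map_neg])
  -- the value is not zero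
  set x := F (e y) with hx
  have hb := best_spec a τ (fun j => hν0 j (x j))
  set σ := best a τ (fun j => ν j (x j)) with hσ
  let J : Finset ι := Finset.univ.filter fun i => |σ i| < ν i (x i)
  have hJ : J ∈ 𝒥 := (h𝒥 J).2 fun w hw h => hb.supp hτ hw fun i hi => h i (by simpa [J] using hi)
  have hz : comp ν a τ x = 0 := by
    refine hT ⟨J, hJ⟩ _ ((hA _ _).2 fun i hi => ?_) h0
    have h1 : ν i (x i) ≤ |σ i| := by simpa [J] using hi
    have h2 : |σ i| = ν i (x i) := le_antisymm (hb.1.2 i) h1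
    show (ν i (x i) - |σ i|) • x i = 0
    rw [h2, sub_self, zero_smul]
  refine hU (e y) (he y hy) σ hb.1.1 fun i => ?_
  have h1 : (ν i (x i) - |σ i|) • x i = 0 := congrFun hz i
  rcases smul_eq_zero.1 h1 with h2 | h2
  · show |σ i| = ν i (x i)
    linarith
  · have h3 : |σ i| ≤ ν i (x i) := hb.1.2 i
    show |σ i| = ν i (x i)
    rw [h2, hνz] at h3 ⊢
    exact le_antisymm h3 (abs_nonneg _)

end Norms

end Pool.Agent.Helper20.CKP
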