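import Pool.Agent.Helper20.CKP.ROneK
import Pool.Agent.Helper20.CKP.CTwo
import Pool.Agent.Helper20.CKP.UNK
import Pool.Agent.Helper29.CKP.RankK
import Pool.Agent.Helper29.CKP.Reduce
import Pool.Agent.Helper17.CKF.RO7

/-!
# CKP: the list of the reductive subgroups of real rank one of `U(r, n; K)`
-/

set_option autoImplicit false

namespace Pool.Agent.Helper20.CKP

open Matrix Module Topology Filter NormedSpace Pool.Agent.Helper40.CK Pool.Agent.Helper17.CKF
  Pool.Agent.Helper29.CKP

theorem finrank_R {K : Type} [RCLike K] (hI : (RCLike.I : K) = 0) : finrank ℝ K = 1 := by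
  rw [(RCLike.realLinearIsometryEquiv hI).toLinearEquiv.finrank_eq]
  exact Module.finrank_self ℝ

/-- The list for `U(r, n; K)`. -/
theorem rank_one_unitary {K : Type} [RCLike K] {r n : ℕ}
    (hn : finrank ℝ K * r * (finrank ℝ K * r + 2) ≤ finrank ℝ K * n + 4)
    {H : Subgroup (UpqK K r n)} (hH : IsReductive (H.map (UpqK K r n).subtype))
    (h1 : RealRankLeOne (H.map (UpqK K r n).subtype)) (had : AdmitsCocompact H) :
    pSpace (H.map (UpqK K r n).subtype) = ⊥ ∨
      ROList ((pSpace (H.map (UpqK K r n).subtype)).comap (pcK K r n)) := by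
  have D := pdataK K r n
  by_cases h0 : pSpace (H.map (UpqK K r n).subtype) = ⊥
  · exact Or.inl h0
  right
  obtain ⟨B0, hB0, hconj⟩ := D.exists_conj_one hH h1
  have hfin := D.finrank_comap hH
  have htri : ∀ B ∈ (pSpace (H.map (UpqK K r n).subtype)).comap (pcK K r n),
      ∀ C ∈ (pSpace (H.map (UpqK K r n).subtype)).comap (pcK K r n),
      (2 : ℝ) • (B * Cᴴ * B) - C * Bᴴ * B - B * Bᴴ * C ∈
        (pSpace (H.map (UpqK K r n).subtype)).comap (pcK K r n) :=
    fun B hB C hC => D.triple_mem hH hB hC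
  have hmem := fun X => D.mem_iff hH (X := X)
  have hR1 := fun h : B0 ≠ 0 => coindex_rank K hH had (B := B0) hB0 h le_rfl B0.rank_le_width
  set q := pSpace (H.map (UpqK K r n).subtype) with hq
  set Q := q.comap (pcK K r n) with hQ
  have hQ0 : Q ≠ ⊥ := by
    intro h
    apply h0
    rw [eq_bot_iff]
    intro X hX
    obtain ⟨B, hB, rfl⟩ := (hmem X).1 hX
    rw [h, Submodule.mem_bot] at hB
    rw [hB, map_zero]
    exact Submodule.zero_mem _
  have hB00 : B0 ≠ 0 := by
    rintro rfl
    apply hQ0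
    rw [eq_bot_iff]
    intro B hB
    obtain ⟨U, W, t, -, -, e⟩ := hconj B hB
    rw [Submodule.mem_bot, e, Matrix.mul_zero, Matrix.zero_mul, smul_zero]
  have hdim := hR1 hB00
  rw [← hfin] at hdim
  rcases RCLike.I_eq_zero_or_im_I_eq_one (K := K) with hI | hI
  · rw [finrank_R hI, one_mul, one_mul] at hdim
    rw [finrank_R hI, one_mul, one_mul] at hn
    exact real_list hI Q hQ0 hB0 hconj htri hdim hn
  · rw [finrank_K hI] at hdim hn
    rcases complex_reduce hI Q hQ0 hB0 hconj htri hdim hn with h | ⟨U, hU, hd, hB⟩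
    · exact Or.inl h
    · have hr : 2 ≤ r := by
        have h2 : (Uᴴ * U).rank ≤ r := (Matrix.rank_mul_le_right _ _).trans (Matrix.rank_le_height _)
        rw [hU, Matrix.rank_one, Fintype.card_fin] at h2
        exact h2
      have h6 : 6 ≤ finrank ℝ Q := by nlinarith
      obtain ⟨N, A, S, hN, hA, hT, hS, h⟩ := complex_two hI Q U hU hd h6 hB htri
      exact Or.inr (Or.inl ⟨N, U, A, S, hN, hU, hA, hT, hS, h⟩)

end Pool.Agent.Helper20.CKP
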