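import Pool.Agent.Helper20.CKP.UN

/-!
# CKP: reductive subgroups of real rank one of `O(r, n)`
-/

set_option autoImplicit false

namespace Pool.Agent.Helper20.CKP

open Matrix Module Topology Filter NormedSpace Pool.Agent.Helper40.CK Pool.Agent.Helper17.CKF
  Pool.Agent.Helper29.CKP

/-- The real rank of `G` is at most one: two commuting elements of `pSpace G` are linearly
dependent. -/
def RealRankLeOne {n : ℕ} (G : Subgroup (GL (Fin n) ℝ)) : Prop :=
  ∀ X ∈ pSpace G, ∀ Y ∈ pSpace G, X * Y = Y * X → ¬ LinearIndependent ℝ ![X, Y]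

variable {r n : ℕ} {H : Subgroup (Opq r n)}

/-- The space of the matrices `B` with `pm r n B` in `p_H`. -/
noncomputable def pB (r n : ℕ) (H : Subgroup (Opq r n)) : Submodule ℝ (Matrix (Fin r) (Fin n) ℝ) :=
  (pSpace (H.map (Opq r n).subtype)).comap (pm r n)

theorem mem_pB {B : Matrix (Fin r) (Fin n) ℝ} :
    B ∈ pB r n H ↔ pm r n B ∈ pSpace (H.map (Opq r n).subtype) := Iff.rfl

theorem mem_pSpace_iff_pB (hH : IsReductive (H.map (Opq r n).subtype))
    {X : Matrix (Fin (r + n)) (Fin (r + n)) ℝ} :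
    X ∈ pSpace (H.map (Opq r n).subtype) ↔ ∃ B ∈ pB r n H, X = pm r n B := by
  constructor
  · intro hX
    obtain ⟨B, rfl⟩ := mem_pSpace_opq.1 (map_le (isReductive_opq r n) hH hX)
    exact ⟨B, hX, rfl⟩
  · rintro ⟨B, hB, rfl⟩
    exact hB

theorem finrank_pB (hH : IsReductive (H.map (Opq r n).subtype)) :
    finrank ℝ (pB r n H) = finrank ℝ (pSpace (H.map (Opq r n).subtype)) := by
  have hinj : Function.Injective (pm r n) := fun _ _ h => pm_inj h
  have h2 : (pB r n H).map (pm r n) = pSpace (H.map (Opq r n).subtype) := by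
    ext X
    rw [Submodule.mem_map, mem_pSpace_iff_pB hH]
    exact ⟨fun ⟨B, hB, e⟩ => ⟨B, hB, e.symm⟩, fun ⟨B, hB, e⟩ => ⟨B, hB, e.symm⟩⟩
  have h3 := (Submodule.equivMapOfInjective (pm r n) hinj (pB r n H)).finrank_eq
  rwa [h2] at h3

theorem pB_triple (hH : IsReductive (H.map (Opq r n).subtype)) {B C : Matrix (Fin r) (Fin n) ℝ}
    (hB : B ∈ pB r n H) (hC : C ∈ pB r n H) :
    (2 : ℝ) • (B * Cᵀ * B) - C * Bᵀ * B - B * Bᵀ * C ∈ pB r n H := by
  have hCH : Cartan (oneM (isReductive_opq r n).closed) H (pSpace (H.map (Opq r n).subtype)) :=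
    cartan_one _ hH
  have h4 := Pool.Agent.Helper29.CKP.triple_mem hCH hB hC
  rw [pm_triple] at h4
  exact (Submodule.neg_mem_iff (pSpace (H.map (Opq r n).subtype))).1 h4

/-- If the real rank of `H` is at most one, the elements of `p_H` are conjugate to multiples of one
of them. -/
theorem exists_conj_one (hH : IsReductive (H.map (Opq r n).subtype))
    (h1 : RealRankLeOne (H.map (Opq r n).subtype)) : ∃ B0 ∈ pB r n H, ∀ B ∈ pB r n H,
      ∃ (U : Matrix (Fin r) (Fin r) ℝ) (W : Matrix (Fin n) (Fin n) ℝ) (t : ℝ), U * Uᵀ = 1 ∧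
        W * Wᵀ = 1 ∧ B = t • (U * B0 * W) := by
  classical
  set M := oneM (isReductive_opq r n).closed with hM
  set q := pSpace (H.map (Opq r n).subtype) with hq
  have hCH : Cartan M H q := cartan_one _ hH
  obtain ⟨a, haq, hac, hak⟩ := exists_abelian hCH
  have ha : finrank ℝ a ≤ 1 := by
    by_contra ha
    push Not at ha
    obtain ⟨φ, hφ⟩ := exists_inj (E := a) (m := 2) ha
    refine h1 (φ ![1, 0]) (haq (φ ![1, 0]).2) (φ ![0, 1]) (haq (φ ![0, 1]).2)
      (hac _ (φ _).2 _ (φ _).2) ?_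
    rw [LinearIndependent.pair_iff]
    intro s t hst
    have h2 : φ ![s, t] = 0 := by
      apply Subtype.ext
      have h3 : (![s, t] : Fin 2 → ℝ) = s • ![1, 0] + t • ![0, 1] := by
        ext i
        fin_cases i <;> simp
      rw [h3, map_add, map_smul, map_smul]
      exact hst
    have h3 : (![s, t] : Fin 2 → ℝ) = 0 := by
      apply hφ
      rw [h2, map_zero]
    exact ⟨congrFun h3 0, congrFun h3 1⟩
  obtain ⟨⟨v, hv⟩, hvw⟩ := finrank_le_one_iff.1 ha
  obtain ⟨B0, hB0, rfl⟩ := (mem_pSpace_iff_pB hH).1 (haq hv)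
  refine ⟨B0, hB0, fun B hB => ?_⟩
  obtain ⟨k, -, hk, hka⟩ := hak _ hB
  obtain ⟨U, W, hU, hW, hUW⟩ := conj_opq' k.2 hk
  have h2 : M.ι k * pm r n B * (M.ι k)ᵀ = pm r n (U * B * Wᵀ) := hUW B
  rw [h2] at hka
  obtain ⟨c, hc⟩ := hvw ⟨_, hka⟩
  have h3 : c • pm r n B0 = pm r n (U * B * Wᵀ) := congrArg Subtype.val hc
  rw [← map_smul] at h3
  have h4 := pm_inj h3
  have hU' : Uᵀ * U = 1 := mul_eq_one_comm.1 hU
  have hW' : Wᵀ * W = 1 := mul_eq_one_comm.1 hW
  refine ⟨Uᵀ, W, c, by rw [transpose_transpose, hU'], hW, ?_⟩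
  calc B = (Uᵀ * U) * B * (Wᵀ * W) := by rw [hU', hW', Matrix.one_mul, Matrix.mul_one]
    _ = Uᵀ * (U * B * Wᵀ) * W := by simp only [Matrix.mul_assoc]
    _ = _ := by rw [← h4, Matrix.mul_smul, Matrix.smul_mul]

end Pool.Agent.Helper20.CKP
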