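import Pool.Agent.Helper20.CKP.UNK

/-!
# CKP: centralisers of orthogonal matrices in `U(r, n; K)`
-/

set_option autoImplicit false

namespace Pool.Agent.Helper20.CKP

open Matrix Module Topology Filter NormedSpace Pool.Agent.Helper40.CK Pool.Agent.Helper17.CKF
  Pool.Agent.Helper29.CKP

variable {K : Type} [RCLike K] {r n : ℕ}

/-- The elements of `U(r, n; K)` which commute with the real matrix `R`. -/
def LC (K : Type) [RCLike K] (r n : ℕ)
    (R : Matrix (Fin ((r + n) + (r + n))) (Fin ((r + n) + (r + n))) ℝ) :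
    Subgroup (UpqK K r n) where
  carrier := {g | ((g : GL (Fin ((r + n) + (r + n))) ℝ) :
      Matrix (Fin ((r + n) + (r + n))) (Fin ((r + n) + (r + n))) ℝ) * R =
    R * ((g : GL (Fin ((r + n) + (r + n))) ℝ) :
      Matrix (Fin ((r + n) + (r + n))) (Fin ((r + n) + (r + n))) ℝ)}
  mul_mem' := by
    intro a b ha hb
    show ((a : GL (Fin ((r + n) + (r + n))) ℝ) :
      Matrix (Fin ((r + n) + (r + n))) (Fin ((r + n) + (r + n))) ℝ) *
      ((b : GL (Fin ((r + n) + (r + n))) ℝ) :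
      Matrix (Fin ((r + n) + (r + n))) (Fin ((r + n) + (r + n))) ℝ) * R = R * (_ * _)
    have ha' : ((a : GL (Fin ((r + n) + (r + n))) ℝ) :
      Matrix (Fin ((r + n) + (r + n))) (Fin ((r + n) + (r + n))) ℝ) * R = R * _ := ha
    have hb' : ((b : GL (Fin ((r + n) + (r + n))) ℝ) :
      Matrix (Fin ((r + n) + (r + n))) (Fin ((r + n) + (r + n))) ℝ) * R = R * _ := hb
    rw [Matrix.mul_assoc, hb', ← Matrix.mul_assoc, ha', Matrix.mul_assoc]
  one_mem' := by
    show (1 : Matrix (Fin ((r + n) + (r + n))) (Fin ((r + n) + (r + n))) ℝ) * R = R * 1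
    rw [one_mul, mul_one]
  inv_mem' := by
    intro a ha
    have ha' : ((a : GL (Fin ((r + n) + (r + n))) ℝ) :
      Matrix (Fin ((r + n) + (r + n))) (Fin ((r + n) + (r + n))) ℝ) * R = R * _ := ha
    have h1 : (((a⁻¹ : UpqK K r n) : GL (Fin ((r + n) + (r + n))) ℝ) :
      Matrix (Fin ((r + n) + (r + n))) (Fin ((r + n) + (r + n))) ℝ) *
      ((a : GL (Fin ((r + n) + (r + n))) ℝ) :
        Matrix (Fin ((r + n) + (r + n))) (Fin ((r + n) + (r + n))) ℝ) = 1 :=
      (a : GL (Fin ((r + n) + (r + n))) ℝ).inv_mul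
    have h2 := mul_eq_one_comm.1 h1
    show _ * R = R * _
    calc (((a⁻¹ : UpqK K r n) : GL (Fin ((r + n) + (r + n))) ℝ) :
          Matrix (Fin ((r + n) + (r + n))) (Fin ((r + n) + (r + n))) ℝ) * R =
        (((a⁻¹ : UpqK K r n) : GL (Fin ((r + n) + (r + n))) ℝ) :
          Matrix (Fin ((r + n) + (r + n))) (Fin ((r + n) + (r + n))) ℝ) * R *
          (((a : GL (Fin ((r + n) + (r + n))) ℝ) :
        Matrix (Fin ((r + n) + (r + n))) (Fin ((r + n) + (r + n))) ℝ) *
          (((a⁻¹ : UpqK K r n) : GL (Fin ((r + n) + (r + n))) ℝ) :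
          Matrix (Fin ((r + n) + (r + n))) (Fin ((r + n) + (r + n))) ℝ)) := by rw [h2, mul_one]
      _ = (((a⁻¹ : UpqK K r n) : GL (Fin ((r + n) + (r + n))) ℝ) :
          Matrix (Fin ((r + n) + (r + n))) (Fin ((r + n) + (r + n))) ℝ) * (R *
          ((a : GL (Fin ((r + n) + (r + n))) ℝ) :
        Matrix (Fin ((r + n) + (r + n))) (Fin ((r + n) + (r + n))) ℝ)) *
          (((a⁻¹ : UpqK K r n) : GL (Fin ((r + n) + (r + n))) ℝ) :
          Matrix (Fin ((r + n) + (r + n))) (Fin ((r + n) + (r + n))) ℝ) := by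
          simp only [Matrix.mul_assoc]
      _ = _ := by rw [← ha', ← Matrix.mul_assoc, h1, one_mul]

variable {R : Matrix (Fin ((r + n) + (r + n))) (Fin ((r + n) + (r + n))) ℝ}

theorem mem_LC {g : UpqK K r n} : g ∈ LC K r n R ↔ ((g : GL (Fin ((r + n) + (r + n))) ℝ) :
      Matrix (Fin ((r + n) + (r + n))) (Fin ((r + n) + (r + n))) ℝ) * R =
    R * ((g : GL (Fin ((r + n) + (r + n))) ℝ) :
      Matrix (Fin ((r + n) + (r + n))) (Fin ((r + n) + (r + n))) ℝ) := Iff.rfl

theorem mem_map_LC {g : GL (Fin ((r + n) + (r + n))) ℝ} :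
    g ∈ (LC K r n R).map (UpqK K r n).subtype ↔ g ∈ UpqK K r n ∧
      (g : Matrix (Fin ((r + n) + (r + n))) (Fin ((r + n) + (r + n))) ℝ) * R = R *
        (g : Matrix (Fin ((r + n) + (r + n))) (Fin ((r + n) + (r + n))) ℝ) := by
  constructor
  · rintro ⟨x, hx, rfl⟩
    exact ⟨x.2, hx⟩
  · rintro ⟨h1, h2⟩
    exact ⟨⟨g, h1⟩, h2, rfl⟩

theorem isReductive_LC (hR : R * Rᵀ = 1) : IsReductive ((LC K r n R).map (UpqK K r n).subtype) where
  closed := by
    have h1 : (((LC K r n R).map (UpqK K r n).subtype : Subgroup (GL (Fin ((r + n) + (r + n))) ℝ)) :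
        Set (GL (Fin ((r + n) + (r + n))) ℝ)) = (UpqK K r n : Set (GL (Fin ((r + n) + (r + n))) ℝ)) ∩
        {g | (g : Matrix (Fin ((r + n) + (r + n))) (Fin ((r + n) + (r + n))) ℝ) * R = R *
        (g : Matrix (Fin ((r + n) + (r + n))) (Fin ((r + n) + (r + n))) ℝ)} := by
      ext g
      exact mem_map_LC
    rw [h1]
    exact (isReductive_upqK K r n).closed.inter
      (isClosed_eq (Units.continuous_val.mul continuous_const)
        (continuous_const.mul Units.continuous_val))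
  transpose := by
    intro g hg
    rw [mem_map_LC] at hg
    obtain ⟨g', hg', e⟩ := (isReductive_upqK K r n).transpose g hg.1
    refine ⟨g', mem_map_LC.2 ⟨hg', ?_⟩, e⟩
    have hR' : Rᵀ * R = 1 := mul_eq_one_comm.1 hR
    have h1 := congrArg transpose hg.2
    rw [transpose_mul, transpose_mul, ← e] at h1
    calc (g' : Matrix (Fin ((r + n) + (r + n))) (Fin ((r + n) + (r + n))) ℝ) * R =
        R * (Rᵀ * (g' : Matrix (Fin ((r + n) + (r + n))) (Fin ((r + n) + (r + n))) ℝ)) * R := by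
          rw [← Matrix.mul_assoc, hR, one_mul]
      _ = R * (g' : Matrix (Fin ((r + n) + (r + n))) (Fin ((r + n) + (r + n))) ℝ) * (Rᵀ * R) := by
          rw [h1]
          simp only [Matrix.mul_assoc]
      _ = _ := by rw [hR', mul_one]
  power := by
    intro X hX h t
    rw [mem_map_LC] at h ⊢
    refine ⟨(isReductive_upqK K r n).power X hX h.1 t, ?_⟩
    have h1 := h.2
    rw [expGL_val, exp_comm_iff hR hX] at h1
    rw [expGL_val, exp_comm_iff hR (by rw [transpose_smul, hX]), smul_mul_assoc, mul_smul_comm, h1]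

theorem mem_pSpace_LC (hR : R * Rᵀ = 1)
    {X : Matrix (Fin ((r + n) + (r + n))) (Fin ((r + n) + (r + n))) ℝ} :
    X ∈ pSpace ((LC K r n R).map (UpqK K r n).subtype) ↔
      X ∈ pSpace (UpqK K r n) ∧ X * R = R * X := by
  rw [mem_pSpace (isReductive_LC hR), mem_pSpace (isReductive_upqK K r n), mem_map_LC]
  constructor
  · rintro ⟨h1, h2, h3⟩
    rw [expGL_val, exp_comm_iff hR h1] at h3
    exact ⟨⟨h1, h2⟩, h3⟩
  · rintro ⟨⟨h1, h2⟩, h3⟩
    refine ⟨h1, h2, ?_⟩
    rw [expGL_val, exp_comm_iff hR h1]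
    exact h3

/-- The element of `U(r, n; K)` with a given matrix. -/
theorem exists_upqK {Z : Matrix (Fin (r + n)) (Fin (r + n)) K} (hZ : Zᴴ * JK K r n * Z = JK K r n) :
    ∃ g : UpqK K r n, ((g : GL (Fin ((r + n) + (r + n))) ℝ) :
      Matrix (Fin ((r + n) + (r + n))) (Fin ((r + n) + (r + n))) ℝ) = rlK Z := by
  have h1 := rlK_isUnit_of hZ
  have h2 : rlK Z * rlK (JK K r n * Zᴴ * JK K r n) = 1 := by rw [← rlK_mul, h1, rlK_one]
  exact ⟨⟨⟨rlK Z, rlK (JK K r n * Zᴴ * JK K r n), h2, mul_eq_one_comm.1 h2⟩, Z, rfl, hZ⟩, rfl⟩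

/-- The conjugation. -/
theorem rlK_mul_Dm {m : ℕ} (Z : Matrix (Fin m) (Fin m) K) :
    rlK Z * Dm m = Dm m * rlK (Z.map star) := by
  rw [rlK, rlK, Dm, bm_mul, bm_mul]
  have h1 : (Z.map star).map RCLike.re = (Z.map RCLike.re : Matrix (Fin m) (Fin m) ℝ) := by
    ext i j
    simp
  have h2 : (Z.map star).map RCLike.im = -(Z.map RCLike.im : Matrix (Fin m) (Fin m) ℝ) := by
    ext i j
    simp
  rw [h1, h2]
  congr 1 <;> simp

end Pool.Agent.Helper20.CKP
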