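import Pool.Agent.Helper20.CKP.StdA
import Pool.Agent.Helper20.CKP.TwoRows

/-!
# CKP: the two standard subgroups of `U(2, n; K)`
-/

set_option autoImplicit false

namespace Pool.Agent.Helper20.CKP

open Matrix Module Topology Filter NormedSpace Pool.Agent.Helper40.CK Pool.Agent.Helper17.CKF
  Pool.Agent.Helper29.CKP

variable {K : Type} [RCLike K] {n : ℕ}

/-- The matrix of the structure on the two rows. -/
def tau (K : Type) [RCLike K] : Matrix (Fin 2) (Fin 2) K := !![0, -1; 1, 0]

theorem tau_star : (tau K)ᴴ = -tau K := by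
  ext i j
  fin_cases i <;> fin_cases j <;> simp [tau]

theorem tau_mul : tau K * tau K = -1 := by
  ext i j
  fin_cases i <;> fin_cases j <;> simp [tau, Matrix.mul_apply, Fin.sum_univ_two]

theorem tau_map : (tau K).map star = tau K := by
  ext i j
  fin_cases i <;> fin_cases j <;> simp [tau]

theorem ckb_map {r n : ℕ} (A : Matrix (Fin r) (Fin r) K) (B : Matrix (Fin r) (Fin n) K)
    (C : Matrix (Fin n) (Fin r) K) (D : Matrix (Fin n) (Fin n) K) :
    (ckb A B C D).map star = ckb (A.map star) (B.map star) (C.map star) (D.map star) := by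
  rw [ckb, ckb, ← submatrix_map, fromBlocks_map]

theorem map_star_mul {a b c : ℕ} (A : Matrix (Fin a) (Fin b) K) (B : Matrix (Fin b) (Fin c) K) :
    (A * B).map star = A.map star * B.map star := by
  ext i j
  simp [Matrix.mul_apply]

theorem map_star_conj {a b : ℕ} (A : Matrix (Fin a) (Fin b) K) : (A.map star)ᴴ = Aᵀ := by
  ext i j
  simp

/-- The reflection in the vector `e` of the first two coordinates. -/
noncomputable def refl (e : Fin 2 → K) : Matrix (Fin 2) (Fin 2) K :=
  1 - (2 : K) • vecMulVec e (star e)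

theorem refl_star (e : Fin 2 → K) : (refl e)ᴴ = refl e := by
  rw [refl, conjTranspose_sub, conjTranspose_one, conjTranspose_smul, conjTranspose_vecMulVec,
    star_star]
  simp

theorem refl_mul {e : Fin 2 → K} (he : hip e e = 1) : refl e * refl e = 1 := by
  have h1 : vecMulVec e (star e) * vecMulVec e (star e) = vecMulVec e (star e) := by
    rw [vecMulVec_mul_vecMulVec]
    have h2 : star e ⬝ᵥ e = 1 := he
    rw [h2, one_smul]
  simp only [refl, Matrix.sub_mul, Matrix.mul_sub, Matrix.one_mul, Matrix.mul_one,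
    Matrix.smul_mul, Matrix.mul_smul, h1]
  module

/-- The real matrix for the first type. -/
noncomputable def R3 (n : ℕ) (e : Fin 2 → K) :
    Matrix (Fin ((2 + n) + (2 + n))) (Fin ((2 + n) + (2 + n))) ℝ := rlK (ckb (refl e) 0 0 1)

theorem R3_orth {e : Fin 2 → K} (he : hip e e = 1) : R3 n e * (R3 n e)ᵀ = 1 := by
  rw [R3, rlK_transpose, ← rlK_mul, ckb_star, ckb_mul, refl_star]
  simp only [conjTranspose_zero, conjTranspose_one, Matrix.mul_zero, Matrix.zero_mul, add_zero,
    zero_add, Matrix.mul_one, refl_mul he, ckb_one, rlK_one]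

/-- The real matrix for the second type. -/
noncomputable def R4 (S : Matrix (Fin n) (Fin n) K) :
    Matrix (Fin ((2 + n) + (2 + n))) (Fin ((2 + n) + (2 + n))) ℝ :=
  rlK (ckb (tau K) 0 0 (S.map star)) * Dm (2 + n)

theorem S_star {S : Matrix (Fin n) (Fin n) K} (hT : Sᵀ = -S) : Sᴴ = -S.map star := by
  rw [conjTranspose, hT]
  ext i j
  simp

theorem R4_orth {S : Matrix (Fin n) (Fin n) K} (hS : S * Sᴴ = 1) :
    R4 S * (R4 S)ᵀ = 1 := by
  have h1 : S.map star * (S.map star)ᴴ = 1 := by
    have h2 := congrArg (fun M => M.map star) hS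
    simp only [map_star_mul] at h2
    rw [map_star_conj]
    have h3 : (Sᴴ).map star = Sᵀ := by
      ext i j
      simp
    rw [h3] at h2
    rw [h2]
    ext i j
    by_cases hij : i = j <;> simp [hij, Matrix.one_apply]
  have h2 : tau K * (tau K)ᴴ = 1 := by
    rw [tau_star, Matrix.mul_neg, tau_mul, neg_neg]
  rw [R4, transpose_mul, Matrix.mul_assoc, ← Matrix.mul_assoc (Dm (2 + n)), Dm_orth,
    Matrix.one_mul, rlK_transpose, ← rlK_mul, ckb_star, ckb_mul]
  simp only [conjTranspose_zero, Matrix.mul_zero, Matrix.zero_mul, add_zero,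
    zero_add, h1, h2, ckb_one, rlK_one]

theorem comm_R3 {Z : Matrix (Fin (2 + n)) (Fin (2 + n)) K} {e : Fin 2 → K} :
    rlK Z * R3 n e = R3 n e * rlK Z ↔ Z * ckb (refl e) 0 0 1 = ckb (refl e) 0 0 1 * Z := by
  rw [R3, ← rlK_mul, ← rlK_mul]
  exact ⟨fun h => rlK_inj h, fun h => by rw [h]⟩

theorem comm_R4 {Z : Matrix (Fin (2 + n)) (Fin (2 + n)) K} {S : Matrix (Fin n) (Fin n) K} :
    rlK Z * R4 S = R4 S * rlK Z ↔
      Z * ckb (tau K) 0 0 (S.map star) = ckb (tau K) 0 0 (S.map star) * Z.map star := by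
  have hD : Dm (2 + n) * Dm (2 + n) = 1 := by
    have h1 := Dm_orth (m := 2 + n)
    rwa [Dm, bm_transpose, transpose_one, transpose_zero, transpose_neg, transpose_one] at h1
  have h2 : Z.map star = (Z.map star) := rfl
  have h3 : Dm (2 + n) * rlK Z = rlK (Z.map star) * Dm (2 + n) := by
    rw [rlK_mul_Dm]
    congr 2
    ext i j
    simp
  rw [R4, Matrix.mul_assoc, h3, ← Matrix.mul_assoc, ← Matrix.mul_assoc, ← rlK_mul, ← rlK_mul]
  constructor
  · intro h
    have h4 := congrArg (fun M => M * Dm (2 + n)) h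
    simp only [Matrix.mul_assoc, hD, Matrix.mul_one] at h4
    exact rlK_inj h4
  · intro h
    rw [h]

/-- The space `p` of the first type. -/
theorem pcK_R3 {e : Fin 2 → K} {B : Matrix (Fin 2) (Fin n) K} :
    pcK K 2 n B * R3 n e = R3 n e * pcK K 2 n B ↔ refl e * B = B := by
  rw [pcK_apply, comm_R3, ckb_mul, ckb_mul]
  simp only [Matrix.zero_mul, Matrix.mul_zero, add_zero, zero_add, Matrix.mul_one, Matrix.one_mul]
  constructor
  · intro h
    exact (ckb_inj h).2.1.symm
  · intro h
    have h1 := congrArg conjTranspose h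
    rw [conjTranspose_mul, refl_star] at h1
    rw [h, h1]

/-- The second relation follows from the first one. -/
theorem tau_rel {S : Matrix (Fin n) (Fin n) K} (hT : Sᵀ = -S) {B : Matrix (Fin 2) (Fin n) K}
    (h : B * S.map star = tau K * B.map star) : S.map star * Bᵀ = Bᴴ * tau K := by
  have h1 := congrArg (fun M => (M.map star)ᵀ) h
  simp only [map_star_mul, transpose_mul] at h1
  have e1 : ((S.map star).map star)ᵀ = -S := by
    rw [← hT]
    ext i j
    simp
  have e2 : ((B.map star).map star)ᵀ = Bᵀ := by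
    ext i j
    simp
  have e3 : (B.map star)ᵀ = Bᴴ := rfl
  have e4 : (((tau K).map star))ᵀ = -tau K := by
    rw [← tau_star]
    rfl
  rw [e1, e2, e3, e4, Matrix.neg_mul, Matrix.mul_neg, neg_inj] at h1
  have h2 := congrArg (fun M => M.map star) h1
  simp only [map_star_mul, tau_map] at h2
  have e5 : (Bᴴ).map star = Bᵀ := by
    ext i j
    simp
  have e6 : (Bᵀ).map star = Bᴴ := rfl
  rwa [e5, e6] at h2

/-- The space `p` of the second type. -/
theorem pcK_R4 {S : Matrix (Fin n) (Fin n) K} (hT : Sᵀ = -S) {B : Matrix (Fin 2) (Fin n) K} :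
    pcK K 2 n B * R4 S = R4 S * pcK K 2 n B ↔ B * S.map star = tau K * B.map star := by
  rw [pcK_apply, comm_R4, ckb_map, ckb_mul, ckb_mul]
  simp only [Matrix.zero_mul, Matrix.mul_zero, add_zero, zero_add]
  constructor
  · intro h
    exact (ckb_inj h).2.1
  · intro h
    have h2 := tau_rel hT h
    have e5 : (Bᴴ).map star = Bᵀ := by
      ext i j
      simp
    rw [h, e5, h2]
    simp

theorem S_map {S : Matrix (Fin n) (Fin n) K} (hT : Sᵀ = -S) (hS : S * Sᴴ = 1) :
    S * S.map star = -1 := by
  rw [S_star hT, Matrix.mul_neg] at hS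
  rw [← hS, neg_neg]

/-- The matrices of the second type. -/
theorem rows_iff {S : Matrix (Fin n) (Fin n) K} (hT : Sᵀ = -S) (hS : S * Sᴴ = 1)
    {B : Matrix (Fin 2) (Fin n) K} : B * S.map star = tau K * B.map star ↔
      ∃ y : Fin n → K, B = Matrix.of ![y, S *ᵥ star y] := by
  have hT' : (S.map star)ᵀ = -(S.map star) := by
    ext i j
    have := congrFun (congrFun hT i) j
    simpa using congrArg star this
  have hrow0 : ∀ j, (tau K * B.map star) 0 j = -star (B 1 j) := by
    intro j
    simp [tau, Matrix.mul_apply, Fin.sum_univ_two]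
  have hrow1 : ∀ j, (tau K * B.map star) 1 j = star (B 0 j) := by
    intro j
    simp [tau, Matrix.mul_apply, Fin.sum_univ_two]
  have hB : ∀ i j, (B * S.map star) i j = -((S.map star) *ᵥ (B i)) j := by
    intro i j
    have h1 : (B * S.map star) i j = ((S.map star)ᵀ *ᵥ (B i)) j := by
      rw [Matrix.mul_apply, Matrix.mulVec, dotProduct]
      refine Finset.sum_congr rfl fun k _ => ?_
      rw [transpose_apply, mul_comm]
    rw [h1, hT', Matrix.neg_mulVec, Pi.neg_apply]
  have hst : ∀ v : Fin n → K, star ((S.map star) *ᵥ v) = S *ᵥ star v := by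
    intro v
    funext j
    rw [Pi.star_apply, Matrix.mulVec, Matrix.mulVec, dotProduct, dotProduct, star_sum]
    refine Finset.sum_congr rfl fun k _ => ?_
    simp
  constructor
  · intro h
    refine ⟨B 0, ?_⟩
    have h1 : B 1 = S *ᵥ star (B 0) := by
      have h2 : ∀ j, -((S.map star) *ᵥ (B 0)) j = -star (B 1 j) := by
        intro j
        rw [← hB, h, hrow0]
      rw [← hst]
      funext j
      have h3 := h2 j
      rw [neg_inj] at h3
      rw [Pi.star_apply, h3, star_star]
    ext i j
    fin_cases i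
    · rfl
    · exact congrFun h1 j
  · rintro ⟨y, hy⟩
    have h0 : B 0 = y := by rw [hy]; rfl
    have h1 : B 1 = S *ᵥ star y := by rw [hy]; rfl
    ext i j
    fin_cases i
    · show (B * S.map star) 0 j = (tau K * B.map star) 0 j
      rw [hB, hrow0, h0, h1, ← hst, Pi.star_apply, star_star]
    · show (B * S.map star) 1 j = (tau K * B.map star) 1 j
      rw [hB, hrow1, h0, h1, mulVec_mulVec]
      have h2 : S.map star * S = -1 := by
        have h3 := congrArg (fun M => M.map star) (S_map hT hS)
        simp only [map_star_mul] at h3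
        have h4 : (S.map star).map star = S := by
          ext i j
          simp
        rw [h4] at h3
        rw [h3]
        ext i j
        by_cases hij : i = j <;> simp [hij, Matrix.one_apply]
      rw [h2, Matrix.neg_mulVec, Matrix.one_mulVec, Pi.neg_apply, neg_neg, Pi.star_apply]

theorem hip_S {S : Matrix (Fin n) (Fin n) K} (hS : S * Sᴴ = 1) (y z : Fin n → K) :
    hip (S *ᵥ y) (S *ᵥ z) = hip y z := by
  have hS' : Sᴴ * S = 1 := mul_eq_one_comm.1 hS
  rw [hip, hip, star_mulVec, ← dotProduct_mulVec, mulVec_mulVec, hS', one_mulVec]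

theorem hip_S_zero {S : Matrix (Fin n) (Fin n) K} (hT : Sᵀ = -S) (y : Fin n → K) :
    hip y (S *ᵥ star y) = 0 := by
  have h1 : hip y (S *ᵥ star y) = -hip y (S *ᵥ star y) := by
    conv_lhs => rw [hip, dotProduct_mulVec, ← mulVec_transpose, hT, neg_mulVec, neg_dotProduct,
      dotProduct_comm]
    rfl
  have h2 : (2 : K) * hip y (S *ᵥ star y) = 0 := by
    rw [two_mul]
    nth_rewrite 1 [h1]
    exact neg_add_cancel _
  exact (mul_eq_zero.1 h2).resolve_left two_ne_zero

/-- The two rows are orthogonal and of the same norm. -/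
theorem rows_gram {S : Matrix (Fin n) (Fin n) K} (hT : Sᵀ = -S) (hS : S * Sᴴ = 1) (y : Fin n → K) :
    (Matrix.of ![y, S *ᵥ star y] : Matrix (Fin 2) (Fin n) K) *
      (Matrix.of ![y, S *ᵥ star y] : Matrix (Fin 2) (Fin n) K)ᴴ = (hip y y) • 1 := by
  have hent : ∀ (B : Matrix (Fin 2) (Fin n) K) i j, (B * Bᴴ) i j = hip (B j) (B i) := by
    intro B i j
    rw [Matrix.mul_apply, hip, dotProduct]
    refine Finset.sum_congr rfl fun k _ => ?_
    rw [conjTranspose_apply, Pi.star_apply, mul_comm]
  have h1 : hip (star y) (star y) = hip y y := by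
    rw [hip, hip, star_star, dotProduct_comm]
  have h2 : hip (S *ᵥ star y) y = 0 := by
    rw [← hip_star, hip_S_zero hT, star_zero]
  ext i j
  rw [hent, Matrix.smul_apply]
  fin_cases i <;> fin_cases j
  · show hip y y = _
    simp
  · show hip (S *ᵥ star y) y = _
    rw [h2]
    simp
  · show hip y (S *ᵥ star y) = _
    rw [hip_S_zero hT]
    simp
  · show hip (S *ᵥ star y) (S *ᵥ star y) = _
    rw [hip_S hS, h1]
    simp

/-- A unitary matrix moves a vector to every vector of the same norm. -/
theorem exists_unitary_vec {r : ℕ} {u w : Fin r → K} (h : hip w w = hip u u) :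
    ∃ U : Matrix (Fin r) (Fin r) K, U * Uᴴ = 1 ∧ w = U *ᵥ u := by
  have hrow : ∀ v : Fin r → K, (replicateRow (Fin 1) (star v)) * (replicateRow (Fin 1) (star v))ᴴ =
      Matrix.of fun _ _ => hip v v := by
    intro v
    ext i j
    rw [Matrix.mul_apply, Matrix.of_apply, hip, dotProduct]
    refine Finset.sum_congr rfl fun k _ => ?_
    rw [conjTranspose_apply, replicateRow_apply, replicateRow_apply, Pi.star_apply, star_star]
  have h1 : (replicateRow (Fin 1) (star w)) * (replicateRow (Fin 1) (star w))ᴴ =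
      (replicateRow (Fin 1) (star u)) * (replicateRow (Fin 1) (star u))ᴴ := by
    rw [hrow, hrow, h]
  obtain ⟨W, hW, hW'⟩ := exists_unitary h1
  refine ⟨Wᴴ, by rw [conjTranspose_conjTranspose]; exact mul_eq_one_comm.1 hW, ?_⟩
  funext j
  have h2 := congrFun (congrFun hW' 0) j
  rw [replicateRow_apply, Pi.star_apply, Matrix.mul_apply] at h2
  have h3 := congrArg star h2
  rw [star_star, star_sum] at h3
  rw [h3, Matrix.mulVec, dotProduct]
  refine Finset.sum_congr rfl fun k _ => ?_
  rw [replicateRow_apply, conjTranspose_apply, Pi.star_apply, star_mul', star_star, mul_comm]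

/-- The image of a unit vector under the adjoint of a matrix of the second type. -/
theorem exists_rows {S : Matrix (Fin n) (Fin n) K} (hT : Sᵀ = -S) (hS : S * Sᴴ = 1)
    {a : Fin 2 → K} (ha : hip a a = 1) (v : Fin n → K) : ∃ y : Fin n → K,
      (Matrix.of ![y, S *ᵥ star y] : Matrix (Fin 2) (Fin n) K)ᴴ *ᵥ a = v ∧ hip y y = hip v v := by
  let T : (Fin n → K) →ₗ[ℝ] (Fin n → K) :=
    { toFun := fun y => (Matrix.of ![y, S *ᵥ star y] : Matrix (Fin 2) (Fin n) K)ᴴ *ᵥ a
      map_add' := by
        intro y z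
        rw [← add_mulVec]
        congr 1
        ext i j
        fin_cases j <;> simp [star_add, mulVec_add]
      map_smul' := by
        intro c y
        rw [RingHom.id_apply, ← smul_mulVec]
        congr 1
        ext i j
        fin_cases j <;> simp [star_smul, mulVec_smul] }
  have hTn : ∀ y, hip (T y) (T y) = hip y y := by
    intro y
    show hip ((Matrix.of ![y, S *ᵥ star y] : Matrix (Fin 2) (Fin n) K)ᴴ *ᵥ a)
      ((Matrix.of ![y, S *ᵥ star y] : Matrix (Fin 2) (Fin n) K)ᴴ *ᵥ a) = _
    rw [hip, star_mulVec, ← dotProduct_mulVec, mulVec_mulVec, conjTranspose_conjTranspose,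
      rows_gram hT hS, smul_mulVec, one_mulVec, dotProduct_smul]
    have h1 : star a ⬝ᵥ a = 1 := ha
    rw [h1, smul_eq_mul, mul_one]
  have hinj : Function.Injective T := by
    rw [injective_iff_map_eq_zero]
    intro y hy
    have h1 := hTn y
    rw [hy] at h1
    apply re_hip_self_eq_zero
    rw [← h1]
    simp [hip]
  obtain ⟨y, hy⟩ := (LinearMap.injective_iff_surjective (f := T)).1 hinj v
  exact ⟨y, hy, by rw [← hTn, hy]⟩

end Pool.Agent.Helper20.CKP
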