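import Pool.Agent.Helper20.CKP.StdB

/-!
# CKP: the decomposition of `U(2, n; K)` with respect to the two standard subgroups
-/

set_option autoImplicit false

namespace Pool.Agent.Helper20.CKP

open Matrix Module Topology Filter NormedSpace Pool.Agent.Helper40.CK Pool.Agent.Helper17.CKF
  Pool.Agent.Helper29.CKP

variable {K : Type} [RCLike K] {n : ℕ}

/-- A positive definite element. -/
noncomputable def Yv (c : ℝ) (B : Matrix (Fin 2) (Fin n) K) : Matrix (Fin (2 + n)) (Fin (2 + n)) K :=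
  ckb (c • 1) B Bᴴ (1 + (1 + c)⁻¹ • (Bᴴ * B))

theorem Yv_star (c : ℝ) (B : Matrix (Fin 2) (Fin n) K) : (Yv c B)ᴴ = Yv c B := by
  rw [Yv, ckb_star, conjTranspose_smul, conjTranspose_one, conjTranspose_conjTranspose,
    conjTranspose_add, conjTranspose_one, conjTranspose_smul, conjTranspose_mul,
    conjTranspose_conjTranspose, star_trivial, star_trivial]

theorem Yv_form {c : ℝ} (hc : 0 ≤ c) {B : Matrix (Fin 2) (Fin n) K}
    (hB : B * Bᴴ = (c ^ 2 - 1) • (1 : Matrix (Fin 2) (Fin 2) K)) :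
    (Yv c B)ᴴ * JK K 2 n * Yv c B = JK K 2 n := by
  have hc1 : 1 + c ≠ 0 := by positivity
  have h1 : Bᴴ * B * (Bᴴ * B) = (c ^ 2 - 1) • (Bᴴ * B) := by
    calc Bᴴ * B * (Bᴴ * B) = Bᴴ * (B * Bᴴ) * B := by simp only [Matrix.mul_assoc]
      _ = _ := by rw [hB, Matrix.mul_smul, Matrix.mul_one, Matrix.smul_mul]
  have h2 : B * (Bᴴ * B) = (c ^ 2 - 1) • B := by
    rw [← Matrix.mul_assoc, hB, Matrix.smul_mul, Matrix.one_mul]
  have h3 : Bᴴ * B * Bᴴ = (c ^ 2 - 1) • Bᴴ := by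
    rw [Matrix.mul_assoc, hB, Matrix.mul_smul, Matrix.mul_one]
  have k1 : (1 + c)⁻¹ * (c ^ 2 - 1) = c - 1 := by
    field_simp
    ring
  have k2 : (1 + c)⁻¹ * ((1 + c)⁻¹ * (c ^ 2 - 1)) + 2 * (1 + c)⁻¹ = 1 := by
    rw [k1]
    field_simp
    ring
  have h2' : (1 + c)⁻¹ • (B * (Bᴴ * B)) = (c - 1) • B := by
    rw [h2, smul_smul, k1]
  have h3' : (1 + c)⁻¹ • (Bᴴ * B * Bᴴ) = (c - 1) • Bᴴ := by
    rw [h3, smul_smul, k1]
  have h1' : (1 + c)⁻¹ • ((1 + c)⁻¹ • (Bᴴ * B * (Bᴴ * B))) = (1 - 2 * (1 + c)⁻¹) • (Bᴴ * B) := by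
    rw [h1, smul_smul, smul_smul]
    congr 1
    linarith
  rw [Yv_star, Yv, JK_eq, ckb_mul, ckb_mul]
  congr 1
  · simp only [Matrix.mul_one, Matrix.mul_zero, add_zero,
      Matrix.mul_smul, Matrix.mul_neg, zero_add, Matrix.neg_mul, hB]
    module
  · simp only [Matrix.mul_one, Matrix.mul_zero, add_zero, Matrix.smul_mul, Matrix.one_mul,
      Matrix.mul_smul, Matrix.mul_neg, zero_add, Matrix.neg_mul, Matrix.mul_add]
    rw [smul_neg, h2']
    module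
  · simp only [Matrix.mul_one, Matrix.mul_zero, add_zero, Matrix.smul_mul, Matrix.one_mul,
      Matrix.mul_smul, Matrix.mul_neg, zero_add, Matrix.neg_mul, Matrix.add_mul, h3']
    module
  · simp only [Matrix.mul_one, Matrix.mul_zero, add_zero, Matrix.smul_mul, Matrix.one_mul,
      Matrix.mul_smul, Matrix.mul_neg, zero_add, Matrix.neg_mul, Matrix.add_mul, Matrix.mul_add,
      smul_neg, smul_add, h1']
    module

theorem Yv_comm (c : ℝ) {S : Matrix (Fin n) (Fin n) K} (hT : Sᵀ = -S)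
    {B : Matrix (Fin 2) (Fin n) K} (h : B * S.map star = tau K * B.map star) :
    Yv c B * ckb (tau K) 0 0 (S.map star) = ckb (tau K) 0 0 (S.map star) * (Yv c B).map star := by
  have h2 := tau_rel hT h
  have e5 : (Bᴴ).map star = Bᵀ := by
    ext i j
    simp
  have e7 : ∀ {a b : ℕ} (r : ℝ) (M : Matrix (Fin a) (Fin b) K), (r • M).map star = r • M.map star := by
    intro a b r M
    ext i j
    show star (r • M i j) = r • star (M i j)
    rw [star_smul, star_trivial]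
  have e8 : ∀ {a : ℕ}, (1 : Matrix (Fin a) (Fin a) K).map star = 1 := fun {a} =>
    Matrix.map_one star (star_zero K) (star_one K)
  have e9 : (1 + (1 + c)⁻¹ • (Bᴴ * B)).map star =
      (1 : Matrix (Fin n) (Fin n) K) + (1 + c)⁻¹ • (Bᵀ * B.map star) := by
    rw [← e5, ← map_star_mul, ← e7, Matrix.map_add star (fun a b => star_add a b), e8]
  rw [Yv, ckb_map, e9, e5, e7, e8, ckb_mul, ckb_mul]
  congr 1
  · simp
  · simp only [Matrix.mul_zero, zero_add, add_zero, Matrix.zero_mul, h]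
  · simp only [Matrix.mul_zero, zero_add, add_zero, Matrix.zero_mul, h2]
  · simp only [Matrix.mul_zero, zero_add, Matrix.zero_mul, Matrix.add_mul, Matrix.mul_add,
      Matrix.one_mul, Matrix.mul_one, Matrix.smul_mul, Matrix.mul_smul, Matrix.mul_assoc, h]
    rw [← Matrix.mul_assoc Bᴴ, ← Matrix.mul_assoc (S.map star), h2, Matrix.mul_assoc]

theorem JK_mul_of {Z : Matrix (Fin (2 + n)) (Fin (2 + n)) K} (h : Zᴴ * JK K 2 n * Z = JK K 2 n) :
    (JK K 2 n * Zᴴ * JK K 2 n) * Z = 1 :=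
  mul_eq_one_comm.1 (rlK_isUnit_of h)

/-- The inverse is in the group. -/
theorem JK_inv_form {Z : Matrix (Fin (2 + n)) (Fin (2 + n)) K} (h : Zᴴ * JK K 2 n * Z = JK K 2 n) :
    (JK K 2 n * Zᴴ * JK K 2 n)ᴴ * JK K 2 n * (JK K 2 n * Zᴴ * JK K 2 n) = JK K 2 n := by
  have h1 := rlK_isUnit_of h
  calc (JK K 2 n * Zᴴ * JK K 2 n)ᴴ * JK K 2 n * (JK K 2 n * Zᴴ * JK K 2 n) =
        JK K 2 n * (Z * (JK K 2 n * (JK K 2 n * JK K 2 n) * Zᴴ * JK K 2 n)) := by
          rw [conjTranspose_mul, conjTranspose_mul, conjTranspose_conjTranspose, JK_star]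
          simp only [Matrix.mul_assoc]
    _ = _ := by rw [JK_mul_self, mul_one, h1, mul_one]

theorem mul_form {Z W : Matrix (Fin (2 + n)) (Fin (2 + n)) K} (hZ : Zᴴ * JK K 2 n * Z = JK K 2 n)
    (hW : Wᴴ * JK K 2 n * W = JK K 2 n) : (Z * W)ᴴ * JK K 2 n * (Z * W) = JK K 2 n := by
  calc (Z * W)ᴴ * JK K 2 n * (Z * W) = Wᴴ * (Zᴴ * JK K 2 n * Z) * W := by
        rw [conjTranspose_mul]
        simp only [Matrix.mul_assoc]
    _ = _ := by rw [hZ, hW]

/-- The decomposition. -/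
theorem exists_dec {Z : Matrix (Fin (2 + n)) (Fin (2 + n)) K} (hZ : Zᴴ * JK K 2 n * Z = JK K 2 n)
    {e : Fin 2 → K} (he : hip e e = 1) {S : Matrix (Fin n) (Fin n) K} (hT : Sᵀ = -S)
    (hS : S * Sᴴ = 1) : ∃ (Y W : Matrix (Fin (2 + n)) (Fin (2 + n)) K) (U : Matrix (Fin 2) (Fin 2) K),
      Yᴴ * JK K 2 n * Y = JK K 2 n ∧
      Y * ckb (tau K) 0 0 (S.map star) = ckb (tau K) 0 0 (S.map star) * Y.map star ∧
      U * Uᴴ = 1 ∧ Wᴴ * JK K 2 n * W = JK K 2 n ∧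
      W * ckb (refl e) 0 0 1 = ckb (refl e) 0 0 1 * W ∧ Z = Y * ckb U 0 0 1 * W := by
  obtain ⟨A, B, C, D, rfl⟩ := exists_ckb Z
  have hAC : Aᴴ * A - Cᴴ * C = 1 := by
    have h1 := hZ
    rw [JK_eq, ckb_star, ckb_mul, ckb_mul] at h1
    have h2 := (ckb_inj h1).1
    simpa [sub_eq_add_neg] using h2
  have hq : hip (A *ᵥ e) (A *ᵥ e) = 1 + hip (C *ᵥ e) (C *ᵥ e) := by
    have h1 : hip (A *ᵥ e) (A *ᵥ e) = star e ⬝ᵥ ((Aᴴ * A) *ᵥ e) := by
      rw [hip, star_mulVec, ← dotProduct_mulVec, mulVec_mulVec]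
    have h2 : hip (C *ᵥ e) (C *ᵥ e) = star e ⬝ᵥ ((Cᴴ * C) *ᵥ e) := by
      rw [hip, star_mulVec, ← dotProduct_mulVec, mulVec_mulVec]
    rw [h1, h2, ← sub_eq_iff_eq_add, ← dotProduct_sub, ← sub_mulVec, hAC, one_mulVec]
    exact he
  set s : ℝ := RCLike.re (hip (C *ᵥ e) (C *ᵥ e)) with hs
  have hs0 : 0 ≤ s := re_hip_self_nonneg _
  have hCe : hip (C *ᵥ e) (C *ᵥ e) = (s : K) := hip_self _
  have hAe : hip (A *ᵥ e) (A *ᵥ e) = ((1 + s : ℝ) : K) := by
    rw [hq, hCe]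
    push_cast
    rfl
  set c : ℝ := Real.sqrt (1 + s) with hc
  have hc2 : c ^ 2 = 1 + s := Real.sq_sqrt (by positivity)
  have hc0 : 0 < c := Real.sqrt_pos.2 (by positivity)
  set a : Fin 2 → K := c⁻¹ • (A *ᵥ e) with ha
  have haa : hip a a = 1 := by
    rw [ha, hip_rsmul_right, hip_rsmul_left, hAe, ← RCLike.ofReal_mul, ← RCLike.ofReal_mul]
    have h1 : c⁻¹ * (c⁻¹ * (1 + s)) = 1 := by
      rw [← hc2]
      field_simp
    rw [h1, RCLike.ofReal_one]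
  obtain ⟨y, hy, hyy⟩ := exists_rows hT hS haa (C *ᵥ e)
  set F : Matrix (Fin 2) (Fin n) K := Matrix.of ![y, S *ᵥ star y] with hF
  have hFF : F * Fᴴ = (c ^ 2 - 1) • (1 : Matrix (Fin 2) (Fin 2) K) := by
    rw [hF, rows_gram hT hS, hyy, hCe, hc2, add_sub_cancel_left]
    ext i j
    simp [RCLike.real_smul_eq_coe_mul]
  obtain ⟨U, hU, hUe⟩ := exists_unitary_vec (u := e) (w := a) (by rw [haa, he])
  have hU' : Uᴴ * U = 1 := mul_eq_one_comm.1 hU
  set Y := Yv c F with hY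
  have hYf : Yᴴ * JK K 2 n * Y = JK K 2 n := Yv_form hc0.le hFF
  have hk : (ckb U 0 0 (1 : Matrix (Fin n) (Fin n) K))ᴴ * JK K 2 n * ckb U 0 0 1 = JK K 2 n := by
    rw [JK_eq, ckb_star, ckb_mul, ckb_mul]
    simp [hU']
  have hkk : ckb U 0 0 (1 : Matrix (Fin n) (Fin n) K) * ckb Uᴴ 0 0 1 = 1 := by
    rw [ckb_mul, ← ckb_one]
    simp [hU]
  set X := Y * ckb U 0 0 (1 : Matrix (Fin n) (Fin n) K) with hX
  have hXf : Xᴴ * JK K 2 n * X = JK K 2 n := mul_form hYf hk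
  set Pe : Matrix (Fin (2 + n)) (Fin (2 + n)) K := ckb (vecMulVec e (star e)) 0 0 0 with hPe
  have hZPe : ckb A B C D * Pe = X * Pe := by
    rw [hX, hY, Yv, hPe, ckb_mul, ckb_mul, ckb_mul]
    simp only [Matrix.mul_zero, add_zero, zero_add, Matrix.mul_vecMulVec,
      Matrix.smul_mul, Matrix.one_mul]
    have e1 : A *ᵥ e = c • a := by
      rw [ha, smul_smul, mul_inv_cancel₀ hc0.ne', one_smul]
    rw [← mulVec_mulVec, ← hUe, hy, e1, smul_mulVec, ← hUe]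
  refine ⟨Y, (JK K 2 n * Xᴴ * JK K 2 n) * ckb A B C D, U, hYf, ?_, hU, ?_, ?_, ?_⟩
  · exact Yv_comm c hT ((rows_iff hT hS).2 ⟨y, rfl⟩)
  · exact mul_form (JK_inv_form hXf) hZ
  · set W := (JK K 2 n * Xᴴ * JK K 2 n) * ckb A B C D with hW
    have hWf : Wᴴ * JK K 2 n * W = JK K 2 n := mul_form (JK_inv_form hXf) hZ
    have h1 : W * Pe = Pe := by
      rw [hW, Matrix.mul_assoc, hZPe, ← Matrix.mul_assoc, JK_mul_of hXf, one_mul]
    have hJPe : JK K 2 n * Pe = Pe := by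
      rw [JK_eq, hPe, ckb_mul]
      simp
    have hPes : Peᴴ = Pe := by
      rw [hPe, ckb_star]
      simp
    have h2 : Wᴴ * Pe = Pe := by
      calc Wᴴ * Pe = Wᴴ * (JK K 2 n * (W * Pe)) := by rw [h1, hJPe]
        _ = (Wᴴ * JK K 2 n * W) * Pe := by simp only [Matrix.mul_assoc]
        _ = Pe := by rw [hWf, hJPe]
    have h3 : Pe * W = Pe := by
      have := congrArg conjTranspose h2
      rwa [conjTranspose_mul, conjTranspose_conjTranspose, hPes] at this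
    have h4 : ckb (refl e) 0 0 (1 : Matrix (Fin n) (Fin n) K) = 1 - (2 : ℝ) • Pe := by
      rw [hPe, ckb_smul, ← ckb_one, ckb_sub, refl]
      congr 1
      · congr 1
        ext i j
        simp only [Matrix.smul_apply, RCLike.real_smul_eq_coe_mul, smul_eq_mul, RCLike.ofReal_ofNat]
      · simp
      · simp
      · simp
    rw [h4, Matrix.mul_sub, Matrix.sub_mul, Matrix.mul_smul, Matrix.smul_mul, h1, h3,
      Matrix.one_mul, Matrix.mul_one]
  · rw [← hX, ← Matrix.mul_assoc, rlK_isUnit_of hXf, Matrix.one_mul]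

end Pool.Agent.Helper20.CKP
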