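import Pool.Agent.Helper20.CKP.StdC

/-!
# CKP: the two standard subgroups of `U(2, n; K)` act properly and cocompactly
-/

set_option autoImplicit false

namespace Pool.Agent.Helper20.CKP

open Matrix Module Topology Filter NormedSpace Pool.Agent.Helper40.CK Pool.Agent.Helper17.CKF
  Pool.Agent.Helper29.CKP

/-! ### Generalities -/

section Gen
variable {S : Type} [Group S] [TopologicalSpace S] [IsTopologicalGroup S]

theorem acts_symm {L H : Subgroup S} (h : ActsProperlyCocompactly L H) :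
    ActsProperlyCocompactly H L := by
  refine ⟨fun C hC => ?_, ?_⟩
  · obtain ⟨D, hD, hD1⟩ := h.proper _ hC.inv
    refine ⟨_, (hC.mul hD).mul hC.inv, fun x hx c hc c' hc' l hl e => ?_⟩
    have h1 : l * c⁻¹ = c'⁻¹ * x := by
      rw [mul_inv_eq_iff_eq_mul, mul_assoc, e, inv_mul_cancel_left]
    have h2 : l ∈ D := hD1 l hl c⁻¹ (Set.inv_mem_inv.2 hc) c'⁻¹ (Set.inv_mem_inv.2 hc') x hx h1
    have h3 : x = c' * l * c⁻¹ := by
      rw [← e, mul_inv_cancel_right]
    rw [h3]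
    exact Set.mul_mem_mul (Set.mul_mem_mul hc' h2) (Set.inv_mem_inv.2 hc)
  · obtain ⟨C, hC, hC1⟩ := h.cocompact
    refine ⟨C⁻¹, hC.inv, fun g => ?_⟩
    obtain ⟨l, hl, c, hc, x, hx, e⟩ := hC1 g⁻¹
    refine ⟨x⁻¹, H.inv_mem hx, c⁻¹, Set.inv_mem_inv.2 hc, l⁻¹, L.inv_mem hl, ?_⟩
    rw [← inv_inv g, e]
    group

variable {N : ℕ}

/-- The action depends only on the space `p` of the Cartan decomposition. -/
theorem acts_congr (M : MatGroup S N) {L H H' : Subgroup S}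
    {q : Submodule ℝ (Matrix (Fin N) (Fin N) ℝ)} (hH : Cartan M H q) (hH' : Cartan M H' q)
    (h : ActsProperlyCocompactly L H) : ActsProperlyCocompactly L H' := by
  have key : ∀ {A B : Subgroup S}, Cartan M A q → Cartan M B q → ∀ a ∈ A, ∃ b ∈ B, ∃ k : S,
      M.ι k * (M.ι k)ᵀ = 1 ∧ a = b * k := by
    intro A B hA hB a ha
    obtain ⟨X, hX, k, -, hk, e⟩ := hA.polar a ha
    obtain ⟨b, hb, eb⟩ := hB.exp_mem X hX
    refine ⟨b, hb, k, hk, M.inj ?_⟩
    rw [map_mul, e, eb]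
  have hK := Pool.Agent.Helper17.CKF.isCompact_orth M
  refine ⟨fun C hC => ?_, ?_⟩
  · obtain ⟨D, hD, hD1⟩ := h.proper _ (hC.union (hC.mul hK.inv))
    refine ⟨D, hD, fun l hl c hc c' hc' x hx e => ?_⟩
    obtain ⟨b, hb, k, hk, rfl⟩ := key hH' hH x hx
    refine hD1 l hl (c * k⁻¹) (Or.inr (Set.mul_mem_mul hc (Set.inv_mem_inv.2 hk))) c'
      (Or.inl hc') b hb ?_
    rw [← mul_assoc, e, mul_assoc, mul_assoc, mul_inv_cancel, mul_one]
  · obtain ⟨C, hC, hC1⟩ := h.cocompact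
    refine ⟨_, hC.mul hK.inv, fun g => ?_⟩
    obtain ⟨l, hl, c, hc, x, hx, e⟩ := hC1 g
    obtain ⟨b, hb, k, hk, ek⟩ := key hH hH' x⁻¹ (H.inv_mem hx)
    refine ⟨l, hl, c * k⁻¹, Set.mul_mem_mul hc (Set.inv_mem_inv.2 hk), b⁻¹, H'.inv_mem hb, ?_⟩
    have h1 : x = k⁻¹ * b⁻¹ := by rw [← _root_.mul_inv_rev, ← ek, inv_inv]
    rw [e, h1]
    group

/-- The whole group acts properly and cocompactly if `H` is compact. -/
theorem acts_top (M : MatGroup S N) {H : Subgroup S} (hH : Cartan M H ⊥) :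
    ActsProperlyCocompactly ⊤ H := by
  have hb : ActsProperlyCocompactly (⊤ : Subgroup S) ⊥ := by
    refine ⟨fun C hC => ⟨_, hC.mul hC.inv, fun l _ c hc c' hc' x hx e => ?_⟩, ?_⟩
    · have h1 : x = 1 := Subgroup.mem_bot.1 hx
      have h2 : l = c' * c⁻¹ := by
        rw [eq_mul_inv_iff_mul_eq, e, h1, mul_one]
      rw [h2]
      exact Set.mul_mem_mul hc' (Set.inv_mem_inv.2 hc)
    · exact ⟨{1}, isCompact_singleton, fun g => ⟨g, Subgroup.mem_top _, 1, rfl, 1,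
        Subgroup.one_mem _, by rw [mul_one, mul_one]⟩⟩
  have hbot : Cartan M (⊥ : Subgroup S) ⊥ := by
    refine ⟨?_, ?_, ?_, ?_⟩
    · have := t2_of M
      rw [Subgroup.coe_bot]
      exact isClosed_singleton
    · intro X hX
      rw [(Submodule.mem_bot ℝ).1 hX, transpose_zero]
    · intro X hX
      refine ⟨1, Subgroup.one_mem _, ?_⟩
      rw [(Submodule.mem_bot ℝ).1 hX, map_one, exp_zero]
    · intro h hh
      refine ⟨0, Submodule.zero_mem _, 1, Subgroup.one_mem _, ?_, ?_⟩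
      · rw [map_one, transpose_one, mul_one]
      · rw [Subgroup.mem_bot.1 hh, map_one, exp_zero, mul_one]
  exact acts_congr M hbot hH hb

/-- The trivial group acts cocompactly if `H` contains the space `p`. -/
theorem acts_bot (M : MatGroup S N) {H : Subgroup S}
    {p : Submodule ℝ (Matrix (Fin N) (Fin N) ℝ)} (hG : Cartan M ⊤ p) (hH : Cartan M H p) :
    ActsProperlyCocompactly ⊥ H := by
  refine acts_congr M hG hH ?_
  refine ⟨fun C hC => ⟨{1}, isCompact_singleton, fun l hl c hc c' hc' x hx e =>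
    Subgroup.mem_bot.1 hl⟩, ?_⟩
  exact ⟨{1}, isCompact_singleton, fun g => ⟨1, Subgroup.one_mem _, 1, rfl, g,
    Subgroup.mem_top _, by rw [mul_one, one_mul]⟩⟩

end Gen

/-! ### The estimate -/

variable {K : Type} [RCLike K] {n : ℕ}

/-- The sum of the squares of the entries of the real form. -/
noncomputable def fr {m : ℕ} (Z : Matrix (Fin m) (Fin m) K) : ℝ := fn (rlK Z)

theorem fr_eq {m : ℕ} (Z : Matrix (Fin m) (Fin m) K) : fr Z = 2 * RCLike.re (Zᴴ * Z).trace := by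
  rw [fr, fn_eq_trace, rlK_transpose, ← rlK_mul, rlK_trace]

theorem fr_nonneg {m : ℕ} (Z : Matrix (Fin m) (Fin m) K) : 0 ≤ fr Z := fn_nonneg _

theorem fr_mul_le {m : ℕ} (Z W : Matrix (Fin m) (Fin m) K) : fr (Z * W) ≤ fr Z * fr W := by
  rw [fr, rlK_mul]
  exact fn_mul_le _ _

theorem fr_pos {m : ℕ} {Z : Matrix (Fin m) (Fin m) K} (h : Z ≠ 0) : 0 < fr Z := by
  refine lt_of_le_of_ne (fr_nonneg Z) fun e => h ?_
  have h1 : rlK Z = 0 := fn_eq_zero e.symm
  have h2 : rlK (0 : Matrix (Fin m) (Fin m) K) = 0 := by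
    have := rlK_smul (0 : ℝ) (0 : Matrix (Fin m) (Fin m) K)
    rwa [zero_smul, zero_smul] at this
  exact rlK_inj (h1.trans h2.symm)

/-- The elements of `U(1, n)`, for the vectors in the kernel of one linear functional. -/
theorem fr_three {Z : Matrix (Fin (2 + n)) (Fin (2 + n)) K} (hZ : Zᴴ * JK K 2 n * Z = JK K 2 n)
    {e : Fin 2 → K} (he : hip e e = 1) (h : Z * ckb (refl e) 0 0 1 = ckb (refl e) 0 0 1 * Z)
    (V : Matrix (Fin (2 + n)) (Fin (2 + n)) K)
    (hV : ckb (1 - vecMulVec e (star e)) 0 0 (0 : Matrix (Fin n) (Fin n) K) * (Z * V) = 0) :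
    fr (Z * V) ≤ fr V := by
  set Pe : Matrix (Fin (2 + n)) (Fin (2 + n)) K := ckb (vecMulVec e (star e)) 0 0 0 with hPe
  set Pf : Matrix (Fin (2 + n)) (Fin (2 + n)) K := ckb (1 - vecMulVec e (star e)) 0 0 0 with hPf
  have h4 : ckb (refl e) 0 0 (1 : Matrix (Fin n) (Fin n) K) = 1 - (2 : ℝ) • Pe := by
    rw [hPe, ckb_smul, ← ckb_one, ckb_sub, refl]
    congr 1
    · congr 1
      ext i j
      simp only [Matrix.smul_apply, RCLike.real_smul_eq_coe_mul, smul_eq_mul, RCLike.ofReal_ofNat]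
    · simp
    · simp
    · simp
  have hc : Z * Pe = Pe * Z := by
    rw [h4, Matrix.mul_sub, Matrix.sub_mul, Matrix.mul_smul, Matrix.smul_mul, Matrix.one_mul,
      Matrix.mul_one, sub_right_inj] at h
    exact smul_right_injective _ (two_ne_zero (α := ℝ)) h
  have hJe : JK K 2 n * Pe = Pe := by
    rw [JK_eq, hPe, ckb_mul]
    simp
  have h1 : (1 : Matrix (Fin (2 + n)) (Fin (2 + n)) K) = (2 : ℝ) • Pe + (2 : ℝ) • Pf - JK K 2 n := by
    rw [JK_eq, hPe, hPf, ckb_smul, ckb_smul, ckb_add, ckb_sub, ← ckb_one]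
    congr 1
    · rw [← smul_add, add_sub_cancel, two_smul, add_sub_cancel_right]
    · simp
    · simp
    · simp
  have h2 : Zᴴ * Pe * Z = Pe := by
    calc Zᴴ * Pe * Z = Zᴴ * (JK K 2 n * Pe) * Z := by rw [hJe]
      _ = Zᴴ * JK K 2 n * (Z * Pe) := by rw [hc]; simp only [Matrix.mul_assoc]
      _ = (Zᴴ * JK K 2 n * Z) * Pe := by simp only [Matrix.mul_assoc]
      _ = Pe := by rw [hZ, hJe]
  have h3 : (Z * V)ᴴ * (Z * V) = (2 : ℝ) • (Vᴴ * Pe * V) - Vᴴ * JK K 2 n * V := by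
    calc (Z * V)ᴴ * (Z * V) = (Z * V)ᴴ * (((2 : ℝ) • Pe + (2 : ℝ) • Pf - JK K 2 n) * (Z * V)) := by
          rw [← h1, one_mul]
      _ = (2 : ℝ) • (Vᴴ * (Zᴴ * Pe * Z) * V) + (2 : ℝ) • ((Z * V)ᴴ * (Pf * (Z * V))) -
          Vᴴ * (Zᴴ * JK K 2 n * Z) * V := by
          rw [conjTranspose_mul]
          simp only [Matrix.add_mul, Matrix.sub_mul, Matrix.mul_add, Matrix.mul_sub,
            Matrix.smul_mul, Matrix.mul_smul, Matrix.mul_assoc]
      _ = _ := by rw [h2, hZ, hV, Matrix.mul_zero, smul_zero, add_zero]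
  have h5 : (2 : ℝ) • (Vᴴ * Pe * V) - Vᴴ * JK K 2 n * V = Vᴴ * V - (2 : ℝ) • (Vᴴ * Pf * V) := by
    have h6 : Vᴴ * V = Vᴴ * ((2 : ℝ) • Pe + (2 : ℝ) • Pf - JK K 2 n) * V := by
      rw [← h1, Matrix.mul_one]
    rw [h6]
    simp only [Matrix.add_mul, Matrix.sub_mul, Matrix.mul_add, Matrix.mul_sub,
            Matrix.smul_mul, Matrix.mul_smul]
    abel
  have h7 : Pfᴴ * Pf = Pf := by
    have h8 : vecMulVec e (star e) * vecMulVec e (star e) = vecMulVec e (star e) := by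
      rw [vecMulVec_mul_vecMulVec]
      have h2 : star e ⬝ᵥ e = 1 := he
      rw [h2, one_smul]
    have h9 : (1 - vecMulVec e (star e))ᴴ = 1 - vecMulVec e (star e) := by
      rw [conjTranspose_sub, conjTranspose_one, conjTranspose_vecMulVec, star_star]
    rw [hPf, ckb_star, h9, ckb_mul]
    congr 1
    · simp only [Matrix.sub_mul, Matrix.mul_sub, Matrix.one_mul, Matrix.mul_one, h8]
      simp
    · simp
    · simp
    · simp
  have h8 : Vᴴ * Pf * V = (Pf * V)ᴴ * (Pf * V) := by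
    rw [conjTranspose_mul]
    calc Vᴴ * Pf * V = Vᴴ * (Pfᴴ * Pf) * V := by rw [h7]
      _ = _ := by simp only [Matrix.mul_assoc]
  have h9 := fr_nonneg (Pf * V)
  rw [fr_eq] at h9
  rw [fr_eq, fr_eq, h3, h5, h8, Matrix.trace_sub, Matrix.trace_smul, map_sub, RCLike.smul_re]
  linarith

/-- The elements of the second group: the first block is a multiple of a unitary matrix. -/
theorem tau_block {A : Matrix (Fin 2) (Fin 2) K} (h : A * tau K = tau K * A.map star) :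
    ∃ ρ : ℝ, 0 ≤ ρ ∧ Aᴴ * A = ρ • (1 : Matrix (Fin 2) (Fin 2) K) ∧
      A * Aᴴ = ρ • (1 : Matrix (Fin 2) (Fin 2) K) := by
  have h00 := congrFun (congrFun h 0) 0
  have h01 := congrFun (congrFun h 0) 1
  have h10 := congrFun (congrFun h 1) 0
  have h11 := congrFun (congrFun h 1) 1
  simp [tau, Matrix.mul_apply, Fin.sum_univ_two] at h00 h01 h10 h11
  have e0 : star (A 0 0) * A 0 0 = ((‖A 0 0‖ ^ 2 : ℝ) : K) := by
    rw [RCLike.star_def, RCLike.conj_mul]
    push_cast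
    rfl
  have e1 : star (A 1 0) * A 1 0 = ((‖A 1 0‖ ^ 2 : ℝ) : K) := by
    rw [RCLike.star_def, RCLike.conj_mul]
    push_cast
    rfl
  have h00' : A 0 1 = -star (A 1 0) := h00
  have h10' : A 1 1 = star (A 0 0) := h10
  refine ⟨‖A 0 0‖ ^ 2 + ‖A 1 0‖ ^ 2, by positivity, ?_, ?_⟩
  · ext i j
    rw [Matrix.mul_apply, Fin.sum_univ_two, Matrix.smul_apply, RCLike.real_smul_eq_coe_mul]
    simp only [conjTranspose_apply]
    fin_cases i <;> fin_cases j
    · show star (A 0 0) * A 0 0 + star (A 1 0) * A 1 0 = _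
      rw [e0, e1]
      simp
    · show star (A 0 0) * A 0 1 + star (A 1 0) * A 1 1 = _
      rw [h00', h10']
      simp
      ring
    · show star (A 0 1) * A 0 0 + star (A 1 1) * A 1 0 = _
      rw [h00', h10']
      simp
      ring
    · show star (A 0 1) * A 0 1 + star (A 1 1) * A 1 1 = _
      rw [h00', h10', star_neg, star_star, star_star, neg_mul_neg, mul_comm (A 1 0),
        mul_comm (A 0 0), e0, e1]
      simp [add_comm]
  · ext i j
    rw [Matrix.mul_apply, Fin.sum_univ_two, Matrix.smul_apply, RCLike.real_smul_eq_coe_mul]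
    simp only [conjTranspose_apply]
    fin_cases i <;> fin_cases j
    · show A 0 0 * star (A 0 0) + A 0 1 * star (A 0 1) = _
      rw [h00', star_neg, star_star, neg_mul_neg, mul_comm (A 0 0), e0, e1]
      simp
    · show A 0 0 * star (A 1 0) + A 0 1 * star (A 1 1) = _
      rw [h00', h10', star_star]
      simp
      ring
    · show A 1 0 * star (A 0 0) + A 1 1 * star (A 0 1) = _
      rw [h00', h10', star_neg, star_star]
      simp
      ring
    · show A 1 0 * star (A 1 0) + A 1 1 * star (A 1 1) = _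
      rw [h10', star_star, mul_comm (A 1 0), e0, e1]
      simp [add_comm]

open scoped ComplexOrder in
theorem re_trace_nonneg {a b : ℕ} (M : Matrix (Fin a) (Fin b) K) : 0 ≤ RCLike.re (Mᴴ * M).trace :=
  (RCLike.nonneg_iff.1 (Matrix.posSemidef_conjTranspose_mul_self M).trace_nonneg).1

/-- The size of an element of the second group. -/
theorem fr_four {Z : Matrix (Fin (2 + n)) (Fin (2 + n)) K} (hZ : Zᴴ * JK K 2 n * Z = JK K 2 n)
    {S : Matrix (Fin n) (Fin n) K}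
    (h : Z * ckb (tau K) 0 0 (S.map star) = ckb (tau K) 0 0 (S.map star) * Z.map star) :
    ∃ ρ : ℝ, 0 ≤ ρ ∧ fr Z ≤ 16 * ρ + 2 * n ∧ ∀ a x : Fin 2 → K,
      ρ * fr (ckb (vecMulVec a x) 0 0 (0 : Matrix (Fin n) (Fin n) K)) ≤
        fr (Z * ckb (vecMulVec a x) 0 0 (0 : Matrix (Fin n) (Fin n) K)) := by
  have hZ' : Z * JK K 2 n * Zᴴ = JK K 2 n := by
    have h1 := rlK_isUnit_of hZ
    calc Z * JK K 2 n * Zᴴ = Z * (JK K 2 n * Zᴴ * JK K 2 n) * JK K 2 n := by
          simp only [Matrix.mul_assoc, JK_mul_self, Matrix.mul_one]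
      _ = _ := by rw [h1, Matrix.one_mul]
  obtain ⟨A, B, C, D, rfl⟩ := exists_ckb Z
  rw [ckb_map, ckb_mul, ckb_mul] at h
  have hA : A * tau K = tau K * A.map star := by
    have := (ckb_inj h).1
    simpa using this
  obtain ⟨ρ, hρ, h1, h2⟩ := tau_block hA
  rw [JK_eq, ckb_star, ckb_mul, ckb_mul] at hZ hZ'
  have e1 : Aᴴ * A - Cᴴ * C = 1 := by
    have h2 := (ckb_inj hZ).1
    simpa [sub_eq_add_neg] using h2
  have e2 : Bᴴ * B - Dᴴ * D = -1 := by
    have h2 := (ckb_inj hZ).2.2.2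
    simpa [sub_eq_add_neg] using h2
  have e3 : A * Aᴴ - B * Bᴴ = 1 := by
    have h2 := (ckb_inj hZ').1
    simpa [sub_eq_add_neg] using h2
  have t1 : RCLike.re (Aᴴ * A).trace = 2 * ρ := by
    rw [h1, Matrix.trace_smul, Matrix.trace_one, Fintype.card_fin, RCLike.smul_re]
    simp [mul_comm]
  have t2 : RCLike.re (A * Aᴴ).trace = 2 * ρ := by
    rw [h2, Matrix.trace_smul, Matrix.trace_one, Fintype.card_fin, RCLike.smul_re]
    simp [mul_comm]
  have t3 : RCLike.re (Cᴴ * C).trace = 2 * ρ - 2 := by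
    have h3 := congrArg (fun M => RCLike.re (Matrix.trace M)) e1
    simp only [Matrix.trace_sub, map_sub, Matrix.trace_one, Fintype.card_fin, t1,
      RCLike.natCast_re] at h3
    push_cast at h3
    linarith
  have t4 : RCLike.re (Bᴴ * B).trace = 2 * ρ - 2 := by
    have h3 := congrArg (fun M => RCLike.re (Matrix.trace M)) e3
    simp only [Matrix.trace_sub, map_sub, Matrix.trace_one, Fintype.card_fin, t2,
      RCLike.natCast_re] at h3
    rw [Matrix.trace_mul_comm Bᴴ]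
    push_cast at h3
    linarith
  have t5 : RCLike.re (Dᴴ * D).trace = 2 * ρ - 2 + n := by
    have h3 := congrArg (fun M => RCLike.re (Matrix.trace M)) e2
    simp only [Matrix.trace_sub, map_sub, Matrix.trace_neg, map_neg, Matrix.trace_one,
      Fintype.card_fin, t4, RCLike.natCast_re] at h3
    linarith
  refine ⟨ρ, hρ, ?_, fun a x => ?_⟩
  · rw [fr_eq, ckb_star, ckb_mul, ckb_trace, Matrix.trace_add, Matrix.trace_add, map_add, map_add,
      map_add, t1, t3, t4, t5]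
    linarith
  · rw [fr_eq, fr_eq, ckb_mul]
    simp only [Matrix.mul_zero, add_zero, ckb_star, conjTranspose_zero, ckb_mul, Matrix.zero_mul,
      ckb_trace, Matrix.trace_zero]
    have h3 : (A * vecMulVec a x)ᴴ * (A * vecMulVec a x) =
        ρ • ((vecMulVec a x)ᴴ * vecMulVec a x) := by
      calc (A * vecMulVec a x)ᴴ * (A * vecMulVec a x) =
            (vecMulVec a x)ᴴ * (Aᴴ * A) * vecMulVec a x := by
              rw [conjTranspose_mul]
              simp only [Matrix.mul_assoc]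
        _ = _ := by rw [h1, Matrix.mul_smul, Matrix.mul_one, Matrix.smul_mul]
    have h4 := re_trace_nonneg (C * vecMulVec a x)
    rw [Matrix.trace_add, h3, map_add, Matrix.trace_smul, RCLike.smul_re]
    linarith

/-- The inverse has the same size. -/
theorem fr_inv {g : UpqK K 2 n} {Z : Matrix (Fin (2 + n)) (Fin (2 + n)) K}
    (hg : ((g : GL (Fin ((2 + n) + (2 + n))) ℝ) :
      Matrix (Fin ((2 + n) + (2 + n))) (Fin ((2 + n) + (2 + n))) ℝ) = rlK Z)
    (hZ : Zᴴ * JK K 2 n * Z = JK K 2 n) :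
    (((g⁻¹ : UpqK K 2 n) : GL (Fin ((2 + n) + (2 + n))) ℝ) :
      Matrix (Fin ((2 + n) + (2 + n))) (Fin ((2 + n) + (2 + n))) ℝ) =
        rlK (JK K 2 n * Zᴴ * JK K 2 n) ∧ fr (JK K 2 n * Zᴴ * JK K 2 n) = fr Z := by
  constructor
  · have h1 : (((g⁻¹ : UpqK K 2 n) : GL (Fin ((2 + n) + (2 + n))) ℝ) :
      Matrix (Fin ((2 + n) + (2 + n))) (Fin ((2 + n) + (2 + n))) ℝ) *
      ((g : GL (Fin ((2 + n) + (2 + n))) ℝ) :
        Matrix (Fin ((2 + n) + (2 + n))) (Fin ((2 + n) + (2 + n))) ℝ) = 1 :=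
      (g : GL (Fin ((2 + n) + (2 + n))) ℝ).inv_mul
    have h2 : rlK Z * rlK (JK K 2 n * Zᴴ * JK K 2 n) = 1 := by
      rw [← rlK_mul, rlK_isUnit_of hZ, rlK_one]
    calc (((g⁻¹ : UpqK K 2 n) : GL (Fin ((2 + n) + (2 + n))) ℝ) :
      Matrix (Fin ((2 + n) + (2 + n))) (Fin ((2 + n) + (2 + n))) ℝ) =
      (((g⁻¹ : UpqK K 2 n) : GL (Fin ((2 + n) + (2 + n))) ℝ) :
      Matrix (Fin ((2 + n) + (2 + n))) (Fin ((2 + n) + (2 + n))) ℝ) *
        (rlK Z * rlK (JK K 2 n * Zᴴ * JK K 2 n)) := by rw [h2, mul_one]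
      _ = _ := by rw [← hg, ← Matrix.mul_assoc, h1, one_mul]
  · have hJ : rlK (JK K 2 n) * (rlK (JK K 2 n))ᵀ = 1 := by
      rw [rlK_transpose, JK_star, ← rlK_mul, JK_mul_self, rlK_one]
    rw [fr, rlK_mul, rlK_mul, fn_mul_orth _ _ hJ, fn_orth_mul _ _ hJ, ← rlK_transpose, fn_transpose,
      fr]

theorem exists_Z (g : UpqK K 2 n) : ∃ Z : Matrix (Fin (2 + n)) (Fin (2 + n)) K,
    ((g : GL (Fin ((2 + n) + (2 + n))) ℝ) :
      Matrix (Fin ((2 + n) + (2 + n))) (Fin ((2 + n) + (2 + n))) ℝ) = rlK Z ∧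
      Zᴴ * JK K 2 n * Z = JK K 2 n := g.2

theorem ckb_zero {r : ℕ} : (ckb 0 0 0 0 : Matrix (Fin (r + n)) (Fin (r + n)) K) = 0 := by
  have := ckb_smul (0 : ℝ) (0 : Matrix (Fin r) (Fin r) K) (0 : Matrix (Fin r) (Fin n) K) 0 0
  rw [zero_smul] at this
  rw [this]
  simp

/-- The second group acts properly and cocompactly on the quotient by the first group. -/
theorem acts_four_three {e : Fin 2 → K} (he : hip e e = 1) {S : Matrix (Fin n) (Fin n) K}
    (hT : Sᵀ = -S) (hS : S * Sᴴ = 1) :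
    ActsProperlyCocompactly (LC K 2 n (R4 S)) (LC K 2 n (R3 n e)) := by
  set M := oneM (isReductive_upqK K 2 n).closed with hM
  refine ⟨fun C hC => ?_, ?_⟩
  · obtain ⟨b, hb⟩ := hC.bddAbove_image (f := M.N) M.continuous_N.continuousOn
    have hb' : ∀ c ∈ C, M.N c ≤ b := fun c hc => hb ⟨c, hc, rfl⟩
    refine ⟨{g | fn (M.ι g) + fn (M.ι g⁻¹) ≤ 2 * (16 * (b * b) + 2 * n)}, M.compact _, ?_⟩
    intro l hl c hc c' hc' x hx e1
    obtain ⟨Z4, hZ4, h4⟩ := exists_Z l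
    obtain ⟨Z3, hZ3, h3⟩ := exists_Z x
    obtain ⟨Z1, hZ1, h1⟩ := exists_Z c'
    obtain ⟨Z2, hZ2, h2⟩ := exists_Z c⁻¹
    have hprod : Z4 = Z1 * Z3 * Z2 := by
      apply rlK_inj
      rw [rlK_mul, rlK_mul, ← hZ4, ← hZ3, ← hZ1, ← hZ2]
      have e2 : l = c' * x * c⁻¹ := by rw [← e1, mul_inv_cancel_right]
      conv_lhs => rw [e2]
      rfl
    have hf1 : fr Z1 ≤ b := by
      refine le_trans ?_ (hb' c' hc')
      show fn (rlK Z1) ≤ fn (M.ι c') + fn (M.ι c'⁻¹)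
      rw [← hZ1]
      exact le_add_of_nonneg_right (fn_nonneg _)
    have hf2 : fr Z2 ≤ b := by
      refine le_trans ?_ (hb' c hc)
      show fn (rlK Z2) ≤ fn (M.ι c) + fn (M.ι c⁻¹)
      rw [← hZ2]
      exact le_add_of_nonneg_left (fn_nonneg _)
    rw [mem_LC, hZ4, comm_R4] at hl
    rw [mem_LC, hZ3, comm_R3] at hx
    obtain ⟨ρ, hρ, hle, hρV⟩ := fr_four h4 hl
    obtain ⟨A, B, C', D, hABCD⟩ := exists_ckb (Z3 * Z2)
    have hdet : ((1 - vecMulVec e (star e)) * A).det = 0 := by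
      have h5 : (1 - vecMulVec e (star e)).det = 0 := by
        apply Matrix.exists_mulVec_eq_zero_iff.1
        refine ⟨e, ?_, ?_⟩
        · rintro rfl
          simp [hip] at he
        · rw [Matrix.sub_mulVec, Matrix.one_mulVec, vecMulVec_mulVec]
          have h6 : star e ⬝ᵥ e = 1 := he
          rw [h6]
          simp
      rw [Matrix.det_mul, h5, zero_mul]
    obtain ⟨a, ha, hav⟩ := Matrix.exists_mulVec_eq_zero_iff.2 hdet
    set V : Matrix (Fin (2 + n)) (Fin (2 + n)) K := ckb (vecMulVec a (star a)) 0 0 0 with hV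
    have hV0 : V ≠ 0 := by
      intro h5
      have h6 : vecMulVec a (star a) = 0 := by
        have h7 : V = ckb 0 0 0 0 := by rw [h5, ckb_zero]
        exact (ckb_inj h7).1
      apply ha
      funext i
      have h8 := congrFun (congrFun h6 i) i
      rw [vecMulVec_apply, Pi.star_apply, Matrix.zero_apply] at h8
      have h9 : ‖a i‖ ^ 2 = 0 := by
        have h10 : a i * star (a i) = ((‖a i‖ ^ 2 : ℝ) : K) := by
          rw [RCLike.star_def, RCLike.mul_conj]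
          push_cast
          rfl
        rw [h10] at h8
        exact_mod_cast h8
      simpa using h9
    have hVpos := fr_pos hV0
    have h5 := fr_three h3 he hx (Z2 * V) (by
      rw [← Matrix.mul_assoc Z3, hABCD, hV, ckb_mul, ckb_mul]
      simp only [Matrix.mul_zero, add_zero, Matrix.mul_vecMulVec]
      rw [mulVec_mulVec, hav]
      simp only [zero_mulVec, zero_vecMulVec, add_zero, ckb_zero])
    have h6 : ρ * fr V ≤ b * b * fr V := by
      calc ρ * fr V ≤ fr (Z4 * V) := hρV a (star a)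
        _ = fr (Z1 * (Z3 * (Z2 * V))) := by
          rw [hprod]
          simp only [Matrix.mul_assoc]
        _ ≤ fr Z1 * fr (Z3 * (Z2 * V)) := fr_mul_le _ _
        _ ≤ fr Z1 * fr (Z2 * V) := mul_le_mul_of_nonneg_left h5 (fr_nonneg _)
        _ ≤ fr Z1 * (fr Z2 * fr V) := mul_le_mul_of_nonneg_left (fr_mul_le _ _) (fr_nonneg _)
        _ ≤ b * (b * fr V) := by
          have hb0 : 0 ≤ b := (fr_nonneg _).trans hf1
          exact mul_le_mul hf1 (mul_le_mul_of_nonneg_right hf2 hVpos.le)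
            (mul_nonneg (fr_nonneg _) hVpos.le) hb0
        _ = _ := by ring
    have h7 : ρ ≤ b * b := le_of_mul_le_mul_right h6 hVpos
    obtain ⟨i1, i2⟩ := fr_inv hZ4 h4
    show fn (M.ι l) + fn (M.ι l⁻¹) ≤ _
    have j1 : fn (M.ι l) = fr Z4 := by
      show fn ((l : GL (Fin ((2 + n) + (2 + n))) ℝ) :
        Matrix (Fin ((2 + n) + (2 + n))) (Fin ((2 + n) + (2 + n))) ℝ) = _
      rw [hZ4]
      rfl
    have j2 : fn (M.ι l⁻¹) = fr Z4 := by
      rw [← i2]
      show fn (((l⁻¹ : UpqK K 2 n) : GL (Fin ((2 + n) + (2 + n))) ℝ) :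
        Matrix (Fin ((2 + n) + (2 + n))) (Fin ((2 + n) + (2 + n))) ℝ) = _
      rw [i1]
      rfl
    rw [j1, j2]
    linarith
  · refine ⟨_, Pool.Agent.Helper17.CKF.isCompact_orth M, fun g => ?_⟩
    obtain ⟨Z, hZ, h1⟩ := exists_Z g
    obtain ⟨Y, W, U, hY, hYc, hU, hW, hWc, hdec⟩ := exists_dec h1 he hT hS
    have hU' : Uᴴ * U = 1 := mul_eq_one_comm.1 hU
    have hk : (ckb U 0 0 (1 : Matrix (Fin n) (Fin n) K))ᴴ * JK K 2 n * ckb U 0 0 1 = JK K 2 n := by
      rw [JK_eq, ckb_star, ckb_mul, ckb_mul]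
      simp [hU']
    obtain ⟨l, hl⟩ := exists_upqK hY
    obtain ⟨w, hw⟩ := exists_upqK hW
    obtain ⟨k, hk'⟩ := exists_upqK hk
    refine ⟨l, ?_, k, ?_, w, ?_, ?_⟩
    · rw [mem_LC, hl, comm_R4]
      exact hYc
    · show ((k : GL (Fin ((2 + n) + (2 + n))) ℝ) :
        Matrix (Fin ((2 + n) + (2 + n))) (Fin ((2 + n) + (2 + n))) ℝ) * _ᵀ = 1
      show ((k : GL (Fin ((2 + n) + (2 + n))) ℝ) :
        Matrix (Fin ((2 + n) + (2 + n))) (Fin ((2 + n) + (2 + n))) ℝ) *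
        ((k : GL (Fin ((2 + n) + (2 + n))) ℝ) :
        Matrix (Fin ((2 + n) + (2 + n))) (Fin ((2 + n) + (2 + n))) ℝ)ᵀ = 1
      rw [hk', rlK_transpose, ← rlK_mul, ckb_star, ckb_mul]
      simp [hU, ckb_one, rlK_one]
    · rw [mem_LC, hw, comm_R3]
      exact hWc
    · apply M.inj
      rw [map_mul, map_mul]
      show ((g : GL (Fin ((2 + n) + (2 + n))) ℝ) :
        Matrix (Fin ((2 + n) + (2 + n))) (Fin ((2 + n) + (2 + n))) ℝ) =
        ((l : GL (Fin ((2 + n) + (2 + n))) ℝ) :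
        Matrix (Fin ((2 + n) + (2 + n))) (Fin ((2 + n) + (2 + n))) ℝ) *
        ((k : GL (Fin ((2 + n) + (2 + n))) ℝ) :
        Matrix (Fin ((2 + n) + (2 + n))) (Fin ((2 + n) + (2 + n))) ℝ) *
        ((w : GL (Fin ((2 + n) + (2 + n))) ℝ) :
        Matrix (Fin ((2 + n) + (2 + n))) (Fin ((2 + n) + (2 + n))) ℝ)
      rw [hZ, hl, hk', hw, ← rlK_mul, ← rlK_mul, ← hdec]

end Pool.Agent.Helper20.CKP
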