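import Pool.Agent.Helper20.CKP.Core
import Pool.Agent.Helper20.CKP.Defs

/-!
# CKP: transitivity on spheres in real rank one, and bijectivity of the projection
-/

namespace Pool.Agent.Helper20.CKP

open Matrix Module Filter Topology NormedSpace

section Trans
variable {m : ℕ}

theorem comm_of_exp_comm {W Z : Matrix (Fin m) (Fin m) ℝ}
    (h : ∀ s : ℝ, exp (s • W) * Z = Z * exp (s • W)) : W * Z = Z * W := by
  let _ : NormedRing (Matrix (Fin m) (Fin m) ℝ) := Matrix.linftyOpNormedRing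
  let _ : NormedAlgebra ℝ (Matrix (Fin m) (Fin m) ℝ) := Matrix.linftyOpNormedAlgebra
  have h1 : HasDerivAt (fun u : ℝ => exp (u • W)) (exp ((0 : ℝ) • W) * W) 0 :=
    hasDerivAt_exp_smul_const W 0
  rw [zero_smul, NormedSpace.exp_zero, one_mul] at h1
  have h2 : HasDerivAt (fun u : ℝ => exp (u • W) * Z) (W * Z) 0 := h1.mul_const Z
  have h3 : HasDerivAt (fun u : ℝ => Z * exp (u • W)) (Z * W) 0 := h1.const_mul Z
  have h4 : (fun u : ℝ => exp (u • W) * Z) = fun u : ℝ => Z * exp (u • W) := funext h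
  rw [h4] at h2
  exact h2.unique h3

theorem trace_mul_transpose_comm (X Y : Matrix (Fin m) (Fin m) ℝ) :
    (X * Yᵀ).trace = (Y * Xᵀ).trace := by
  rw [← Matrix.trace_transpose, Matrix.transpose_mul, Matrix.transpose_transpose]

/-- Two vectors of the same norm whose product is at least the square of the norm are equal. -/
theorem eq_of_trace_le {X Y : Matrix (Fin m) (Fin m) ℝ} (hXY : nrm X = nrm Y)
    (h : (Y * Yᵀ).trace ≤ (X * Yᵀ).trace) : X = Y := by
  have h1 : ((X - Y) * (X - Y)ᵀ).trace = (X * Xᵀ).trace + (Y * Yᵀ).trace - 2 * (X * Yᵀ).trace := by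
    rw [Matrix.transpose_sub, Matrix.mul_sub, Matrix.sub_mul, Matrix.sub_mul, Matrix.trace_sub,
      Matrix.trace_sub, Matrix.trace_sub, trace_mul_transpose_comm Y X]
    ring
  have h2 := trace_self_nonneg (X - Y)
  have h3 : (X * Xᵀ).trace = (Y * Yᵀ).trace := by rw [← nrm_sq, ← nrm_sq, hXY]
  have h4 : ((X - Y) * (X - Y)ᵀ).trace = 0 := by linarith
  exact sub_eq_zero.1 (eq_zero_of_trace h4)

/-- Transitivity on spheres. -/
theorem trans_of {p : Submodule ℝ (Matrix (Fin m) (Fin m) ℝ)} (hps : ∀ X ∈ p, Xᵀ = X)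
    {K : Set (Matrix (Fin m) (Fin m) ℝ)} (h1 : (1 : Matrix (Fin m) (Fin m) ℝ) ∈ K)
    (horth : ∀ k ∈ K, kᵀ * k = 1)
    (hconj : ∀ k ∈ K, ∀ X ∈ p, k * X * kᵀ ∈ p)
    (hmax : ∀ X ∈ p, ∀ Y ∈ p, ∃ k ∈ K, (k * X * kᵀ) * Y = Y * (k * X * kᵀ) ∧
      ∀ k' ∈ K, (k' * X * k'ᵀ * Y).trace ≤ (k * X * kᵀ * Y).trace)
    (hbr : ∀ X ∈ p, ∀ Y ∈ p, ∀ s : ℝ, exp (s • (X * Y - Y * X)) ∈ K)
    (hrank : ∀ X ∈ p, ∀ Y ∈ p, X * Y = Y * X → ¬ LinearIndependent ℝ ![X, Y])
    (hdim : finrank ℝ p ≠ 1) {X Y : Matrix (Fin m) (Fin m) ℝ} (hX : X ∈ p) (hY : Y ∈ p)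
    (hXY : nrm X = nrm Y) : ∃ k ∈ K, Y = k * X * kᵀ := by
  by_cases hY0 : Y = 0
  · subst hY0
    refine ⟨1, h1, ?_⟩
    have : X = 0 := by
      apply eq_zero_of_trace
      rw [← nrm_sq, hXY, nrm_zero]
      norm_num
    simp [this]
  obtain ⟨k, hk, hcomm, hmx⟩ := hmax X hX Y hY
  set Z := k * X * kᵀ with hZ
  have hZp : Z ∈ p := hconj k hk X hX
  -- conjugation preserves the norm
  have hnorm : ∀ k ∈ K, nrm (k * X * kᵀ) = nrm X := by
    intro k hk
    have h2 : ((k * X * kᵀ) * (k * X * kᵀ)ᵀ).trace = (X * Xᵀ).trace := by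
      have h3 : (k * X * kᵀ)ᵀ = k * Xᵀ * kᵀ := by
        simp only [Matrix.transpose_mul, Matrix.transpose_transpose, Matrix.mul_assoc]
      rw [h3]
      have h4 : k * X * kᵀ * (k * Xᵀ * kᵀ) = k * (X * Xᵀ) * kᵀ := by
        calc k * X * kᵀ * (k * Xᵀ * kᵀ) = k * X * (kᵀ * k) * Xᵀ * kᵀ := by
              simp only [Matrix.mul_assoc]
          _ = k * (X * Xᵀ) * kᵀ := by
              rw [horth k hk, Matrix.mul_one]
              simp only [Matrix.mul_assoc]
      rw [h4, Matrix.trace_mul_cycle, horth k hk, Matrix.one_mul]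
    rw [nrm, h2, nrm]
  have hZY : nrm Z = nrm Y := by rw [hZ, hnorm k hk, hXY]
  -- `Z = c Y`
  have hdep := hrank Y hY Z hZp hcomm.symm
  have h2 : ∃ c : ℝ, c • Y = Z := by
    by_contra hcon
    push Not at hcon
    exact hdep ((LinearIndependent.pair_iff' hY0).2 hcon)
  obtain ⟨c, hc⟩ := h2
  have hYpos : 0 < nrm Y := by
    rcases (nrm_nonneg Y).lt_or_eq with h | h
    · exact h
    · exfalso
      apply hY0
      apply eq_zero_of_trace
      rw [← nrm_sq, ← h]
      norm_num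
  have hc2 : c ^ 2 = 1 := by
    have h3 : nrm (c • Y) ^ 2 = c ^ 2 * nrm Y ^ 2 := by
      rw [nrm_sq, nrm_sq, Matrix.transpose_smul, Matrix.smul_mul, Matrix.mul_smul, smul_smul,
        Matrix.trace_smul, smul_eq_mul]
      ring
    rw [hc, hZY] at h3
    have h4 : 0 < nrm Y ^ 2 := by positivity
    nlinarith
  have hc3 : c = 1 ∨ c = -1 := by
    have h4 : (c - 1) * (c + 1) = 0 := by linarith [hc2, sq c]
    rcases mul_eq_zero.1 h4 with h5 | h5
    · left; linarith
    · right; linarith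
  rcases hc3 with h3 | h3
  · refine ⟨k, hk, ?_⟩
    rw [← hZ, ← hc, h3, one_smul]
  · -- every element of `K` fixes `X = -Y`
    exfalso
    have hZ' : Z = -Y := by rw [← hc, h3, neg_one_smul]
    have hall : ∀ k' ∈ K, k' * X * k'ᵀ = -Y := by
      intro k' hk'
      have h4 := hmx k' hk'
      rw [hZ', Matrix.neg_mul, Matrix.trace_neg] at h4
      have h5 : -(k' * X * k'ᵀ) = Y := by
        refine eq_of_trace_le ?_ ?_
        · rw [nrm_neg, hnorm k' hk', hXY]
        · rw [hps Y hY, Matrix.neg_mul, Matrix.trace_neg]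
          linarith
      rw [← h5, neg_neg]
    have hX1 : X = -Y := by
      have := hall 1 h1
      simpa using this
    have hfix : ∀ k' ∈ K, k' * X = X * k' := by
      intro k' hk'
      have h4 : k' * X * k'ᵀ = X := by rw [hall k' hk', hX1]
      calc k' * X = k' * X * (k'ᵀ * k') := by rw [horth k' hk', Matrix.mul_one]
        _ = (k' * X * k'ᵀ) * k' := by simp only [Matrix.mul_assoc]
        _ = X * k' := by rw [h4]
    have hX0 : X ≠ 0 := by
      rw [hX1]
      exact neg_ne_zero.2 hY0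
    -- all elements of `p` commute with `X`
    have hcommX : ∀ V ∈ p, V * X = X * V := by
      intro V hV
      have h4 : (V * X - X * V) * X = X * (V * X - X * V) :=
        comm_of_exp_comm fun s => hfix _ (hbr V hV X hX s)
      have h5 : ((V * X - X * V) * (V * X - X * V)ᵀ).trace = 0 := by
        have h6 : (V * X - X * V)ᵀ = -(V * X - X * V) := by
          rw [Matrix.transpose_sub, Matrix.transpose_mul, Matrix.transpose_mul, hps V hV, hps X hX]
          abel
        rw [h6, Matrix.mul_neg, Matrix.trace_neg, neg_eq_zero]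
        set W := V * X - X * V with hW
        have h7 : (W * (V * X)).trace = (W * (X * V)).trace := by
          calc (W * (V * X)).trace = (W * V * X).trace := by rw [Matrix.mul_assoc]
            _ = (X * (W * V)).trace := Matrix.trace_mul_comm _ _
            _ = (X * W * V).trace := by rw [Matrix.mul_assoc]
            _ = (W * X * V).trace := by rw [← h4]
            _ = (W * (X * V)).trace := by rw [Matrix.mul_assoc]
        have h8 : (W * W).trace = (W * (V * X)).trace - (W * (X * V)).trace := by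
          rw [← Matrix.trace_sub, ← Matrix.mul_sub]
        rw [h8, h7, sub_self]
      exact sub_eq_zero.1 (eq_zero_of_trace h5)
    apply hdim
    rw [finrank_eq_one_iff']
    refine ⟨⟨X, hX⟩, fun h => hX0 (congrArg Subtype.val h), fun V => ?_⟩
    have h4 := hrank X hX V V.2 (hcommX V V.2).symm
    by_contra hcon
    push Not at hcon
    apply h4
    refine (LinearIndependent.pair_iff' hX0).2 fun c hc => hcon c (Subtype.ext hc)

end Trans

section Bij
variable {r : ℕ} {n : Fin r → ℕ} {G : ∀ i, Subgroup (GL (Fin (n i)) ℝ)}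

theorem projBij_of {H : Subgroup (∀ i, G i)} {B : Finset (Fin r)}
    (hmem : ∀ X ∈ pSub H, ∀ i, X i ∈ pSpace (G i))
    (hinj : ∀ X ∈ pSub H, (∀ i ∈ B, X i = 0) → X = 0)
    (hle : ∑ i ∈ B, finrank ℝ (pSpace (G i)) ≤ finrank ℝ (pSub H)) : ProjBij H B := by
  classical
  let f : pSub H →ₗ[ℝ] (∀ i : {i // i ∈ B}, pSpace (G i)) :=
    { toFun := fun X i => ⟨(X : ∀ i, Matrix (Fin (n i)) (Fin (n i)) ℝ) i, hmem X X.2 i⟩
      map_add' := fun X Y => rfl
      map_smul' := fun c X => rfl }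
  have hf : Function.Injective f := by
    rw [injective_iff_map_eq_zero]
    intro X hX
    apply Subtype.ext
    refine hinj X X.2 fun i hi => ?_
    exact congrArg Subtype.val (congrFun hX ⟨i, hi⟩)
  have hfin : finrank ℝ (∀ i : {i // i ∈ B}, pSpace (G i)) = ∑ i ∈ B, finrank ℝ (pSpace (G i)) := by
    rw [Module.finrank_pi_fintype]
    exact Finset.sum_coe_sort B fun i => finrank ℝ (pSpace (G i))
  have hfin' : finrank ℝ (pSub H) = finrank ℝ (∀ i : {i // i ∈ B}, pSpace (G i)) :=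
    le_antisymm (LinearMap.finrank_le_finrank_of_injective hf) (hfin ▸ hle)
  have hsurj : Function.Surjective f :=
    (LinearMap.injective_iff_surjective_of_finrank_eq_finrank hfin').1 hf
  intro Y hY
  obtain ⟨X, hX⟩ := hsurj fun i => ⟨Y i, hY i i.2⟩
  refine ⟨X, ⟨X.2, fun i hi => congrArg Subtype.val (congrFun hX ⟨i, hi⟩)⟩, ?_⟩
  rintro X' ⟨hX', hX'Y⟩
  have h1 : (X' - X : ∀ i, Matrix (Fin (n i)) (Fin (n i)) ℝ) = 0 := by
    refine hinj _ (Submodule.sub_mem _ hX' X.2) fun i hi => ?_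
    have h2 : (X : ∀ i, Matrix (Fin (n i)) (Fin (n i)) ℝ) i = Y i :=
      congrArg Subtype.val (congrFun hX ⟨i, hi⟩)
    rw [Pi.sub_apply, hX'Y i hi, h2, sub_self]
  exact sub_eq_zero.1 h1

end Bij

end Pool.Agent.Helper20.CKP
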