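import Pool.Agent.Helper20.CKP.Comp

/-!
# CKP: matrices with two rows and the same ratio of singular values
-/

set_option autoImplicit false

namespace Pool.Agent.Helper20.CKP

open Matrix

/-- Symmetric `2 × 2` matrices with the same trace and determinant are conjugate under `O(2)`. -/
theorem conj_two {P Q : Matrix (Fin 2) (Fin 2) ℝ} (hP : Pᵀ = P) (hQ : Qᵀ = Q)
    (ht : P.trace = Q.trace) (hd : P.det = Q.det) :
    ∃ U : Matrix (Fin 2) (Fin 2) ℝ, U * Uᵀ = 1 ∧ Q = U * P * Uᵀ := by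
  have hP01 : P 1 0 = P 0 1 := congrFun (congrFun hP 0) 1
  have hQ01 : Q 1 0 = Q 0 1 := congrFun (congrFun hQ 0) 1
  rw [Matrix.trace_fin_two, Matrix.trace_fin_two] at ht
  rw [Matrix.det_fin_two, Matrix.det_fin_two, hP01, hQ01] at hd
  set a := P 0 0
  set b := P 0 1
  set d := P 1 1
  set a' := Q 0 0
  set b' := Q 0 1
  set d' := Q 1 1
  have eP : P = !![a, b; b, d] := by
    rw [Matrix.eta_fin_two P, hP01]
  have eQ : Q = !![a', b'; b', d'] := by
    rw [Matrix.eta_fin_two Q, hQ01]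
  set p := (a - d) / 2 + (a' - d') / 2 with hp
  set q := b + b' with hq
  by_cases h0 : p = 0 ∧ q = 0
  · obtain ⟨h1, h2⟩ := h0
    refine ⟨!![0, 1; -1, 0], ?_, ?_⟩
    · ext i j
      fin_cases i <;> fin_cases j <;> simp [Matrix.mul_apply, Fin.sum_univ_two]
    · rw [eP, eQ]
      ext i j
      fin_cases i <;> fin_cases j <;> simp [Matrix.mul_apply, Fin.sum_univ_two] <;> linarith
  · have hc : 0 < p ^ 2 + q ^ 2 := by
      rcases not_and_or.1 h0 with h | h
      · positivity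
      · positivity
    set M : Matrix (Fin 2) (Fin 2) ℝ := !![p, q; q, -p] with hM
    have hMM : M * Mᵀ = (p ^ 2 + q ^ 2) • (1 : Matrix (Fin 2) (Fin 2) ℝ) := by
      ext i j
      fin_cases i <;> fin_cases j <;> simp [M, Matrix.mul_apply, Fin.sum_univ_two] <;> ring
    have hMP : M * P = Q * M := by
      rw [eP, eQ]
      have h3 : ((a - d) / 2) ^ 2 + b ^ 2 = ((a' - d') / 2) ^ 2 + b' ^ 2 := by
        linear_combination (a + d + a' + d') / 4 * ht - hd
      ext i j
      fin_cases i <;> fin_cases j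
      · simp [M, Matrix.mul_apply, Fin.sum_univ_two, hp, hq]
        linear_combination h3 + ((a - d) / 2 + (a' - d') / 2) / 2 * ht
      · simp [M, Matrix.mul_apply, Fin.sum_univ_two, hp, hq]
        linear_combination (b + b') / 2 * ht
      · simp [M, Matrix.mul_apply, Fin.sum_univ_two, hp, hq]
        linear_combination (b + b') / 2 * ht
      · simp [M, Matrix.mul_apply, Fin.sum_univ_two, hp, hq]
        linear_combination h3 - ((a - d) / 2 + (a' - d') / 2) / 2 * ht
    refine ⟨(Real.sqrt (p ^ 2 + q ^ 2))⁻¹ • M, ?_, ?_⟩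
    · rw [Matrix.transpose_smul, Matrix.smul_mul, Matrix.mul_smul, smul_smul, hMM, smul_smul,
        ← mul_inv, Real.mul_self_sqrt hc.le, inv_mul_cancel₀ hc.ne', one_smul]
    · rw [Matrix.transpose_smul, Matrix.smul_mul, Matrix.smul_mul, Matrix.mul_smul, smul_smul,
        hMP, Matrix.mul_assoc, hMM, Matrix.mul_smul, smul_smul, ← mul_inv,
        Real.mul_self_sqrt hc.le, inv_mul_cancel₀ hc.ne', one_smul, Matrix.mul_one]

/-- A matrix with two rows is determined up to the orthogonal groups by the ratio of its singular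
values, up to a scalar. -/
theorem ratio_conj {n : ℕ} {B C : Matrix (Fin 2) (Fin n) ℝ} (hC : C ≠ 0)
    (h : (B * Bᵀ).det * (C * Cᵀ).trace ^ 2 = (C * Cᵀ).det * (B * Bᵀ).trace ^ 2) :
    ∃ U : Matrix (Fin 2) (Fin 2) ℝ, U * Uᵀ = 1 ∧ ∃ W : Matrix (Fin n) (Fin n) ℝ, W * Wᵀ = 1 ∧
      ∃ t : ℝ, B = t • (U * C * W) := by
  have htr : ∀ A : Matrix (Fin 2) (Fin n) ℝ, 0 ≤ (A * Aᵀ).trace := by
    intro A
    have h1 := (Matrix.posSemidef_self_mul_conjTranspose A).trace_nonneg
    rwa [conjTranspose_eq_transpose_of_trivial] at h1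
  have hC0 : 0 < (C * Cᵀ).trace := by
    refine lt_of_le_of_ne (htr C) fun h0 => hC ?_
    have h1 := Matrix.trace_mul_conjTranspose_self_eq_zero_iff (A := C)
    rw [conjTranspose_eq_transpose_of_trivial] at h1
    exact h1.1 h0.symm
  set s := (B * Bᵀ).trace / (C * Cᵀ).trace with hs
  have hs0 : 0 ≤ s := div_nonneg (htr B) hC0.le
  have hsC : s * (C * Cᵀ).trace = (B * Bᵀ).trace := div_mul_cancel₀ _ hC0.ne'
  have hsymm : ∀ A : Matrix (Fin 2) (Fin n) ℝ, (A * Aᵀ)ᵀ = A * Aᵀ := fun A => by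
    rw [Matrix.transpose_mul, Matrix.transpose_transpose]
  obtain ⟨U, hU, e⟩ := conj_two (P := s • (C * Cᵀ)) (Q := B * Bᵀ)
    (by rw [Matrix.transpose_smul, hsymm]) (hsymm B)
    (by rw [Matrix.trace_smul, smul_eq_mul, hsC])
    (by
      rw [Matrix.det_smul, Fintype.card_fin]
      have h2 : (B * Bᵀ).det * (C * Cᵀ).trace ^ 2 = s ^ 2 * (C * Cᵀ).det * (C * Cᵀ).trace ^ 2 := by
        rw [h, ← hsC]
        ring
      exact (mul_right_cancel₀ (pow_ne_zero 2 hC0.ne') h2).symm)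
  have hU' : Uᵀ * U = 1 := mul_eq_one_comm.1 hU
  have h3 : (Uᵀ * B) * (Uᵀ * B)ᵀ = (Real.sqrt s • C) * (Real.sqrt s • C)ᵀ := by
    rw [Matrix.transpose_mul, Matrix.transpose_transpose, Matrix.mul_assoc, ← Matrix.mul_assoc B,
      e, Matrix.mul_assoc, Matrix.mul_assoc, hU', Matrix.mul_one, ← Matrix.mul_assoc, hU',
      Matrix.one_mul, Matrix.transpose_smul, Matrix.smul_mul, Matrix.mul_smul, smul_smul,
      Real.mul_self_sqrt hs0]
  obtain ⟨W, hW, e'⟩ := exists_orthogonal h3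
  refine ⟨U, hU, W, hW, Real.sqrt s, ?_⟩
  calc B = U * (Uᵀ * B) := by rw [← Matrix.mul_assoc, hU, Matrix.one_mul]
    _ = Real.sqrt s • (U * C * W) := by
      rw [e', Matrix.smul_mul, Matrix.mul_smul, Matrix.mul_assoc]

end Pool.Agent.Helper20.CKP
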