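import Pool.Agent.Helper20.CKP.DiagK
import Pool.Agent.Helper20.CKP.OTwo
import Pool.Agent.Helper29.CKP.Triple

/-!
# CKP: reductive subgroups of `U(2, n; 𝕜)`
-/

set_option autoImplicit false

namespace Pool.Agent.Helper20.CKP

open Matrix Module Topology Filter NormedSpace Pool.Agent.Helper40.CK Pool.Agent.Helper17.CKF
  Pool.Agent.Helper29.CKP

/-- A real group whose space `p` is the space of the `r × n` matrices over `𝕜`. -/
structure PData (𝕜 : Type) [RCLike 𝕜] (r n : ℕ) {N : ℕ} (G : Subgroup (GL (Fin N) ℝ))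
    (P : Matrix (Fin r) (Fin n) 𝕜 →ₗ[ℝ] Matrix (Fin N) (Fin N) ℝ) : Prop where
  red : IsReductive G
  inj : Function.Injective P
  mem : ∀ X, X ∈ pSpace G ↔ ∃ B, X = P B
  conj : ∀ (U : Matrix (Fin r) (Fin r) 𝕜) (W : Matrix (Fin n) (Fin n) 𝕜), U * Uᴴ = 1 →
    W * Wᴴ = 1 → ∃ g ∈ G, (g : Matrix (Fin N) (Fin N) ℝ) * (g : Matrix (Fin N) (Fin N) ℝ)ᵀ = 1 ∧
      ∀ B, (g : Matrix (Fin N) (Fin N) ℝ) * P B * (g : Matrix (Fin N) (Fin N) ℝ)ᵀ =
        P (U * B * Wᴴ)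
  conj' : ∀ g ∈ G, (g : Matrix (Fin N) (Fin N) ℝ) * (g : Matrix (Fin N) (Fin N) ℝ)ᵀ = 1 →
    ∃ (U : Matrix (Fin r) (Fin r) 𝕜) (W : Matrix (Fin n) (Fin n) 𝕜), U * Uᴴ = 1 ∧ W * Wᴴ = 1 ∧
      ∀ B, (g : Matrix (Fin N) (Fin N) ℝ) * P B * (g : Matrix (Fin N) (Fin N) ℝ)ᵀ =
        P (U * B * Wᴴ)
  comm : ∀ B C, P B * P C = P C * P B → B * Cᴴ = C * Bᴴ ∧ Bᴴ * C = Cᴴ * B
  triple : ∀ B C, P B * (P B * P C - P C * P B) - (P B * P C - P C * P B) * P B =
    -P ((2 : ℝ) • (B * Cᴴ * B) - C * Bᴴ * B - B * Bᴴ * C)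

section Main
variable {𝕜 : Type} [RCLike 𝕜] {n N : ℕ} {G : Subgroup (GL (Fin N) ℝ)}
  {P : Matrix (Fin 2) (Fin n) 𝕜 →ₗ[ℝ] Matrix (Fin N) (Fin N) ℝ} {H : Subgroup G}

theorem PData.dim_p (D : PData 𝕜 2 n G P) :
    finrank ℝ (pSpace G) = 2 * (n * finrank ℝ 𝕜) := by
  have h1 : pSpace G = LinearMap.range P := by
    ext X
    rw [D.mem, LinearMap.mem_range]
    exact ⟨fun ⟨B, h⟩ => ⟨B, h.symm⟩, fun ⟨B, h⟩ => ⟨B, h.symm⟩⟩
  rw [h1, LinearMap.finrank_range_of_inj D.inj, Module.finrank_matrix, Fintype.card_fin,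
    Fintype.card_fin, mul_assoc]

/-- Two elements of `p` with the same ratio of singular values are conjugate up to a scalar. -/
theorem PData.conj_of_ratio (D : PData 𝕜 2 n G P) {B C : Matrix (Fin 2) (Fin n) 𝕜} (hC : C ≠ 0)
    (h : gd B * gt C ^ 2 = gd C * gt B ^ 2) :
    ∃ g : G, (oneM D.red.closed).ι g * ((oneM D.red.closed).ι g)ᵀ = 1 ∧ ∃ t : ℝ,
      P B = (oneM D.red.closed).ι g * P (t • C) * ((oneM D.red.closed).ι g)ᵀ := by
  obtain ⟨U, hU, W, hW, t, e⟩ := ratio_conjK hC h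
  have hW' : Wᴴ * Wᴴᴴ = 1 := by
    rw [conjTranspose_conjTranspose]
    exact mul_eq_one_comm.1 hW
  obtain ⟨g, hg, hg1, hg2⟩ := D.conj U Wᴴ hU hW'
  refine ⟨⟨g, hg⟩, hg1, t, ?_⟩
  show P B = (g : Matrix (Fin N) (Fin N) ℝ) * P (t • C) * (g : Matrix (Fin N) (Fin N) ℝ)ᵀ
  rw [hg2, e, conjTranspose_conjTranspose, Matrix.mul_smul, Matrix.smul_mul]

theorem map_le (hG : IsReductive G) (hH : IsReductive (H.map G.subtype)) :
    pSpace (H.map G.subtype) ≤ pSpace G := by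
  intro X hX
  rw [mem_pSpace hH] at hX
  rw [mem_pSpace hG]
  refine ⟨hX.1, ?_⟩
  obtain ⟨h, hh, e⟩ := hX.2
  rw [← e]
  exact h.2

/-- The coordinate map on `p`. -/
theorem PData.exists_coord (D : PData 𝕜 2 n G P) :
    ∃ c : Matrix (Fin N) (Fin N) ℝ →ₗ[ℝ] Matrix (Fin 2) (Fin n) 𝕜, ∀ B, c (P B) = B := by
  obtain ⟨c, hc⟩ := P.exists_leftInverse_of_injective (LinearMap.ker_eq_bot.2 D.inj)
  exact ⟨c, fun B => LinearMap.congr_fun hc B⟩

/-- The dimension of `p_H` is at least half of the dimension of `p` if `H` is not compact. -/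
theorem PData.dim_le (D : PData 𝕜 2 n G P)
    (hratio : ∀ (E : Type) [AddCommGroup E] [Module ℝ E] [TopologicalSpace E]
      [IsTopologicalAddGroup E] [ContinuousSMul ℝ E] [T2Space E] [FiniteDimensional ℝ E],
      n * finrank ℝ 𝕜 + 1 ≤ finrank ℝ E → ∀ B : E → Matrix (Fin 2) (Fin n) 𝕜,
      ContinuousOn B {0}ᶜ → (∀ x, x ≠ 0 → B (-x) = -B x) → ∀ δ : ℝ, 0 ≤ δ → δ ≤ 1 / 4 →
      ∃ x, x ≠ 0 ∧ gd (B x) = δ * gt (B x) ^ 2)
    (hH : IsReductive (H.map G.subtype)) (had : AdmitsCocompact H)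
    (h0 : pSpace (H.map G.subtype) ≠ ⊥) :
    n * finrank ℝ 𝕜 ≤ finrank ℝ (pSpace (H.map G.subtype)) := by
  classical
  set M := oneM D.red.closed with hM
  have hqp := map_le D.red hH
  set q := pSpace (H.map G.subtype) with hq
  have hCG : Cartan M ⊤ (pSpace G) := cartan_top D.red
  have hCH : Cartan M H q := cartan_one _ hH
  obtain ⟨Γ, hΓ⟩ := had
  obtain ⟨F, hFc, hF⟩ := odd_map M hCG hCH hΓ
  obtain ⟨X0, hX0, hX00⟩ := q.exists_mem_ne_zero_of_ne_bot h0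
  obtain ⟨c, hc⟩ := D.exists_coord
  obtain ⟨B0, rfl⟩ := (D.mem _).1 (hqp hX0)
  have hB0 : B0 ≠ 0 := by
    rintro rfl
    exact hX00 (map_zero _)
  by_contra hlt
  push Not at hlt
  obtain ⟨E, hE, hE1, -⟩ := finrank_perp q (pSpace G)
  rw [D.dim_p] at hE1
  have hx0 : ∀ x : E, x ≠ 0 → (x : Matrix (Fin N) (Fin N) ℝ) ≠ 0 := fun x hx h =>
    hx (Subtype.ext h)
  have hxE := fun x : E => (hE x).1 x.2
  have hFp := fun (x : E) (hx : x ≠ 0) => hF x (hxE x).1 (hxE x).2 (hx0 x hx)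
  have hPB : ∀ x : E, x ≠ 0 → F x = P (c (F x)) := by
    intro x hx
    obtain ⟨B, hB⟩ := (D.mem _).1 (hFp x hx).1
    rw [hB, hc]
  have hδ := gt_pos hB0
  obtain ⟨x, hx, hxr⟩ := hratio E (by omega) (fun x => c (F x)) (by
      have h1 : Continuous c := c.continuous_of_finiteDimensional
      refine h1.comp_continuousOn (hFc.comp continuous_subtype_val.continuousOn ?_)
      intro x hx
      exact ⟨(hxE x).1, (hxE x).2, hx0 x hx⟩)
    (by
      intro x hx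
      have h1 : ((-x : E) : Matrix (Fin N) (Fin N) ℝ) = -x := rfl
      show c (F ((-x : E) : Matrix (Fin N) (Fin N) ℝ)) = -c (F x)
      rw [h1, (hFp x hx).2.1, map_neg])
    (gd B0 / gt B0 ^ 2) (div_nonneg (gd_nonneg B0) (by positivity))
    (by
      rw [div_le_iff₀ (by positivity)]
      have := gd_le B0
      linarith)
  obtain ⟨g, hg, t, e⟩ := D.conj_of_ratio (B := c (F x)) hB0 (by
    rw [hxr]
    field_simp)
  rw [← hPB x hx] at e
  refine (hFp x hx).2.2 g hg (P (t • B0)) ?_ e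
  rw [map_smul]
  exact q.smul_mem t hX0

/-- Either all elements of `p_H` have the same ratio of singular values, or `p_H = p`. -/
theorem PData.ratio_or (D : PData 𝕜 2 n G P) (hH : IsReductive (H.map G.subtype))
    (had : AdmitsCocompact H) : pSpace (H.map G.subtype) = pSpace G ∨
      ∃ δ : ℝ, ∀ B, P B ∈ pSpace (H.map G.subtype) → gd B = δ * gt B ^ 2 := by
  classical
  set M := oneM D.red.closed with hM
  have hqp := map_le D.red hH
  set q := pSpace (H.map G.subtype) with hq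
  have hCG : Cartan M ⊤ (pSpace G) := cartan_top D.red
  have hCH : Cartan M H q := cartan_one _ hH
  obtain ⟨a, haq, hac, hak⟩ := exists_abelian hCH
  by_cases ha : finrank ℝ a ≤ 1
  · right
    obtain ⟨⟨v, hv⟩, hvw⟩ := finrank_le_one_iff.1 ha
    obtain ⟨B0, rfl⟩ := (D.mem _).1 (hqp (haq hv))
    refine ⟨gd B0 / gt B0 ^ 2, fun B hB => ?_⟩
    obtain ⟨k, -, hk, hka⟩ := hak _ hB
    obtain ⟨U, W, hU, hW, hUW⟩ := D.conj' k k.2 hk
    have h1 : M.ι k * P B * (M.ι k)ᵀ = P (U * B * Wᴴ) := hUW B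
    rw [h1] at hka
    obtain ⟨c, hc⟩ := hvw ⟨_, hka⟩
    have h2 : c • P B0 = P (U * B * Wᴴ) := congrArg Subtype.val hc
    rw [← map_smul] at h2
    have h3 := D.inj h2
    have hU' : Uᴴ * U = 1 := mul_eq_one_comm.1 hU
    have hW' : Wᴴ * W = 1 := mul_eq_one_comm.1 hW
    have h4 : (c • B0) * (c • B0)ᴴ = U * (B * Bᴴ) * Uᴴ := by
      rw [h3]
      calc U * B * Wᴴ * (U * B * Wᴴ)ᴴ = U * B * (Wᴴ * W) * Bᴴ * Uᴴ := by
            rw [conjTranspose_mul, conjTranspose_mul, conjTranspose_conjTranspose]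
            simp only [Matrix.mul_assoc]
        _ = _ := by
            rw [hW', Matrix.mul_one]
            simp only [Matrix.mul_assoc]
    have h5 : (c • B0) * (c • B0)ᴴ = ((c ^ 2 : ℝ) : 𝕜) • (B0 * B0ᴴ) := by
      rw [conjTranspose_smul, star_trivial, Matrix.smul_mul, Matrix.mul_smul, smul_smul, ← sq]
      ext i j
      simp [RCLike.real_smul_eq_coe_mul]
    have hdet : gd B = (c ^ 2) ^ 2 * gd B0 := by
      have h6 : (U * (B * Bᴴ) * Uᴴ).det = (B * Bᴴ).det := by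
        rw [Matrix.det_mul, Matrix.det_mul, mul_comm, ← mul_assoc, ← Matrix.det_mul, hU',
          Matrix.det_one, one_mul]
      have h7 : (gd B : 𝕜) = (((c ^ 2) ^ 2 * gd B0 : ℝ) : 𝕜) := by
        rw [← gd_eq, ← h6, ← h4, h5, Matrix.det_smul, Fintype.card_fin, gd_eq]
        push_cast
        ring
      exact_mod_cast h7
    have htr : gt B = c ^ 2 * gt B0 := by
      have h6 : (U * (B * Bᴴ) * Uᴴ).trace = (B * Bᴴ).trace := by
        rw [Matrix.trace_mul_comm, ← Matrix.mul_assoc, hU', Matrix.one_mul]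
      have h7 : (gt B : 𝕜) = ((c ^ 2 * gt B0 : ℝ) : 𝕜) := by
        rw [← gt_eq, ← h6, ← h4, h5, Matrix.trace_smul, smul_eq_mul, gt_eq]
        push_cast
        ring
      exact_mod_cast h7
    by_cases hB0 : B0 = 0
    · rw [hdet, htr, hB0]
      simp [gd, gt]
    · have h7 := gt_pos hB0
      rw [hdet, htr]
      field_simp
  · left
    push Not at ha
    by_contra hne
    have hlt : q < pSpace G := lt_of_le_of_ne hqp hne
    have hfl := Submodule.finrank_lt_finrank_of_lt hlt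
    obtain ⟨Γ, hΓ⟩ := had
    obtain ⟨F, hFc, hF⟩ := odd_map M hCG hCH hΓ
    obtain ⟨E, hE, hE1, -⟩ := finrank_perp q (pSpace G)
    have hEpos : 0 < finrank ℝ E := by omega
    have hEne : E ≠ ⊥ := by
      intro h
      rw [h, finrank_bot] at hEpos
      exact lt_irrefl _ hEpos
    obtain ⟨x, hxE, hx0⟩ := E.exists_mem_ne_zero_of_ne_bot hEne
    have hx := (hE x).1 hxE
    obtain ⟨h1, -, h3⟩ := hF x hx.1 hx.2 hx0
    obtain ⟨D', hD⟩ := (D.mem _).1 h1
    obtain ⟨φ, hφ⟩ := exists_inj (E := a) (m := 2) ha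
    obtain ⟨B, hB⟩ := (D.mem _).1 (hqp (haq (φ ![1, 0]).2))
    obtain ⟨C, hC⟩ := (D.mem _).1 (hqp (haq (φ ![0, 1]).2))
    obtain ⟨hBC, hBC'⟩ := D.comm B C (by
      rw [← hB, ← hC]
      exact hac _ (φ _).2 _ (φ _).2)
    by_cases hD0 : D' = 0
    · refine h3 1 ?_ 0 q.zero_mem ?_
      · rw [map_one, transpose_one, Matrix.mul_one]
      · rw [hD, hD0, map_zero, Matrix.mul_zero, Matrix.zero_mul]
    have hDtr := gt_pos hD0
    obtain ⟨θ, hθ⟩ := exists_ratio_planeK hBC hBC' (δ := gd D' / gt D' ^ 2)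
      (div_nonneg (gd_nonneg D') (by positivity))
      (by
        rw [div_le_iff₀ (by positivity)]
        have := gd_le D'
        linarith)
    set A := Real.cos θ • B + Real.sin θ • C with hA
    have hAa : P A = φ ![Real.cos θ, Real.sin θ] := by
      have h4 : (![Real.cos θ, Real.sin θ] : Fin 2 → ℝ) =
          Real.cos θ • ![1, 0] + Real.sin θ • ![0, 1] := by
        ext i
        fin_cases i <;> simp
      rw [h4, hA]
      simp only [map_add, map_smul]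
      rw [← hB, ← hC]
      rfl
    have hA0 : A ≠ 0 := by
      intro h
      rw [h, map_zero] at hAa
      have h5 : φ ![Real.cos θ, Real.sin θ] = 0 := Subtype.ext hAa.symm
      have h6 : (![Real.cos θ, Real.sin θ] : Fin 2 → ℝ) = 0 := by
        apply hφ
        rw [h5, map_zero]
      have h7 := Real.cos_sq_add_sin_sq θ
      have h8 : Real.cos θ = 0 := congrFun h6 0
      have h9 : Real.sin θ = 0 := congrFun h6 1
      rw [h8, h9] at h7
      norm_num at h7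
    obtain ⟨g, hg, t, e⟩ := D.conj_of_ratio (B := D') hA0 (by
      rw [hθ]
      field_simp)
    rw [← hD] at e
    refine h3 g hg (P (t • A)) ?_ e
    rw [map_smul, hAa]
    exact q.smul_mem t (haq (φ _).2)

/-- The possible spaces `p_H` for `U(2, n; 𝕜)`. -/
theorem PData.list (D : PData 𝕜 2 n G P)
    (hratio : ∀ (E : Type) [AddCommGroup E] [Module ℝ E] [TopologicalSpace E]
      [IsTopologicalAddGroup E] [ContinuousSMul ℝ E] [T2Space E] [FiniteDimensional ℝ E],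
      n * finrank ℝ 𝕜 + 1 ≤ finrank ℝ E → ∀ B : E → Matrix (Fin 2) (Fin n) 𝕜,
      ContinuousOn B {0}ᶜ → (∀ x, x ≠ 0 → B (-x) = -B x) → ∀ δ : ℝ, 0 ≤ δ → δ ≤ 1 / 4 →
      ∃ x, x ≠ 0 ∧ gd (B x) = δ * gt (B x) ^ 2)
    {A₁ A₂ : Submodule ℝ (Matrix (Fin 2) (Fin n) 𝕜) → Prop}
    (hclass : ∀ Q : Submodule ℝ (Matrix (Fin 2) (Fin n) 𝕜), n * finrank ℝ 𝕜 ≤ finrank ℝ Q →
      ∀ δ : ℝ, (∀ B ∈ Q, gd B = δ * gt B ^ 2) →
      (∀ B ∈ Q, ∀ C ∈ Q, (2 : ℝ) • (B * Cᴴ * B) - C * Bᴴ * B - B * Bᴴ * C ∈ Q) →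
      A₁ Q ∨ A₂ Q)
    (hH : IsReductive (H.map G.subtype)) (had : AdmitsCocompact H) :
    pSpace (H.map G.subtype) = ⊥ ∨ pSpace (H.map G.subtype) = pSpace G ∨
    ∃ Q : Submodule ℝ (Matrix (Fin 2) (Fin n) 𝕜), (∀ X, X ∈ pSpace (H.map G.subtype) ↔
      ∃ B ∈ Q, X = P B) ∧ (A₁ Q ∨ A₂ Q) := by
  by_cases h0 : pSpace (H.map G.subtype) = ⊥
  · exact Or.inl h0
  right
  rcases D.ratio_or hH had with h1 | ⟨δ, hδ⟩
  · exact Or.inl h1
  right
  have hle := map_le D.red hH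
  have hdim := D.dim_le hratio hH had h0
  have hCH : Cartan (oneM D.red.closed) H (pSpace (H.map G.subtype)) := cartan_one _ hH
  set q := pSpace (H.map G.subtype) with hq
  have hfin : finrank ℝ (q.comap P) = finrank ℝ q := by
    have h2 : (q.comap P).map P = q := by
      rw [Submodule.map_comap_eq, inf_eq_right]
      intro X hX
      obtain ⟨B, rfl⟩ := (D.mem _).1 (hle hX)
      exact LinearMap.mem_range_self _ _
    have h3 := (Submodule.equivMapOfInjective P D.inj (q.comap P)).finrank_eq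
    rwa [h2] at h3
  refine ⟨q.comap P, fun X => ?_, hclass _ (by rw [hfin]; exact hdim) δ (fun B hB => hδ B hB)
    (fun B hB C hC => ?_)⟩
  · constructor
    · intro hX
      obtain ⟨B, rfl⟩ := (D.mem _).1 (hle hX)
      exact ⟨B, hX, rfl⟩
    · rintro ⟨B, hB, rfl⟩
      exact hB
  · have h4 := Pool.Agent.Helper29.CKP.triple_mem hCH hB hC
    rw [D.triple] at h4
    exact (q.neg_mem_iff).1 h4

end Main

end Pool.Agent.Helper20.CKP
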